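import Mathlib

open Finset Filter
namespace Pool.Agent.FMZ

/-- the multiple harmonic sum over `M > n₁ > ... > n_r > 0` -/
def zeta : List ℕ+ → ℕ → ℚ
  | [], _ => 1
  | a :: k, M => ∑ n ∈ Ioo 0 M, zeta k n / (n : ℚ) ^ (a : ℕ)

theorem zeta_realize : True := by have := @zeta.eq_def; trivial

/-- the weight of an index -/
def wt (k : List ℕ+) : ℕ := (k.map fun a => (a : ℕ)).sum

/-- `x p ≡ y p` modulo `p ^ N` for all but finitely many primes `p` -/
def Cong (N : ℕ) (x y : ℕ → ℚ) : Prop :=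
  ∀ᶠ p in atTop, Nat.Prime p → padicNorm p (x p - y p) ≤ 1 / (p : ℚ) ^ N

/-- the terms `j < N` of the series `∑ p ^ j * c j`, each `c j` a finite rational combination of
multiple harmonic sums -/
noncomputable def trunc (c : ℕ → List ℕ+ →₀ ℚ) (N p : ℕ) : ℚ :=
  ∑ j ∈ range N, (p : ℚ) ^ j * (c j).sum fun k a => a * zeta k p

end Pool.Agent.FMZ
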