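import Pool.Agent.P.MP_cb43af_nt.Fz0

open Finset Filter Polynomial
namespace Pool.Agent.FMZ

def inc (b c : ℤ) (l : ℚ) : ℚ := b / l ^ 3 + c / l ^ 5

/-- sums of inverse cubes and inverse fifth powers along the two chains -/
structure Ch5 (a b c : ℤ) (f : Nd → ℚ) : Prop where
  zA : f (false, 0) = 0
  zB : f (true, 0) = a
  step : ∀ e i, f (e, i + 1) = f (e, i) + inc b c ((yy (e, i) : ℚ) + 6)

def Phi5 (p : ℕ) (t : ZMod p) : ZMod p := ∑ j ∈ Icc 1 t.val, ((j : ZMod p)⁻¹) ^ 5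
def FF5 (p : ℕ) (y : ZMod p) : ZMod p := ((12 : ZMod p)⁻¹) ^ 5 * Phi5 p ((y - 6) * (12 : ZMod p)⁻¹)
def GG (b c : ℤ) (p : ℕ) (y : ZMod p) : ZMod p := b * FF p y + c * FF5 p y
def Hp5 (a b c : ℤ) (p : ℕ) : Prop := GG b c p 3 - GG b c p 2 = a
def lift5 (b c : ℤ) (p : ℕ) (x : Nd) : ℤ := (GG b c p (yy x) - GG b c p 2).val

/-- prime, its analytic chain, rate, twice the mean valuation on that chain -/
def Gd (p : ℕ) (e : Bool) (ρ σ : ℕ) : Prop :=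
  p = 2 ∧ e = true ∧ ρ = 6 ∧ σ = 8 ∨ p = 3 ∧ e = false ∧ ρ = 3 ∧ σ = 3

def TW (w : ℕ → ℚ) (K : ℕ) (y : ℚ) : ℚ := ∑ i ∈ range K, w i / (y ^ 2 - (12 * i + 6) ^ 2)
def bet (K j : ℕ) : ℚ := 2 * (-1) ^ (j + 1) * ((2 * K).choose (K + j + 1) : ℚ) / ((2 * K).choose K : ℚ)
def aa (j : ℕ) : ℚ := 144 * (j + 1) ^ 2
/-- the rows on one chain -/
def chn {m : ℕ} (x : Col m → Nd) (e : Bool) : Finset (Col m) := univ.filter fun r => (x r).1 = e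

noncomputable def I6 (s ν : ℕ) : ℝ :=
  ∑ p ∈ (PR (s * ν)).filter (fun p => 6 * ν ≤ p), ((s * ν : ℝ) - p) * Real.log p

end Pool.Agent.FMZ
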