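import Pool.Agent.P.MP_cb43af_nt.FzVal

open Finset Filter Polynomial
namespace Pool.Agent.FMZ

theorem mem_nodes {n : ℕ} {x : Nd} : x ∈ nodes n ↔ -(n : ℤ) ≤ x.2 ∧ x.2 < n := by
  simp [nodes, mem_product]
theorem card_nodes (n : ℕ) : (nodes n).card = 4 * n := by
  rw [nodes, card_product, card_univ, Fintype.card_bool, Int.card_Ico]
  omega
theorem yy_lt {n : ℕ} {x : Nd} (h : x ∈ nodes n) : |yy x| < 12 * n := by
  obtain ⟨h1, h2⟩ := mem_nodes.1 h
  rw [abs_lt, yy]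
  split_ifs <;> omega
theorem yy_inj : Function.Injective yy := by
  rintro ⟨e, i⟩ ⟨e', i'⟩ h
  cases e <;> cases e' <;> simp [yy] at h ⊢ <;> omega
theorem yy_add_ne (x x' : Nd) : yy x + yy x' ≠ 0 := by
  rw [yy, yy]
  split_ifs <;> omega
theorem yy_link_ne (x : Nd) : yy x + 6 ≠ 0 := by
  rw [yy]
  split_ifs <;> omega
theorem zz_sub (x x' : Nd) : zz x - zz x' = (yy x - yy x') * (yy x + yy x') := by
  rw [zz, zz]
  ring
theorem zz_inj : Function.Injective zz := by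
  intro x x' h
  have h1 := zz_sub x x'
  rw [h, sub_self] at h1
  exact yy_inj (sub_eq_zero.1 ((mul_eq_zero.1 h1.symm).resolve_right (yy_add_ne x x')))
theorem Sel.zinj {n m : ℕ} {x : Col m → Nd} (h : Sel n m x) :
    Function.Injective fun r => zz (x r) := zz_inj.comp h.inj
theorem exists_ch (a b : ℤ) : ∃ f, Ch a b f := by
  let g : Bool → ℤ → ℚ := fun e i => b / ((yy (e, i) : ℚ) + 6) ^ 3
  refine ⟨fun x => (if x.1 then (a : ℚ) else 0) + ∑ j ∈ range x.2.toNat, g x.1 j -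
    ∑ j ∈ range (-x.2).toNat, g x.1 (-1 - j), by simp, by simp, fun e i => ?_⟩
  show _ = _ + g e i
  rcases le_or_gt 0 i with hi | hi
  · obtain ⟨k, rfl⟩ := Int.eq_ofNat_of_zero_le hi
    have e1 : ((k : ℤ) + 1).toNat = k + 1 := by omega
    have e2 : (-((k : ℤ) + 1)).toNat = 0 := by omega
    have e3 : (-(k : ℤ)).toNat = 0 := by omega
    simp only [e1, e2, e3, Int.toNat_natCast, sum_range_succ, range_zero, sum_empty]
    ring
  · obtain ⟨k, rfl⟩ : ∃ k : ℕ, i = -1 - k := ⟨(-1 - i).toNat, by omega⟩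
    have e1 : (-1 - (k : ℤ) + 1).toNat = 0 := by omega
    have e2 : (-(-1 - (k : ℤ) + 1)).toNat = k := by omega
    have e3 : (-(-1 - (k : ℤ))).toNat = k + 1 := by omega
    have e4 : (-1 - (k : ℤ)).toNat = 0 := by omega
    simp only [e1, e2, e3, e4, sum_range_succ, range_zero, sum_empty]
    ring
theorem fznode_cast (x : Nd) : (yy x : ℚ) + 6 = ((yy x + 6 : ℤ) : ℚ) := by push_cast; rfl
theorem fznode_abs (b : ℤ) (x : Nd) : |(b : ℚ) / ((yy x : ℚ) + 6) ^ 3| ≤ |(b : ℚ)| := by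
  have h1 : (1 : ℚ) ≤ |(yy x : ℚ) + 6| := by
    rw [fznode_cast]
    exact_mod_cast Int.one_le_abs (yy_link_ne x)
  rw [abs_div, abs_pow]
  exact div_le_self (abs_nonneg _) (one_le_pow₀ h1)
theorem fznode_down {a b : ℤ} {f : Nd → ℚ} (h : Ch a b f) (e : Bool) (i : ℤ) :
    f (e, i - 1) = f (e, i) - b / ((yy (e, i - 1) : ℚ) + 6) ^ 3 := by
  have := h.step e (i - 1)
  rw [sub_add_cancel] at this
  rw [this, add_sub_cancel_right]
theorem ch_abs {a b : ℤ} {f : Nd → ℚ} (h : Ch a b f) {n : ℕ} {x : Nd} (hx : x ∈ nodes n) :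
    |f x| ≤ |(a : ℚ)| + |(b : ℚ)| * n := by
  obtain ⟨e, i⟩ := x
  have key : ∀ i : ℤ, |f (e, i)| ≤ |(a : ℚ)| + |(b : ℚ)| * |(i : ℚ)| := by
    intro i
    induction i using Int.induction_on with
    | zero => cases e <;> simp [h.zA, h.zB]
    | succ k ih =>
      have h1 := fznode_abs b (e, k)
      have h2 := abs_add_le (f (e, k)) ((b : ℚ) / ((yy (e, k) : ℚ) + 6) ^ 3)
      rw [h.step]
      push_cast at ih ⊢
      rw [abs_of_nonneg (by positivity : (0 : ℚ) ≤ k)] at ih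
      rw [abs_of_nonneg (by positivity : (0 : ℚ) ≤ k + 1)]
      linarith
    | pred k ih =>
      have h1 := fznode_abs b (e, -(k : ℤ) - 1)
      have h2 := abs_sub (f (e, -(k : ℤ))) ((b : ℚ) / ((yy (e, -(k : ℤ) - 1) : ℚ) + 6) ^ 3)
      have h3 : (0 : ℚ) ≤ k := by positivity
      rw [fznode_down h]
      push_cast at ih ⊢
      rw [abs_neg, abs_of_nonneg h3] at ih
      rw [abs_of_nonpos (by linarith : -(k : ℚ) - 1 ≤ 0)]
      linarith
  obtain ⟨h1, h2⟩ := mem_nodes.1 hx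
  have h3 : |(i : ℚ)| ≤ n := by
    have : |i| ≤ (n : ℤ) := abs_le.2 ⟨h1, h2.le⟩
    exact_mod_cast this
  exact (key i).trans (add_le_add le_rfl (mul_le_mul_of_nonneg_left h3 (abs_nonneg _)))
theorem fznode_norm (p : ℕ) [hp : Fact p.Prime] (b : ℤ) {l : ℤ} {L : ℕ} (h0 : l ≠ 0)
    (h1 : |l| < (p : ℤ) ^ (L + 1)) : padicNorm p ((b : ℚ) / (l : ℚ) ^ 3) ≤ (p : ℚ) ^ (3 * L) := by
  have hp1 : (1 : ℚ) ≤ p := by exact_mod_cast hp.out.one_le
  have h2 : padicValInt p l ≤ L := by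
    by_contra h3
    have h4 : (p : ℤ) ^ (L + 1) ∣ l := (padicValInt_dvd_iff _ _).2 (Or.inr (by omega))
    exact absurd (Int.le_of_dvd (abs_pos.2 h0) ((dvd_abs _ _).2 h4)) (not_le.2 h1)
  have h3 : padicNorm p ((l : ℚ) ^ 3) = ((p : ℚ) ^ (3 * padicValInt p l))⁻¹ := by
    have h4 : (l : ℚ) ≠ 0 := by exact_mod_cast h0
    rw [padicNorm.eq_zpow_of_nonzero (pow_ne_zero 3 h4), padicValRat.pow, padicValRat.of_int,
      zpow_neg, ← zpow_natCast]
    push_cast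
    rfl
  rw [padicNorm.div, h3, div_inv_eq_mul]
  calc padicNorm p (b : ℚ) * (p : ℚ) ^ (3 * padicValInt p l)
      ≤ 1 * (p : ℚ) ^ (3 * L) := by
        refine mul_le_mul (padicNorm.of_int b) (pow_le_pow_right₀ hp1 (by omega)) (by positivity)
          zero_le_one
    _ = _ := one_mul _
theorem ch_norm {a b : ℤ} {f : Nd → ℚ} (h : Ch a b f) (p : ℕ) [Fact p.Prime] {n L : ℕ}
    (hL : 12 * n ≤ p ^ (L + 1)) {x : Nd} (hx : x ∈ nodes n) :
    padicNorm p (f x) ≤ (p : ℚ) ^ (3 * L) := by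
  obtain ⟨e, i⟩ := x
  have hp1 : (1 : ℚ) ≤ p := by exact_mod_cast (Fact.out : p.Prime).one_le
  have hL' : (12 * n : ℤ) ≤ (p : ℤ) ^ (L + 1) := by exact_mod_cast hL
  have hs : ∀ j : ℤ, -(n : ℤ) ≤ j → j + 1 < n ∨ j < 0 →
      padicNorm p ((b : ℚ) / ((yy (e, j) : ℚ) + 6) ^ 3) ≤ (p : ℚ) ^ (3 * L) := by
    intro j h1 h2
    rw [fznode_cast]
    refine fznode_norm p b (yy_link_ne _) (lt_of_lt_of_le ?_ hL')
    rw [abs_lt, yy]
    split_ifs <;> omega
  have key : ∀ i : ℤ, -(n : ℤ) ≤ i → i < n → padicNorm p (f (e, i)) ≤ (p : ℚ) ^ (3 * L) := by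
    intro i
    induction i using Int.induction_on with
    | zero =>
      intro _ _
      cases e
      · rw [h.zA, padicNorm.zero]; positivity
      · rw [h.zB]; exact (padicNorm.of_int a).trans (one_le_pow₀ hp1)
    | succ k ih =>
      intro h1 h2
      rw [h.step]
      exact padicNorm.nonarchimedean.trans
        (max_le (ih (by omega) (by omega)) (hs k (by omega) (Or.inl h2)))
    | pred k ih =>
      intro h1 h2
      rw [fznode_down h]
      exact padicNorm.sub.trans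
        (max_le (ih (by omega) (by omega)) (hs _ h1 (Or.inr (by omega))))
  exact key i (mem_nodes.1 hx).1 (mem_nodes.1 hx).2
theorem fznode_cop {p : ℕ} (hp : p.Prime) (h5 : 5 ≤ p) {z : ℤ} (h : (p : ℤ) ∣ 12 * z) :
    (p : ℤ) ∣ z := by
  refine ((Nat.prime_iff_prime_int.1 hp).dvd_or_dvd h).resolve_left fun h1 => ?_
  have h2 : p ∣ 2 * 2 * 3 := by exact_mod_cast h1
  rcases (Nat.Prime.dvd_mul hp).1 h2 with h3 | h3
  · have := Nat.le_of_dvd (by norm_num) h3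
    omega
  · have := Nat.le_of_dvd (by norm_num) h3
    omega
theorem card_dvd {n m : ℕ} {x : Col m → Nd} (h : Sel n m x) {p : ℕ} (hp : p.Prime) (h5 : 5 ≤ p) :
    (((univ.filter fun r => (p : ℤ) ∣ yy (x r)).card : ℕ) : ℝ) ≤ 4 * n / p + 2 := by
  have h1 : (univ.filter fun r => (p : ℤ) ∣ yy (x r)).card ≤
      ((univ : Finset Bool) ×ˢ range (2 * n / p + 1)).card := by
    refine card_le_card_of_injOn (fun r => ((x r).1, ((x r).2 + n).toNat / p)) (fun r _ => ?_)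
      fun r hr s hs hrs => ?_
    · obtain ⟨h2, h3⟩ := mem_nodes.1 (h.mem r)
      refine mem_coe.2 (mem_product.2 ⟨mem_univ _, mem_range.2 (Nat.lt_succ_of_le ?_)⟩)
      exact Nat.div_le_div_right (by omega)
    · obtain ⟨h2, -⟩ := mem_nodes.1 (h.mem r)
      obtain ⟨h3, -⟩ := mem_nodes.1 (h.mem s)
      obtain ⟨e1, e2⟩ := Prod.mk.inj hrs
      have h4 := dvd_sub (mem_filter.1 hr).2 (mem_filter.1 hs).2
      have h5' : yy (x r) - yy (x s) = 12 * ((x r).2 - (x s).2) := by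
        rw [yy, yy, e1]; ring
      rw [h5'] at h4
      have h6 := fznode_cop hp h5 h4
      have h7 : ((x s).2 + n).toNat ≡ ((x r).2 + n).toNat [MOD p] := by
        rw [Nat.modEq_iff_dvd, Int.toNat_of_nonneg (by omega), Int.toNat_of_nonneg (by omega),
          add_sub_add_right_eq_sub]
        exact h6
      have h8 : ((x r).2 + n).toNat = ((x s).2 + n).toNat := by
        rw [← Nat.div_add_mod ((x r).2 + n).toNat p, ← Nat.div_add_mod ((x s).2 + n).toNat p, e2,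
          show ((x s).2 + n).toNat % p = ((x r).2 + n).toNat % p from h7]
      exact h.inj (Prod.ext e1 (by omega))
  rw [card_product, card_univ, Fintype.card_bool, card_range] at h1
  have h2 : ((2 * n / p : ℕ) : ℝ) ≤ ((2 * n : ℕ) : ℝ) / p := Nat.cast_div_le
  have h3 : (((univ.filter fun r => (p : ℤ) ∣ yy (x r)).card : ℕ) : ℝ) ≤
      2 * (((2 * n / p : ℕ) : ℝ) + 1) := by exact_mod_cast h1
  have h4 : ((2 * n : ℕ) : ℝ) / p * 2 = 4 * n / p := by push_cast; ring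
  linarith
theorem fznode_sq {n m : ℕ} {x : Col m → Nd} (h : Sel n m x) {p : ℕ} (h2 : 24 * n ≤ p ^ 2)
    {r s : Col m} (hrs : r ≠ s) :
    ¬ (p : ℤ) ^ 2 ∣ yy (x r) - yy (x s) ∧ ¬ (p : ℤ) ^ 2 ∣ yy (x r) + yy (x s) := by
  have h1 := abs_lt.1 (yy_lt (h.mem r))
  have h3 := abs_lt.1 (yy_lt (h.mem s))
  have h4 : (24 * n : ℤ) ≤ (p : ℤ) ^ 2 := by exact_mod_cast h2
  have h5 : yy (x r) - yy (x s) ≠ 0 := sub_ne_zero.2 fun e => hrs (h.inj (yy_inj e))
  constructor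
  · intro h6
    exact h5 (Int.eq_zero_of_abs_lt_dvd h6 (abs_lt.2 ⟨by omega, by omega⟩))
  · intro h6
    exact yy_add_ne _ _ (Int.eq_zero_of_abs_lt_dvd h6 (abs_lt.2 ⟨by omega, by omega⟩))
theorem not_cube {n m : ℕ} {x : Col m → Nd} (h : Sel n m x) {p : ℕ} (hp : p.Prime)
    (h2 : 24 * n ≤ p ^ 2) (r s : Col m) (hrs : r ≠ s) :
    ¬ (p : ℤ) ^ 3 ∣ zz (x r) - zz (x s) := by
  obtain ⟨h3, h4⟩ := fznode_sq h h2 hrs
  have hq := Nat.prime_iff_prime_int.1 hp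
  rw [zz_sub]
  intro h5
  by_cases h6 : (p : ℤ) ∣ yy (x r) - yy (x s)
  · obtain ⟨c, hc⟩ := h6
    rw [hc] at h3 h5
    rw [pow_succ', mul_assoc, mul_dvd_mul_iff_left hq.ne_zero] at h5
    exact h4 (hq.pow_dvd_of_dvd_mul_left 2
      (fun h7 => h3 (by rw [sq]; exact mul_dvd_mul_left _ h7)) h5)
  · exact h4 ((pow_dvd_pow _ (by norm_num)).trans (hq.pow_dvd_of_dvd_mul_left 3 h6 h5))
theorem mult_sq {n m : ℕ} {x : Col m → Nd} (h : Sel n m x) {p : ℕ} (hp : p.Prime) (h5 : 5 ≤ p)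
    (h2 : 24 * n ≤ p ^ 2) :
    ((mult fun r => zz (x r) % (p : ℤ) ^ 2 : ℕ) : ℝ) ≤ 4 * n / p + 2 := by
  refine le_trans ?_ (card_dvd h hp h5)
  refine Nat.cast_le.2 (card_le_card fun r hr => mem_filter.2 ⟨mem_univ _, ?_⟩)
  obtain ⟨s, hs, he⟩ := (mem_filter.1 hr).2
  obtain ⟨h3, h4⟩ := fznode_sq h h2 hs.symm
  have hq := Nat.prime_iff_prime_int.1 hp
  have h6 : (p : ℤ) ^ 2 ∣ (yy (x r) - yy (x s)) * (yy (x r) + yy (x s)) := by
    rw [← zz_sub]
    exact Int.ModEq.dvd he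
  have h7 : (p : ℤ) ∣ yy (x r) - yy (x s) := by
    by_contra h7
    exact h4 (hq.pow_dvd_of_dvd_mul_left 2 h7 h6)
  have h8 : (p : ℤ) ∣ yy (x r) + yy (x s) := by
    by_contra h8
    exact h3 (hq.pow_dvd_of_dvd_mul_right 2 h8 h6)
  refine fznode_cop hp h5 ?_
  have e : 12 * yy (x r) = 6 * (yy (x r) - yy (x s) + (yy (x r) + yy (x s))) := by ring
  rw [e]
  exact (dvd_add h7 h8).mul_left 6

end Pool.Agent.FMZ
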