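import Pool.Agent.P.MP_cb43af_nt.Fv0
import Pool.Agent.P.MP_cb43af_nt.FzNode

open Finset Filter Polynomial Topology
namespace Pool.Agent.FMZ

theorem fact_val (p : ℕ) [Fact p.Prime] {N L : ℕ} (h : N < p ^ (L + 1)) :
    N ≤ (p - 1) * (padicValNat p N.factorial + L + 1) := by
  have hp : 1 < p := (Fact.out : p.Prime).one_lt
  have h1 := sub_one_mul_padicValNat_factorial (p := p) N
  have h2 : (p.digits N).length ≤ L + 1 := (Nat.digits_length_le_iff hp N).2 h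
  have h3 : (p.digits N).sum ≤ (p.digits N).length • (p - 1) :=
    List.sum_le_card_nsmul _ _ fun d hd => Nat.le_sub_one_of_lt (Nat.digits_lt_base hp hd)
  have h4 : (p.digits N).sum ≤ (p - 1) * (L + 1) := by
    rw [smul_eq_mul, mul_comm] at h3
    exact h3.trans (Nat.mul_le_mul_left _ h2)
  rw [add_assoc, mul_add, h1]
  omega

theorem ap_dvd (p : ℕ) [Fact p.Prime] {s : ℤ} (hs : ¬ (p : ℤ) ∣ s) (t : ℤ) (N : ℕ) :
    (p : ℤ) ^ padicValNat p N.factorial ∣ ∏ j ∈ range N, (s * j + t) := by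
  have hp : Prime (p : ℤ) := Nat.prime_iff_prime_int.1 Fact.out
  set v := padicValNat p N.factorial with hv
  have hc : IsCoprime ((p : ℤ) ^ v) s := (hp.irreducible.coprime_iff_not_dvd.2 hs).pow_left
  obtain ⟨u, s', hu⟩ := hc
  have h1 : (p : ℤ) ^ v ∣ ∏ j ∈ range N, (s' * t + j) := by
    refine Dvd.dvd.trans ?_ (Nat.factorial_coe_dvd_prod N (s' * t))
    exact_mod_cast (pow_padicValNat_dvd : p ^ padicValNat p N.factorial ∣ N.factorial)
  have h2 : ∏ j ∈ range N, (s * j + t) ≡ ∏ j ∈ range N, (s * (s' * t + j)) [ZMOD (p : ℤ) ^ v] := by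
    refine Int.ModEq.prod fun j _ => ?_
    rw [Int.modEq_iff_dvd]
    exact ⟨-u * t, by linear_combination t * hu⟩
  rw [prod_mul_distrib] at h2
  exact h2.dvd_iff.2 (h1.mul_left _)

theorem NN_eq (k : ℕ) (y : ℚ) : NN k (y ^ 2) = ∏ j ∈ range (2 * k), (12 * j + (y + 6 - 12 * k)) := by
  induction k with
  | zero => simp [NN]
  | succ k ih =>
    rw [NN, prod_range_succ, ← NN, ih, show 2 * (k + 1) = 2 * k + 1 + 1 by ring, prod_range_succ,
      prod_range_succ', mul_assoc]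
    congr 1
    · refine prod_congr rfl fun j _ => ?_
      push_cast; ring
    · push_cast; ring

theorem fvap_core (p : ℕ) [Fact p.Prime] {a k : ℕ} {s t y : ℤ} (hs : ¬ (p : ℤ) ∣ s)
    (h12 : (12 : ℤ) = (p : ℤ) ^ a * s) (ht : y + 6 - 12 * k = (p : ℤ) ^ a * t) :
    padicNorm p (NN k ((y : ℚ) ^ 2)) ≤
      (p : ℚ) ^ (-((a * (2 * k) + padicValNat p (2 * k).factorial : ℕ) : ℤ)) := by
  have h1 : NN k ((y : ℚ) ^ 2) = ((∏ j ∈ range (2 * k), ((p : ℤ) ^ a * (s * j + t)) : ℤ) : ℚ) := by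
    rw [NN_eq, Int.cast_prod]
    refine prod_congr rfl fun j _ => ?_
    have h2 : (p : ℤ) ^ a * (s * j + t) = 12 * j + (y + 6 - 12 * k) := by
      linear_combination -(j : ℤ) * h12 - ht
    rw [h2]; push_cast; ring
  rw [h1, ← padicNorm.dvd_iff_norm_le, prod_mul_distrib, prod_const, card_range]
  push_cast
  rw [pow_add, pow_mul]
  exact mul_dvd_mul_left _ (ap_dvd p hs t (2 * k))

theorem NN_bad {p ρ σ : ℕ} {e : Bool} (h : Gd p e ρ σ) {y : ℤ}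
    (hy : (∃ i : ℤ, y = yy (!e, i)) ∨ ∃ i : ℕ, y = 12 * i + 6) {k L : ℕ}
    (hL : 2 * k < p ^ (L + 1)) :
    padicNorm p (NN k ((y : ℚ) ^ 2)) ≤ (p : ℚ) ^ ((L : ℤ) + 1 - ρ * k) := by
  rcases h with ⟨rfl, rfl, rfl, rfl⟩ | ⟨rfl, rfl, rfl, rfl⟩
  · obtain ⟨t, ht⟩ : ∃ t : ℤ, y + 6 - 12 * k = 2 ^ 2 * t := by
      rcases hy with ⟨i, rfl⟩ | ⟨i, rfl⟩
      · exact ⟨3 * i - 3 * k + 2, by simp [yy]; ring⟩
      · exact ⟨3 * i - 3 * k + 3, by ring⟩
    have h1 := fact_val 2 hL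
    refine (fvap_core 2 (a := 2) (s := 3) (by norm_num) (by norm_num) ht).trans
      (zpow_le_zpow_right₀ (by norm_num) ?_)
    omega
  · obtain ⟨t, ht⟩ : ∃ t : ℤ, y + 6 - 12 * k = 3 ^ 1 * t := by
      rcases hy with ⟨i, rfl⟩ | ⟨i, rfl⟩
      · exact ⟨4 * i - 4 * k + 3, by simp [yy]; ring⟩
      · exact ⟨4 * i - 4 * k + 4, by ring⟩
    have h1 := fact_val 3 hL
    refine (fvap_core 3 (a := 1) (s := 4) (by norm_num) (by norm_num) ht).trans
      (zpow_le_zpow_right₀ (by norm_num) ?_)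
    omega

theorem good_unit {p ρ σ : ℕ} {e : Bool} (h : Gd p e ρ σ) (i j : ℤ) :
    ¬ (p : ℤ) ∣ yy (e, i) + 6 * j := by
  rcases h with ⟨rfl, rfl, rfl, rfl⟩ | ⟨rfl, rfl, rfl, rfl⟩ <;> simp [yy] <;> omega

theorem sq_unit {p : ℕ} (hp : p = 2 ∨ p = 3) {y : ℤ} (hy : ¬ (p : ℤ) ∣ y) (j : ℤ) :
    padicNorm p ((y : ℚ) ^ 2 - (6 * j) ^ 2) = 1 := by
  have hpp : p.Prime := by rcases hp with rfl | rfl <;> norm_num
  have := Fact.mk hpp
  have h6 : (p : ℤ) ∣ 6 := by rcases hp with rfl | rfl <;> norm_num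
  have h1 : (y : ℚ) ^ 2 - (6 * j) ^ 2 = ((y ^ 2 - (6 * j) ^ 2 : ℤ) : ℚ) := by push_cast; ring
  rw [h1, padicNorm.int_eq_one_iff]
  intro h2
  have h3 : (p : ℤ) ∣ y ^ 2 := by
    have h4 : (p : ℤ) ∣ (6 * j) ^ 2 := (h6.mul_right j).pow two_ne_zero
    simpa using h2.add h4
  exact hy ((Nat.prime_iff_prime_int.1 hpp).dvd_of_dvd_pow h3)

theorem NN_good {p : ℕ} (hp : p = 2 ∨ p = 3) {y : ℤ} (hy : ¬ (p : ℤ) ∣ y) (k : ℕ) :
    padicNorm p (NN k ((y : ℚ) ^ 2)) = 1 := by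
  have hpp : p.Prime := by rcases hp with rfl | rfl <;> norm_num
  have := Fact.mk hpp
  induction k with
  | zero => simp [NN]
  | succ k ih =>
    have h1 := sq_unit hp hy (2 * k + 1)
    have h2 : (6 * ((2 * k + 1 : ℤ) : ℚ)) ^ 2 = (12 * (k : ℚ) + 6) ^ 2 := by push_cast; ring
    rw [h2] at h1
    rw [NN, prod_range_succ, ← NN, padicNorm.mul, ih, h1, mul_one]

theorem inv_norm (p : ℕ) [Fact p.Prime] {z : ℤ} {L : ℕ} (h : |z| < (p : ℤ) ^ (L + 1)) :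
    padicNorm p (1 / (z : ℚ)) ≤ (p : ℚ) ^ L := by
  have hp1 : (1 : ℚ) ≤ p := by exact_mod_cast (Fact.out : p.Prime).one_le
  rcases eq_or_ne z 0 with rfl | h0
  · simp
  have h2 : padicValInt p z ≤ L := by
    by_contra h3
    have h4 : (p : ℤ) ^ (L + 1) ∣ z := (padicValInt_dvd_iff _ _).2 (Or.inr (by omega))
    exact absurd (Int.le_of_dvd (abs_pos.2 h0) ((dvd_abs _ _).2 h4)) (not_le.2 h)
  have h4 : (z : ℚ) ≠ 0 := by exact_mod_cast h0
  rw [padicNorm.div, padicNorm.one, padicNorm.eq_zpow_of_nonzero h4, padicValRat.of_int, zpow_neg,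
    one_div, inv_inv, zpow_natCast]
  exact pow_le_pow_right₀ hp1 h2

end Pool.Agent.FMZ
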