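import Pool.Agent.P.MP_cb43af_nt.Fv0

open Finset Filter Polynomial Topology
namespace Pool.Agent.FMZ

theorem bet_norm (p : ℕ) [Fact p.Prime] {K L : ℕ} (h : 2 * K < p ^ (L + 1)) (j : ℕ) :
    padicNorm p (bet K j) ≤ (p : ℚ) ^ L := by
  have hp : p.Prime := Fact.out
  have hc : (2 * K).choose K ≠ 0 := (Nat.choose_pos (by omega)).ne'
  have hlog : Nat.log p (2 * K) ≤ L := by
    rcases Nat.eq_zero_or_pos K with rfl | hK
    · simp
    · exact Nat.lt_succ_iff.1 (Nat.log_lt_of_lt_pow (by omega) h)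
  have hv : padicValNat p ((2 * K).choose K) ≤ L := by
    rw [← Nat.factorization_def _ hp]
    exact Nat.factorization_choose_le_log.trans hlog
  have hnum : padicNorm p (2 * (-1) ^ (j + 1) * ((2 * K).choose (K + j + 1) : ℚ)) ≤ 1 := by
    have := padicNorm.of_int (p := p) (2 * (-1) ^ (j + 1) * ((2 * K).choose (K + j + 1) : ℤ))
    push_cast at this
    exact this
  have hp1 : (1 : ℚ) ≤ p := by exact_mod_cast hp.one_le
  have hden : padicNorm p ((2 * K).choose K : ℚ) =
      ((p : ℚ) ^ padicValNat p ((2 * K).choose K))⁻¹ := by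
    rw [padicNorm.eq_zpow_of_nonzero (by exact_mod_cast hc), padicValRat.of_nat, zpow_neg,
      zpow_natCast]
  unfold bet
  rw [padicNorm.div, hden, div_inv_eq_mul]
  calc _ ≤ 1 * (p : ℚ) ^ padicValNat p ((2 * K).choose K) :=
        mul_le_mul_of_nonneg_right hnum (by positivity)
    _ ≤ (p : ℚ) ^ L := by rw [one_mul]; exact pow_le_pow_right₀ hp1 hv

theorem fvpf_A (j d : ℕ) :
    ∏ i ∈ (range (j + 1 + d)).erase j, ((j : ℚ) - i) =
      (j.factorial : ℚ) * (-1) ^ d * (d.factorial : ℚ) := by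
  induction d with
  | zero =>
    have e : (range (j + 1 + 0)).erase j = range j := by
      ext i
      simp only [mem_erase, mem_range]
      omega
    rw [e, prod_range_natCast_sub, ← Nat.descFactorial_eq_prod_range, Nat.descFactorial_self]
    simp
  | succ d ih =>
    have e : (range (j + 1 + (d + 1))).erase j =
        insert (j + 1 + d) ((range (j + 1 + d)).erase j) := by
      ext i
      simp only [mem_erase, mem_range, mem_insert]
      omega
    rw [e, prod_insert (by simp), ih, Nat.factorial_succ]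
    push_cast
    ring

theorem fvpf_B (j K : ℕ) :
    (∏ i ∈ range K, ((j : ℚ) + i + 2)) * ((j + 1).factorial : ℚ) =
      ((K + j + 1).factorial : ℚ) := by
  induction K with
  | zero => simp
  | succ K ih =>
    rw [prod_range_succ, show K + 1 + j + 1 = (K + j + 1) + 1 by ring, Nat.factorial_succ (K + j + 1)]
    push_cast
    rw [← ih]
    ring

theorem fvpf_C (K : ℕ) :
    ∏ i ∈ range K, -aa i = (-144) ^ K * (K.factorial : ℚ) ^ 2 := by
  induction K with
  | zero => simp
  | succ K ih =>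
    rw [prod_range_succ, ih, Nat.factorial_succ]
    unfold aa
    push_cast
    ring

theorem bet_eq {K j : ℕ} (hj : j < K) :
    bet K j * (aa j * ∏ i ∈ (range K).erase j, (aa j - aa i)) = ∏ i ∈ range K, -aa i := by
  obtain ⟨d, rfl⟩ : ∃ d, K = j + 1 + d := ⟨K - (j + 1), by omega⟩
  have h1 : ∏ i ∈ (range (j + 1 + d)).erase j, (aa j - aa i) =
      144 ^ (j + d) * (∏ i ∈ (range (j + 1 + d)).erase j, ((j : ℚ) - i)) *
        ∏ i ∈ (range (j + 1 + d)).erase j, ((j : ℚ) + i + 2) := by
    have hcard : ((range (j + 1 + d)).erase j).card = j + d := by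
      rw [card_erase_of_mem (mem_range.2 hj), card_range]
      omega
    rw [← hcard, ← prod_const, ← prod_mul_distrib, ← prod_mul_distrib]
    refine prod_congr rfl fun i _ => ?_
    unfold aa
    ring
  have h2 := fvpf_B j (j + 1 + d)
  rw [← prod_erase_mul _ _ (mem_range.2 hj)] at h2
  have hf : ∀ n : ℕ, (n.factorial : ℚ) ≠ 0 := fun n => by exact_mod_cast n.factorial_ne_zero
  have hj2 : (j : ℚ) + j + 2 ≠ 0 := by positivity
  have h3 : ∏ i ∈ (range (j + 1 + d)).erase j, ((j : ℚ) + i + 2) =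
      ((j + 1 + d + j + 1).factorial : ℚ) / (((j : ℚ) + j + 2) * ((j + 1).factorial : ℚ)) := by
    rw [eq_div_iff (mul_ne_zero hj2 (hf _)), ← h2]
    ring
  rw [h1, fvpf_A, h3, fvpf_C]
  unfold bet aa
  rw [Nat.cast_choose ℚ (show j + 1 + d + j + 1 ≤ 2 * (j + 1 + d) by omega),
    Nat.cast_choose ℚ (show j + 1 + d ≤ 2 * (j + 1 + d) by omega),
    show 2 * (j + 1 + d) - (j + 1 + d + j + 1) = d by omega,
    show 2 * (j + 1 + d) - (j + 1 + d) = j + 1 + d by omega, Nat.factorial_succ j]
  have a1 := hf (2 * (j + 1 + d))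
  have a2 := hf (j + 1 + d + j + 1)
  have a3 := hf (j + 1 + d)
  have a4 := hf d
  have a5 := hf j
  have a6 : (j : ℚ) + 1 ≠ 0 := by positivity
  have e144 : (-144 : ℚ) ^ (j + 1 + d) = (-1) ^ (j + 1) * (-1) ^ d * (144 * 144 ^ (j + d)) := by
    rw [show (-144 : ℚ) = (-1) * 144 by norm_num, mul_pow]
    ring
  rw [e144]
  generalize ((2 * (j + 1 + d)).factorial : ℚ) = x1 at *
  generalize ((j + 1 + d + j + 1).factorial : ℚ) = x2 at *
  generalize ((j + 1 + d).factorial : ℚ) = x3 at *
  generalize ((-1 : ℚ)) ^ (j + 1) = s1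
  generalize ((-1 : ℚ)) ^ d = s2
  generalize (144 : ℚ) ^ (j + d) = s3
  push_cast
  field_simp
  ring

theorem fvpf_pos (j : ℕ) : 0 < aa j := by
  unfold aa
  positivity

theorem fvpf_inj {i j : ℕ} (h : aa i = aa j) : i = j := by
  unfold aa at h
  have h1 : ((i : ℚ) + 1) ^ 2 = ((j : ℚ) + 1) ^ 2 := by linarith
  have h2 : (i : ℚ) + 1 = (j : ℚ) + 1 := (pow_left_inj₀ (by positivity) (by positivity) two_ne_zero).1 h1
  exact_mod_cast add_right_cancel h2

theorem pf_base (K : ℕ) {Z : ℚ} (h0 : Z ≠ 0) (h : ∀ j, Z ≠ aa j) :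
    (∏ i ∈ range K, -aa i) / (Z * ∏ i ∈ range K, (Z - aa i))
      = 1 / Z + ∑ j ∈ range K, bet K j / (Z - aa j) := by
  classical
  let v : Option ℕ → ℚ := fun o => o.elim 0 aa
  let s : Finset (Option ℕ) := insertNone (range K)
  have hinj : Set.InjOn v s := by
    rintro (_ | a) _ (_ | b) _ hab
    · rfl
    · exact absurd hab (fvpf_pos b).ne
    · exact absurd hab (fvpf_pos a).ne'
    · rw [fvpf_inj hab]
  have hne : s.Nonempty := ⟨none, by simp [s]⟩
  have hZ : ∀ o, Z ≠ v o := by
    rintro (_ | a)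
    · exact h0
    · exact h a
  have hs := congrArg (eval Z) (Lagrange.sum_basis hinj hne)
  rw [eval_finsetSum, eval_one,
    sum_congr rfl (fun o ho => Lagrange.eval_basis_not_at_node (s := s) (v := v) ho (hZ o)), ← mul_sum,
    Lagrange.eval_nodal] at hs
  have e1 : ∀ j, s.erase (some j) = insertNone ((range K).erase j) := by
    intro j
    ext (_ | a) <;> simp [s]
  have e0 : s.erase none = (range K).map Function.Embedding.some := by
    ext (_ | a) <;> simp [s]
  have hP : ∏ i ∈ range K, -aa i ≠ 0 := prod_ne_zero_iff.2 fun i _ => neg_ne_zero.2 (fvpf_pos i).ne'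
  have w0 : Lagrange.nodalWeight s v none = (∏ i ∈ range K, -aa i)⁻¹ := by
    rw [Lagrange.nodalWeight, e0, prod_map, ← prod_inv_distrib]
    refine prod_congr rfl fun i _ => ?_
    simp [v]
  have w1 : ∀ j ∈ range K, Lagrange.nodalWeight s v (some j) =
      bet K j * (∏ i ∈ range K, -aa i)⁻¹ := by
    intro j hj
    have hb := bet_eq (mem_range.1 hj)
    have hw : Lagrange.nodalWeight s v (some j) =
        (aa j * ∏ i ∈ (range K).erase j, (aa j - aa i))⁻¹ := by
      rw [Lagrange.nodalWeight, e1, prod_insertNone, mul_inv, ← prod_inv_distrib]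
      simp [v]
    have hq : aa j * ∏ i ∈ (range K).erase j, (aa j - aa i) ≠ 0 := by
      intro hq
      rw [hq, mul_zero] at hb
      exact hP hb.symm
    have hb0 : bet K j ≠ 0 := by
      intro hq
      rw [hq, zero_mul] at hb
      exact hP hb.symm
    rw [hw, ← hb]
    field_simp
  have hs1 : ∑ o ∈ s, Lagrange.nodalWeight s v o * (Z - v o)⁻¹ =
      (∏ i ∈ range K, -aa i)⁻¹ * (1 / Z + ∑ j ∈ range K, bet K j / (Z - aa j)) := by
    rw [sum_insertNone, w0, mul_add, mul_sum]
    congr 1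
    · simp [v]
    · refine sum_congr rfl fun j hj => ?_
      rw [w1 j hj]
      simp only [v, Option.elim_some, div_eq_mul_inv]
      ring
  have hs2 : ∏ o ∈ s, (Z - v o) = Z * ∏ i ∈ range K, (Z - aa i) := by
    rw [prod_insertNone]
    simp [v]
  rw [hs1, hs2] at hs
  have hQ : Z * ∏ i ∈ range K, (Z - aa i) ≠ 0 := by
    intro hq
    rw [hq, zero_mul] at hs
    exact zero_ne_one hs
  rw [div_eq_iff hQ]
  generalize (1 / Z + ∑ j ∈ range K, bet K j / (Z - aa j)) = S at *
  generalize Z * ∏ i ∈ range K, (Z - aa i) = Q at *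
  generalize ∏ i ∈ range K, -aa i = P at *
  field_simp at hs
  linarith

end Pool.Agent.FMZ
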