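import Pool.Agent.P.MP_cb43af_nt.FvAp
import Pool.Agent.P.MP_cb43af_nt.FvPf

open Finset Filter Polynomial Topology
namespace Pool.Agent.FMZ

theorem fvapp_tel (g κ : ℕ → ℚ) (K : ℕ) :
    ∑ i ∈ range K, (g (i + 1) - g i) * ∑ j ∈ Ico i K, κ j
      = ∑ j ∈ range K, κ j * (g (j + 1) - g 0) := by
  induction K with
  | zero => simp
  | succ K ih =>
    have e : ∀ i ∈ range (K + 1), (g (i + 1) - g i) * ∑ j ∈ Ico i (K + 1), κ j =
        (g (i + 1) - g i) * ∑ j ∈ Ico i K, κ j + κ K * (g (i + 1) - g i) := fun i hi => by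
      rw [sum_Ico_succ_top (Nat.lt_succ_iff.1 (mem_range.1 hi))]
      ring
    rw [sum_congr rfl e, sum_add_distrib, ← mul_sum, sum_range_sub, sum_range_succ, ih,
      sum_range_succ, Ico_self, sum_empty]
    ring

theorem fvapp_pt (l t S : ℚ) (h1 : l - 12 * t ≠ 0) (h2 : l + 12 * t ≠ 0)
    (h3 : l - 12 * (t + 1) ≠ 0) (h4 : l + 12 * (t + 1) ≠ 0) :
    -(12 * t + 6) * S / ((l + 6) ^ 2 - (12 * t + 6) ^ 2)
      - -(12 * t + 6) * S / ((l - 6) ^ 2 - (12 * t + 6) ^ 2)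
      = (l / (l ^ 2 - 144 * (t + 1) ^ 2) - l / (l ^ 2 - 144 * t ^ 2)) * S := by
  rw [show (l + 6) ^ 2 - (12 * t + 6) ^ 2 = (l - 12 * t) * (l + 12 * (t + 1)) by ring,
    show (l - 6) ^ 2 - (12 * t + 6) ^ 2 = (l - 12 * (t + 1)) * (l + 12 * t) by ring,
    show l ^ 2 - 144 * (t + 1) ^ 2 = (l - 12 * (t + 1)) * (l + 12 * (t + 1)) by ring,
    show l ^ 2 - 144 * t ^ 2 = (l - 12 * t) * (l + 12 * t) by ring]
  generalize hA : l - 12 * t = A at *
  generalize hB : l + 12 * t = B at *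
  generalize hC : l - 12 * (t + 1) = C at *
  generalize hD : l + 12 * (t + 1) = D at *
  field_simp
  subst hA hB hC hD
  ring

theorem fvapp_term (l β A b c s : ℚ) (h0 : l ≠ 0) (hA : A ≠ 0) (h : l ^ 2 - A ≠ 0) :
    (-b * (β / A) - c * (β / A / A + s * (β / A))) * (l / (l ^ 2 - A) - 1 / l)
      = -(b / l + c / l ^ 3 + c * s / l) * (β / (l ^ 2 - A)) - c / l ^ 3 * (β / A) := by
  generalize hW : l ^ 2 - A = W at *
  field_simp
  subst hW
  ring

theorem fvapp_fin (l b c s P Q T : ℚ) (h0 : l ≠ 0) (hQ : Q ≠ 0)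
    (h : P / (l ^ 2 * Q) = 1 / l ^ 2 + T) :
    -(b / l + c / l ^ 3 + c * s / l) * T - c / l ^ 3 * s - (b / l ^ 3 + c / l ^ 5)
      = -(P / Q * (b / l ^ 3 + c / l ^ 5 + c * s / l ^ 3)) := by
  rw [show T = P / (l ^ 2 * Q) - 1 / l ^ 2 by linear_combination -h]
  field_simp
  ring

theorem fvapp_mul {p : ℕ} [Fact p.Prime] {x y : ℚ} {m n : ℕ} (hx : padicNorm p x ≤ (p : ℚ) ^ m)
    (hy : padicNorm p y ≤ (p : ℚ) ^ n) {k : ℕ} (hk : m + n ≤ k) :
    padicNorm p (x * y) ≤ (p : ℚ) ^ k := by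
  have hp1 : (1 : ℚ) ≤ p := by exact_mod_cast (Fact.out : p.Prime).one_le
  rw [padicNorm.mul]
  refine (mul_le_mul hx hy (padicNorm.nonneg _) (by positivity)).trans ?_
  rw [← pow_add]
  exact pow_le_pow_right₀ hp1 hk

theorem fvapp_int {p : ℕ} [Fact p.Prime] (z : ℤ) : padicNorm p (z : ℚ) ≤ (p : ℚ) ^ 0 := by
  rw [pow_zero]
  exact padicNorm.of_int z

theorem fvapp_inv {p : ℕ} [Fact p.Prime] {K L j : ℕ} (hL : 2 * K < p ^ (L + 1)) (hj : j < K) :
    padicNorm p (1 / aa j) ≤ (p : ℚ) ^ (2 * L + 4) := by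
  have h2 : 2 ≤ p := (Fact.out : p.Prime).two_le
  have a6 : padicNorm p (1 / ((6 : ℤ) : ℚ)) ≤ (p : ℚ) ^ 2 := inv_norm p (by
    have : 2 ^ (2 + 1) ≤ p ^ (2 + 1) := Nat.pow_le_pow_left h2 _
    have h3 : 6 < p ^ (2 + 1) := by omega
    rw [abs_of_nonneg (by norm_num)]
    exact_mod_cast h3)
  have aj : padicNorm p (1 / ((2 * (j + 1) : ℤ) : ℚ)) ≤ (p : ℚ) ^ L := inv_norm p (by
    have h3 : 2 * (j + 1) < p ^ (L + 1) := by omega
    rw [abs_of_nonneg (by positivity)]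
    exact_mod_cast h3)
  have m := fvapp_mul a6 aj le_rfl
  have e : 1 / aa j = (1 / ((6 : ℤ) : ℚ) * (1 / ((2 * (j + 1) : ℤ) : ℚ))) *
      (1 / ((6 : ℤ) : ℚ) * (1 / ((2 * (j + 1) : ℤ) : ℚ))) := by
    rw [aa]
    push_cast
    field_simp
    norm_num
  rw [e]
  exact fvapp_mul m m (by omega)

theorem fvapp_aa {p : ℕ} [Fact p.Prime] (hp : p = 2 ∨ p = 3) (j : ℕ) :
    padicNorm p (-aa j) ≤ (p : ℚ) ^ (-2 : ℤ) := by
  have h : ((p ^ 2 : ℕ) : ℤ) ∣ 144 * ((j : ℤ) + 1) ^ 2 := by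
    refine Dvd.dvd.mul_right ?_ _
    rcases hp with rfl | rfl <;> norm_num
  have := padicNorm.dvd_iff_norm_le.1 h
  rw [padicNorm.neg, aa]
  push_cast at this
  exact this

theorem fvapp_eps {p : ℕ} [Fact p.Prime] (hp : p = 2 ∨ p = 3) (K : ℕ) :
    padicNorm p (∏ i ∈ range K, -aa i) ≤ (p : ℚ) ^ (-2 * (K : ℤ)) := by
  have hp0 : (p : ℚ) ≠ 0 := by exact_mod_cast (Fact.out : p.Prime).ne_zero
  induction K with
  | zero => simp
  | succ K ih =>
    rw [prod_range_succ, padicNorm.mul]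
    refine (mul_le_mul ih (fvapp_aa hp K) (padicNorm.nonneg _) (by positivity)).trans ?_
    rw [← zpow_add₀ hp0]
    push_cast
    exact le_of_eq (congrArg _ (by ring))

theorem fvapp_unit {p : ℕ} (hp : p = 2 ∨ p = 3) {l : ℤ} (hl : ¬ (p : ℤ) ∣ l) (j : ℕ) :
    padicNorm p ((l : ℚ) ^ 2 - aa j) = 1 := by
  have := sq_unit hp hl (2 * (j + 1))
  push_cast at this
  rw [aa, show (144 : ℚ) * (j + 1) ^ 2 = (6 * (2 * (j + 1))) ^ 2 by ring]
  exact this

theorem fvapp_units {p : ℕ} [Fact p.Prime] (hp : p = 2 ∨ p = 3) {l : ℤ} (hl : ¬ (p : ℤ) ∣ l)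
    (K : ℕ) : padicNorm p (∏ i ∈ range K, ((l : ℚ) ^ 2 - aa i)) = 1 := by
  induction K with
  | zero => simp
  | succ K ih => rw [prod_range_succ, padicNorm.mul, ih, fvapp_unit hp hl, mul_one]

theorem fvapp_ne {p : ℕ} {q : ℚ} (h : padicNorm p q = 1) : q ≠ 0 := by
  rintro rfl
  simp at h

theorem fvapp_TW {p : ℕ} [Fact p.Prime] (hp : p = 2 ∨ p = 3) {w : ℕ → ℚ} {E : ℕ}
    (hw : ∀ i, padicNorm p (w i) ≤ (p : ℚ) ^ E) (K : ℕ) {y : ℤ} (hy : ¬ (p : ℤ) ∣ y) :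
    padicNorm p (TW w K y) ≤ (p : ℚ) ^ E := by
  refine padicNorm.sum_le' (fun i _ => ?_) (by positivity)
  have := sq_unit hp hy (2 * i + 1)
  push_cast at this
  rw [padicNorm.div, show (12 : ℚ) * i + 6 = 6 * (2 * i + 1) by ring, this, div_one]
  exact hw i

/-- telescoping: weights on the poles in `y` from weights on the poles in `l` -/
theorem TW_step (κ : ℕ → ℚ) (K : ℕ) {l : ℚ} (h : ∀ j : ℤ, l ≠ 12 * j) :
    TW (fun i => -(12 * i + 6) * ∑ j ∈ Ico i K, κ j) K (l + 6)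
      - TW (fun i => -(12 * i + 6) * ∑ j ∈ Ico i K, κ j) K (l - 6)
      = ∑ j ∈ range K, κ j * (l / (l ^ 2 - aa j) - 1 / l) := by
  have h0 : l ≠ 0 := by simpa using h 0
  have key := fvapp_tel (fun i => l / (l ^ 2 - 144 * (i : ℚ) ^ 2)) κ K
  rw [TW, TW, ← sum_sub_distrib]
  refine (sum_congr rfl fun i _ => ?_).trans (key.trans (sum_congr rfl fun j _ => ?_))
  · have a1 := h i
    have a2 := h (-i)
    have a3 := h (i + 1)
    have a4 := h (-(i + 1))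
    push_cast at a1 a2 a3 a4 ⊢
    exact fvapp_pt l i _ (sub_ne_zero.2 a1) (fun e => a2 (by linarith)) (sub_ne_zero.2 a3)
      fun e => a4 (by linarith)
  · have e : l / (l ^ 2 - 144 * ((0 : ℕ) : ℚ) ^ 2) = 1 / l := by
      push_cast
      field_simp
      ring
    rw [e, aa]
    push_cast
    rfl

theorem pf_weights {p : ℕ} (hp : p = 2 ∨ p = 3) (b c : ℤ) {K L : ℕ} (hL : 2 * K < p ^ (L + 1)) :
    ∃ w : ℕ → ℚ, (∀ i, padicNorm p (w i) ≤ (p : ℚ) ^ (6 * L + 8)) ∧ ∀ l : ℤ, ¬ (p : ℤ) ∣ l →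
      padicNorm p (TW w K (l + 6) - TW w K (l - 6) - inc b c l)
        ≤ (p : ℚ) ^ (6 * (L : ℤ) + 8 - 2 * K) := by
  have : Fact p.Prime := by
    rcases hp with rfl | rfl
    · exact Nat.fact_prime_two
    · exact Nat.fact_prime_three
  have hp1 : (1 : ℚ) ≤ p := by exact_mod_cast (Fact.out : p.Prime).one_le
  have hp0 : (p : ℚ) ≠ 0 := by linarith
  have n1 : ∀ j < K, padicNorm p (bet K j / aa j) ≤ (p : ℚ) ^ (3 * L + 4) := fun j hj => by
    rw [div_eq_mul_one_div]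
    exact fvapp_mul (bet_norm p hL j) (fvapp_inv hL hj) (by omega)
  obtain ⟨s, hs⟩ : ∃ s, s = ∑ j ∈ range K, bet K j / aa j := ⟨_, rfl⟩
  have ns : padicNorm p s ≤ (p : ℚ) ^ (3 * L + 4) := by
    rw [hs]
    exact padicNorm.sum_le' (fun j hj => n1 j (mem_range.1 hj)) (by positivity)
  obtain ⟨κ, hκ⟩ : ∃ κ : ℕ → ℚ, κ = fun j => -(b : ℚ) * (bet K j / aa j) -
    c * (bet K j / aa j / aa j + s * (bet K j / aa j)) := ⟨_, rfl⟩
  have nκ : ∀ j < K, padicNorm p (κ j) ≤ (p : ℚ) ^ (6 * L + 8) := fun j hj => by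
    rw [hκ]
    refine padicNorm.sub.trans (max_le ?_ ?_)
    · rw [neg_mul, padicNorm.neg]
      exact fvapp_mul (fvapp_int b) (n1 j hj) (by omega)
    · refine fvapp_mul (n := 6 * L + 8) (fvapp_int c) ?_ (by omega)
      refine padicNorm.nonarchimedean.trans (max_le ?_ ?_)
      · rw [div_eq_mul_one_div]
        exact fvapp_mul (n1 j hj) (fvapp_inv hL hj) (by omega)
      · exact fvapp_mul ns (n1 j hj) (by omega)
  refine ⟨fun i => -(12 * i + 6) * ∑ j ∈ Ico i K, κ j, fun i => ?_, fun l hl => ?_⟩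
  · have a := fvapp_int (p := p) (-(12 * i + 6))
    push_cast at a
    refine fvapp_mul (n := 6 * L + 8) a ?_ (by omega)
    exact padicNorm.sum_le' (fun j hj => nκ j (mem_Ico.1 hj).2) (by positivity)
  · have nl : padicNorm p (l : ℚ) = 1 := (padicNorm.int_eq_one_iff l).2 hl
    have h0 : (l : ℚ) ≠ 0 := fvapp_ne nl
    have h12 : ∀ j : ℤ, (l : ℚ) ≠ 12 * j := fun j e => by
      have e' : l = 12 * j := by exact_mod_cast e
      refine hl (e' ▸ Dvd.dvd.mul_right ?_ j)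
      rcases hp with rfl | rfl <;> norm_num
    have hz : ∀ j, (l : ℚ) ^ 2 - aa j ≠ 0 := fun j => fvapp_ne (fvapp_unit hp hl j)
    have hA : ∀ j, aa j ≠ 0 := fun j => by
      rw [aa]
      positivity
    have base := pf_base K (pow_ne_zero 2 h0) fun j => sub_ne_zero.1 (hz j)
    have e : ∀ j ∈ range K, κ j * ((l : ℚ) / (l ^ 2 - aa j) - 1 / l) =
        -((b : ℚ) / l + c / l ^ 3 + c * s / l) * (bet K j / (l ^ 2 - aa j)) -
          c / l ^ 3 * (bet K j / aa j) := fun j _ => by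
      rw [hκ]
      exact fvapp_term _ _ _ _ _ _ h0 (hA j) (hz j)
    rw [TW_step κ K h12, sum_congr rfl e, sum_sub_distrib, ← mul_sum, ← mul_sum, ← hs, inc,
      fvapp_fin _ _ _ _ _ _ _ h0 (fvapp_ne (fvapp_units hp hl K)) base, padicNorm.neg,
      padicNorm.mul, padicNorm.div, fvapp_units hp hl K, div_one]
    have nk : ∀ k : ℕ, padicNorm p ((l : ℚ) ^ k) = 1 := fun k => by
      rw [IsAbsoluteValue.abv_pow (padicNorm p), nl, one_pow]
    have one : ∀ z : ℤ, padicNorm p (z : ℚ) ≤ (p : ℚ) ^ (6 * L + 8) := fun z =>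
      (padicNorm.of_int z).trans (one_le_pow₀ hp1)
    have nr : padicNorm p ((b : ℚ) / l ^ 3 + c / l ^ 5 + c * s / l ^ 3) ≤ (p : ℚ) ^ (6 * L + 8) := by
      refine padicNorm.nonarchimedean.trans (max_le (padicNorm.nonarchimedean.trans
        (max_le ?_ ?_)) ?_)
      · rw [padicNorm.div, nk, div_one]
        exact one b
      · rw [padicNorm.div, nk, div_one]
        exact one c
      · rw [padicNorm.div, nk, div_one]
        exact fvapp_mul (fvapp_int c) ns (by omega)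
    refine (mul_le_mul (fvapp_eps hp K) nr (padicNorm.nonneg _) (by positivity)).trans ?_
    rw [← zpow_natCast, ← zpow_add₀ hp0]
    push_cast
    exact le_of_eq (congrArg _ (by ring))

theorem ch_approx5 {a b c : ℤ} {f : Nd → ℚ} (h : Ch5 a b c f) {p ρ σ : ℕ} {e : Bool}
    (hG : Gd p e ρ σ) {K L : ℕ} (hL : 2 * K < p ^ (L + 1)) :
    ∃ (w : ℕ → ℚ) (c₀ : ℚ), (∀ i, padicNorm p (w i) ≤ (p : ℚ) ^ (6 * L + 8)) ∧
      padicNorm p c₀ ≤ (p : ℚ) ^ (6 * L + 8) ∧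
      (∀ i, padicNorm p (c₀ + TW w K (yy (e, i))) ≤ (p : ℚ) ^ (6 * L + 8)) ∧
      ∀ i, padicNorm p (f (e, i) - (c₀ + TW w K (yy (e, i))))
        ≤ (p : ℚ) ^ (6 * (L : ℤ) + 8 - 2 * K) := by
  have hp : p = 2 ∨ p = 3 := hG.imp (fun g => g.1) fun g => g.1
  have : Fact p.Prime := by
    rcases hp with rfl | rfl
    · exact Nat.fact_prime_two
    · exact Nat.fact_prime_three
  have hp1 : (1 : ℚ) ≤ p := by exact_mod_cast (Fact.out : p.Prime).one_le
  obtain ⟨w, hw, hs⟩ := pf_weights hp b c hL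
  have nT : ∀ i, padicNorm p (TW w K (yy (e, i))) ≤ (p : ℚ) ^ (6 * L + 8) := fun i =>
    fvapp_TW hp hw K (by simpa using good_unit hG i 0)
  have n0 : padicNorm p (f (e, 0)) ≤ (p : ℚ) ^ (6 * L + 8) := by
    cases e
    · rw [h.zA, padicNorm.zero]
      positivity
    · rw [h.zB]
      exact (padicNorm.of_int a).trans (one_le_pow₀ hp1)
  obtain ⟨c₀, hc⟩ : ∃ c₀, c₀ = f (e, 0) - TW w K (yy (e, 0)) := ⟨_, rfl⟩
  have nc : padicNorm p c₀ ≤ (p : ℚ) ^ (6 * L + 8) := by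
    rw [hc]
    exact padicNorm.sub.trans (max_le n0 (nT 0))
  refine ⟨w, c₀, hw, nc, fun i => padicNorm.nonarchimedean.trans (max_le nc (nT i)), fun i => ?_⟩
  have step : ∀ i : ℤ, padicNorm p
      ((f (e, i + 1) - (c₀ + TW w K (yy (e, i + 1)))) - (f (e, i) - (c₀ + TW w K (yy (e, i)))))
        ≤ (p : ℚ) ^ (6 * (L : ℤ) + 8 - 2 * K) := by
    intro i
    have h1 := hs (yy (e, i) + 6 * 1) (good_unit hG i 1)
    have e1 : ((yy (e, i + 1) : ℤ) : ℚ) = (yy (e, i) : ℚ) + 6 + 6 := by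
      simp only [yy]
      push_cast
      ring
    push_cast at h1
    rw [add_sub_cancel_right] at h1
    rw [h.step, e1, ← padicNorm.neg]
    refine le_of_eq_of_le (congrArg _ ?_) h1
    ring
  induction i using Int.induction_on with
  | zero =>
    rw [hc, sub_add_cancel, sub_self, padicNorm.zero]
    positivity
  | succ i ih =>
    have := (padicNorm.nonarchimedean (p := p)).trans (max_le (step i) ih)
    rwa [sub_add_cancel] at this
  | pred i ih =>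
    have h1 := step (-(i : ℤ) - 1)
    rw [sub_add_cancel] at h1
    have := (padicNorm.sub (p := p)).trans (max_le ih h1)
    rwa [sub_sub_cancel] at this

end Pool.Agent.FMZ
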