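import Pool.Agent.P.MP_cb43af_nt.FzNode

open Finset Filter Polynomial
namespace Pool.Agent.FMZ

variable {n m : ℕ} {x : Col m → Nd}

theorem fztwoa_W {ι : Type} [DecidableEq ι] {u : ι → ℤ} (hu : Function.Injective u) (S : Finset ι) :
    padicValInt 2 (WW u S) = ∑ i ∈ S, ∑ j ∈ S.erase i, padicValInt 2 (u i - u j) := by
  have h1 : ∀ i, ∀ j ∈ S.erase i, u i - u j ≠ 0 := fun i j hj =>
    sub_ne_zero.2 fun e => (mem_erase.1 hj).1 (hu e).symm
  rw [WW, valInt_prod 2 _ _ fun i _ => prod_ne_zero_iff.2 (h1 i)]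
  exact sum_congr rfl fun i _ => valInt_prod 2 _ _ (h1 i)

theorem fztwoa_odd {a b : Nd} (h : a.1 ≠ b.1) : padicValInt 2 (zz a - zz b) = 0 := by
  apply padicValInt.eq_zero_of_not_dvd
  obtain ⟨e, i⟩ := a
  obtain ⟨e', j⟩ := b
  have k1 : ∀ i : ℤ, ∃ c, zz (false, i) = 2 * c := fun i =>
    ⟨72 * i ^ 2 + 24 * i, by simp [zz, yy]; ring⟩
  have k2 : ∀ i : ℤ, ∃ c, zz (true, i) = 2 * c + 1 := fun i =>
    ⟨72 * i ^ 2 + 36 * i + 2, by simp [zz, yy]; ring⟩
  cases e <;> cases e'
  · exact absurd rfl h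
  · obtain ⟨c, hc⟩ := k1 i
    obtain ⟨d, hd⟩ := k2 j
    rw [hc, hd]; push_cast; omega
  · obtain ⟨c, hc⟩ := k2 i
    obtain ⟨d, hd⟩ := k1 j
    rw [hc, hd]; push_cast; omega
  · exact absurd rfl h

theorem fztwoa_half (_h : Sel n m x) (e : Bool) :
    ∑ i ∈ univ.filter (fun r => (x r).1 = e), ∑ j ∈ univ.erase i,
      padicValInt 2 (zz (x i) - zz (x j)) =
    ∑ i ∈ univ.filter (fun r => (x r).1 = e), ∑ j ∈ (univ.filter fun r => (x r).1 = e).erase i,
      padicValInt 2 (zz (x i) - zz (x j)) := by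
  refine sum_congr rfl fun i hi => (sum_subset (erase_subset_erase _ (subset_univ _)) ?_).symm
  intro j hj hn
  apply fztwoa_odd
  intro k
  exact hn (mem_erase.2 ⟨(mem_erase.1 hj).1, mem_filter.2 ⟨mem_univ _, k ▸ (mem_filter.1 hi).2⟩⟩)

theorem fztwoa_inj (h : Sel n m x) (e : Bool) :
    Set.InjOn (fun r => (x r).2) (univ.filter (fun r => (x r).1 = e) : Finset (Col m)) := by
  intro r hr s hs hrs
  have h1 := (mem_filter.1 (mem_coe.1 hr)).2
  have h2 := (mem_filter.1 (mem_coe.1 hs)).2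
  exact h.inj (Prod.ext (h1.trans h2.symm) hrs)

theorem fztwoa_mem (h : Sel n m x) (r : Col m) : (x r).2 ∈ Ico (-(n : ℤ)) n :=
  mem_Ico.2 (mem_nodes.1 (h.mem r))

theorem fztwoa_card (h : Sel n m x) (e : Bool) :
    (univ.filter fun r => (x r).1 = e).card ≤ 2 * n := by
  have := card_le_card_of_injOn (t := Ico (-(n : ℤ)) n) (fun r => (x r).2)
    (fun r _ => mem_coe.2 (fztwoa_mem h r)) (fztwoa_inj h e)
  rw [Int.card_Ico] at this
  omega

theorem fztwoa_geom (N L : ℕ) : ∑ k ∈ Icc 1 L, N / 2 ^ k + N / 2 ^ L ≤ N := by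
  induction L with
  | zero => simp
  | succ L ih =>
    rw [sum_Icc_succ_top (by omega), pow_succ, ← Nat.div_div_eq_div_mul]
    omega

theorem fztwoa_cnt (s : ℤ) (hs : Odd s) (t : ℤ) (n k : ℕ) :
    ((Ico (-(n : ℤ)) n).filter fun i => (2 : ℤ) ^ k ∣ s * i + t).card ≤ 2 * n / 2 ^ k + 1 := by
  have hd : (0 : ℤ) < 2 ^ k := by positivity
  have hco : IsCoprime ((2 : ℤ) ^ k) s := by
    apply IsCoprime.pow_left
    obtain ⟨c, rfl⟩ := hs
    exact ⟨-c, 1, by ring⟩
  rw [← card_range (2 * n / 2 ^ k + 1)]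
  refine card_le_card_of_injOn (fun i => (i + n).toNat / 2 ^ k) ?_ ?_
  · intro i hi
    have := mem_Ico.1 (mem_filter.1 (mem_coe.1 hi)).1
    refine mem_coe.2 (mem_range.2 (Nat.lt_succ_of_le (Nat.div_le_div_right ?_)))
    omega
  · intro i hi j hj hij
    obtain ⟨hi1, hi2⟩ := mem_filter.1 (mem_coe.1 hi)
    obtain ⟨hj1, hj2⟩ := mem_filter.1 (mem_coe.1 hj)
    have a1 := mem_Ico.1 hi1
    have a2 := mem_Ico.1 hj1
    have h1 : (2 : ℤ) ^ k ∣ i - j := by
      apply hco.dvd_of_dvd_mul_left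
      have := dvd_sub hi2 hj2
      rwa [show s * i + t - (s * j + t) = s * (i - j) by ring] at this
    have h2 : (i + n).toNat ≡ (j + n).toNat [MOD 2 ^ k] := by
      rw [Nat.modEq_iff_dvd, Int.toNat_of_nonneg (by omega), Int.toNat_of_nonneg (by omega)]
      push_cast
      rw [show j + n - (i + n) = -(i - j) by ring]
      exact h1.neg_right
    have h3 : (i + n).toNat = (j + n).toNat := by
      rw [← Nat.div_add_mod (i + n).toNat (2 ^ k), ← Nat.div_add_mod (j + n).toNat (2 ^ k)]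
      have hij' : (i + n).toNat / 2 ^ k = (j + n).toNat / 2 ^ k := hij
      rw [hij', h2]
    omega

theorem fztwoa_le {z : ℤ} {L : ℕ} (h : |z| < 2 ^ (L + 1)) :
    padicValInt 2 z ≤ ((Icc 1 L).filter fun k => (2 : ℤ) ^ k ∣ z).card := by
  by_cases hz : z = 0
  · simp [hz]
  have hv : padicValInt 2 z ≤ L := by
    by_contra hc
    have : ((2 : ℕ) : ℤ) ^ (L + 1) ∣ z := (padicValInt_dvd_iff _ _).2 (Or.inr (by omega))
    have := Int.le_of_dvd (abs_pos.2 hz) ((dvd_abs _ _).2 this)
    push_cast at this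
    omega
  calc padicValInt 2 z = (Icc 1 (padicValInt 2 z)).card := by simp
    _ ≤ _ := by
      refine card_le_card fun k hk => mem_filter.2 ⟨?_, ?_⟩
      · have := mem_Icc.1 hk
        exact mem_Icc.2 ⟨this.1, by omega⟩
      · have : ((2 : ℕ) : ℤ) ^ k ∣ z := (padicValInt_dvd_iff _ _).2 (Or.inr (mem_Icc.1 hk).2)
        exact_mod_cast this

theorem two_split (h : Sel n m x) : padicValInt 2 (WW (fun r => zz (x r)) univ)
    = padicValInt 2 (WW (fun r => zz (x r)) (univ.filter fun r => (x r).1 = false))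
      + padicValInt 2 (WW (fun r => zz (x r)) (univ.filter fun r => (x r).1 = true)) := by
  rw [fztwoa_W h.zinj, fztwoa_W h.zinj, fztwoa_W h.zinj, ← fztwoa_half h, ← fztwoa_half h,
    ← sum_filter_add_sum_filter_not univ (fun r => (x r).1 = false)]
  simp

theorem two_B (h : Sel n m x) {k : ℕ} (hk : (univ.filter fun r => (x r).1 = true).card = k) :
    3 * (k * (k - 1)) ≤
      padicValInt 2 (WW (fun r => zz (x r)) (univ.filter fun r => (x r).1 = true)) := by
  rw [fztwoa_W h.zinj]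
  calc 3 * (k * (k - 1)) = ∑ i ∈ univ.filter (fun r => (x r).1 = true),
        ∑ j ∈ (univ.filter fun r => (x r).1 = true).erase i, 3 := by
        rw [sum_congr rfl fun i hi => by rw [sum_const, card_erase_of_mem hi], sum_const, hk]
        simp only [smul_eq_mul]
        ring
    _ ≤ _ := by
        refine sum_le_sum fun i hi => sum_le_sum fun j hj => ?_
        have hne : zz (x i) - zz (x j) ≠ 0 :=
          sub_ne_zero.2 fun e => (mem_erase.1 hj).1 (h.zinj e).symm
        have h1 := (mem_filter.1 hi).2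
        have h2 := (mem_filter.1 (mem_erase.1 hj).2).2
        have : ((2 : ℕ) : ℤ) ^ 3 ∣ zz (x i) - zz (x j) :=
          ⟨9 * ((x i).2 - (x j).2) * (2 * ((x i).2 + (x j).2) + 1), by
            simp only [zz, yy, h1, h2, if_true]; push_cast; ring⟩
        exact ((padicValInt_dvd_iff _ _).1 this).resolve_left hne

theorem two_card (h : Sel n m x) : 2 * n ≤ (univ.filter fun r => (x r).1 = true).card + 2 ∧
    (univ.filter fun r => (x r).1 = true).card ≤ 2 * n := by
  refine ⟨?_, fztwoa_card h true⟩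
  have h1 := fztwoa_card h false
  have h2 := card_filter_add_card_filter_not (s := (univ : Finset (Col m))) (fun r => (x r).1 = true)
  have h3 : (univ : Finset (Col m)).card = m + m := by simp
  have h4 := h.hm
  simp only [Bool.not_eq_true] at h2
  omega

theorem ap_val (s : ℤ) (hs : Odd s) (t : ℤ) (n L : ℕ)
    (hL : ∀ i ∈ Ico (-(n : ℤ)) n, |s * i + t| < 2 ^ (L + 1)) :
    ∑ i ∈ Ico (-(n : ℤ)) n, padicValInt 2 (s * i + t) ≤ 2 * n + L := by
  calc _ ≤ ∑ i ∈ Ico (-(n : ℤ)) n, ((Icc 1 L).filter fun k => (2 : ℤ) ^ k ∣ s * i + t).card :=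
        sum_le_sum fun i hi => fztwoa_le (hL i hi)
    _ = ∑ k ∈ Icc 1 L, ((Ico (-(n : ℤ)) n).filter fun i => (2 : ℤ) ^ k ∣ s * i + t).card := by
        simp only [card_filter]
        exact sum_comm
    _ ≤ ∑ k ∈ Icc 1 L, (2 * n / 2 ^ k + 1) := sum_le_sum fun k _ => fztwoa_cnt s hs t n k
    _ ≤ _ := by
        rw [sum_add_distrib]
        have := le_trans (Nat.le_add_right _ _) (fztwoa_geom (2 * n) L)
        simp only [sum_const, Nat.card_Icc, smul_eq_mul]
        omega

theorem two_A (h : Sel n m x) {L : ℕ} (hL : 6 * n ≤ 2 ^ (L + 1)) :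
    padicValInt 2 (WW (fun r => zz (x r)) (univ.filter fun r => (x r).1 = false))
      ≤ 2 * n * (12 * n + 2 * L) := by
  rw [fztwoa_W h.zinj]
  have hL' : 6 * (n : ℤ) ≤ 2 ^ (L + 1) := by exact_mod_cast hL
  have key : ∀ i ∈ univ.filter (fun r => (x r).1 = false),
      ∑ j ∈ (univ.filter fun r => (x r).1 = false).erase i, padicValInt 2 (zz (x i) - zz (x j))
        ≤ 12 * n + 2 * L := by
    intro i hi
    have h1 := (mem_filter.1 hi).2
    have mi := mem_Ico.1 (fztwoa_mem h i)
    have e : ∀ j ∈ (univ.filter fun r => (x r).1 = false).erase i,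
        padicValInt 2 (zz (x i) - zz (x j)) = (fun c : ℤ => 4 + padicValInt 2 (-1 * c + (x i).2) +
          padicValInt 2 (3 * c + (3 * (x i).2 + 1))) (x j).2 := by
      intro j hj
      have h2 := (mem_filter.1 (mem_erase.1 hj).2).2
      have hne : -1 * (x j).2 + (x i).2 ≠ 0 := fun k =>
        (mem_erase.1 hj).1 (h.inj (Prod.ext (h2.trans h1.symm) (by omega)))
      have hne2 : 3 * (x j).2 + (3 * (x i).2 + 1) ≠ 0 := by omega
      have e1 : zz (x i) - zz (x j) =
          48 * (-1 * (x j).2 + (x i).2) * (3 * (x j).2 + (3 * (x i).2 + 1)) := by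
        simp only [zz, yy, h1, h2, Bool.false_eq_true, if_false]; ring
      have e2 : padicValInt 2 48 = 4 := by
        rw [show (48 : ℤ) = ((2 ^ 4 * 3 : ℕ) : ℤ) by norm_num, padicValInt.of_nat,
          padicValNat.mul (by norm_num) (by norm_num), padicValNat.prime_pow,
          padicValNat.eq_zero_of_not_dvd (by norm_num)]
      rw [e1, padicValInt.mul (mul_ne_zero (by norm_num) hne) hne2,
        padicValInt.mul (by norm_num) hne, e2]
    rw [sum_congr rfl e, ← sum_image (s := (univ.filter fun r => (x r).1 = false).erase i)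
      (g := fun r => (x r).2) (f := fun c : ℤ => 4 + padicValInt 2 (-1 * c + (x i).2) +
          padicValInt 2 (3 * c + (3 * (x i).2 + 1)))
      ((fztwoa_inj h false).mono (coe_subset.2 (erase_subset _ _)))]
    have hsub : ((univ.filter fun r => (x r).1 = false).erase i).image (fun r => (x r).2) ⊆
        Ico (-(n : ℤ)) n := image_subset_iff.2 fun r _ => fztwoa_mem h r
    refine (sum_le_sum_of_subset hsub).trans ?_
    have a1 := ap_val (-1) (by decide) (x i).2 n L fun c hc => by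
      have := mem_Ico.1 hc
      rw [abs_lt]; constructor <;> omega
    have a2 := ap_val 3 (by decide) (3 * (x i).2 + 1) n L fun c hc => by
      have := mem_Ico.1 hc
      rw [abs_lt]; constructor <;> omega
    rw [sum_add_distrib, sum_add_distrib, sum_const, Int.card_Ico, smul_eq_mul]
    omega
  refine (sum_le_sum key).trans ?_
  rw [sum_const, smul_eq_mul]
  exact Nat.mul_le_mul_right _ (fztwoa_card h false)


end Pool.Agent.FMZ
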