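import Pool.Agent.P.MP_cb43af_nt.Fv0
import Pool.Agent.P.MP_cb43af_nt.FzTwoA

open Finset Filter Polynomial Topology
namespace Pool.Agent.FMZ

variable {n m : ℕ} {x : Col m → Nd}

theorem chn_card (h : Sel n m x) (e : Bool) :
    2 * n ≤ (chn x e).card + 2 ∧ (chn x e).card ≤ 2 * n := by
  refine ⟨?_, fztwoa_card h e⟩
  have h1 := fztwoa_card h (!e)
  have h2 := card_filter_add_card_filter_not (s := (univ : Finset (Col m))) (fun r => (x r).1 = e)
  have h3 : (univ : Finset (Col m)).card = m + m := by simp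
  have h4 := h.hm
  have h5 : (univ.filter fun r => ¬ (x r).1 = e) = univ.filter fun r => (x r).1 = !e :=
    filter_congr fun r _ => by cases (x r).1 <;> cases e <;> simp
  rw [h5] at h2
  unfold chn
  omega

theorem fvwa_W {ι : Type} [DecidableEq ι] {u : ι → ℤ} (hu : Function.Injective u) (S : Finset ι) :
    padicValInt 3 (WW u S) = ∑ i ∈ S, ∑ j ∈ S.erase i, padicValInt 3 (u i - u j) := by
  have h1 : ∀ i, ∀ j ∈ S.erase i, u i - u j ≠ 0 := fun i j hj =>
    sub_ne_zero.2 fun e => (mem_erase.1 hj).1 (hu e).symm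
  rw [WW, valInt_prod 3 _ _ fun i _ => prod_ne_zero_iff.2 (h1 i)]
  exact sum_congr rfl fun i _ => valInt_prod 3 _ _ (h1 i)

theorem fvwa_odd {a b : Nd} (h : a.1 ≠ b.1) : padicValInt 3 (zz a - zz b) = 0 := by
  apply padicValInt.eq_zero_of_not_dvd
  obtain ⟨e, i⟩ := a
  obtain ⟨e', j⟩ := b
  have k1 : ∀ i : ℤ, ∃ c, zz (false, i) = 3 * c := fun i =>
    ⟨48 * i ^ 2 + 16 * i, by simp [zz, yy]; ring⟩
  have k2 : ∀ i : ℤ, ∃ c, zz (true, i) = 3 * c + 2 := fun i =>
    ⟨48 * i ^ 2 + 24 * i + 1, by simp [zz, yy]; ring⟩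
  cases e <;> cases e'
  · exact absurd rfl h
  · obtain ⟨c, hc⟩ := k1 i
    obtain ⟨d, hd⟩ := k2 j
    rw [hc, hd]; push_cast; omega
  · obtain ⟨c, hc⟩ := k2 i
    obtain ⟨d, hd⟩ := k1 j
    rw [hc, hd]; push_cast; omega
  · exact absurd rfl h

theorem fvwa_half (e : Bool) :
    ∑ i ∈ univ.filter (fun r => (x r).1 = e), ∑ j ∈ univ.erase i,
      padicValInt 3 (zz (x i) - zz (x j)) =
    ∑ i ∈ univ.filter (fun r => (x r).1 = e), ∑ j ∈ (univ.filter fun r => (x r).1 = e).erase i,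
      padicValInt 3 (zz (x i) - zz (x j)) := by
  refine sum_congr rfl fun i hi => (sum_subset (erase_subset_erase _ (subset_univ _)) ?_).symm
  intro j hj hn
  apply fvwa_odd
  intro k
  exact hn (mem_erase.2 ⟨(mem_erase.1 hj).1, mem_filter.2 ⟨mem_univ _, k ▸ (mem_filter.1 hi).2⟩⟩)

theorem w_split (h : Sel n m x) {p ρ σ : ℕ} {e : Bool} (hG : Gd p e ρ σ) :
    padicValInt p (WW (fun r => zz (x r)) univ)
      = padicValInt p (WW (fun r => zz (x r)) (chn x e))
        + padicValInt p (WW (fun r => zz (x r)) (chn x (!e))) := by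
  rcases hG with ⟨rfl, rfl, rfl, rfl⟩ | ⟨rfl, rfl, rfl, rfl⟩
  · rw [two_split h, add_comm]
    rfl
  · simp only [chn, Bool.not_false]
    rw [fvwa_W h.zinj, fvwa_W h.zinj, fvwa_W h.zinj, ← fvwa_half, ← fvwa_half,
      ← sum_filter_add_sum_filter_not univ (fun r => (x r).1 = false)]
    simp

theorem fvwa_geom (N L : ℕ) : 2 * ∑ k ∈ Icc 1 L, N / 3 ^ k + N / 3 ^ L ≤ N := by
  induction L with
  | zero => simp
  | succ L ih =>
    rw [sum_Icc_succ_top (by omega), pow_succ, ← Nat.div_div_eq_div_mul]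
    omega

theorem fvwa_cnt (s : ℤ) (hs : ¬ (3 : ℤ) ∣ s) (t : ℤ) (n k : ℕ) :
    ((Ico (-(n : ℤ)) n).filter fun i => (3 : ℤ) ^ k ∣ s * i + t).card ≤ 2 * n / 3 ^ k + 1 := by
  have hd : (0 : ℤ) < 3 ^ k := by positivity
  have hco : IsCoprime ((3 : ℤ) ^ k) s :=
    IsCoprime.pow_left ((Prime.coprime_iff_not_dvd Int.prime_three).2 hs)
  rw [← card_range (2 * n / 3 ^ k + 1)]
  refine card_le_card_of_injOn (fun i => (i + n).toNat / 3 ^ k) ?_ ?_
  · intro i hi
    have := mem_Ico.1 (mem_filter.1 (mem_coe.1 hi)).1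
    refine mem_coe.2 (mem_range.2 (Nat.lt_succ_of_le (Nat.div_le_div_right ?_)))
    omega
  · intro i hi j hj hij
    obtain ⟨hi1, hi2⟩ := mem_filter.1 (mem_coe.1 hi)
    obtain ⟨hj1, hj2⟩ := mem_filter.1 (mem_coe.1 hj)
    have a1 := mem_Ico.1 hi1
    have a2 := mem_Ico.1 hj1
    have h1 : (3 : ℤ) ^ k ∣ i - j := by
      apply hco.dvd_of_dvd_mul_left
      have := dvd_sub hi2 hj2
      rwa [show s * i + t - (s * j + t) = s * (i - j) by ring] at this
    have h2 : (i + n).toNat ≡ (j + n).toNat [MOD 3 ^ k] := by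
      rw [Nat.modEq_iff_dvd, Int.toNat_of_nonneg (by omega), Int.toNat_of_nonneg (by omega)]
      push_cast
      rw [show j + n - (i + n) = -(i - j) by ring]
      exact h1.neg_right
    have h3 : (i + n).toNat = (j + n).toNat := by
      rw [← Nat.div_add_mod (i + n).toNat (3 ^ k), ← Nat.div_add_mod (j + n).toNat (3 ^ k)]
      have hij' : (i + n).toNat / 3 ^ k = (j + n).toNat / 3 ^ k := hij
      rw [hij', h2]
    omega

theorem fvwa_le {z : ℤ} {L : ℕ} (h : |z| < 3 ^ (L + 1)) :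
    padicValInt 3 z ≤ ((Icc 1 L).filter fun k => (3 : ℤ) ^ k ∣ z).card := by
  by_cases hz : z = 0
  · simp [hz]
  have hv : padicValInt 3 z ≤ L := by
    by_contra hc
    have : ((3 : ℕ) : ℤ) ^ (L + 1) ∣ z := (padicValInt_dvd_iff _ _).2 (Or.inr (by omega))
    have := Int.le_of_dvd (abs_pos.2 hz) ((dvd_abs _ _).2 this)
    push_cast at this
    omega
  calc padicValInt 3 z = (Icc 1 (padicValInt 3 z)).card := by simp
    _ ≤ _ := by
      refine card_le_card fun k hk => mem_filter.2 ⟨?_, ?_⟩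
      · have := mem_Icc.1 hk
        exact mem_Icc.2 ⟨this.1, by omega⟩
      · have : ((3 : ℕ) : ℤ) ^ k ∣ z := (padicValInt_dvd_iff _ _).2 (Or.inr (mem_Icc.1 hk).2)
        exact_mod_cast this

theorem ap_val3 (s : ℤ) (hs : ¬ (3 : ℤ) ∣ s) (t : ℤ) (n L : ℕ)
    (hL : ∀ i ∈ Ico (-(n : ℤ)) n, |s * i + t| < 3 ^ (L + 1)) :
    ∑ i ∈ Ico (-(n : ℤ)) n, padicValInt 3 (s * i + t) ≤ n + L := by
  calc _ ≤ ∑ i ∈ Ico (-(n : ℤ)) n, ((Icc 1 L).filter fun k => (3 : ℤ) ^ k ∣ s * i + t).card :=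
        sum_le_sum fun i hi => fvwa_le (hL i hi)
    _ = ∑ k ∈ Icc 1 L, ((Ico (-(n : ℤ)) n).filter fun i => (3 : ℤ) ^ k ∣ s * i + t).card := by
        simp only [card_filter]
        exact sum_comm
    _ ≤ ∑ k ∈ Icc 1 L, (2 * n / 3 ^ k + 1) := sum_le_sum fun k _ => fvwa_cnt s hs t n k
    _ ≤ _ := by
        rw [sum_add_distrib]
        have := le_trans (Nat.le_add_right _ _) (fvwa_geom (2 * n) L)
        simp only [sum_const, Nat.card_Icc, smul_eq_mul]
        omega

theorem fvwa_three (h : Sel n m x) {L : ℕ} (hL : 6 * n ≤ 3 ^ (L + 1)) :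
    padicValInt 3 (WW (fun r => zz (x r)) (univ.filter fun r => (x r).1 = true))
      ≤ 2 * n * (6 * n + 2 * L) := by
  rw [fvwa_W h.zinj]
  have hL' : 6 * (n : ℤ) ≤ 3 ^ (L + 1) := by exact_mod_cast hL
  have key : ∀ i ∈ univ.filter (fun r => (x r).1 = true),
      ∑ j ∈ (univ.filter fun r => (x r).1 = true).erase i, padicValInt 3 (zz (x i) - zz (x j))
        ≤ 6 * n + 2 * L := by
    intro i hi
    have h1 := (mem_filter.1 hi).2
    have mi := mem_Ico.1 (fztwoa_mem h i)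
    have e : ∀ j ∈ (univ.filter fun r => (x r).1 = true).erase i,
        padicValInt 3 (zz (x i) - zz (x j)) = (fun c : ℤ => 2 + padicValInt 3 (-1 * c + (x i).2) +
          padicValInt 3 (2 * c + (2 * (x i).2 + 1))) (x j).2 := by
      intro j hj
      have h2 := (mem_filter.1 (mem_erase.1 hj).2).2
      have hne : -1 * (x j).2 + (x i).2 ≠ 0 := fun k =>
        (mem_erase.1 hj).1 (h.inj (Prod.ext (h2.trans h1.symm) (by omega)))
      have hne2 : 2 * (x j).2 + (2 * (x i).2 + 1) ≠ 0 := by omega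
      have e1 : zz (x i) - zz (x j) =
          72 * (-1 * (x j).2 + (x i).2) * (2 * (x j).2 + (2 * (x i).2 + 1)) := by
        simp only [zz, yy, h1, h2, if_true]; ring
      have e2 : padicValInt 3 72 = 2 := by
        rw [show (72 : ℤ) = ((3 ^ 2 * 8 : ℕ) : ℤ) by norm_num, padicValInt.of_nat,
          padicValNat.mul (by norm_num) (by norm_num), padicValNat.prime_pow,
          padicValNat.eq_zero_of_not_dvd (by norm_num)]
      rw [e1, padicValInt.mul (mul_ne_zero (by norm_num) hne) hne2,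
        padicValInt.mul (by norm_num) hne, e2]
    rw [sum_congr rfl e, ← sum_image (s := (univ.filter fun r => (x r).1 = true).erase i)
      (g := fun r => (x r).2) (f := fun c : ℤ => 2 + padicValInt 3 (-1 * c + (x i).2) +
          padicValInt 3 (2 * c + (2 * (x i).2 + 1)))
      ((fztwoa_inj h true).mono (coe_subset.2 (erase_subset _ _)))]
    have hsub : ((univ.filter fun r => (x r).1 = true).erase i).image (fun r => (x r).2) ⊆
        Ico (-(n : ℤ)) n := image_subset_iff.2 fun r _ => fztwoa_mem h r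
    refine (sum_le_sum_of_subset hsub).trans ?_
    have a1 := ap_val3 (-1) (by decide) (x i).2 n L fun c hc => by
      have := mem_Ico.1 hc
      rw [abs_lt]; constructor <;> omega
    have a2 := ap_val3 2 (by decide) (2 * (x i).2 + 1) n L fun c hc => by
      have := mem_Ico.1 hc
      rw [abs_lt]; constructor <;> omega
    rw [sum_add_distrib, sum_add_distrib, sum_const, Int.card_Ico, smul_eq_mul]
    omega
  refine (sum_le_sum key).trans ?_
  rw [sum_const, smul_eq_mul]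
  exact Nat.mul_le_mul_right _ (fztwoa_card h true)

theorem w_bad (h : Sel n m x) {p ρ σ : ℕ} {e : Bool} (hG : Gd p e ρ σ) {L : ℕ}
    (hL : 6 * n ≤ p ^ (L + 1)) :
    padicValInt p (WW (fun r => zz (x r)) (chn x (!e))) ≤ 2 * n * (ρ * (2 * n) + 2 * L) := by
  rcases hG with ⟨rfl, rfl, rfl, rfl⟩ | ⟨rfl, rfl, rfl, rfl⟩
  · rw [show 6 * (2 * n) = 12 * n by ring]
    exact two_A h hL
  · rw [show 3 * (2 * n) = 6 * n by ring]
    exact fvwa_three h hL

end Pool.Agent.FMZ
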