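import Pool.Agent.P.MP_cb43af_nt.FvLim
import Pool.Agent.P.MP_cb43af_nt.FvWa

open Finset Filter Polynomial Topology
namespace Pool.Agent.FMZ

theorem rate_expl {a b c : ℤ} {f : Nd → ℚ} (h : Ch5 a b c f) {n m : ℕ} {x : Col m → Nd}
    (hx : Sel n m x) (hD : DD m f x ≠ 0) {p ρ σ : ℕ} {e : Bool} (hG : Gd p e ρ σ) {K L : ℕ}
    (hL : 24 * n + 12 * K < p ^ (L + 1)) (hK : (18 + 4 * L) * n ^ 2 ≤ K) :
    (4 * ρ + 2 * σ : ℤ) * n ^ 2 - 400 * n * (L + 1) ≤ padicValRat p (qq m f x) := by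
  have hp : p.Prime := by
    rcases hG with ⟨rfl, -⟩ | ⟨rfl, -⟩
    exacts [Nat.prime_two, Nat.prime_three]
  haveI : Fact p.Prime := ⟨hp⟩
  have a1 := rate_lim h hx hD hG hL hK rfl
  have a2 := val_qq p hx hD
  have a3 := w_split hx hG
  have a4 := w_bad hx hG (L := L) (by omega)
  have a5 := w_good hx hG (L := L) rfl (by omega)
  have a6 := chn_card hx e
  have a7 := hx.hm
  generalize (chn x e).card = k at a1 a5 a6
  rw [a3] at a2
  generalize padicValInt p (WW (fun r => zz (x r)) (chn x e)) = B at a1 a2 a5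
  generalize padicValInt p (WW (fun r => zz (x r)) (chn x (!e))) = A at a2 a4
  have hk : ((k * (k - 1) : ℕ) : ℤ) = k * (k - 1) := by cases k <;> simp
  have b5 : (σ : ℤ) * (k * (k - 1)) ≤ 2 * B + 4 * k * (L + 1) := by
    rw [← hk]
    exact_mod_cast a5
  have b4 : (A : ℤ) ≤ 2 * n * (ρ * (2 * n) + 2 * L) := by exact_mod_cast a4
  have hm : (m : ℤ) = 2 * n - 1 := by omega
  have hL0 : (0 : ℤ) ≤ L := Nat.cast_nonneg L
  have hn0 : (0 : ℤ) ≤ n := Nat.cast_nonneg n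
  have hnL := mul_nonneg hn0 hL0
  push_cast at a2
  rw [hm] at a1
  rcases hG with ⟨-, -, rfl, rfl⟩ | ⟨-, -, rfl, rfl⟩ <;> push_cast at a1 b4 b5 ⊢ <;>
    rcases (by omega : (k : ℤ) = 2 * n ∨ (k : ℤ) = 2 * n - 1 ∨ (k : ℤ) = 2 * n - 2) with
      e | e | e <;> rw [e] at a1 b5 <;> nlinarith

theorem fvbd_log {δ : ℝ} (hδ : 0 < δ) :
    ∀ᶠ n : ℕ in atTop, ∀ L : ℕ, 2 ^ L ≤ 36 * n ^ 3 → (L : ℝ) + 1 ≤ δ * n := by
  have h1 := tendsto_natCast_atTop_atTop.eventually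
    (Real.isLittleO_log_id_atTop.bound (show 0 < δ / 12 by positivity))
  filter_upwards [h1, tendsto_natCast_atTop_atTop.eventually_ge_atTop (142 / δ),
    eventually_ge_atTop 1] with n n1 n2 n3 L hL
  have n0 : (0 : ℝ) < n := by exact_mod_cast n3
  have h2 : (2 : ℝ) ^ L ≤ 36 * (n : ℝ) ^ 3 := by exact_mod_cast hL
  have h3 := Real.log_le_log (by positivity) h2
  rw [Real.log_pow, Real.log_mul (by norm_num) (by positivity), Real.log_pow] at h3
  have h4 := Real.log_le_sub_one_of_pos (show (0 : ℝ) < 36 by norm_num)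
  have h5 := Real.log_two_gt_d9
  have h6 : (0 : ℝ) ≤ L := Nat.cast_nonneg L
  rw [Real.norm_eq_abs, id, Real.norm_eq_abs, abs_of_pos n0] at n1
  have h7 := le_abs_self (Real.log n)
  rw [div_le_iff₀ hδ] at n2
  push_cast at h3
  nlinarith

theorem rate_bound {a b c : ℤ} {f : Nd → ℚ} (h : Ch5 a b c f) {p ρ σ : ℕ} {e : Bool}
    (hG : Gd p e ρ σ) {ε : ℝ} (hε : 0 < ε) :
    ∀ᶠ n : ℕ in atTop, ∀ m x, Sel n m x → DD m f x ≠ 0 →
      (4 * ρ + 2 * σ - ε) * n ^ 2 ≤ (padicValRat p (qq m f x) : ℝ) := by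
  have hp : 2 ≤ p := by
    rcases hG with ⟨rfl, -⟩ | ⟨rfl, -⟩ <;> norm_num
  filter_upwards [fvbd_log (show 0 < ε / 400 by positivity),
    fvbd_log (show (0 : ℝ) < 1 / 18 by norm_num), eventually_ge_atTop 1] with n n1 n2 n3 m x hx hD
  set L := Nat.log p (24 * n + 12 * n ^ 3) with hL
  have l1 : 24 * n + 12 * n ^ 3 < p ^ (L + 1) := Nat.lt_pow_succ_log_self (by omega) _
  have l2 : p ^ L ≤ 24 * n + 12 * n ^ 3 := Nat.pow_log_le_self _ (by omega)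
  have l3 : n ≤ n ^ 3 := Nat.le_self_pow (by norm_num) n
  have l4 : 2 ^ L ≤ 36 * n ^ 3 := (Nat.pow_le_pow_left hp L).trans (by omega)
  have b1 := n1 L l4
  have b2 := n2 L l4
  have l5 : 18 + 4 * L ≤ n := by
    have h0 : (0 : ℝ) ≤ L := Nat.cast_nonneg L
    have : ((18 + 4 * L : ℕ) : ℝ) ≤ n := by
      push_cast
      linarith
    exact_mod_cast this
  have key := rate_expl h hx hD hG l1 (by
    calc (18 + 4 * L) * n ^ 2 ≤ n * n ^ 2 := Nat.mul_le_mul_right _ l5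
      _ = n ^ 3 := by ring)
  have key' : (4 * ρ + 2 * σ : ℝ) * (n : ℝ) ^ 2 - 400 * n * (L + 1) ≤
      (padicValRat p (qq m f x) : ℝ) := by
    exact_mod_cast key
  have n0 : (0 : ℝ) ≤ n := Nat.cast_nonneg n
  have b3 := mul_le_mul_of_nonneg_left b1 n0
  nlinarith

end Pool.Agent.FMZ
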