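import Pool.Agent.P.MP_cb43af_nt.Fv0

open Finset Filter Polynomial Topology
namespace Pool.Agent.FMZ

theorem fvcol_eval {m : ℕ} (P : ℚ[X]) (h : P.degree < m) (x : ℚ) :
    ∑ i : Fin m, x ^ (i : ℕ) * P.coeff i = P.eval x := by
  conv_rhs => rw [← Polynomial.sum_C_mul_X_pow_eq P]
  rw [← Polynomial.sum_fin _ (by simp) h, eval_finsetSum]
  exact sum_congr rfl fun i _ => by rw [eval_mul, eval_C, eval_pow, eval_X, mul_comm]

theorem fvcol_expand (K : ℕ) {u t : ℚ} (hu : NN K u ≠ 0) (ht : u - t ≠ 0) :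
    1 / (u - t) = ∑ j ∈ range K, NN j t / NN (j + 1) u + NN K t / (NN K u * (u - t)) := by
  induction K with
  | zero => simp [NN]
  | succ K ih =>
    have e : ∀ v, NN (K + 1) v = NN K v * (v - (12 * K + 6) ^ 2) := fun v => prod_range_succ _ _
    rw [e] at hu
    have h1 := left_ne_zero_of_mul hu
    have h2 := right_ne_zero_of_mul hu
    rw [sum_range_succ, ih h1, e, e, add_assoc]
    congr 1
    generalize ((12 * K + 6 : ℚ)) ^ 2 = s at h2
    field_simp
    ring

theorem col_ops {m : ℕ} (z g : Col m → ℚ) (A B : Fin m → ℚ[X]) (hA : ∀ k, (A k).Monic)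
    (hd : ∀ k, (A k).natDegree = k) (hB : ∀ k, (B k).degree < m) :
    DG m z g = Matrix.det (Matrix.of fun r => Sum.elim (fun k => (A k).eval (z r))
      (fun k => g r * (A k).eval (z r) - (B k).eval (z r))) := by
  have hU := Matrix.det_matrixOfPolynomials A hd hA
  have hdeg : ∀ k, (A k).degree < m := fun k => by
    rw [degree_eq_natDegree (hA k).ne_zero, hd]
    exact_mod_cast k.2
  have hM : (Matrix.of fun r => Sum.elim (fun k => (A k).eval (z r))
      (fun k => g r * (A k).eval (z r) - (B k).eval (z r)) : Matrix (Col m) (Col m) ℚ) =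
      (Matrix.of fun r => rowv m (z r) 1 (g r)) * Matrix.fromBlocks
        (Matrix.of fun i j : Fin m => (A j).coeff i) (Matrix.of fun i j : Fin m => -(B j).coeff i) 0
        (Matrix.of fun i j : Fin m => (A j).coeff i) := by
    ext r c
    rw [Matrix.mul_apply, Fintype.sum_sum_type]
    rcases c with k | k
    · simp [rowv, fvcol_eval _ (hdeg k)]
    · simp only [rowv, Matrix.of_apply, Sum.elim_inl, Sum.elim_inr, Matrix.fromBlocks_apply₁₂,
        Matrix.fromBlocks_apply₂₂, one_mul, mul_neg, sum_neg_distrib, mul_assoc, ← mul_sum,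
        fvcol_eval _ (hdeg k), fvcol_eval _ (hB k)]
      ring
  rw [hM, Matrix.det_mul, Matrix.det_fromBlocks_zero₂₁, hU, DG]
  ring

theorem inv_expand {K i : ℕ} (hi : i < K) {u : ℚ} (hu : NN K u ≠ 0) :
    1 / (u - (12 * i + 6) ^ 2) = ∑ j ∈ range K, NN j ((12 * i + 6) ^ 2) / NN (j + 1) u := by
  have h0 : NN K ((12 * i + 6) ^ 2) = 0 := prod_eq_zero (mem_range.2 hi) (sub_self _)
  have ht : u - (12 * i + 6) ^ 2 ≠ 0 := fun h => hu (prod_eq_zero (mem_range.2 hi) h)
  rw [fvcol_expand K hu ht, h0, zero_div, add_zero]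

/-- the polynomial part of `NN k * TW` -/
theorem poly_part (w : ℕ → ℚ) (c₀ : ℚ) (K k : ℕ) : ∃ B : ℚ[X], B.degree < (k + 1 : ℕ) ∧
    ∀ y : ℚ, (∀ i : ℕ, y ^ 2 ≠ (12 * i + 6) ^ 2) → B.eval (y ^ 2 - 4) = c₀ * NN k (y ^ 2)
      + ∑ i ∈ range K, w i * (NN k (y ^ 2) - NN k ((12 * i + 6) ^ 2)) / (y ^ 2 - (12 * i + 6) ^ 2) := by
  set A : ℚ[X] := ∏ i ∈ range k, (X - C ((12 * (i : ℚ) + 6) ^ 2 - 4)) with hA
  have hAe : ∀ v : ℚ, A.eval (v - 4) = NN k v := fun v => by
    rw [hA, eval_prod, NN]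
    exact prod_congr rfl fun i _ => by simp
  have hAd : A.degree ≤ k := by
    rw [hA, degree_prod]
    simp only [degree_X_sub_C, sum_const, card_range, nsmul_eq_mul, mul_one, le_refl]
  refine ⟨C c₀ * A + ∑ i ∈ range K, C (w i) * (A /ₘ (X - C ((12 * (i : ℚ) + 6) ^ 2 - 4))), ?_,
    fun y hy => ?_⟩
  · have hk : (k : WithBot ℕ) < (k + 1 : ℕ) := by exact_mod_cast Nat.lt_succ_self k
    refine lt_of_le_of_lt ((degree_add_le _ _).trans (max_le ?_ ?_)) hk
    · rw [C_mul']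
      exact (degree_smul_le _ _).trans hAd
    · refine (degree_sum_le _ _).trans (Finset.sup_le fun i _ => ?_)
      rw [C_mul']
      exact (degree_smul_le _ _).trans ((degree_divByMonic_le _ _).trans hAd)
  · rw [eval_add, eval_mul, eval_C, hAe, eval_finsetSum]
    congr 1
    refine sum_congr rfl fun i _ => ?_
    have h := congrArg (eval (y ^ 2 - 4))
      (X_sub_C_mul_divByMonic_eq_sub_modByMonic A ((12 * (i : ℚ) + 6) ^ 2 - 4))
    rw [modByMonic_X_sub_C_eq_C_eval, eval_mul, eval_sub, eval_sub, eval_X, eval_C, eval_C, hAe,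
      hAe, sub_sub_sub_cancel_right] at h
    rw [eval_mul, eval_C, ← h, mul_div_assoc, mul_div_cancel_left₀ _ (sub_ne_zero.2 (hy i))]

end Pool.Agent.FMZ
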