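import Pool.Agent.P.MP_cb43af_nt.FzDual

open Finset Filter Polynomial Topology
namespace Pool.Agent.FMZ

theorem fzdu_ss {φ ψ : ℕ → ℚ} (h : ∀ n, 0 < n → φ n = ψ n) (M : ℕ) : SS φ M = SS ψ M :=
  sum_congr rfl fun n hn => by rw [h n (mem_Ioo.1 hn).1]

theorem fzdu_tt {φ ψ : ℕ → ℚ} (h : ∀ n, 0 < n → φ n = ψ n) (M : ℕ) : TT φ M = TT ψ M :=
  sum_congr rfl fun n hn => by rw [h n (mem_Icc.1 hn).1]

theorem fzdu_add (φ ψ : ℕ → ℚ) (M : ℕ) : SS (fun n => φ n + ψ n) M = SS φ M + SS ψ M := by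
  simp only [SS, add_div, sum_add_distrib]

theorem fzdu_pow (j : ℕ) (b : ℕ+) (hb : (b : ℕ) = j + 1) (k : List ℕ+) (M : ℕ) :
    SS (fun n => zeta k n / (n : ℚ) ^ j) M = zeta (b :: k) M := by
  rw [zeta, SS, hb]
  exact sum_congr rfl fun n _ => by rw [div_div, pow_succ]

theorem fzdu_succ (j : ℕ) (a b c : ℕ+) (hb : (b : ℕ) = j + 1) (hc : (c : ℕ) = a + j + 1)
    (k : List ℕ+) (M : ℕ) :
    SS (fun n => zeta (a :: k) (n + 1) / (n : ℚ) ^ j) M = zeta (b :: a :: k) M + zeta (c :: k) M := by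
  rw [← fzdu_pow j b hb, ← fzdu_pow (a + j) c hc, ← fzdu_add]
  exact fzdu_ss (fun n _ => by rw [zeta_succ, add_div, div_div, pow_add]) M

theorem fzdu_succ0 (a c : ℕ+) (hc : (c : ℕ) = a + 1) (k : List ℕ+) (M : ℕ) :
    SS (fun n => zeta (a :: k) (n + 1)) M = zeta (1 :: a :: k) M + zeta (c :: k) M := by
  rw [← fzdu_succ 0 a 1 c rfl hc]; simp

theorem fzdu_one (j : ℕ) (b : ℕ+) (hb : (b : ℕ) = j + 1) (M : ℕ) :
    SS (fun n => 1 / (n : ℚ) ^ j) M = zeta [b] M := fzdu_pow j b hb [] M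

variable (M : ℕ)

theorem fzdu_s0 : SS (fun _ => 1) M = zeta [1] M := by
  rw [← fzdu_one 0 1 rfl]; simp

theorem fzdu_t1 : TT (fun n => 1 / n) M = zeta [1] (M + 1) := by
  rw [TT_div (fun _ => 1), fzdu_ss (ψ := fun _ => 1) fun n hn => TT_one hn, fzdu_s0]

theorem fzdu_t2 : TT (fun n => 1 / (n : ℚ) ^ 1 / n) M = zeta [1, 1] (M + 1) + zeta [2] (M + 1) := by
  rw [TT_div, fzdu_ss (ψ := fun n => zeta [1] (n + 1)) fun n _ => by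
    rw [← fzdu_t1]; simp only [pow_one], fzdu_succ0 1 2 rfl]

theorem fzdu_t2' : TT (fun n => 1 / (n : ℚ) ^ 2) M = zeta [1, 1] (M + 1) + zeta [2] (M + 1) := by
  rw [← fzdu_t2]; exact fzdu_tt (fun n _ => by rw [div_div, ← pow_succ]) M

theorem fzdu_t3 : TT (fun n => 1 / (n : ℚ) ^ 2 / n) M
    = zeta [1, 1, 1] (M + 1) + zeta [2, 1] (M + 1) + (zeta [1, 2] (M + 1) + zeta [3] (M + 1)) := by
  rw [TT_div, fzdu_ss (fun n _ => fzdu_t2' n), fzdu_add, fzdu_succ0 1 2 rfl, fzdu_succ0 2 3 rfl]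

theorem du1 : TT (fun n => 1 / n) M + SS (fun _ => 1) (M + 1) = 2 * zeta [1] (M + 1) := by
  rw [fzdu_t1, fzdu_s0, two_mul]
theorem du2 : TT (fun n => 1 / (n : ℚ) ^ 1 / n) M + SS (fun n => 1 / (n : ℚ) ^ 1) (M + 1)
    = zeta [1, 1] (M + 1) + 2 * zeta [2] (M + 1) := by
  rw [fzdu_t2, fzdu_one 1 2 rfl]; ring
theorem du3 : TT (fun n => 1 / (n : ℚ) ^ 2 / n) M + SS (fun n => 1 / (n : ℚ) ^ 2) (M + 1)
    = zeta [1, 1, 1] (M + 1) + zeta [1, 2] (M + 1) + zeta [2, 1] (M + 1) + 2 * zeta [3] (M + 1) := by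
  rw [fzdu_t3, fzdu_one 2 3 rfl]; ring
theorem du4 : TT (fun n => 1 / (n : ℚ) ^ 3 / n) M + SS (fun n => 1 / (n : ℚ) ^ 3) (M + 1)
    = zeta [1, 1, 1, 1] (M + 1) + zeta [2, 1, 1] (M + 1) + zeta [1, 2, 1] (M + 1)
      + zeta [1, 1, 2] (M + 1) + zeta [2, 2] (M + 1) + zeta [3, 1] (M + 1) + zeta [1, 3] (M + 1)
      + 2 * zeta [4] (M + 1) := by
  rw [TT_div, fzdu_ss (ψ := fun n => zeta [1, 1, 1] (n + 1) + zeta [2, 1] (n + 1)
    + (zeta [1, 2] (n + 1) + zeta [3] (n + 1))) fun n _ => by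
      rw [← fzdu_t3]; exact fzdu_tt (fun n _ => by rw [div_div, ← pow_succ]) n,
    fzdu_add, fzdu_add, fzdu_add, fzdu_succ0 1 2 rfl, fzdu_succ0 2 3 rfl, fzdu_succ0 1 2 rfl,
    fzdu_succ0 3 4 rfl, fzdu_one 3 4 rfl]
  ring

theorem fzdu_h0 (hM : 0 < M) : TT (fun n => zeta [1] (n + 1)) M = 1 / (M : ℚ) ^ 1 := by
  rw [fzdu_tt (ψ := fun n => SS (fun _ => 1) (n + 1)) fun n _ => (fzdu_s0 _).symm, TT_sum,
    TT_one hM, pow_one]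

theorem fzdu_h1 : TT (fun n => zeta [1] (n + 1) / n) M = zeta [2] (M + 1) := by
  rw [TT_div, fzdu_ss fun n hn => fzdu_h0 n hn, fzdu_one 1 2 rfl]

theorem fzdu_h2 : TT (fun n => zeta [1] (n + 1) / (n : ℚ) ^ 2) M
    = zeta [1, 2] (M + 1) + zeta [3] (M + 1) := by
  rw [fzdu_tt (ψ := fun n => zeta [1] (n + 1) / n / n) fun n _ => by rw [div_div, sq], TT_div,
    fzdu_ss fun n _ => fzdu_h1 n, fzdu_succ0 2 3 rfl]

theorem du31 : TT (fun n => zeta [1] (n + 1) / (n : ℚ) ^ 2 / n) M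
      + SS (fun n => zeta [1] (n + 1) / (n : ℚ) ^ 2) (M + 1)
    = zeta [1, 1, 2] (M + 1) + zeta [2, 2] (M + 1) + zeta [1, 3] (M + 1) + zeta [3, 1] (M + 1)
      + 2 * zeta [4] (M + 1) := by
  rw [TT_div, fzdu_ss fun n _ => fzdu_h2 n, fzdu_add, fzdu_succ0 1 2 rfl, fzdu_succ0 3 4 rfl,
    fzdu_succ 2 1 3 4 rfl rfl]
  ring
theorem du13 : TT (fun n => zeta [3] (n + 1) / n) M + SS (fun n => zeta [3] (n + 1)) (M + 1)
    = zeta [2, 1, 1] (M + 1) + zeta [3, 1] (M + 1) + zeta [2, 2] (M + 1) + zeta [1, 3] (M + 1)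
      + 2 * zeta [4] (M + 1) := by
  rw [TT_div, fzdu_ss (ψ := fun n => zeta [1, 1] (n + 1) / (n : ℚ) ^ 1
    + zeta [2] (n + 1) / (n : ℚ) ^ 1) fun n _ => by
      rw [fzdu_tt (ψ := fun n => SS (fun n => 1 / (n : ℚ) ^ 2) (n + 1))
        fun n _ => (fzdu_one 2 3 rfl _).symm, TT_sum, fzdu_t2', add_div, pow_one],
    fzdu_add, fzdu_succ 1 1 2 3 rfl rfl, fzdu_succ 1 2 2 4 rfl rfl, fzdu_succ0 3 4 rfl]
  ring
theorem ss21 : SS (fun n => zeta [1] (n + 1) * (1 / (n : ℚ) ^ 1)) M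
    = zeta [2, 1] M + zeta [3] M := by
  rw [← fzdu_succ 1 1 2 3 rfl rfl]
  exact fzdu_ss (fun n _ => by ring) M

end Pool.Agent.FMZ
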