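import Pool.Agent.P.MP_cb43af_nt.FzStuf

open Finset Filter Polynomial Topology
namespace Pool.Agent.FMZ

theorem fzst_zero (a : ℕ+) (k : List ℕ+) : zeta (a :: k) 0 = 0 := by simp [zeta]

theorem fzst_nil (n : ℕ) : zeta [] n = 1 := rfl

theorem fzst_succ (a : ℕ+) (k : List ℕ+) (n : ℕ) :
    zeta (a :: k) (n + 1) = zeta (a :: k) n + zeta k n * (n : ℚ)⁻¹ ^ (a : ℕ) := by
  rw [zeta_succ, div_eq_mul_inv, inv_pow]

variable (M : ℕ)

theorem st_1_1 : zeta [1] M * zeta [1] M = 2 * zeta [1, 1] M + zeta [2] M := by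
  induction M with
  | zero => simp only [fzst_zero]; ring
  | succ n ih =>
    simp only [fzst_succ, fzst_nil, PNat.val_ofNat]
    linear_combination ih

theorem st_1_2 : zeta [1] M * zeta [2] M = zeta [1, 2] M + zeta [2, 1] M + zeta [3] M := by
  induction M with
  | zero => simp only [fzst_zero]; ring
  | succ n ih =>
    simp only [fzst_succ, fzst_nil, PNat.val_ofNat]
    linear_combination ih

theorem st_1_3 : zeta [1] M * zeta [3] M = zeta [1, 3] M + zeta [3, 1] M + zeta [4] M := by
  induction M with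
  | zero => simp only [fzst_zero]; ring
  | succ n ih =>
    simp only [fzst_succ, fzst_nil, PNat.val_ofNat]
    linear_combination ih

theorem st_2_2 : zeta [2] M * zeta [2] M = 2 * zeta [2, 2] M + zeta [4] M := by
  induction M with
  | zero => simp only [fzst_zero]; ring
  | succ n ih =>
    simp only [fzst_succ, fzst_nil, PNat.val_ofNat]
    linear_combination ih

theorem st_1_11 : zeta [1] M * zeta [1, 1] M
    = 3 * zeta [1, 1, 1] M + zeta [1, 2] M + zeta [2, 1] M := by
  induction M with
  | zero => simp only [fzst_zero]; ring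
  | succ n ih =>
    simp only [fzst_succ, fzst_nil, PNat.val_ofNat]
    linear_combination ih + (n : ℚ)⁻¹ * st_1_1 n

theorem st_1_21 : zeta [1] M * zeta [2, 1] M
    = zeta [1, 2, 1] M + 2 * zeta [2, 1, 1] M + zeta [3, 1] M + zeta [2, 2] M := by
  induction M with
  | zero => simp only [fzst_zero]; ring
  | succ n ih =>
    simp only [fzst_succ, fzst_nil, PNat.val_ofNat]
    linear_combination ih + (n : ℚ)⁻¹ ^ 2 * st_1_1 n

theorem st_1_12 : zeta [1] M * zeta [1, 2] M
    = 2 * zeta [1, 1, 2] M + zeta [1, 2, 1] M + zeta [2, 2] M + zeta [1, 3] M := by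
  induction M with
  | zero => simp only [fzst_zero]; ring
  | succ n ih =>
    simp only [fzst_succ, fzst_nil, PNat.val_ofNat]
    linear_combination ih + (n : ℚ)⁻¹ * st_1_2 n

theorem st_2_11 : zeta [2] M * zeta [1, 1] M = zeta [2, 1, 1] M + zeta [1, 2, 1] M
    + zeta [1, 1, 2] M + zeta [3, 1] M + zeta [1, 3] M := by
  induction M with
  | zero => simp only [fzst_zero]; ring
  | succ n ih =>
    simp only [fzst_succ, fzst_nil, PNat.val_ofNat]
    linear_combination ih + (n : ℚ)⁻¹ * st_1_2 n

theorem st_1_111 : zeta [1] M * zeta [1, 1, 1] M = 4 * zeta [1, 1, 1, 1] M + zeta [2, 1, 1] M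
    + zeta [1, 2, 1] M + zeta [1, 1, 2] M := by
  induction M with
  | zero => simp only [fzst_zero]; ring
  | succ n ih =>
    simp only [fzst_succ, fzst_nil, PNat.val_ofNat]
    linear_combination ih + (n : ℚ)⁻¹ * st_1_11 n


end Pool.Agent.FMZ
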