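import Pool.Agent.P.MP_cb43af_nt.FzTL
import Pool.Agent.P.MP_cb43af_nt.FzSt
import Pool.Agent.P.MP_cb43af_nt.FzDu

open Finset Filter Polynomial Topology
namespace Pool.Agent.FMZ

theorem fzlow_du {φ x : ℕ → ℚ} (h : φ ∈ UU)
    (e : ∀ M, TT (fun n => φ n / n) M + SS φ (M + 1) = x (M + 1)) : Lf x := by
  refine (TT_lift h).congr (Eventually.of_forall fun p hp => ?_)
  have := e (p - 1)
  rwa [Nat.sub_add_cancel hp.one_le] at this

theorem fzlow_lin {x y z : ℕ → ℚ} (hx : Lf x) (hy : Lf y) (q r : ℚ)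
    (e : ∀ p, q * x p + r * y p = z p) : Lf z :=
  ((hx.smul q).add (hy.smul r)).congr (Eventually.of_forall fun p _ => e p)

theorem fzlow_st {k : List ℕ+} (l : List ℕ+) {z : ℕ → ℚ} (h : Lf (zeta k))
    (e : ∀ p, zeta k p * zeta l p = z p) : Lf z :=
  (h.mul (zeta_mem l)).congr (Eventually.of_forall fun p _ => e p)

theorem fzlow_one : (fun _ : ℕ => (1 : ℚ)) ∈ UU := VV_le_UU (zeta_mem [])

theorem fzlow_1 : Lf (zeta [1]) := by
  have h := fzlow_du (x := fun p => 2 * zeta [1] p) fzlow_one du1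
  exact fzlow_lin h h (1 / 2) 0 fun p => by ring

theorem fzlow_w2 : Lf (zeta [2]) ∧ Lf (zeta [1, 1]) := by
  have h1 := fzlow_du (x := fun p => zeta [1, 1] p + 2 * zeta [2] p) (UU_div fzlow_one 1) du2
  have h2 := fzlow_st [1] fzlow_1 st_1_1
  exact ⟨fzlow_lin h1 h2 (2 / 3) (-1 / 3) fun p => by ring,
    fzlow_lin h1 h2 (-1 / 3) (2 / 3) fun p => by ring⟩

theorem fzlow_w3 : Lf (zeta [3]) ∧ Lf (zeta [1, 1, 1]) ∧
    Lf fun p => zeta [1, 2] p + zeta [2, 1] p := by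
  have h1 := fzlow_du (x := fun p => zeta [1, 1, 1] p + zeta [1, 2] p + zeta [2, 1] p
    + 2 * zeta [3] p) (UU_div fzlow_one 2) du3
  have h2 := fzlow_st [2] fzlow_1 st_1_2
  have h3 := fzlow_st [1, 1] fzlow_1 st_1_11
  have h4 : Lf fun p => zeta [1, 1, 1] p + zeta [3] p := fzlow_lin h1 h2 1 (-1) fun p => by ring
  have h5 : Lf fun p => 3 * zeta [1, 1, 1] p - zeta [3] p :=
    fzlow_lin h3 h2 1 (-1) fun p => by ring
  have h6 : Lf (zeta [3]) := fzlow_lin h4 h5 (3 / 4) (-1 / 4) fun p => by ring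
  exact ⟨h6, fzlow_lin h4 h5 (1 / 4) (1 / 4) fun p => by ring,
    fzlow_lin h2 h6 1 (-1) fun p => by ring⟩

theorem fzlow_w4 : Lf (zeta [4]) ∧ Lf (zeta [3, 1]) ∧ Lf (zeta [1, 3]) ∧ Lf (zeta [2, 2]) ∧
    Lf (zeta [2, 1, 1]) ∧ Lf (zeta [1, 2, 1]) ∧ Lf (zeta [1, 1, 2]) ∧ Lf (zeta [1, 1, 1, 1]) := by
  have r1 := fzlow_st [3] fzlow_1 st_1_3
  have r2 := fzlow_st [2] fzlow_w2.1 st_2_2
  have r3 := fzlow_st [2, 1] fzlow_1 st_1_21
  have r5 := fzlow_st [1, 1] fzlow_w2.1 st_2_11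
  have r6 := fzlow_st [1, 1, 1] fzlow_1 st_1_111
  have r7 := fzlow_du (x := fun p => zeta [1, 1, 1, 1] p + zeta [2, 1, 1] p + zeta [1, 2, 1] p
    + zeta [1, 1, 2] p + zeta [2, 2] p + zeta [3, 1] p + zeta [1, 3] p + 2 * zeta [4] p)
    (UU_div fzlow_one 3) du4
  have r8 := fzlow_du (x := fun p => zeta [1, 1, 2] p + zeta [2, 2] p + zeta [1, 3] p
    + zeta [3, 1] p + 2 * zeta [4] p) (UU_div (UU_succ [1]) 2) du31
  have r9 := fzlow_du (x := fun p => zeta [2, 1, 1] p + zeta [3, 1] p + zeta [2, 2] p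
    + zeta [1, 3] p + 2 * zeta [4] p) (UU_succ [3]) du13
  have s1 : Lf fun p => zeta [2, 1, 1] p + zeta [1, 2, 1] p + zeta [1, 1, 2] p - zeta [4] p :=
    fzlow_lin r5 r1 1 (-1) fun p => by ring
  have s2 : Lf fun p => 4 * zeta [1, 1, 1, 1] p + zeta [4] p :=
    fzlow_lin r6 s1 1 (-1) fun p => by ring
  have s3 : Lf fun p => zeta [1, 1, 1, 1] p + zeta [2, 2] p + 2 * zeta [4] p :=
    fzlow_lin r7 r5 1 (-1) fun p => by ring
  have s4 : Lf fun p => zeta [2, 2] p + 7 / 4 * zeta [4] p :=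
    fzlow_lin s3 s2 1 (-1 / 4) fun p => by ring
  have a : Lf (zeta [4]) := fzlow_lin s4 r2 (4 / 5) (-2 / 5) fun p => by ring
  have c : Lf (zeta [2, 2]) := fzlow_lin r2 a (1 / 2) (-1 / 2) fun p => by ring
  have g : Lf (zeta [1, 1, 1, 1]) := fzlow_lin s2 a (1 / 4) (-1 / 4) fun p => by ring
  have s5 : Lf fun p => zeta [2, 2] p + zeta [1, 3] p + zeta [3, 1] p + 2 * zeta [4] p :=
    fzlow_lin (r1.add c) a 1 1 fun p => by ring
  have d2 : Lf (zeta [1, 1, 2]) := fzlow_lin r8 s5 1 (-1) fun p => by ring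
  have d1 : Lf (zeta [2, 1, 1]) := fzlow_lin r9 s5 1 (-1) fun p => by ring
  have e : Lf (zeta [1, 2, 1]) := fzlow_lin (s1.add a) (d1.add d2) 1 (-1) fun p => by ring
  have b1 : Lf (zeta [3, 1]) :=
    fzlow_lin r3 (((e.add d1).add d1).add c) 1 (-1) fun p => by ring
  have b2 : Lf (zeta [1, 3]) := fzlow_lin r1 (b1.add a) 1 (-1) fun p => by ring
  exact ⟨a, b1, b2, c, d1, e, d2, g⟩

theorem fzlow_zero {k : List ℕ+} (h : Lf (zeta k)) :
    ∃ α β : ℚ, Lf fun p => zeta k p - (α + β * zeta [2, 1] p) :=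
  ⟨0, 0, fzlow_lin h h 1 0 fun p => by ring⟩

theorem fzlow_cases (a : ℕ+) (h : (a : ℕ) ≤ 4) : a = 1 ∨ a = 2 ∨ a = 3 ∨ a = 4 := by
  have h0 := a.pos
  have : (a : ℕ) = 1 ∨ (a : ℕ) = 2 ∨ (a : ℕ) = 3 ∨ (a : ℕ) = 4 := by omega
  rcases this with e | e | e | e
  · exact Or.inl (PNat.eq e)
  · exact Or.inr (Or.inl (PNat.eq e))
  · exact Or.inr (Or.inr (Or.inl (PNat.eq e)))
  · exact Or.inr (Or.inr (Or.inr (PNat.eq e)))

theorem fzlow_wt (a : ℕ+) (k : List ℕ+) : wt (a :: k) = a + wt k := by simp [wt]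

theorem fzlow_wt0 : wt [] = 0 := by simp [wt]

theorem low_main (k : List ℕ+) (hk : wt k ≤ 4) :
    ∃ α β : ℚ, Lf fun p => zeta k p - (α + β * zeta [2, 1] p) := by
  obtain ⟨h2, h11⟩ := fzlow_w2
  obtain ⟨h3, h111, h12⟩ := fzlow_w3
  obtain ⟨h4, h31, h13, h22, h211, h121, h112, h1111⟩ := fzlow_w4
  have h1 := fzlow_1
  have h12' : ∃ α β : ℚ, Lf fun p => zeta [1, 2] p - (α + β * zeta [2, 1] p) :=
    ⟨0, -1, fzlow_lin h12 h12 1 0 fun p => by ring⟩
  have h21' : ∃ α β : ℚ, Lf fun p => zeta [2, 1] p - (α + β * zeta [2, 1] p) :=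
    ⟨0, 1, Lf.zero.congr (Eventually.of_forall fun p _ => by ring)⟩
  rcases k with _ | ⟨a, _ | ⟨b, _ | ⟨c, _ | ⟨d, _ | ⟨e, l⟩⟩⟩⟩⟩ <;>
    simp only [fzlow_wt, fzlow_wt0] at hk
  · exact ⟨1, 0, Lf.zero.congr (Eventually.of_forall fun p _ => by simp [zeta])⟩
  · rcases fzlow_cases a (by omega) with rfl | rfl | rfl | rfl <;>
      exact fzlow_zero (by assumption)
  · rcases fzlow_cases a (by omega) with rfl | rfl | rfl | rfl <;>
      rcases fzlow_cases b (by omega) with rfl | rfl | rfl | rfl <;>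
      first
        | exact absurd hk (by decide)
        | exact fzlow_zero (by assumption)
        | exact h12'
        | exact h21'
  · rcases fzlow_cases a (by omega) with rfl | rfl | rfl | rfl <;>
      rcases fzlow_cases b (by omega) with rfl | rfl | rfl | rfl <;>
      rcases fzlow_cases c (by omega) with rfl | rfl | rfl | rfl <;>
      first
        | exact absurd hk (by decide)
        | exact fzlow_zero (by assumption)
  · have := a.pos
    have := b.pos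
    have := c.pos
    have := d.pos
    obtain rfl : a = 1 := PNat.eq (by change (a : ℕ) = 1; omega)
    obtain rfl : b = 1 := PNat.eq (by change (b : ℕ) = 1; omega)
    obtain rfl : c = 1 := PNat.eq (by change (c : ℕ) = 1; omega)
    obtain rfl : d = 1 := PNat.eq (by change (d : ℕ) = 1; omega)
    exact fzlow_zero h1111
  · have := a.pos
    have := b.pos
    have := c.pos
    have := d.pos
    have := e.pos
    omega

theorem two_cong : Cong 2 (fun p => 3 / 2 * zeta [2] p) fun p => p * zeta [2, 1] p := by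
  have h := ((TT_two (UU_div fzlow_one 1)).add (fzlow_1.cong.sq.smul (-1 / 2))).add
    fzlow_w3.1.cong.mulp
  filter_upwards [h] with p hp hq
  have e := du2 (p - 1)
  rw [Nat.sub_add_cancel hq.one_le] at e
  have h1 := hp hq
  rw [e, ss21, st_1_1] at h1
  convert h1 using 2
  simp only [Pi.zero_apply]
  ring

end Pool.Agent.FMZ
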