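import Pool.Agent.P.MP_cb43af_nt.FzVor
import Pool.Agent.P.MP_cb43af_nt.FzLow

open Finset Filter Polynomial Topology
namespace Pool.Agent.FMZ

theorem fzlink_ne {p : ℕ} [hp : Fact p.Prime] {k : ℕ} (h0 : 0 < k) (hk : k < p) :
    ((k : ℕ) : ZMod p) ≠ 0 := fun h =>
  absurd (Nat.le_of_dvd h0 ((ZMod.natCast_eq_zero_iff k p).1 h)) (by omega)

theorem fzlink_phi {p : ℕ} [hp : Fact p.Prime] (h5 : 5 ≤ p)
    (h : padicNorm p (zeta [2] p) ≤ 1 / p) :
    2 * 1728 * (FF p 3 - FF p 2) = -15 * ((zeta [2] p / p : ℚ) : ZMod p) := by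
  have h2 : (2 : ZMod p) ≠ 0 := by exact_mod_cast fzlink_ne (p := p) (k := 2) (by omega) (by omega)
  have h3 : (3 : ZMod p) ≠ 0 := by exact_mod_cast fzlink_ne (p := p) (k := 3) (by omega) (by omega)
  have h4 : (4 : ZMod p) ≠ 0 := by exact_mod_cast fzlink_ne (p := p) (k := 4) (by omega) (by omega)
  have h12 : (12 : ZMod p) ≠ 0 := by
    rw [show (12 : ZMod p) = 3 * 4 by norm_num]; exact mul_ne_zero h3 h4
  have v2 := voronoi h5 (d := 2) (by omega) (by omega) h
  have v3 := voronoi h5 (d := 3) (by omega) (by omega) h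
  have v4 := voronoi h5 (d := 4) (by omega) (by omega) h
  rw [show Ioo 0 2 = ({1} : Finset ℕ) by decide, sum_singleton] at v2
  rw [show Ioo 0 3 = ({1, 2} : Finset ℕ) by decide, sum_insert (by decide), sum_singleton] at v3
  rw [show Ioo 0 4 = ({1, 2, 3} : Finset ℕ) by decide, sum_insert (by decide),
    sum_insert (by decide), sum_singleton] at v4
  push_cast at v2 v3 v4
  have e3 : -(2 : ZMod p) * (3 : ZMod p)⁻¹ = -1 - (-1 * (3 : ZMod p)⁻¹) := by
    field_simp; norm_num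
  have e4 : -(3 : ZMod p) * (4 : ZMod p)⁻¹ = -1 - (-1 * (4 : ZMod p)⁻¹) := by
    field_simp; norm_num
  have e5 : -(2 : ZMod p) * (4 : ZMod p)⁻¹ = -1 * (2 : ZMod p)⁻¹ := by
    field_simp; norm_num
  rw [e3, phi_refl h5] at v3
  rw [e4, phi_refl h5, e5] at v4
  have f3 : ((3 : ZMod p) - 6) * (12 : ZMod p)⁻¹ = -1 * (4 : ZMod p)⁻¹ := by
    field_simp; norm_num
  have f2 : ((2 : ZMod p) - 6) * (12 : ZMod p)⁻¹ = -1 * (3 : ZMod p)⁻¹ := by
    field_simp; norm_num
  have i12 : (1728 : ZMod p) * ((12 : ZMod p)⁻¹) ^ 3 = 1 := by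
    field_simp; norm_num
  unfold FF
  rw [f3, f2]
  generalize Phi p (-1 * (4 : ZMod p)⁻¹) = A at *
  generalize Phi p (-1 * (3 : ZMod p)⁻¹) = B at *
  generalize Phi p (-1 * (2 : ZMod p)⁻¹) = C at *
  generalize ((zeta [2] p / p : ℚ) : ZMod p) = W at *
  apply mul_left_cancel₀ h2
  linear_combination (4 * (A - B)) * i12 + v4 - v2 - v3

theorem link (r : ℚ) : ∀ᶠ p in atTop, Nat.Prime p →
    padicNorm p (zeta [2, 1] p - r) ≤ 1 / p → Hp (-5 * r.num) (1728 * r.den) p := by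
  filter_upwards [two_cong, rat_int r, rat_int (2 / 3), eventually_ge_atTop 5]
    with p hc hr h23 h5 hp hz
  have : Fact p.Prime := ⟨hp⟩
  have hc := hc hp
  have hr := hr hp
  have h23 := h23 hp
  have hp0 : (0 : ℚ) < p := by exact_mod_cast hp.pos
  have hp1 : (1 : ℚ) / p ≤ 1 := by
    rw [div_le_one hp0]; exact_mod_cast hp.one_le
  have hpn : padicNorm p (p : ℚ) = 1 / p := by
    rw [padicNorm.padicNorm_p hp.one_lt, one_div]
  have hZ : padicNorm p (zeta [2, 1] p) ≤ 1 := zeta_norm hp _ le_rfl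
  set Z := zeta [2, 1] p with hZd
  set W : ℚ := zeta [2] p / p with hWd
  have hzW : zeta [2] p = p * W := by rw [hWd]; field_simp
  have k1 : padicNorm p (3 / 2 * W - Z) ≤ 1 / p := by
    have e : 3 / 2 * zeta [2] p - p * Z = p * (3 / 2 * W - Z) := by rw [hzW]; ring
    rw [e, padicNorm.mul, hpn, pow_two, ← one_div_mul_one_div] at hc
    exact le_of_mul_le_mul_left hc (by positivity)
  have k2 : padicNorm p (3 / 2 * W) ≤ 1 := by
    have := padicNorm.nonarchimedean (p := p) (q := 3 / 2 * W - Z) (r := Z)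
    rw [sub_add_cancel] at this
    exact this.trans (max_le (k1.trans hp1) hZ)
  have k3 : padicNorm p W ≤ 1 := by
    rw [show W = 2 / 3 * (3 / 2 * W) by ring, padicNorm.mul]
    exact mul_le_one₀ h23 (padicNorm.nonneg _) k2
  have k4 : padicNorm p (zeta [2] p) ≤ 1 / p := by
    rw [hzW, padicNorm.mul, hpn]
    exact mul_le_of_le_one_right (by positivity) k3
  have n2 : padicNorm p (2 : ℚ) ≤ 1 := by exact_mod_cast padicNorm.of_nat (p := p) 2
  have n3 : padicNorm p (3 : ℚ) ≤ 1 := by exact_mod_cast padicNorm.of_nat (p := p) 3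
  have m3 : padicNorm p (3 * W) ≤ 1 := by
    rw [padicNorm.mul]; exact mul_le_one₀ n3 (padicNorm.nonneg _) k3
  have m2 : padicNorm p (2 * Z) ≤ 1 := by
    rw [padicNorm.mul]; exact mul_le_one₀ n2 (padicNorm.nonneg _) hZ
  have k5 : padicNorm p (3 * W - 2 * Z) ≤ 1 / p := by
    rw [show 3 * W - 2 * Z = 2 * (3 / 2 * W - Z) by ring, padicNorm.mul]
    exact (mul_le_of_le_one_left (padicNorm.nonneg _) n2).trans k1
  have k6 := (red_zero (k5.trans hp1)).2 k5
  rw [red_sub m3 m2, red_mul n3 k3, red_mul n2 hZ] at k6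
  have k7 := (red_zero (hz.trans hp1)).2 hz
  rw [red_sub hZ hr] at k7
  have k8 : ((r.den : ℕ) : ZMod p) * (r : ZMod p) = r.num := by
    rw [Rat.cast_def, mul_div_cancel₀ _ (red_den.1 hr)]
  have k9 := fzlink_phi h5 k4
  rw [← hWd] at k9
  have h2 : (2 : ZMod p) ≠ 0 := by exact_mod_cast fzlink_ne (p := p) (k := 2) (by omega) (by omega)
  unfold Hp
  push_cast at k6 ⊢
  apply mul_left_cancel₀ h2
  linear_combination (r.den : ZMod p) * k9 - 5 * (r.den : ZMod p) * k6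
    - 10 * (r.den : ZMod p) * k7 - 10 * k8

end Pool.Agent.FMZ
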