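import Pool.Agent.P.MP_cb43af_nt.FvVor
import Pool.Agent.P.MP_cb43af_nt.FzLink

open Finset Filter Polynomial Topology
namespace Pool.Agent.FMZ

theorem fvlink_mul {x y : ℕ → ℚ} (h : Cong 1 x 0) (h' : Cong 1 y 0) :
    Cong 2 (fun p => x p * y p) 0 := by
  filter_upwards [h, h'] with p h h' hp
  have h1 := h hp
  have h2 := h' hp
  simp only [Pi.zero_apply, sub_zero, pow_one] at h1 h2 ⊢
  rw [pow_two, ← one_div_mul_one_div]
  exact fzint_mul hp h1 h2

theorem fvlink_five : Cong 1 (zeta [5]) 0 := by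
  filter_upwards [eventually_ge_atTop 7] with p h7 hp
  have : Fact p.Prime := ⟨hp⟩
  simp only [Pi.zero_apply, sub_zero, pow_one]
  refine (red_zero (zeta_norm hp _ le_rfl)).1 ?_
  have h0 : Phi5 p (-1) = 0 := by
    have := phi5_refl h7 (0 : ZMod p)
    rw [sub_zero] at this
    rw [this]
    simp [Phi5]
  have hv : (-1 : ZMod p).val = p - 1 := by
    obtain ⟨n, rfl⟩ : ∃ n, p = n + 1 := ⟨p - 1, by omega⟩
    exact ZMod.val_neg_one n
  have e : zeta [5] p = ∑ j ∈ Ioo 0 p, ((1 : ℤ) : ℚ) / (((j : ℕ) : ℤ) : ℚ) ^ 5 := by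
    simp [zeta]
  have hj : ∀ j ∈ Ioo 0 p, ¬ (p : ℤ) ∣ ((j : ℕ) : ℤ) := fun j hj h => by
    have := mem_Ioo.1 hj
    exact absurd (Nat.le_of_dvd this.1 (Int.natCast_dvd_natCast.1 h)) (by omega)
  rw [e, red_sum _ _ fun (j : ℕ) h => (red_div 1 j 5 (hj j h)).1, ← h0, Phi5, hv,
    show Icc 1 (p - 1) = Ioo 0 p by ext j; simp only [mem_Icc, mem_Ioo]; omega]
  refine sum_congr rfl fun j h => ?_
  rw [(red_div 1 j 5 (hj j h)).2]
  simp

theorem four_cong : Cong 2 (fun p => 5 / 4 * zeta [4] p) fun p => p * zeta [4, 1] p := by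
  have a1 := (fvlink_mul fzlow_1.cong fzlow_w3.2.1.cong).smul (-1 / 4)
  have a2 := (fvlink_mul fzlow_w2.1.cong fzlow_w2.2.cong).smul (-3 / 4)
  have a3 := (fvlink_mul fzlow_w2.1.cong fzlow_w2.1.cong).smul (-1 / 2)
  have a4 := (fvlink_mul fzlow_1.cong fzlow_w3.1.cong).smul (-1 / 4)
  have h := (((((TT_two (UU_div fzlow_one 3)).add a1).add a2).add a3).add a4).add fvlink_five.mulp
  filter_upwards [h] with p hp hq
  have e := du4 (p - 1)
  rw [Nat.sub_add_cancel hq.one_le] at e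
  have h1 := hp hq
  have e' : SS (fun n => zeta [1] (n + 1) * (1 / (n : ℚ) ^ 3)) p = zeta [4, 1] p + zeta [5] p := by
    rw [← fzdu_succ 3 1 4 5 rfl rfl]
    exact fzdu_ss (fun n _ => by ring) p
  rw [e, e', st_1_111, st_2_11, st_2_2, st_1_3] at h1
  refine le_of_eq_of_le (congrArg _ ?_) h1
  simp only [Pi.zero_apply]
  ring

theorem fvlink_red {p : ℕ} [hp : Fact p.Prime] {u v : ℕ} (hu : u ≠ 0) (hv : v ≠ 0) {z Z : ℚ}
    (hZ : padicNorm p Z ≤ 1) (hc : padicNorm p (u / v * z - p * Z) ≤ 1 / (p : ℚ) ^ 2)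
    (h23 : padicNorm p (v / u : ℚ) ≤ 1) :
    padicNorm p z ≤ 1 / p ∧ (u : ZMod p) * ((z / p : ℚ) : ZMod p) = v * (Z : ZMod p) := by
  have hp0 : (0 : ℚ) < p := by exact_mod_cast hp.out.pos
  have hu0 : (u : ℚ) ≠ 0 := by exact_mod_cast hu
  have hv0 : (v : ℚ) ≠ 0 := by exact_mod_cast hv
  have hp1 : (1 : ℚ) / p ≤ 1 := by
    rw [div_le_one hp0]; exact_mod_cast hp.out.one_le
  have hpn : padicNorm p (p : ℚ) = 1 / p := by
    rw [padicNorm.padicNorm_p hp.out.one_lt, one_div]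
  set W : ℚ := z / p with hWd
  have hzW : z = p * W := by rw [hWd]; field_simp
  have k1 : padicNorm p (u / v * W - Z) ≤ 1 / p := by
    have e : u / v * z - p * Z = p * (u / v * W - Z) := by rw [hzW]; ring
    rw [e, padicNorm.mul, hpn, pow_two, ← one_div_mul_one_div] at hc
    exact le_of_mul_le_mul_left hc (by positivity)
  have k2 : padicNorm p (u / v * W) ≤ 1 := by
    have := padicNorm.nonarchimedean (p := p) (q := u / v * W - Z) (r := Z)
    rw [sub_add_cancel] at this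
    exact this.trans (max_le (k1.trans hp1) hZ)
  have k3 : padicNorm p W ≤ 1 := by
    rw [show W = v / u * (u / v * W) by field_simp, padicNorm.mul]
    exact mul_le_one₀ h23 (padicNorm.nonneg _) k2
  have k4 : padicNorm p z ≤ 1 / p := by
    rw [hzW, padicNorm.mul, hpn]
    exact mul_le_of_le_one_right (by positivity) k3
  have n2 : padicNorm p (v : ℚ) ≤ 1 := padicNorm.of_nat (p := p) v
  have n3 : padicNorm p (u : ℚ) ≤ 1 := padicNorm.of_nat (p := p) u
  have m3 : padicNorm p (u * W) ≤ 1 := by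
    rw [padicNorm.mul]; exact mul_le_one₀ n3 (padicNorm.nonneg _) k3
  have m2 : padicNorm p (v * Z) ≤ 1 := by
    rw [padicNorm.mul]; exact mul_le_one₀ n2 (padicNorm.nonneg _) hZ
  have k5 : padicNorm p (u * W - v * Z) ≤ 1 / p := by
    rw [show u * W - v * Z = v * (u / v * W - Z) by field_simp, padicNorm.mul]
    exact (mul_le_of_le_one_left (padicNorm.nonneg _) n2).trans k1
  have k6 := (red_zero (k5.trans hp1)).2 k5
  rw [red_sub m3 m2, red_mul n3 k3, red_mul n2 hZ, Rat.cast_natCast, Rat.cast_natCast] at k6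
  exact ⟨k4, sub_eq_zero.1 k6⟩

theorem link3 : ∀ᶠ p in atTop, ∀ [Fact (Nat.Prime p)],
    1728 * (FF p 3 - FF p 2) = -5 * ((zeta [2, 1] p : ℚ) : ZMod p) := by
  filter_upwards [two_cong, rat_int (2 / 3), eventually_ge_atTop 5] with p hc h23 h5 hp
  obtain ⟨k4, k6⟩ := fvlink_red (p := p) (u := 3) (v := 2) (by omega) (by omega)
    (zeta_norm hp.out [2, 1] le_rfl) (by exact_mod_cast hc hp.out) (by exact_mod_cast h23 hp.out)
  have k9 := fzlink_phi h5 k4
  have h2 : (2 : ZMod p) ≠ 0 := by exact_mod_cast fzlink_ne (p := p) (k := 2) (by omega) (by omega)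
  apply mul_left_cancel₀ h2
  rw [Nat.cast_ofNat, Nat.cast_ofNat] at k6
  linear_combination k9 - 5 * k6

theorem link4 : ∀ᶠ p in atTop, ∀ [Fact (Nat.Prime p)],
    12 ^ 5 * (FF5 p 3 - FF5 p 2) = -75 * ((zeta [4, 1] p : ℚ) : ZMod p) := by
  filter_upwards [four_cong, rat_int (4 / 5), eventually_ge_atTop 7] with p hc h23 h7 hp
  obtain ⟨k4, k6⟩ := fvlink_red (p := p) (u := 5) (v := 4) (by omega) (by omega)
    (zeta_norm hp.out [4, 1] le_rfl) (by exact_mod_cast hc hp.out) (by exact_mod_cast h23 hp.out)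
  have k9 := ff5_val h7 k4
  have h4 : (4 : ZMod p) ≠ 0 := by exact_mod_cast fzlink_ne (p := p) (k := 4) (by omega) (by omega)
  apply mul_left_cancel₀ h4
  rw [Nat.cast_ofNat, Nat.cast_ofNat] at k6
  linear_combination k9 - 75 * k6

theorem link5 (α β γ : ℤ) : ∀ᶠ p in atTop, Nat.Prime p →
    padicNorm p (β * zeta [2, 1] p + γ * zeta [4, 1] p - α) ≤ 1 / p →
      Hp5 (-75 * α) (15 * 1728 * β) (12 ^ 5 * γ) p := by
  filter_upwards [link3, link4] with p h3 h4 hp hz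
  have : Fact p.Prime := ⟨hp⟩
  have h3 := @h3 this
  have h4 := @h4 this
  have hp0 : (0 : ℚ) < p := by exact_mod_cast hp.pos
  have hp1 : (1 : ℚ) / p ≤ 1 := by
    rw [div_le_one hp0]; exact_mod_cast hp.one_le
  have z1 : padicNorm p (zeta [2, 1] p) ≤ 1 := zeta_norm hp _ le_rfl
  have z2 : padicNorm p (zeta [4, 1] p) ≤ 1 := zeta_norm hp _ le_rfl
  have m1 : padicNorm p (β * zeta [2, 1] p) ≤ 1 := by
    rw [padicNorm.mul]; exact mul_le_one₀ (padicNorm.of_int β) (padicNorm.nonneg _) z1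
  have m2 : padicNorm p (γ * zeta [4, 1] p) ≤ 1 := by
    rw [padicNorm.mul]; exact mul_le_one₀ (padicNorm.of_int γ) (padicNorm.nonneg _) z2
  have k := (red_zero (hz.trans hp1)).2 hz
  rw [red_sub (padicNorm.nonarchimedean.trans (max_le m1 m2)) (padicNorm.of_int α), red_add m1 m2,
    red_mul (padicNorm.of_int β) z1, red_mul (padicNorm.of_int γ) z2, Rat.cast_intCast,
    Rat.cast_intCast, Rat.cast_intCast] at k
  unfold Hp5 GG
  push_cast
  linear_combination 15 * (β : ZMod p) * h3 + (γ : ZMod p) * h4 - 75 * k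

end Pool.Agent.FMZ
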