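import Pool.Agent.P.MP_cb43af_nt.FvRel

open Finset Filter Polynomial Topology
namespace Pool.Agent.FMZ

theorem low5_key {x : List ℕ+ → ℚ} (h : Rl x) :
    x [1, 1, 1, 1, 1] = (0) * x [4, 1] ∧ x [1, 1, 1, 2] = (-1) * x [4, 1] ∧ x [1, 1, 2, 1] =
      (2) * x [4, 1] ∧ x [1, 1, 3] = (-1 / 2) * x [4, 1] ∧ x [1, 2, 1, 1] = (-2) * x [4, 1]
      ∧ x [1, 2, 2] = (3 / 2) * x [4, 1] ∧ x [1, 3, 1] = (0) * x [4, 1] ∧ x [1, 4] = (-1) *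
      x [4, 1] ∧ x [2, 1, 1, 1] = (1) * x [4, 1] ∧ x [2, 1, 2] = (0) * x [4, 1] ∧ x [2, 2,
      1] = (-3 / 2) * x [4, 1] ∧ x [2, 3] = (2) * x [4, 1] ∧ x [3, 1, 1] = (1 / 2) * x [4,
      1] ∧ x [3, 2] = (-2) * x [4, 1] ∧ x [4, 1] = (1) * x [4, 1] ∧ x [5] = (0) * x [4, 1]
      := by
  have r0 : x [1, 4] + (x [4, 1] + (x [5] + 0)) = 0 := h.st [1] fzlow_1 [4] (by decide)
  have r1 : x [2, 3] + (x [3, 2] + (x [5] + 0)) = 0 := h.st [2] fzlow_w2.1 [3] (by decide)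
  have r2 : x [1, 1, 3] + (x [1, 1, 3] + (x [1, 3, 1] + (x [1, 4] + (x [2, 3] + 0)))) = 0 :=
      h.st [1] fzlow_1 [1, 3] (by decide)
  have r3 : x [1, 2, 2] + (x [2, 1, 2] + (x [2, 2, 1] + (x [2, 3] + (x [3, 2] + 0)))) = 0 :=
      h.st [1] fzlow_1 [2, 2] (by decide)
  have r4 : x [1, 3, 1] + (x [3, 1, 1] + (x [3, 1, 1] + (x [3, 2] + (x [4, 1] + 0)))) = 0 :=
      h.st [1] fzlow_1 [3, 1] (by decide)
  have r5 : x [2, 1, 2] + (x [1, 2, 2] + (x [1, 2, 2] + (x [1, 4] + (x [3, 2] + 0)))) = 0 :=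
      h.st [2] fzlow_w2.1 [1, 2] (by decide)
  have r6 : x [1, 1, 1, 2] + (x [1, 1, 1, 2] + (x [1, 1, 1, 2] + (x [1, 1, 2, 1] + (x [1, 1,
      3] + (x [1, 2, 2] + (x [2, 1, 2] + 0)))))) = 0 := h.st [1] fzlow_1 [1, 1, 2] (by
      decide)
  have r7 : x [1, 1, 2, 1] + (x [1, 1, 2, 1] + (x [1, 2, 1, 1] + (x [1, 2, 1, 1] + (x [1, 2,
      2] + (x [1, 3, 1] + (x [2, 2, 1] + 0)))))) = 0 := h.st [1] fzlow_1 [1, 2, 1] (by
      decide)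
  have r8 : x [1, 2, 1, 1] + (x [2, 1, 1, 1] + (x [2, 1, 1, 1] + (x [2, 1, 1, 1] + (x [2, 1,
      2] + (x [2, 2, 1] + (x [3, 1, 1] + 0)))))) = 0 := h.st [1] fzlow_1 [2, 1, 1] (by
      decide)
  have r9 : x [1, 1, 3] + (x [1, 4] + (x [2, 3] + (x [5] + (x [3, 1, 1] + (x [3, 2] + (x [4,
      1] + (x [5] + 0))))))) = 0 := h.du [true, true, false, false]
  have r10 : x [1, 2, 2] + (x [1, 4] + (x [3, 2] + (x [5] + (x [2, 2, 1] + (x [2, 3] + (x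
      [4, 1] + (x [5] + 0))))))) = 0 := h.du [true, false, true, false]
  have r11 : x [1, 3, 1] + (x [1, 4] + (x [4, 1] + (x [5] + (x [2, 1, 2] + (x [2, 3] + (x
      [3, 2] + (x [5] + 0))))))) = 0 := h.du [true, false, false, true]
  have r12 : x [1, 1, 1, 1, 1] + (x [1, 1, 1, 1, 1] + (x [1, 1, 1, 1, 1] + (x [1, 1, 1, 1,
      1] + (x [1, 1, 1, 1, 1] + (x [1, 1, 1, 2] + (x [1, 1, 2, 1] + (x [1, 2, 1, 1] + (x [2,
      1, 1, 1] + 0)))))))) = 0 := h.st [1] fzlow_1 [1, 1, 1, 1] (by decide)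
  have r13 : x [1, 1, 1, 2] + (x [1, 1, 3] + (x [1, 2, 2] + (x [1, 4] + (x [2, 1, 2] + (x
      [2, 3] + (x [3, 2] + (x [5] + (x [4, 1] + (x [5] + 0))))))))) = 0 := h.du [true, true,
      true, false]
  have r14 : x [1, 1, 2, 1] + (x [1, 1, 3] + (x [1, 3, 1] + (x [1, 4] + (x [2, 2, 1] + (x
      [2, 3] + (x [4, 1] + (x [5] + (x [3, 2] + (x [5] + 0))))))))) = 0 := h.du [true, true,
      false, true]
  refine ⟨?_, ?_, ?_, ?_, ?_, ?_, ?_, ?_, ?_, ?_, ?_, ?_, ?_, ?_, ?_, ?_⟩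
  · linear_combination (-17 / 60) * r0 + (-19 / 60) * r1 + (-1 / 60) * r2 + (1 / 30) * r3 +
      (-1 / 60) * r4 + (-1 / 15) * r6 + (-1 / 15) * r7 + (-1 / 15) * r8 + (1 / 10) * r9 + (1
      / 10) * r10 + (1 / 10) * r11 + (1 / 5) * r12
  · linear_combination (13 / 8) * r0 + (7 / 8) * r1 + (1 / 8) * r2 + (1 / 4) * r3 + (5 / 8)
      * r4 + (-1 / 2) * r5 + (-5 / 4) * r9 + (-1 / 4) * r10 + (-3 / 4) * r11 + (1) * r13
  · linear_combination (-9 / 4) * r0 + (-3 / 4) * r1 + (-1 / 4) * r2 + (-1 / 2) * r3 + (-5 /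
      4) * r4 + (1) * r5 + (1) * r6 + (5 / 2) * r9 + (1 / 2) * r10 + (3 / 2) * r11 + (-3) *
      r13
  · linear_combination (5 / 16) * r0 + (-1 / 16) * r1 + (1 / 16) * r2 + (1 / 8) * r3 + (5 /
      16) * r4 + (-1 / 4) * r5 + (-1 / 2) * r6 + (-5 / 8) * r9 + (-5 / 8) * r10 + (-7 / 8) *
      r11 + (3 / 2) * r13 + (1 / 2) * r14
  · linear_combination (25 / 8) * r0 + (11 / 8) * r1 + (1 / 8) * r2 + (3 / 4) * r3 + (9 / 8)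
      * r4 + (-1) * r5 + (-1) * r6 + (1 / 2) * r7 + (-9 / 4) * r9 + (-5 / 4) * r10 + (-7 /
      4) * r11 + (3) * r13
  · linear_combination (-43 / 16) * r0 + (-17 / 16) * r1 + (1 / 16) * r2 + (-7 / 8) * r3 +
      (-11 / 16) * r4 + (3 / 4) * r5 + (1 / 2) * r6 + (11 / 8) * r9 + (11 / 8) * r10 + (9 /
      8) * r11 + (-3 / 2) * r13 + (-1 / 2) * r14
  · linear_combination (-3 / 4) * r0 + (-1 / 4) * r1 + (1 / 4) * r2 + (-1 / 2) * r3 + (1 /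
      4) * r4 + (-1 / 2) * r9 + (1 / 2) * r10 + (1 / 2) * r11
  · linear_combination (9 / 4) * r0 + (3 / 4) * r1 + (1 / 4) * r2 + (1 / 2) * r3 + (1 / 4) *
      r4 + (-1 / 2) * r9 + (-1 / 2) * r10 + (-1 / 2) * r11
  · linear_combination (-13 / 12) * r0 + (1 / 12) * r1 + (1 / 12) * r2 + (-2 / 3) * r3 + (-5
      / 12) * r4 + (1 / 2) * r5 + (1 / 3) * r6 + (-1 / 6) * r7 + (1 / 3) * r8 + (1 / 2) * r9
      + (1 / 2) * r10 + (1 / 2) * r11 + (-1) * r13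
  · linear_combination (-1 / 4) * r0 + (-3 / 4) * r1 + (-1 / 4) * r2 + (1 / 2) * r3 + (-1 /
      4) * r4 + (1 / 2) * r9 + (-1 / 2) * r10 + (1 / 2) * r11
  · linear_combination (27 / 16) * r0 + (1 / 16) * r1 + (-1 / 16) * r2 + (7 / 8) * r3 + (11
      / 16) * r4 + (-3 / 4) * r5 + (-1 / 2) * r6 + (-11 / 8) * r9 + (-3 / 8) * r10 + (-9 /
      8) * r11 + (3 / 2) * r13 + (1 / 2) * r14
  · linear_combination (-17 / 8) * r0 + (-3 / 8) * r1 + (3 / 8) * r2 + (-1 / 4) * r3 + (-9 /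
      8) * r4 + (1 / 2) * r5 + (1) * r6 + (9 / 4) * r9 + (5 / 4) * r10 + (7 / 4) * r11 +
      (-3) * r13 + (-1) * r14
  · linear_combination (-21 / 16) * r0 + (-15 / 16) * r1 + (-1 / 16) * r2 + (-1 / 8) * r3 +
      (-5 / 16) * r4 + (1 / 4) * r5 + (1 / 2) * r6 + (13 / 8) * r9 + (5 / 8) * r10 + (7 / 8)
      * r11 + (-3 / 2) * r13 + (-1 / 2) * r14
  · linear_combination (27 / 8) * r0 + (17 / 8) * r1 + (-1 / 8) * r2 + (3 / 4) * r3 + (11 /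
      8) * r4 + (-1 / 2) * r5 + (-1) * r6 + (-11 / 4) * r9 + (-7 / 4) * r10 + (-9 / 4) * r11
      + (3) * r13 + (1) * r14
  · ring
  · linear_combination (-5 / 4) * r0 + (-3 / 4) * r1 + (-1 / 4) * r2 + (-1 / 2) * r3 + (-1 /
      4) * r4 + (1 / 2) * r9 + (1 / 2) * r10 + (1 / 2) * r11

theorem low5_rl : ∀ k ∈ cps 4, ∃ q : ℚ, ∀ x, Rl x → x k = q * x [4, 1] := by
  intro k hk
  rw [show cps 4 = [[1, 1, 1, 1, 1], [1, 1, 1, 2], [1, 1, 2, 1], [1, 1, 3], [1, 2, 1, 1],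
      [1, 2, 2], [1, 3, 1], [1, 4], [2, 1, 1, 1], [2, 1, 2], [2, 2, 1], [2, 3], [3, 1, 1],
      [3, 2], [4, 1], [5]] from rfl] at hk
  simp only [List.mem_cons, List.not_mem_nil, or_false] at hk
  rcases hk with rfl | rfl | rfl | rfl | rfl | rfl | rfl | rfl | rfl | rfl | rfl | rfl | rfl
      | rfl | rfl | rfl
  · exact ⟨_, fun _ h => (low5_key h).1⟩
  · exact ⟨_, fun _ h => (low5_key h).2.1⟩
  · exact ⟨_, fun _ h => (low5_key h).2.2.1⟩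
  · exact ⟨_, fun _ h => (low5_key h).2.2.2.1⟩
  · exact ⟨_, fun _ h => (low5_key h).2.2.2.2.1⟩
  · exact ⟨_, fun _ h => (low5_key h).2.2.2.2.2.1⟩
  · exact ⟨_, fun _ h => (low5_key h).2.2.2.2.2.2.1⟩
  · exact ⟨_, fun _ h => (low5_key h).2.2.2.2.2.2.2.1⟩
  · exact ⟨_, fun _ h => (low5_key h).2.2.2.2.2.2.2.2.1⟩
  · exact ⟨_, fun _ h => (low5_key h).2.2.2.2.2.2.2.2.2.1⟩
  · exact ⟨_, fun _ h => (low5_key h).2.2.2.2.2.2.2.2.2.2.1⟩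
  · exact ⟨_, fun _ h => (low5_key h).2.2.2.2.2.2.2.2.2.2.2.1⟩
  · exact ⟨_, fun _ h => (low5_key h).2.2.2.2.2.2.2.2.2.2.2.2.1⟩
  · exact ⟨_, fun _ h => (low5_key h).2.2.2.2.2.2.2.2.2.2.2.2.2.1⟩
  · exact ⟨_, fun _ h => (low5_key h).2.2.2.2.2.2.2.2.2.2.2.2.2.2.1⟩
  · exact ⟨_, fun _ h => (low5_key h).2.2.2.2.2.2.2.2.2.2.2.2.2.2.2⟩

theorem low5 (k : List ℕ+) (hk : wt k = 5) :
    ∃ q : ℚ, Lf fun p => zeta k p - q * zeta [4, 1] p := by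
  obtain ⟨q, hq⟩ := low5_rl k (cps_mem 4 k hk)
  refine ⟨q, lf_dual (x := zeta k - q • zeta [4, 1]) fun φ h => ?_⟩
  rw [φ.map_sub, φ.map_smul, hq _ (rl_of h), smul_eq_mul, sub_self]

end Pool.Agent.FMZ
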