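import Pool.Agent.P.MP_cb43af_nt.FvRel

open Finset Filter Polynomial Topology
namespace Pool.Agent.FMZ

def sq21 (x : List ℕ+ → ℚ) : ℚ := ((stl 9 [2, 1] [2, 1]).map x).sum

theorem low6_key {x : List ℕ+ → ℚ} (h : Rl x) :
    x [1, 1, 1, 1, 1, 1] = (0) * sq21 x ∧ x [1, 1, 1, 1, 2] = (0) * sq21 x ∧ x [1, 1, 1, 2,
      1] = (0) * sq21 x ∧ x [1, 1, 1, 3] = (-1 / 6) * sq21 x ∧ x [1, 1, 2, 1, 1] = (0) *
      sq21 x ∧ x [1, 1, 2, 2] = (1 / 3) * sq21 x ∧ x [1, 1, 3, 1] = (1 / 6) * sq21 x ∧ x [1,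
      1, 4] = (-1 / 6) * sq21 x ∧ x [1, 2, 1, 1, 1] = (0) * sq21 x ∧ x [1, 2, 1, 2] = (1 /
      2) * sq21 x ∧ x [1, 2, 2, 1] = (-1) * sq21 x ∧ x [1, 2, 3] = (1 / 3) * sq21 x ∧ x [1,
      3, 1, 1] = (1 / 6) * sq21 x ∧ x [1, 3, 2] = (-1 / 2) * sq21 x ∧ x [1, 4, 1] = (1 / 3)
      * sq21 x ∧ x [1, 5] = (0) * sq21 x ∧ x [2, 1, 1, 1, 1] = (0) * sq21 x ∧ x [2, 1, 1, 2]
      = (-2 / 3) * sq21 x ∧ x [2, 1, 2, 1] = (1 / 2) * sq21 x ∧ x [2, 1, 3] = (1 / 6) * sq21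
      x ∧ x [2, 2, 1, 1] = (1 / 3) * sq21 x ∧ x [2, 2, 2] = (0) * sq21 x ∧ x [2, 3, 1] = (-1
      / 2) * sq21 x ∧ x [2, 4] = (0) * sq21 x ∧ x [3, 1, 1, 1] = (-1 / 6) * sq21 x ∧ x [3,
      1, 2] = (1 / 6) * sq21 x ∧ x [3, 2, 1] = (1 / 3) * sq21 x ∧ x [3, 3] = (0) * sq21 x ∧
      x [4, 1, 1] = (-1 / 6) * sq21 x ∧ x [4, 2] = (0) * sq21 x ∧ x [5, 1] = (0) * sq21 x ∧
      x [6] = (0) * sq21 x := by
  have r0 : x [1, 5] + (x [5, 1] + (x [6] + 0)) = 0 := h.st [1] fzlow_1 [5] (by decide)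
  have r1 : x [2, 4] + (x [4, 2] + (x [6] + 0)) = 0 := h.st [2] fzlow_w2.1 [4] (by decide)
  have r2 : x [3, 3] + (x [3, 3] + (x [6] + 0)) = 0 := h.st [3] fzlow_w3.1 [3] (by decide)
  have r3 : x [1, 1, 4] + (x [1, 1, 4] + (x [1, 4, 1] + (x [1, 5] + (x [2, 4] + 0)))) = 0 :=
      h.st [1] fzlow_1 [1, 4] (by decide)
  have r4 : x [1, 2, 3] + (x [2, 1, 3] + (x [2, 3, 1] + (x [2, 4] + (x [3, 3] + 0)))) = 0 :=
      h.st [1] fzlow_1 [2, 3] (by decide)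
  have r5 : x [1, 3, 2] + (x [3, 1, 2] + (x [3, 2, 1] + (x [3, 3] + (x [4, 2] + 0)))) = 0 :=
      h.st [1] fzlow_1 [3, 2] (by decide)
  have r6 : x [1, 4, 1] + (x [4, 1, 1] + (x [4, 1, 1] + (x [4, 2] + (x [5, 1] + 0)))) = 0 :=
      h.st [1] fzlow_1 [4, 1] (by decide)
  have r7 : x [2, 1, 3] + (x [1, 2, 3] + (x [1, 3, 2] + (x [1, 5] + (x [3, 3] + 0)))) = 0 :=
      h.st [2] fzlow_w2.1 [1, 3] (by decide)
  have r8 : x [2, 2, 2] + (x [2, 2, 2] + (x [2, 2, 2] + (x [2, 4] + (x [4, 2] + 0)))) = 0 :=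
      h.st [2] fzlow_w2.1 [2, 2] (by decide)
  have r9 : x [3, 1, 2] + (x [1, 3, 2] + (x [1, 2, 3] + (x [1, 5] + (x [4, 2] + 0)))) = 0 :=
      h.st [3] fzlow_w3.1 [1, 2] (by decide)
  have r10 : x [1, 1, 1, 3] + (x [1, 1, 1, 3] + (x [1, 1, 1, 3] + (x [1, 1, 3, 1] + (x [1,
      1, 4] + (x [1, 2, 3] + (x [2, 1, 3] + 0)))))) = 0 := h.st [1] fzlow_1 [1, 1, 3] (by
      decide)
  have r11 : x [1, 1, 2, 2] + (x [1, 1, 2, 2] + (x [1, 2, 1, 2] + (x [1, 2, 2, 1] + (x [1,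
      2, 3] + (x [1, 3, 2] + (x [2, 2, 2] + 0)))))) = 0 := h.st [1] fzlow_1 [1, 2, 2] (by
      decide)
  have r12 : x [1, 1, 3, 1] + (x [1, 1, 3, 1] + (x [1, 3, 1, 1] + (x [1, 3, 1, 1] + (x [1,
      3, 2] + (x [1, 4, 1] + (x [2, 3, 1] + 0)))))) = 0 := h.st [1] fzlow_1 [1, 3, 1] (by
      decide)
  have r13 : x [1, 2, 1, 2] + (x [2, 1, 1, 2] + (x [2, 1, 1, 2] + (x [2, 1, 2, 1] + (x [2,
      1, 3] + (x [2, 2, 2] + (x [3, 1, 2] + 0)))))) = 0 := h.st [1] fzlow_1 [2, 1, 2] (by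
      decide)
  have r14 : x [1, 2, 2, 1] + (x [2, 1, 2, 1] + (x [2, 2, 1, 1] + (x [2, 2, 1, 1] + (x [2,
      2, 2] + (x [2, 3, 1] + (x [3, 2, 1] + 0)))))) = 0 := h.st [1] fzlow_1 [2, 2, 1] (by
      decide)
  have r15 : x [1, 3, 1, 1] + (x [3, 1, 1, 1] + (x [3, 1, 1, 1] + (x [3, 1, 1, 1] + (x [3,
      1, 2] + (x [3, 2, 1] + (x [4, 1, 1] + 0)))))) = 0 := h.st [1] fzlow_1 [3, 1, 1] (by
      decide)
  have r16 : x [2, 1, 1, 2] + (x [1, 2, 1, 2] + (x [1, 1, 2, 2] + (x [1, 1, 2, 2] + (x [1,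
      1, 4] + (x [1, 3, 2] + (x [3, 1, 2] + 0)))))) = 0 := h.st [2] fzlow_w2.1 [1, 1, 2] (by
      decide)
  have r17 : x [1, 1, 1, 1, 2] + (x [1, 1, 1, 1, 2] + (x [1, 1, 1, 1, 2] + (x [1, 1, 1, 1,
      2] + (x [1, 1, 1, 2, 1] + (x [1, 1, 1, 3] + (x [1, 1, 2, 2] + (x [1, 2, 1, 2] + (x [2,
      1, 1, 2] + 0)))))))) = 0 := h.st [1] fzlow_1 [1, 1, 1, 2] (by decide)
  have r18 : x [1, 1, 1, 2, 1] + (x [1, 1, 1, 2, 1] + (x [1, 1, 1, 2, 1] + (x [1, 1, 2, 1,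
      1] + (x [1, 1, 2, 1, 1] + (x [1, 1, 2, 2] + (x [1, 1, 3, 1] + (x [1, 2, 2, 1] + (x [2,
      1, 2, 1] + 0)))))))) = 0 := h.st [1] fzlow_1 [1, 1, 2, 1] (by decide)
  have r19 : x [1, 1, 2, 1, 1] + (x [1, 1, 2, 1, 1] + (x [1, 2, 1, 1, 1] + (x [1, 2, 1, 1,
      1] + (x [1, 2, 1, 1, 1] + (x [1, 2, 1, 2] + (x [1, 2, 2, 1] + (x [1, 3, 1, 1] + (x [2,
      2, 1, 1] + 0)))))))) = 0 := h.st [1] fzlow_1 [1, 2, 1, 1] (by decide)
  have r20 : x [1, 2, 1, 1, 1] + (x [2, 1, 1, 1, 1] + (x [2, 1, 1, 1, 1] + (x [2, 1, 1, 1,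
      1] + (x [2, 1, 1, 1, 1] + (x [2, 1, 1, 2] + (x [2, 1, 2, 1] + (x [2, 2, 1, 1] + (x [3,
      1, 1, 1] + 0)))))))) = 0 := h.st [1] fzlow_1 [2, 1, 1, 1] (by decide)
  have r21 : x [1, 1, 1, 1, 1, 1] + (x [1, 1, 1, 1, 1, 1] + (x [1, 1, 1, 1, 1, 1] + (x [1,
      1, 1, 1, 1, 1] + (x [1, 1, 1, 1, 1, 1] + (x [1, 1, 1, 1, 1, 1] + (x [1, 1, 1, 1, 2] +
      (x [1, 1, 1, 2, 1] + (x [1, 1, 2, 1, 1] + (x [1, 2, 1, 1, 1] + (x [2, 1, 1, 1, 1] +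
      0)))))))))) = 0 := h.st [1] fzlow_1 [1, 1, 1, 1, 1] (by decide)
  have r22 : x [1, 1, 1, 3] + (x [1, 1, 4] + (x [1, 2, 3] + (x [1, 5] + (x [2, 1, 3] + (x
      [2, 4] + (x [3, 3] + (x [6] + (x [4, 1, 1] + (x [4, 2] + (x [5, 1] + (x [6] +
      0))))))))))) = 0 := h.du [true, true, true, false, false]
  have r23 : x [1, 1, 2, 2] + (x [1, 1, 4] + (x [1, 3, 2] + (x [1, 5] + (x [2, 2, 2] + (x
      [2, 4] + (x [4, 2] + (x [6] + (x [3, 2, 1] + (x [3, 3] + (x [5, 1] + (x [6] +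
      0))))))))))) = 0 := h.du [true, true, false, true, false]
  have r24 : x [1, 1, 3, 1] + (x [1, 1, 4] + (x [1, 4, 1] + (x [1, 5] + (x [2, 3, 1] + (x
      [2, 4] + (x [5, 1] + (x [6] + (x [3, 1, 2] + (x [3, 3] + (x [4, 2] + (x [6] +
      0))))))))))) = 0 := h.du [true, true, false, false, true]
  have r25 : x [1, 1, 4] + (x [1, 5] + (x [2, 4] + (x [6] + (x [3, 1, 1, 1] + (x [3, 1, 2] +
      (x [3, 2, 1] + (x [3, 3] + (x [4, 1, 1] + (x [4, 2] + (x [5, 1] + (x [6] +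
      0))))))))))) = 0 := h.du [true, true, false, false, false]
  have r26 : x [1, 2, 1, 2] + (x [1, 2, 3] + (x [1, 3, 2] + (x [1, 5] + (x [3, 1, 2] + (x
      [3, 3] + (x [4, 2] + (x [6] + (x [2, 3, 1] + (x [2, 4] + (x [5, 1] + (x [6] +
      0))))))))))) = 0 := h.du [true, false, true, true, false]
  have r27 : x [1, 2, 2, 1] + (x [1, 2, 3] + (x [1, 4, 1] + (x [1, 5] + (x [3, 2, 1] + (x
      [3, 3] + (x [5, 1] + (x [6] + (x [2, 2, 2] + (x [2, 4] + (x [4, 2] + (x [6] +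
      0))))))))))) = 0 := h.du [true, false, true, false, true]
  have r28 : x [1, 2, 3] + (x [1, 5] + (x [3, 3] + (x [6] + (x [2, 2, 1, 1] + (x [2, 2, 2] +
      (x [2, 3, 1] + (x [2, 4] + (x [4, 1, 1] + (x [4, 2] + (x [5, 1] + (x [6] +
      0))))))))))) = 0 := h.du [true, false, true, false, false]
  have r29 : x [1, 3, 1, 1] + (x [1, 3, 2] + (x [1, 4, 1] + (x [1, 5] + (x [4, 1, 1] + (x
      [4, 2] + (x [5, 1] + (x [6] + (x [2, 1, 3] + (x [2, 4] + (x [3, 3] + (x [6] +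
      0))))))))))) = 0 := h.du [true, false, false, true, true]
  have r30 : x [1, 1, 1, 1, 2] + (x [1, 1, 1, 3] + (x [1, 1, 2, 2] + (x [1, 1, 4] + (x [1,
      2, 1, 2] + (x [1, 2, 3] + (x [1, 3, 2] + (x [1, 5] + (x [2, 1, 1, 2] + (x [2, 1, 3] +
      (x [2, 2, 2] + (x [2, 4] + (x [3, 1, 2] + (x [3, 3] + (x [4, 2] + (x [6] + (x [5, 1] +
      (x [6] + 0))))))))))))))))) = 0 := h.du [true, true, true, true, false]
  rw [show sq21 x = x [2, 1, 2, 1] + (x [2, 2, 1, 1] + (x [2, 2, 1, 1] + (x [2, 2, 2] + (x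
      [2, 3, 1] + (x [2, 2, 1, 1] + (x [2, 2, 1, 1] + (x [2, 2, 2] + (x [2, 1, 2, 1] + (x
      [2, 3, 1] + (x [4, 1, 1] + (x [4, 1, 1] + (x [4, 2] + 0)))))))))))) from rfl]
  refine ⟨?_, ?_, ?_, ?_, ?_, ?_, ?_, ?_, ?_, ?_, ?_, ?_, ?_, ?_, ?_, ?_, ?_, ?_, ?_, ?_,
      ?_, ?_, ?_, ?_, ?_, ?_, ?_, ?_, ?_, ?_, ?_, ?_⟩
  · linear_combination (223 / 1008) * r0 + (25 / 112) * r1 + (8 / 63) * r2 + (29 / 1008) *
      r3 + (1 / 63) * r4 + (-5 / 252) * r5 + (65 / 1008) * r6 + (1 / 28) * r7 + (1 / 56) *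
      r8 + (1 / 72) * r10 + (1 / 168) * r11 + (25 / 504) * r12 + (1 / 168) * r13 + (13 /
      168) * r14 + (1 / 72) * r15 + (1 / 14) * r16 + (-1 / 24) * r17 + (-1 / 24) * r18 + (-1
      / 24) * r19 + (-1 / 24) * r20 + (1 / 6) * r21 + (-1 / 14) * r23 + (-1 / 14) * r24 +
      (-1 / 14) * r28 + (-1 / 14) * r29
  · linear_combination (1 / 7) * r0 + (-1 / 7) * r1 + (-2 / 7) * r2 + (6 / 7) * r3 + (3 /
      14) * r4 + (19 / 14) * r5 + (-2 / 7) * r6 + (-8 / 7) * r7 + (-15 / 14) * r8 + (23 /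
      14) * r11 + (-1 / 7) * r12 + (9 / 14) * r13 + (-9 / 14) * r14 + (-16 / 7) * r16 + (-1)
      * r22 + (2 / 7) * r23 + (2 / 7) * r24 + (-1) * r26 + (-1) * r27 + (9 / 7) * r28 + (2 /
      7) * r29 + (1) * r30
  · linear_combination (-155 / 42) * r0 + (-9 / 14) * r1 + (43 / 21) * r2 + (-265 / 42) * r3
      + (-13 / 21) * r4 + (-241 / 21) * r5 + (107 / 42) * r6 + (48 / 7) * r7 + (45 / 7) * r8
      + (2) * r9 + (-2 / 3) * r10 + (-76 / 7) * r11 + (25 / 21) * r12 + (-34 / 7) * r13 +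
      (34 / 7) * r14 + (-2 / 3) * r15 + (89 / 7) * r16 + (1) * r17 + (5) * r22 + (-5 / 7) *
      r23 + (-12 / 7) * r24 + (2) * r25 + (6) * r26 + (6) * r27 + (-68 / 7) * r28 + (-12 /
      7) * r29 + (-4) * r30
  · linear_combination (79 / 126) * r0 + (2 / 21) * r1 + (17 / 126) * r2 + (377 / 504) * r3
      + (41 / 252) * r4 + (559 / 504) * r5 + (-25 / 126) * r6 + (-187 / 168) * r7 + (-97 /
      168) * r8 + (1 / 6) * r9 + (11 / 18) * r10 + (187 / 168) * r11 + (-169 / 504) * r12 +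
      (103 / 168) * r13 + (-47 / 168) * r14 + (1 / 9) * r15 + (-103 / 84) * r16 + (-5 / 6) *
      r22 + (19 / 84) * r23 + (5 / 84) * r24 + (-1 / 3) * r25 + (-1 / 2) * r26 + (-5 / 6) *
      r27 + (103 / 84) * r28 + (47 / 84) * r29
  · linear_combination (223 / 42) * r0 + (5 / 14) * r1 + (-83 / 21) * r2 + (835 / 84) * r3 +
      (8 / 21) * r4 + (1577 / 84) * r5 + (-187 / 42) * r6 + (-291 / 28) * r7 + (-275 / 28) *
      r8 + (-4) * r9 + (5 / 6) * r10 + (459 / 28) * r11 + (-173 / 84) * r12 + (207 / 28) *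
      r13 + (-221 / 28) * r14 + (4 / 3) * r15 + (-135 / 7) * r16 + (-3 / 2) * r17 + (1 / 2)
      * r18 + (-7) * r22 + (11 / 14) * r23 + (39 / 14) * r24 + (-4) * r25 + (-9) * r26 +
      (-9) * r27 + (221 / 14) * r28 + (39 / 14) * r29 + (6) * r30
  · linear_combination (71 / 63) * r0 + (2 / 21) * r1 + (-23 / 63) * r2 + (157 / 252) * r3 +
      (26 / 63) * r4 + (437 / 252) * r5 + (-44 / 63) * r6 + (-83 / 84) * r7 + (-59 / 84) *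
      r8 + (-1 / 3) * r9 + (1 / 9) * r10 + (125 / 84) * r11 + (-53 / 252) * r12 + (41 / 84)
      * r13 + (-97 / 84) * r14 + (1 / 9) * r15 + (-41 / 42) * r16 + (-1 / 3) * r22 + (-1 /
      42) * r23 + (13 / 42) * r24 + (-1 / 3) * r25 + (-1) * r26 + (-1 / 3) * r27 + (41 / 42)
      * r28 + (13 / 42) * r29
  · linear_combination (-19 / 126) * r0 + (16 / 21) * r1 + (31 / 126) * r2 + (-491 / 504) *
      r3 + (-29 / 252) * r4 + (-841 / 504) * r5 + (73 / 126) * r6 + (289 / 168) * r7 + (127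
      / 168) * r8 + (-1 / 6) * r9 + (1 / 18) * r10 + (-205 / 168) * r11 + (307 / 504) * r12
      + (-121 / 168) * r13 + (65 / 168) * r14 + (-4 / 9) * r15 + (121 / 84) * r16 + (-1 / 6)
      * r22 + (-37 / 84) * r23 + (-23 / 84) * r24 + (4 / 3) * r25 + (1 / 2) * r26 + (5 / 6)
      * r27 + (-121 / 84) * r28 + (-65 / 84) * r29
  · linear_combination (-55 / 63) * r0 + (-17 / 42) * r1 + (17 / 126) * r2 + (-127 / 504) *
      r3 + (-85 / 252) * r4 + (-449 / 504) * r5 + (19 / 63) * r6 + (65 / 168) * r7 + (71 /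
      168) * r8 + (1 / 6) * r9 + (-7 / 18) * r10 + (-149 / 168) * r11 + (83 / 504) * r12 +
      (-65 / 168) * r13 + (121 / 168) * r14 + (1 / 9) * r15 + (65 / 84) * r16 + (7 / 6) *
      r22 + (19 / 84) * r23 + (5 / 84) * r24 + (-1 / 3) * r25 + (1 / 2) * r26 + (1 / 6) *
      r27 + (-65 / 84) * r28 + (-37 / 84) * r29
  · linear_combination (-61 / 14) * r0 + (-9 / 14) * r1 + (19 / 7) * r2 + (-293 / 42) * r3 +
      (1 / 21) * r4 + (-283 / 21) * r5 + (45 / 14) * r6 + (48 / 7) * r7 + (45 / 7) * r8 +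
      (10 / 3) * r9 + (-1 / 3) * r10 + (-235 / 21) * r11 + (25 / 21) * r12 + (-34 / 7) * r13
      + (109 / 21) * r14 + (-1) * r15 + (89 / 7) * r16 + (1) * r17 + (-1 / 3) * r18 + (1 /
      3) * r19 + (4) * r22 + (2 / 7) * r23 + (-12 / 7) * r24 + (3) * r25 + (6) * r26 + (6) *
      r27 + (-75 / 7) * r28 + (-12 / 7) * r29 + (-4) * r30
  · linear_combination (73 / 42) * r0 + (3 / 7) * r1 + (-55 / 42) * r2 + (275 / 168) * r3 +
      (-61 / 84) * r4 + (709 / 168) * r5 + (-55 / 42) * r6 + (-25 / 56) * r7 + (-51 / 56) *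
      r8 + (-5 / 2) * r9 + (-1 / 6) * r10 + (137 / 56) * r11 + (-19 / 168) * r12 + (53 / 56)
      * r13 + (-109 / 56) * r14 + (1 / 3) * r15 + (-53 / 28) * r16 + (1 / 2) * r22 + (-31 /
      28) * r23 + (11 / 28) * r24 + (-1) * r25 + (-1 / 2) * r26 + (-1 / 2) * r27 + (53 / 28)
      * r28 + (-3 / 28) * r29
  · linear_combination (-3 / 7) * r0 + (3 / 7) * r1 + (6 / 7) * r2 + (-1 / 14) * r3 + (-1 /
      7) * r4 + (-15 / 14) * r5 + (6 / 7) * r6 + (-1 / 14) * r7 + (3 / 14) * r8 + (1) * r9 +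
      (1 / 14) * r11 + (-1 / 14) * r12 + (1 / 14) * r13 + (27 / 14) * r14 + (-1 / 7) * r16 +
      (1 / 7) * r23 + (1 / 7) * r24 + (-1) * r27 + (1 / 7) * r28 + (1 / 7) * r29
  · linear_combination (-131 / 126) * r0 + (-17 / 42) * r1 + (19 / 63) * r2 + (-305 / 252) *
      r3 + (31 / 126) * r4 + (-613 / 252) * r5 + (59 / 126) * r6 + (85 / 84) * r7 + (67 /
      84) * r8 + (2 / 3) * r9 + (-2 / 9) * r10 + (-169 / 84) * r11 + (115 / 252) * r12 +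
      (-85 / 84) * r13 + (29 / 84) * r14 + (-2 / 9) * r15 + (85 / 42) * r16 + (2 / 3) * r22
      + (-1 / 42) * r23 + (-29 / 42) * r24 + (2 / 3) * r25 + (1) * r26 + (5 / 3) * r27 +
      (-85 / 42) * r28 + (-29 / 42) * r29
  · linear_combination (149 / 126) * r0 + (-5 / 21) * r1 + (-11 / 126) * r2 + (349 / 504) *
      r3 + (55 / 252) * r4 + (839 / 504) * r5 + (-95 / 126) * r6 + (-215 / 168) * r7 + (-41
      / 168) * r8 + (-1 / 6) * r9 + (-5 / 18) * r10 + (131 / 168) * r11 + (139 / 504) * r12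
      + (47 / 168) * r13 + (-103 / 168) * r14 + (2 / 9) * r15 + (-47 / 84) * r16 + (5 / 6) *
      r22 + (-37 / 84) * r23 + (-23 / 84) * r24 + (-2 / 3) * r25 + (-1 / 2) * r26 + (-1 / 6)
      * r27 + (47 / 84) * r28 + (19 / 84) * r29
  · linear_combination (-44 / 21) * r0 + (-1 / 14) * r1 + (43 / 42) * r2 + (-257 / 168) * r3
      + (-5 / 84) * r4 + (-691 / 168) * r5 + (32 / 21) * r6 + (87 / 56) * r7 + (61 / 56) *
      r8 + (3 / 2) * r9 + (1 / 6) * r10 + (-143 / 56) * r11 + (37 / 168) * r12 + (-59 / 56)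
      * r13 + (115 / 56) * r14 + (-1 / 3) * r15 + (59 / 28) * r16 + (-1 / 2) * r22 + (25 /
      28) * r23 + (-17 / 28) * r24 + (1) * r25 + (3 / 2) * r26 + (1 / 2) * r27 + (-59 / 28)
      * r28 + (-3 / 28) * r29
  · linear_combination (-47 / 126) * r0 + (-17 / 42) * r1 + (-23 / 63) * r2 + (31 / 252) *
      r3 + (-11 / 126) * r4 + (59 / 252) * r5 + (-25 / 126) * r6 + (1 / 84) * r7 + (-17 /
      84) * r8 + (-1 / 3) * r9 + (1 / 9) * r10 + (-1 / 84) * r11 + (-53 / 252) * r12 + (-1 /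
      84) * r13 + (-55 / 84) * r14 + (1 / 9) * r15 + (1 / 42) * r16 + (-1 / 3) * r22 + (-1 /
      42) * r23 + (13 / 42) * r24 + (-1 / 3) * r25 + (2 / 3) * r27 + (-1 / 42) * r28 + (13 /
      42) * r29
  · linear_combination (97 / 42) * r0 + (5 / 14) * r1 + (-20 / 21) * r2 + (205 / 84) * r3 +
      (-5 / 42) * r4 + (401 / 84) * r5 + (-61 / 42) * r6 + (-53 / 28) * r7 + (-51 / 28) * r8
      + (-1) * r9 + (1 / 3) * r10 + (109 / 28) * r11 + (-47 / 84) * r12 + (53 / 28) * r13 +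
      (-53 / 28) * r14 + (1 / 3) * r15 + (-53 / 14) * r16 + (-1) * r22 + (-3 / 14) * r23 +
      (11 / 14) * r24 + (-1) * r25 + (-2) * r26 + (-2) * r27 + (53 / 14) * r28 + (11 / 14) *
      r29
  · linear_combination (71 / 56) * r0 + (-15 / 56) * r1 + (-9 / 7) * r2 + (389 / 168) * r3 +
      (-5 / 42) * r4 + (415 / 84) * r5 + (-79 / 56) * r6 + (-67 / 28) * r7 + (-29 / 14) * r8
      + (-4 / 3) * r9 + (1 / 12) * r10 + (167 / 42) * r11 + (-10 / 21) * r12 + (23 / 14) *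
      r13 + (-83 / 42) * r14 + (1 / 4) * r15 + (-30 / 7) * r16 + (-1 / 4) * r17 + (1 / 12) *
      r18 + (-1 / 12) * r19 + (1 / 4) * r20 + (-1) * r22 + (-3 / 14) * r23 + (11 / 14) * r24
      + (-1) * r25 + (-2) * r26 + (-2) * r27 + (53 / 14) * r28 + (11 / 14) * r29 + (1) * r30
  · linear_combination (-47 / 126) * r0 + (25 / 42) * r1 + (40 / 63) * r2 + (-8 / 63) * r3 +
      (-11 / 126) * r4 + (-64 / 63) * r5 + (101 / 126) * r6 + (11 / 42) * r7 + (1 / 21) * r8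
      + (2 / 3) * r9 + (1 / 9) * r10 + (-16 / 21) * r11 + (5 / 126) * r12 + (5 / 21) * r13 +
      (23 / 21) * r14 + (1 / 9) * r15 + (11 / 21) * r16 + (-1 / 3) * r22 + (10 / 21) * r23 +
      (-4 / 21) * r24 + (-1 / 3) * r25 + (-1 / 3) * r27 + (10 / 21) * r28 + (-4 / 21) * r29
  · linear_combination (-2 / 21) * r0 + (-1 / 14) * r1 + (43 / 42) * r2 + (-89 / 168) * r3 +
      (79 / 84) * r4 + (-355 / 168) * r5 + (11 / 21) * r6 + (-25 / 56) * r7 + (5 / 56) * r8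
      + (3 / 2) * r9 + (1 / 6) * r10 + (-31 / 56) * r11 + (37 / 168) * r12 + (-3 / 56) * r13
      + (3 / 56) * r14 + (-1 / 3) * r15 + (3 / 28) * r16 + (-1 / 2) * r22 + (25 / 28) * r23
      + (-17 / 28) * r24 + (1) * r25 + (1 / 2) * r26 + (1 / 2) * r27 + (-59 / 28) * r28 +
      (-3 / 28) * r29
  · linear_combination (23 / 126) * r0 + (-5 / 21) * r1 + (-137 / 126) * r2 + (97 / 504) *
      r3 + (-71 / 252) * r4 + (839 / 504) * r5 + (-95 / 126) * r6 + (37 / 168) * r7 + (-41 /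
      168) * r8 + (-7 / 6) * r9 + (-5 / 18) * r10 + (131 / 168) * r11 + (-113 / 504) * r12 +
      (47 / 168) * r13 + (-103 / 168) * r14 + (2 / 9) * r15 + (-47 / 84) * r16 + (5 / 6) *
      r22 + (-37 / 84) * r23 + (61 / 84) * r24 + (-2 / 3) * r25 + (-1 / 2) * r26 + (-1 / 6)
      * r27 + (47 / 84) * r28 + (19 / 84) * r29
  · linear_combination (-5 / 126) * r0 + (25 / 42) * r1 + (19 / 63) * r2 + (-305 / 252) * r3
      + (-16 / 63) * r4 + (-487 / 252) * r5 + (59 / 126) * r6 + (169 / 84) * r7 + (109 / 84)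
      * r8 + (-1 / 3) * r9 + (-2 / 9) * r10 + (-211 / 84) * r11 + (115 / 252) * r12 + (-127
      / 84) * r13 + (71 / 84) * r14 + (-2 / 9) * r15 + (127 / 42) * r16 + (2 / 3) * r22 +
      (-43 / 42) * r23 + (-29 / 42) * r24 + (2 / 3) * r25 + (1) * r26 + (5 / 3) * r27 + (-85
      / 42) * r28 + (-29 / 42) * r29
  · linear_combination (-3 / 7) * r0 + (-4 / 7) * r1 + (-1 / 7) * r2 + (-1 / 14) * r3 + (-1
      / 7) * r4 + (-1 / 14) * r5 + (-1 / 7) * r6 + (-1 / 14) * r7 + (3 / 14) * r8 + (1 / 14)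
      * r11 + (-1 / 14) * r12 + (1 / 14) * r13 + (-1 / 14) * r14 + (-1 / 7) * r16 + (1 / 7)
      * r23 + (1 / 7) * r24 + (1 / 7) * r28 + (1 / 7) * r29
  · linear_combination (17 / 42) * r0 + (-4 / 7) * r1 + (-41 / 42) * r2 + (331 / 168) * r3 +
      (-5 / 84) * r4 + (653 / 168) * r5 + (-41 / 42) * r6 + (-137 / 56) * r7 + (-107 / 56) *
      r8 + (-1 / 2) * r9 + (1 / 6) * r10 + (193 / 56) * r11 + (-131 / 168) * r12 + (109 /
      56) * r13 + (-53 / 56) * r14 + (2 / 3) * r15 + (-109 / 28) * r16 + (-1 / 2) * r22 +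
      (25 / 28) * r23 + (39 / 28) * r24 + (-2) * r25 + (-3 / 2) * r26 + (-5 / 2) * r27 +
      (109 / 28) * r28 + (25 / 28) * r29
  · linear_combination (-4 / 21) * r0 + (6 / 7) * r1 + (22 / 21) * r2 + (-89 / 84) * r3 +
      (37 / 42) * r4 + (-271 / 84) * r5 + (22 / 21) * r6 + (31 / 28) * r7 + (33 / 28) * r8 +
      (1) * r9 + (1 / 3) * r10 + (-59 / 28) * r11 + (37 / 84) * r12 + (-31 / 28) * r13 + (31
      / 28) * r14 + (-2 / 3) * r15 + (31 / 14) * r16 + (-1) * r22 + (-3 / 14) * r23 + (-17 /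
      14) * r24 + (2) * r25 + (1) * r26 + (1) * r27 + (-31 / 14) * r28 + (-3 / 14) * r29
  · linear_combination (-13 / 63) * r0 + (25 / 42) * r1 + (59 / 126) * r2 + (-211 / 504) *
      r3 + (-43 / 252) * r4 + (-617 / 504) * r5 + (40 / 63) * r6 + (149 / 168) * r7 + (71 /
      168) * r8 + (1 / 6) * r9 + (-1 / 18) * r10 + (-149 / 168) * r11 + (-1 / 504) * r12 +
      (-65 / 168) * r13 + (121 / 168) * r14 + (4 / 9) * r15 + (65 / 84) * r16 + (1 / 6) *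
      r22 + (19 / 84) * r23 + (5 / 84) * r24 + (-1 / 3) * r25 + (1 / 2) * r26 + (1 / 6) *
      r27 + (-65 / 84) * r28 + (-37 / 84) * r29
  · linear_combination (-41 / 63) * r0 + (-31 / 42) * r1 + (31 / 126) * r2 + (-491 / 504) *
      r3 + (97 / 252) * r4 + (-841 / 504) * r5 + (5 / 63) * r6 + (37 / 168) * r7 + (127 /
      168) * r8 + (5 / 6) * r9 + (1 / 18) * r10 + (-205 / 168) * r11 + (55 / 504) * r12 +
      (-121 / 168) * r13 + (65 / 168) * r14 + (-4 / 9) * r15 + (121 / 84) * r16 + (-1 / 6) *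
      r22 + (-37 / 84) * r23 + (-23 / 84) * r24 + (4 / 3) * r25 + (1 / 2) * r26 + (5 / 6) *
      r27 + (-121 / 84) * r28 + (19 / 84) * r29
  · linear_combination (79 / 126) * r0 + (-17 / 42) * r1 + (-86 / 63) * r2 + (283 / 252) *
      r3 + (-11 / 126) * r4 + (815 / 252) * r5 + (-151 / 126) * r6 + (-83 / 84) * r7 + (-101
      / 84) * r8 + (-4 / 3) * r9 + (1 / 9) * r10 + (167 / 84) * r11 + (-53 / 252) * r12 +
      (83 / 84) * r13 + (-139 / 84) * r14 + (1 / 9) * r15 + (-83 / 42) * r16 + (-1 / 3) *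
      r22 + (-1 / 42) * r23 + (13 / 42) * r24 + (-1 / 3) * r25 + (-1) * r26 + (-1 / 3) * r27
      + (83 / 42) * r28 + (13 / 42) * r29
  · linear_combination (9 / 14) * r0 + (5 / 14) * r1 + (5 / 7) * r2 + (3 / 28) * r3 + (3 /
      14) * r4 + (3 / 28) * r5 + (3 / 14) * r6 + (3 / 28) * r7 + (5 / 28) * r8 + (-3 / 28) *
      r11 + (3 / 28) * r12 + (-3 / 28) * r13 + (3 / 28) * r14 + (3 / 14) * r16 + (-3 / 14) *
      r23 + (-3 / 14) * r24 + (-3 / 14) * r28 + (-3 / 14) * r29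
  · linear_combination (-34 / 63) * r0 + (-17 / 42) * r1 + (-25 / 126) * r2 + (209 / 504) *
      r3 + (-1 / 252) * r4 + (223 / 504) * r5 + (-2 / 63) * r6 + (-103 / 168) * r7 + (-97 /
      168) * r8 + (1 / 6) * r9 + (5 / 18) * r10 + (187 / 168) * r11 + (-85 / 504) * r12 +
      (103 / 168) * r13 + (-47 / 168) * r14 + (-2 / 9) * r15 + (-103 / 84) * r16 + (-5 / 6)
      * r22 + (19 / 84) * r23 + (5 / 84) * r24 + (2 / 3) * r25 + (-1 / 2) * r26 + (-5 / 6) *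
      r27 + (103 / 84) * r28 + (47 / 84) * r29
  · linear_combination (31 / 21) * r0 + (6 / 7) * r1 + (-13 / 21) * r2 + (107 / 84) * r3 +
      (-19 / 42) * r4 + (289 / 84) * r5 + (-13 / 21) * r6 + (-25 / 28) * r7 + (-23 / 28) *
      r8 + (-1) * r9 + (-1 / 3) * r10 + (53 / 28) * r11 + (-19 / 84) * r12 + (25 / 28) * r13
      + (-25 / 28) * r14 + (2 / 3) * r15 + (-25 / 14) * r16 + (1) * r22 + (-3 / 14) * r23 +
      (11 / 14) * r24 + (-2) * r25 + (-1) * r26 + (-1) * r27 + (25 / 14) * r28 + (-3 / 14) *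
      r29
  · linear_combination (-1 / 42) * r0 + (5 / 14) * r1 + (29 / 21) * r2 + (-187 / 84) * r3 +
      (23 / 42) * r4 + (-383 / 84) * r5 + (79 / 42) * r6 + (59 / 28) * r7 + (61 / 28) * r8 +
      (1) * r9 + (-1 / 3) * r10 + (-115 / 28) * r11 + (65 / 84) * r12 + (-59 / 28) * r13 +
      (59 / 28) * r14 + (-1 / 3) * r15 + (59 / 14) * r16 + (1) * r22 + (-3 / 14) * r23 +
      (-17 / 14) * r24 + (1) * r25 + (2) * r26 + (2) * r27 + (-59 / 14) * r28 + (-17 / 14) *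
      r29
  · linear_combination (-9 / 7) * r0 + (-5 / 7) * r1 + (-3 / 7) * r2 + (-3 / 14) * r3 + (-3
      / 7) * r4 + (-3 / 14) * r5 + (-3 / 7) * r6 + (-3 / 14) * r7 + (-5 / 14) * r8 + (3 /
      14) * r11 + (-3 / 14) * r12 + (3 / 14) * r13 + (-3 / 14) * r14 + (-3 / 7) * r16 + (3 /
      7) * r23 + (3 / 7) * r24 + (3 / 7) * r28 + (3 / 7) * r29

theorem low6_rl : ∀ k ∈ cps 5, ∃ q : ℚ, ∀ x, Rl x → x k = q * sq21 x := by
  intro k hk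
  rw [show cps 5 = [[1, 1, 1, 1, 1, 1], [1, 1, 1, 1, 2], [1, 1, 1, 2, 1], [1, 1, 1, 3], [1,
      1, 2, 1, 1], [1, 1, 2, 2], [1, 1, 3, 1], [1, 1, 4], [1, 2, 1, 1, 1], [1, 2, 1, 2], [1,
      2, 2, 1], [1, 2, 3], [1, 3, 1, 1], [1, 3, 2], [1, 4, 1], [1, 5], [2, 1, 1, 1, 1], [2,
      1, 1, 2], [2, 1, 2, 1], [2, 1, 3], [2, 2, 1, 1], [2, 2, 2], [2, 3, 1], [2, 4], [3, 1,
      1, 1], [3, 1, 2], [3, 2, 1], [3, 3], [4, 1, 1], [4, 2], [5, 1], [6]] from rfl] at hk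
  simp only [List.mem_cons, List.not_mem_nil, or_false] at hk
  rcases hk with rfl | rfl | rfl | rfl | rfl | rfl | rfl | rfl | rfl | rfl | rfl | rfl | rfl
      | rfl | rfl | rfl | rfl | rfl | rfl | rfl | rfl | rfl | rfl | rfl | rfl | rfl | rfl |
      rfl | rfl | rfl | rfl | rfl
  · exact ⟨_, fun _ h => (low6_key h).1⟩
  · exact ⟨_, fun _ h => (low6_key h).2.1⟩
  · exact ⟨_, fun _ h => (low6_key h).2.2.1⟩
  · exact ⟨_, fun _ h => (low6_key h).2.2.2.1⟩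
  · exact ⟨_, fun _ h => (low6_key h).2.2.2.2.1⟩
  · exact ⟨_, fun _ h => (low6_key h).2.2.2.2.2.1⟩
  · exact ⟨_, fun _ h => (low6_key h).2.2.2.2.2.2.1⟩
  · exact ⟨_, fun _ h => (low6_key h).2.2.2.2.2.2.2.1⟩
  · exact ⟨_, fun _ h => (low6_key h).2.2.2.2.2.2.2.2.1⟩
  · exact ⟨_, fun _ h => (low6_key h).2.2.2.2.2.2.2.2.2.1⟩
  · exact ⟨_, fun _ h => (low6_key h).2.2.2.2.2.2.2.2.2.2.1⟩
  · exact ⟨_, fun _ h => (low6_key h).2.2.2.2.2.2.2.2.2.2.2.1⟩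
  · exact ⟨_, fun _ h => (low6_key h).2.2.2.2.2.2.2.2.2.2.2.2.1⟩
  · exact ⟨_, fun _ h => (low6_key h).2.2.2.2.2.2.2.2.2.2.2.2.2.1⟩
  · exact ⟨_, fun _ h => (low6_key h).2.2.2.2.2.2.2.2.2.2.2.2.2.2.1⟩
  · exact ⟨_, fun _ h => (low6_key h).2.2.2.2.2.2.2.2.2.2.2.2.2.2.2.1⟩
  · exact ⟨_, fun _ h => (low6_key h).2.2.2.2.2.2.2.2.2.2.2.2.2.2.2.2.1⟩
  · exact ⟨_, fun _ h => (low6_key h).2.2.2.2.2.2.2.2.2.2.2.2.2.2.2.2.2.1⟩
  · exact ⟨_, fun _ h => (low6_key h).2.2.2.2.2.2.2.2.2.2.2.2.2.2.2.2.2.2.1⟩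
  · exact ⟨_, fun _ h => (low6_key h).2.2.2.2.2.2.2.2.2.2.2.2.2.2.2.2.2.2.2.1⟩
  · exact ⟨_, fun _ h => (low6_key h).2.2.2.2.2.2.2.2.2.2.2.2.2.2.2.2.2.2.2.2.1⟩
  · exact ⟨_, fun _ h => (low6_key h).2.2.2.2.2.2.2.2.2.2.2.2.2.2.2.2.2.2.2.2.2.1⟩
  · exact ⟨_, fun _ h => (low6_key h).2.2.2.2.2.2.2.2.2.2.2.2.2.2.2.2.2.2.2.2.2.2.1⟩
  · exact ⟨_, fun _ h => (low6_key h).2.2.2.2.2.2.2.2.2.2.2.2.2.2.2.2.2.2.2.2.2.2.2.1⟩
  · exact ⟨_, fun _ h => (low6_key h).2.2.2.2.2.2.2.2.2.2.2.2.2.2.2.2.2.2.2.2.2.2.2.2.1⟩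
  · exact ⟨_, fun _ h => (low6_key h).2.2.2.2.2.2.2.2.2.2.2.2.2.2.2.2.2.2.2.2.2.2.2.2.2.1⟩
  · exact ⟨_, fun _ h => (low6_key h).2.2.2.2.2.2.2.2.2.2.2.2.2.2.2.2.2.2.2.2.2.2.2.2.2.2.1⟩
  · exact ⟨_, fun _ h => (low6_key h).2.2.2.2.2.2.2.2.2.2.2.2.2.2.2.2.2.2.2.2.2.2.2.2.2.2.2.1⟩
  · exact ⟨_, fun _ h => (low6_key h).2.2.2.2.2.2.2.2.2.2.2.2.2.2.2.2.2.2.2.2.2.2.2.2.2.2.2.2.1⟩
  · exact ⟨_, fun _ h => (low6_key h).2.2.2.2.2.2.2.2.2.2.2.2.2.2.2.2.2.2.2.2.2.2.2.2.2.2.2.2.2.1⟩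
  · exact ⟨_, fun _ h => (low6_key h).2.2.2.2.2.2.2.2.2.2.2.2.2.2.2.2.2.2.2.2.2.2.2.2.2.2.2.2.2.2.1⟩
  · exact ⟨_, fun _ h => (low6_key h).2.2.2.2.2.2.2.2.2.2.2.2.2.2.2.2.2.2.2.2.2.2.2.2.2.2.2.2.2.2.2⟩

theorem low6 (k : List ℕ+) (hk : wt k = 6) :
    ∃ q : ℚ, Lf fun p => zeta k p - q * (zeta [2, 1] p * zeta [2, 1] p) := by
  obtain ⟨q, hq⟩ := low6_rl k (cps_mem 5 k hk)
  refine ⟨q, (lf_dual (x := zeta k - q • zs (stl 9 [2, 1] [2, 1])) fun φ h => ?_).congr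
    (Eventually.of_forall fun p _ => ?_)⟩
  · rw [φ.map_sub, φ.map_smul, hq _ (rl_of h), smul_eq_mul, phi_zs, sq21, sub_self]
  · rw [stl_spec 9 _ _ (by decide)]
    rfl

end Pool.Agent.FMZ
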