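import Pool.Agent.P.MP_cb43af_nt.Fz0

open Finset Filter Polynomial Topology
namespace Pool.Agent.FMZ

theorem fzdens_ev (P : ℕ) : ∀ᶠ x : ℝ in atTop, P * Real.log x + 1 ≤ x / 20000 := by
  have h1 := (Real.isLittleO_log_id_atTop.const_mul_left (P : ℝ)).bound
    (show (0 : ℝ) < 1 / 40000 by norm_num)
  filter_upwards [h1, eventually_ge_atTop (40000 : ℝ)] with x hx hx'
  rw [Real.norm_eq_abs, Real.norm_eq_abs, id, abs_of_nonneg (by linarith : (0 : ℝ) ≤ x)] at hx
  have := le_abs_self (P * Real.log x)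
  linarith

theorem dens_of_theta (bad bad' : ℕ → Prop) [DecidablePred bad] [DecidablePred bad']
    (h : ∀ᶠ ν : ℕ in atTop, (ν : ℝ) / 32 ≤ ∑ p ∈ (PR (48 * ν)).filter bad, Real.log p)
    (h' : ∀ᶠ p in atTop, Nat.Prime p → bad p → bad' p) :
    ∀ᶠ x : ℕ in atTop, (Nat.primeCounting x : ℝ) / 2500 ≤
      (((range (x + 1)).filter fun p => p.Prime ∧ bad' p).card : ℕ) := by
  obtain ⟨P, hP⟩ := eventually_atTop.1 h'
  obtain ⟨N, hN⟩ := eventually_atTop.1 h
  have h1 := tendsto_natCast_atTop_atTop (R := ℝ) |>.eventually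
    (Chebyshev.eventually_primeCounting_le (show (0 : ℝ) < 1 / 10 by norm_num))
  have h2 := tendsto_natCast_atTop_atTop (R := ℝ) |>.eventually (fzdens_ev P)
  filter_upwards [h1, h2, eventually_ge_atTop (48 * N), eventually_ge_atTop 2] with x hx1 hx2 hx3
    hx4
  rw [Nat.floor_natCast] at hx1
  set B := (range (x + 1)).filter fun p => p.Prime ∧ bad' p with hB
  have hν := hN (x / 48) (by omega)
  have hx0 : (2 : ℝ) ≤ x := by exact_mod_cast hx4
  have hL : 0 < Real.log x := Real.log_pos (by linarith)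
  have hsub : (PR (48 * (x / 48))).filter bad ⊆ range P ∪ B := by
    intro p hp
    simp only [PR, mem_filter, mem_range] at hp
    rw [mem_union, mem_range, hB, mem_filter, mem_range]
    by_cases hpP : p < P
    · exact Or.inl hpP
    · exact Or.inr ⟨by omega, hp.1.2, hP p (by omega) hp.1.2 hp.2⟩
  have hcard : (((PR (48 * (x / 48))).filter bad).card : ℝ) ≤ P + B.card := by
    have := (card_le_card hsub).trans (card_union_le _ _)
    rw [card_range] at this
    exact_mod_cast this
  have hsum : ∑ p ∈ (PR (48 * (x / 48))).filter bad, Real.log p ≤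
      ((PR (48 * (x / 48))).filter bad).card * Real.log x := by
    rw [← nsmul_eq_mul]
    refine sum_le_card_nsmul _ _ _ fun p hp => ?_
    simp only [PR, mem_filter, mem_range] at hp
    have hp0 : (0 : ℝ) < p := by exact_mod_cast hp.1.2.pos
    exact Real.log_le_log hp0 (by exact_mod_cast (by omega : p ≤ x))
  have hdiv : (x : ℝ) ≤ 48 * ((x / 48 : ℕ) : ℝ) + 47 := by
    exact_mod_cast (by omega : x ≤ 48 * (x / 48) + 47)
  have h4 : Real.log 4 < 1.3863 := by
    have : Real.log 4 = 2 * Real.log 2 := by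
      rw [show (4 : ℝ) = 2 ^ 2 by norm_num, Real.log_pow]; norm_num
    have := Real.log_two_lt_d9
    linarith
  have h5 := mul_le_mul_of_nonneg_right hcard hL.le
  have h6 : (Nat.primeCounting x : ℝ) * Real.log x ≤ 1.4863 * x := by
    rw [le_div_iff₀ hL] at hx1
    have : (Real.log 4 + 1 / 10) * x ≤ 1.4863 * x :=
      mul_le_mul_of_nonneg_right (by linarith) (by linarith)
    linarith
  refine le_of_mul_le_mul_right ?_ hL
  have h7 : (Nat.primeCounting x : ℝ) / 2500 * Real.log x =
      (Nat.primeCounting x : ℝ) * Real.log x / 2500 := by ring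
  rw [h7]
  rw [add_mul] at h5
  linarith

end Pool.Agent.FMZ
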