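import Pool.Agent.P.MP_cb43af_nt.FzMain
import Pool.Agent.P.MP_cb43af_nt.FzDens
import Pool.Agent.P.MP_cb43af_nt.FzLink

open Finset Filter Polynomial Topology
namespace Pool.Agent.FMZ

theorem density (r : ℚ) : ∀ᶠ x : ℕ in atTop, (Nat.primeCounting x : ℝ) / 2500 ≤
    (((range (x + 1)).filter fun p =>
      p.Prime ∧ ¬ padicNorm p (zeta [2, 1] p - r) ≤ 1 / p).card : ℕ) := by
  classical
  have hb : (1728 * r.den : ℤ) ≠ 0 := by
    have := r.den_pos
    positivity
  exact dens_of_theta (fun p => ¬ Hp (-5 * r.num) (1728 * r.den) p)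
    (fun p => ¬ padicNorm p (zeta [2, 1] p - r) ≤ 1 / p) (dens_core _ hb)
    ((link r).mono fun p h hp hn hc => hn (h hp hc))

theorem irrat (r : ℚ) : ¬ Cong 1 (zeta [2, 1]) fun _ => r := by
  intro h
  obtain ⟨P, hP⟩ := eventually_atTop.1 h
  have t : Tendsto (fun x : ℕ => (Nat.primeCounting x : ℝ) / 2500) atTop atTop :=
    (tendsto_natCast_atTop_atTop.comp Nat.tendsto_primeCounting).atTop_div_const (by norm_num)
  obtain ⟨x, h1, h2⟩ := ((density r).and (t.eventually_gt_atTop P)).exists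
  have h3 : ((range (x + 1)).filter fun p =>
      p.Prime ∧ ¬ padicNorm p (zeta [2, 1] p - r) ≤ 1 / p).card ≤ (range P).card := by
    refine card_le_card fun p hp => mem_range.2 ?_
    by_contra hn
    have := hP p (not_lt.1 hn) (mem_filter.1 hp).2.1
    rw [pow_one] at this
    exact (mem_filter.1 hp).2.2 this
  rw [card_range] at h3
  have h4 : (((range (x + 1)).filter fun p =>
      p.Prime ∧ ¬ padicNorm p (zeta [2, 1] p - r) ≤ 1 / p).card : ℝ) ≤ P := by exact_mod_cast h3
  linarith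

theorem indep {α β : ℚ} (h : Cong 1 (fun p => α + β * zeta [2, 1] p) 0) : α = 0 ∧ β = 0 := by
  have hβ : β = 0 := by
    by_contra hβ
    refine irrat (-α / β) ?_
    have h1 := (h.smul β⁻¹).add (Cong.of_eq (N := 1) (x := fun _ => -α / β) (y := fun _ => -α / β)
      (Eventually.of_forall fun _ _ => rfl))
    refine ((Cong.of_eq ?_).trans h1).trans (Cong.of_eq ?_)
    · exact Eventually.of_forall fun p _ => by field_simp; ring
    · exact Eventually.of_forall fun p _ => by simp
  refine ⟨?_, hβ⟩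
  by_contra hα
  obtain ⟨P, hP⟩ := eventually_atTop.1 (h.and (rat_unit hα))
  obtain ⟨p, hp, hpp⟩ := Nat.exists_infinite_primes P
  have h1 := (hP p hp).1 hpp
  have h2 := (hP p hp).2 hpp
  simp only [hβ, zero_mul, add_zero, Pi.zero_apply, sub_zero, pow_one, h2] at h1
  have h3 : (1 : ℚ) < p := by exact_mod_cast hpp.one_lt
  rw [le_div_iff₀ (by linarith)] at h1
  linarith

theorem low_weight (c : ℕ → List ℕ+ →₀ ℚ) (hw : ∀ k ∈ (c 0).support, wt k ≤ 4)
    (h : Cong 1 (trunc c 1) 0) : ∃ d, ∀ N, Cong N (trunc c N) fun p => p * trunc d N p := by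
  classical
  have key : ∀ k : List ℕ+, ∃ α β : ℚ, wt k ≤ 4 →
      Lf fun p => zeta k p - (α + β * zeta [2, 1] p) := fun k => by
    by_cases hk : wt k ≤ 4
    · obtain ⟨α, β, hl⟩ := low_main k hk
      exact ⟨α, β, fun _ => hl⟩
    · exact ⟨0, 0, fun h => absurd h hk⟩
  choose α β hl using key
  have h1 := Lf.sum (c 0).support fun k hk => (hl k (hw k hk)).smul (c 0 k)
  have e : ∀ p : ℕ, ∑ k ∈ (c 0).support, c 0 k * (zeta k p - (α k + β k * zeta [2, 1] p))
      = ((c 0).sum fun k a => a * zeta k p) - ((∑ k ∈ (c 0).support, c 0 k * α k)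
        + (∑ k ∈ (c 0).support, c 0 k * β k) * zeta [2, 1] p) := fun p => by
    rw [Finsupp.sum, sum_mul, ← sum_add_distrib, ← sum_sub_distrib]
    exact sum_congr rfl fun k _ => by ring
  have e1 : ∀ p : ℕ, trunc c 1 p = (c 0).sum fun k a => a * zeta k p := fun p => by
    simp [trunc]
  have h2 : Cong 1 (fun p => (∑ k ∈ (c 0).support, c 0 k * α k)
      + (∑ k ∈ (c 0).support, c 0 k * β k) * zeta [2, 1] p) 0 := by
    have h3 := h.add (h1.cong.smul (-1))
    refine ((Cong.of_eq ?_).trans h3).trans (Cong.of_eq ?_)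
    · exact Eventually.of_forall fun p _ => by simp only [e, e1]; ring
    · exact Eventually.of_forall fun p _ => by simp
  obtain ⟨hA, hB⟩ := indep h2
  refine lf_final c (h1.congr (Eventually.of_forall fun p _ => ?_))
  simp only [e, hA, hB]
  ring

end Pool.Agent.FMZ
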