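import Pool.Agent.P.MP_cb43af_nt.FvMain
import Pool.Agent.P.MP_cb43af_nt.FvLink
import Pool.Agent.P.MP_cb43af_nt.FvLow5
import Pool.Agent.P.MP_cb43af_nt.FvLow6
import Pool.Agent.P.MP_cb43af_nt.FzEnd

open Finset Filter Polynomial Topology
namespace Pool.Agent.FMZ

theorem density5 (β γ r : ℚ) (h : β ≠ 0 ∨ γ ≠ 0) :
    ∀ᶠ x : ℕ in atTop, (Nat.primeCounting x : ℝ) / 2500 ≤
      (((range (x + 1)).filter fun p => p.Prime ∧
        ¬ padicNorm p (β * zeta [2, 1] p + γ * zeta [4, 1] p - r) ≤ 1 / p).card : ℕ) := by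
  classical
  have h1 := β.den_pos
  have h2 := γ.den_pos
  have h3 := r.den_pos
  have hb : (15 * 1728 * (β.num * γ.den * r.den) : ℤ) ≠ 0 ∨
      (12 ^ 5 * (γ.num * β.den * r.den) : ℤ) ≠ 0 := by
    rcases h with h | h
    · have := Rat.num_ne_zero.2 h
      exact Or.inl (by positivity)
    · have := Rat.num_ne_zero.2 h
      exact Or.inr (by positivity)
  refine dens_of_theta _ _ (dens_core5 (-75 * (r.num * β.den * γ.den)) hb)
    ((link5 (r.num * β.den * γ.den) (β.num * γ.den * r.den) (γ.num * β.den * r.den)).mono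
      fun p h hp hn hc => hn (h hp ?_))
  have := Fact.mk hp
  have e : ((β.num * γ.den * r.den : ℤ) : ℚ) * zeta [2, 1] p
      + ((γ.num * β.den * r.den : ℤ) : ℚ) * zeta [4, 1] p - ((r.num * β.den * γ.den : ℤ) : ℚ)
      = ((β.den * γ.den * r.den : ℕ) : ℚ) * (β * zeta [2, 1] p + γ * zeta [4, 1] p - r) := by
    push_cast
    rw [← Rat.mul_den_eq_num β, ← Rat.mul_den_eq_num γ, ← Rat.mul_den_eq_num r]
    ring
  rw [e, padicNorm.mul]
  exact (mul_le_of_le_one_left (padicNorm.nonneg _) (padicNorm.of_nat _)).trans hc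

theorem indep5 {α β γ : ℚ}
    (h : Cong 1 (fun p => α + β * zeta [2, 1] p + γ * zeta [4, 1] p) 0) :
    α = 0 ∧ β = 0 ∧ γ = 0 := by
  have hγ : γ = 0 := by
    by_contra hγ
    obtain ⟨P, hP⟩ := eventually_atTop.1 h
    have t : Tendsto (fun x : ℕ => (Nat.primeCounting x : ℝ) / 2500) atTop atTop :=
      (tendsto_natCast_atTop_atTop.comp Nat.tendsto_primeCounting).atTop_div_const (by norm_num)
    obtain ⟨x, h1, h2⟩ := ((density5 β γ (-α) (Or.inr hγ)).and (t.eventually_gt_atTop P)).exists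
    have h3 : ((range (x + 1)).filter fun p => p.Prime ∧
        ¬ padicNorm p (β * zeta [2, 1] p + γ * zeta [4, 1] p - -α) ≤ 1 / p).card
        ≤ (range P).card := by
      refine card_le_card fun p hp => mem_range.2 ?_
      by_contra hn
      have := hP p (not_lt.1 hn) (mem_filter.1 hp).2.1
      rw [pow_one] at this
      refine (mem_filter.1 hp).2.2 (le_of_eq_of_le ?_ this)
      simp only [Pi.zero_apply]
      congr 1
      ring
    rw [card_range] at h3
    have h4 := (Nat.cast_le (α := ℝ)).2 h3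
    linarith
  subst hγ
  obtain ⟨h1, h2⟩ := indep (α := α) (β := β)
    ((Cong.of_eq (Eventually.of_forall fun p _ => by ring)).trans h)
  exact ⟨h1, h2, rfl⟩

theorem indep6 {q : ℚ} (h : Cong 1 (fun p => q * (zeta [2, 1] p * zeta [2, 1] p)) 0) : q = 0 := by
  by_contra hq
  refine irrat 0 ?_
  filter_upwards [h, rat_unit hq] with p h1 h2 hp
  have := Fact.mk hp
  have h3 := h1 hp
  have hz : padicNorm p (zeta [2, 1] p) ≤ 1 := zeta_norm hp _ le_rfl
  have hz2 : padicNorm p (zeta [2, 1] p * zeta [2, 1] p) ≤ 1 := by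
    rw [padicNorm.mul]
    exact mul_le_one₀ hz (padicNorm.nonneg _) hz
  simp only [Pi.zero_apply, sub_zero, pow_one] at h3 ⊢
  rw [padicNorm.mul, h2 hp, one_mul, ← red_zero hz2, red_mul hz hz, mul_self_eq_zero] at h3
  exact (red_zero hz).1 h3

/-- reduction of the leading coefficient to three independent elements -/
theorem lf_basis (c : ℕ → List ℕ+ →₀ ℚ) (u v w : ℕ → ℚ)
    (hi : ∀ α β γ : ℚ, Cong 1 (fun p => α * u p + β * v p + γ * w p) 0 →
      ∀ p, α * u p + β * v p + γ * w p = 0)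
    (hk : ∀ k ∈ (c 0).support, ∃ α β γ : ℚ,
      Lf fun p => zeta k p - (α * u p + β * v p + γ * w p))
    (h : Cong 1 (trunc c 1) 0) : ∃ d, ∀ N, Cong N (trunc c N) fun p => p * trunc d N p := by
  classical
  choose! α β γ hl using hk
  have h1 := Lf.sum (c 0).support fun k hk => (hl k hk).smul (c 0 k)
  have e : ∀ p : ℕ, ∑ k ∈ (c 0).support, c 0 k * (zeta k p - (α k * u p + β k * v p + γ k * w p))
      = ((c 0).sum fun k a => a * zeta k p) - ((∑ k ∈ (c 0).support, c 0 k * α k) * u p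
        + (∑ k ∈ (c 0).support, c 0 k * β k) * v p
        + (∑ k ∈ (c 0).support, c 0 k * γ k) * w p) := fun p => by
    rw [Finsupp.sum, sum_mul, sum_mul, sum_mul, ← sum_add_distrib, ← sum_add_distrib,
      ← sum_sub_distrib]
    exact sum_congr rfl fun k _ => by ring
  have e1 : ∀ p : ℕ, trunc c 1 p = (c 0).sum fun k a => a * zeta k p := fun p => by
    simp [trunc]
  have h2 := hi _ _ _ (((Cong.of_eq (Eventually.of_forall fun p _ => by
    simp only [e, e1]; ring)).trans (h.add (h1.cong.smul (-1)))).trans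
      (Cong.of_eq (Eventually.of_forall fun p _ => by simp)) :
    Cong 1 (fun p => (∑ k ∈ (c 0).support, c 0 k * α k) * u p
      + (∑ k ∈ (c 0).support, c 0 k * β k) * v p + (∑ k ∈ (c 0).support, c 0 k * γ k) * w p) 0)
  refine lf_final c (h1.congr (Eventually.of_forall fun p _ => ?_))
  simp only [e, h2 p, sub_zero]

theorem low_weight5 (c : ℕ → List ℕ+ →₀ ℚ)
    (hw : (∀ k ∈ (c 0).support, wt k ≤ 5) ∨ ∀ k ∈ (c 0).support, wt k = 6)
    (h : Cong 1 (trunc c 1) 0) : ∃ d, ∀ N, Cong N (trunc c N) fun p => p * trunc d N p := by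
  rcases hw with hw | hw
  · refine lf_basis c (fun _ => 1) (zeta [2, 1]) (zeta [4, 1]) (fun α β γ hc p => ?_)
      (fun k hk => ?_) h
    · simp only [mul_one] at hc
      obtain ⟨rfl, rfl, rfl⟩ := indep5 hc
      simp
    · rcases (hw k hk).eq_or_lt with e | e
      · obtain ⟨q, hq⟩ := low5 k e
        exact ⟨0, 0, q, hq.congr (Eventually.of_forall fun p _ => by ring)⟩
      · obtain ⟨α, β, hq⟩ := low_main k (by omega)
        exact ⟨α, β, 0, hq.congr (Eventually.of_forall fun p _ => by ring)⟩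
  · refine lf_basis c (fun _ => 0) (fun _ => 0) (fun p => zeta [2, 1] p * zeta [2, 1] p)
      (fun α β γ hc p => ?_) (fun k hk => ?_) h
    · simp only [mul_zero, zero_add] at hc
      obtain rfl := indep6 hc
      simp
    · obtain ⟨q, hq⟩ := low6 k (hw k hk)
      exact ⟨0, 0, q, hq.congr (Eventually.of_forall fun p _ => by ring)⟩

end Pool.Agent.FMZ
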