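import Pool.Agent.P.MP_cb43af_nt.Fz0

open Finset Filter Polynomial
namespace Pool.Agent.FMZ

theorem fznew_newton {ι R : Type} [LinearOrder ι] [CommRing R] (u : ι → R) (s : Finset ι) :
    ∀ P : R[X], ∃ a : ι → R, ∀ i ∈ s,
      P.eval (u i) = ∑ j ∈ s, (∏ l ∈ s.filter (· < j), (u i - u l)) * a j := by
  induction s using Finset.induction_on_min with
  | empty => exact fun P => ⟨0, by simp⟩
  | insert a0 s h0 ih =>
    intro P
    have hn : a0 ∉ s := fun h => lt_irrefl _ (h0 a0 h)
    obtain ⟨Q, hQ⟩ := X_sub_C_dvd_sub_C_eval (p := P) (a := u a0)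
    obtain ⟨a, ha⟩ := ih Q
    refine ⟨Function.update a a0 (P.eval (u a0)), fun i hi => ?_⟩
    have e0 : (insert a0 s).filter (· < a0) = ∅ := filter_eq_empty_iff.2 fun l hl => by
      rcases mem_insert.1 hl with rfl | hl
      · exact lt_irrefl _
      · exact (h0 l hl).not_gt
    have e1 : ∑ j ∈ s, (∏ l ∈ (insert a0 s).filter (· < j), (u i - u l))
        * Function.update a a0 (P.eval (u a0)) j
        = (u i - u a0) * ∑ j ∈ s, (∏ l ∈ s.filter (· < j), (u i - u l)) * a j := by
      rw [mul_sum]
      refine sum_congr rfl fun j hj => ?_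
      rw [filter_insert, if_pos (h0 j hj), prod_insert fun h => hn (mem_filter.1 h).1,
        Function.update_of_ne (ne_of_mem_of_not_mem hj hn), mul_assoc]
    rw [sum_insert hn, e0, prod_empty, one_mul, Function.update_self, e1]
    rcases mem_insert.1 hi with rfl | hi
    · simp
    · have := congrArg (eval (u i)) hQ
      simp only [eval_sub, eval_C, eval_mul, eval_X] at this
      rw [← ha i hi, ← this]; ring

theorem fznew_dvd {ι γ R : Type} [Fintype ι] [LinearOrder ι] [DecidableEq γ] [CommRing R]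
    (g : ι → γ) (P : γ → ι → R[X]) (u : ι → R) :
    (∏ i, ∏ l ∈ (univ.filter fun l => g l = g i).filter (· < i), (u i - u l))
      ∣ Matrix.det (Matrix.of fun i c => (P (g i) c).eval (u i)) := by
  choose a ha using fun (t : γ) (c : ι) => fznew_newton u (univ.filter fun l => g l = t) (P t c)
  let N : Matrix ι ι R := Matrix.of fun i j => if g j = g i then
    ∏ l ∈ (univ.filter fun l => g l = g i).filter (· < j), (u i - u l) else 0
  have e : (Matrix.of fun i c => (P (g i) c).eval (u i)) = N * Matrix.of fun j c => a (g j) c j := by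
    ext i c
    rw [Matrix.of_apply, ha (g i) c i (by simp), Matrix.mul_apply, sum_filter]
    refine sum_congr rfl fun j _ => ?_
    by_cases h : g j = g i
    · simp only [N, Matrix.of_apply, h, if_true]
    · simp only [N, Matrix.of_apply, h, if_false, zero_mul]
  have tri : N.BlockTriangular OrderDual.toDual := fun i j hij => by
    have hij' : i < j := hij
    simp only [N, Matrix.of_apply]
    split_ifs with h
    · exact prod_eq_zero (i := i) (by simp [hij']) (sub_self _)
    · rfl
  rw [e, Matrix.det_mul, Matrix.det_of_lowerTriangular N tri]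
  refine Dvd.dvd.mul_right (dvd_of_eq ?_) _
  exact prod_congr rfl fun i _ => by simp only [N, Matrix.of_apply, if_true]

theorem fznew_ord {ι γ R : Type} [Fintype ι] [LinearOrder ι] [DecidableEq γ] [CommRing R]
    (g : ι → γ) (P : γ → ι → R[X]) (u : ι → R) :
    WG u g ∣ Matrix.det (Matrix.of fun i c => (P (g i) c).eval (u i)) ^ 2 := by
  have h := fznew_dvd g P u
  have e1 : WG u g = (∏ i, ∏ l ∈ (univ.filter fun l => g l = g i).filter (· < i), (u i - u l))
      * ∏ i, ∏ l ∈ (univ.filter fun l => g l = g i).filter (i < ·), (u i - u l) := by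
    rw [WG, ← prod_mul_distrib]
    refine prod_congr rfl fun i _ => ?_
    rw [← prod_union (disjoint_filter.2 fun l _ h1 h2 => lt_asymm h1 h2)]
    refine prod_congr ?_ fun _ _ => rfl
    ext l
    simp only [mem_filter, mem_erase, mem_univ, and_true, true_and, mem_union, ne_eq]
    constructor
    · rintro ⟨h1, h2⟩
      rcases lt_or_gt_of_ne h1 with h3 | h3
      · exact Or.inl ⟨h2, h3⟩
      · exact Or.inr ⟨h2, h3⟩
    · rintro (⟨h2, h3⟩ | ⟨h2, h3⟩)
      · exact ⟨h3.ne, h2⟩
      · exact ⟨h3.ne', h2⟩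
  have e2 : ∏ i, ∏ l ∈ (univ.filter fun l => g l = g i).filter (i < ·), (u i - u l)
      = ∏ i, ∏ l ∈ (univ.filter fun l => g l = g i).filter (· < i), (u l - u i) :=
    prod_comm' fun i l => by
      simp only [mem_filter, mem_univ, true_and, and_true]
      exact ⟨fun h => ⟨h.1.symm, h.2⟩, fun h => ⟨h.1.symm, h.2⟩⟩
  rw [e1, e2, sq]
  refine mul_dvd_mul h (Dvd.dvd.trans ?_ h)
  exact prod_dvd_prod_of_dvd _ _ fun i _ => prod_dvd_prod_of_dvd _ _ fun l _ =>
    ⟨-1, by ring⟩

theorem newton_dvd {ι γ R : Type} [Fintype ι] [DecidableEq ι] [DecidableEq γ] [CommRing R]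
    (g : ι → γ) (P : γ → ι → R[X]) (u : ι → R) :
    WG u g ∣ Matrix.det (Matrix.of fun i c => (P (g i) c).eval (u i)) ^ 2 := by
  letI : LinearOrder ι := LinearOrder.lift' (Fintype.equivFin ι) (Fintype.equivFin ι).injective
  have h := fznew_ord g P u
  have e : (LinearOrder.toDecidableEq : DecidableEq ι) = ‹DecidableEq ι› := Subsingleton.elim _ _
  exact e ▸ h

end Pool.Agent.FMZ
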