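import Pool.Agent.P.MP_cb43af_nt.Fz0

open Finset Filter Polynomial
namespace Pool.Agent.FMZ

theorem val_of_norm (p : ℕ) [Fact p.Prime] {q : ℚ} (hq : q ≠ 0) (k : ℤ) :
    padicNorm p q ≤ (p : ℚ) ^ (-k) ↔ k ≤ padicValRat p q := by
  have h1 : (1 : ℚ) < p := by exact_mod_cast (Fact.out : p.Prime).one_lt
  rw [padicNorm.eq_zpow_of_nonzero hq, zpow_le_zpow_iff_right₀ h1, neg_le_neg_iff]

theorem val_term {α : Type} (p : ℕ) [Fact p.Prime] (s : Finset α) (t : α → ℚ)
    (h : ∑ i ∈ s, t i ≠ 0) :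
    ∃ i ∈ s, t i ≠ 0 ∧ padicValRat p (t i) ≤ padicValRat p (∑ i ∈ s, t i) := by
  classical
  obtain ⟨i0, hi0, h0⟩ := exists_ne_zero_of_sum_ne_zero h
  obtain ⟨i, hi, hm⟩ := exists_min_image (s.filter fun i => t i ≠ 0) (fun i => padicValRat p (t i))
    ⟨i0, mem_filter.2 ⟨hi0, h0⟩⟩
  refine ⟨i, (mem_filter.1 hi).1, (mem_filter.1 hi).2, (val_of_norm p h _).1 ?_⟩
  refine padicNorm.sum_le' (fun j hj => ?_) (by positivity)
  by_cases hj0 : t j = 0
  · rw [hj0, padicNorm.zero]; positivity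
  · exact (val_of_norm p hj0 _).2 (hm j (mem_filter.2 ⟨hj, hj0⟩))

theorem val_prod {α : Type} (p : ℕ) [Fact p.Prime] (s : Finset α) (t : α → ℚ)
    (h : ∀ i ∈ s, t i ≠ 0) :
    padicValRat p (∏ i ∈ s, t i) = ∑ i ∈ s, padicValRat p (t i) := by
  classical
  induction s using Finset.induction_on with
  | empty => simp
  | insert a s ha ih =>
    have h' : ∀ i ∈ s, t i ≠ 0 := fun i hi => h i (mem_insert_of_mem hi)
    rw [prod_insert ha, sum_insert ha,
      padicValRat.mul (h a (mem_insert_self _ _)) (prod_ne_zero_iff.2 h'), ih h']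

theorem valInt_prod {α : Type} (p : ℕ) [Fact p.Prime] (s : Finset α) (t : α → ℤ)
    (h : ∀ i ∈ s, t i ≠ 0) :
    padicValInt p (∏ i ∈ s, t i) = ∑ i ∈ s, padicValInt p (t i) := by
  classical
  induction s using Finset.induction_on with
  | empty => simp
  | insert a s ha ih =>
    have h' : ∀ i ∈ s, t i ≠ 0 := fun i hi => h i (mem_insert_of_mem hi)
    rw [prod_insert ha, sum_insert ha,
      padicValInt.mul (h a (mem_insert_self _ _)) (prod_ne_zero_iff.2 h'), ih h']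

theorem WW_ne_zero {ι : Type} [DecidableEq ι] {u : ι → ℤ} (hu : Function.Injective u)
    (S : Finset ι) : WW u S ≠ 0 :=
  prod_ne_zero_iff.2 fun _ _ => prod_ne_zero_iff.2 fun _ hj h =>
    ne_of_mem_erase hj (hu (sub_eq_zero.1 h)).symm

theorem fzval_count (p : ℕ) [Fact p.Prime] {z : ℤ} {K : ℕ} (h : ¬ (p : ℤ) ^ (K + 1) ∣ z) :
    padicValInt p z = ∑ k ∈ Icc 1 K, if (p : ℤ) ^ k ∣ z then 1 else 0 := by
  have z0 : z ≠ 0 := fun e => h (e ▸ dvd_zero _)
  have hv : ∀ k, (p : ℤ) ^ k ∣ z ↔ k ≤ padicValInt p z := fun k => by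
    rw [padicValInt_dvd_iff]; simp [z0]
  have hK : padicValInt p z ≤ K := by
    rw [hv] at h; omega
  rw [← card_filter]
  have : (Icc 1 K).filter (fun k => (p : ℤ) ^ k ∣ z) = Icc 1 (padicValInt p z) := by
    ext k; simp only [mem_filter, mem_Icc, hv]; omega
  rw [this]; simp

theorem val_WW {ι : Type} [DecidableEq ι] (p : ℕ) [Fact p.Prime] {u : ι → ℤ} {K : ℕ}
    (hK : ∀ i j, i ≠ j → ¬ (p : ℤ) ^ (K + 1) ∣ u i - u j) (S : Finset ι) :
    padicValInt p (WW u S) = ∑ k ∈ Icc 1 K, cg (fun i => u i % (p : ℤ) ^ k) S := by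
  have d0 : ∀ i, ∀ j ∈ S.erase i, u i - u j ≠ 0 := fun i j hj e =>
    hK i j (ne_of_mem_erase hj).symm (e ▸ dvd_zero _)
  rw [WW, valInt_prod p _ _ fun i _ => prod_ne_zero_iff.2 (d0 i)]
  simp only [cg]
  rw [sum_comm]
  refine sum_congr rfl fun i _ => ?_
  rw [valInt_prod p _ _ (d0 i),
    sum_congr rfl fun j hj => fzval_count p (hK i j (ne_of_mem_erase hj).symm), sum_comm]
  refine sum_congr rfl fun k _ => ?_
  rw [card_filter]
  refine sum_congr rfl fun j _ => if_congr ?_ rfl rfl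
  exact (Int.modEq_iff_dvd (a := u j) (b := u i)).symm

theorem fzval_log (n : ℕ) (T : Finset ℕ) (hT : ∀ p ∈ T, p.Prime) (h : n.primeFactors ⊆ T) :
    Real.log n = ∑ p ∈ T, (padicValNat p n : ℝ) * Real.log p := by
  rw [Real.log_nat_eq_sum_factorization, Finsupp.sum_of_support_subset _ h _ (by simp)]
  exact sum_congr rfl fun p hp => by rw [Nat.factorization_def _ (hT p hp)]

/-- half of the product formula -/
theorem log_abs_ge {q : ℚ} (hq : q ≠ 0) (P : Finset ℕ) (hP : ∀ p ∈ P, p.Prime)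
    (h : ∀ p, p.Prime → p ∉ P → 0 ≤ padicValRat p q) :
    ∑ p ∈ P, (padicValRat p q : ℝ) * Real.log p ≤ Real.log |(q : ℝ)| := by
  set T := P ∪ (q.num.natAbs.primeFactors ∪ q.den.primeFactors) with hT
  have hTp : ∀ p ∈ T, p.Prime := fun p hp => by
    simp only [hT, mem_union] at hp
    rcases hp with hp | hp | hp
    · exact hP p hp
    · exact Nat.prime_of_mem_primeFactors hp
    · exact Nat.prime_of_mem_primeFactors hp
  have n0 : ((q.num.natAbs : ℕ) : ℝ) ≠ 0 := by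
    exact_mod_cast Int.natAbs_ne_zero.2 (Rat.num_ne_zero.2 hq)
  have d0 : ((q.den : ℕ) : ℝ) ≠ 0 := by exact_mod_cast q.den_nz
  have e : |(q : ℝ)| = (q.num.natAbs : ℝ) / q.den := by
    rw [Rat.cast_def, abs_div, Nat.abs_cast, Nat.cast_natAbs, Int.cast_abs]
  rw [e, Real.log_div n0 d0,
    fzval_log _ T hTp (subset_union_left.trans subset_union_right),
    fzval_log _ T hTp (subset_union_right.trans subset_union_right), ← sum_sub_distrib]
  have e2 : ∀ p ∈ T, (padicValNat p q.num.natAbs : ℝ) * Real.log p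
      - (padicValNat p q.den : ℝ) * Real.log p = (padicValRat p q : ℝ) * Real.log p := fun p _ => by
    rw [padicValRat, padicValInt, Int.cast_sub, Int.cast_natCast, Int.cast_natCast]; ring
  rw [sum_congr rfl e2]
  refine sum_le_sum_of_subset_of_nonneg subset_union_left fun p hp hn => mul_nonneg ?_ ?_
  · exact_mod_cast h p (hTp p hp) hn
  · exact Real.log_natCast_nonneg p

end Pool.Agent.FMZ
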