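import Pool.Agent.P.MP_cb43af_nt.Fv0
import Pool.Agent.P.MP_cb43af_nt.FzNew
import Pool.Agent.P.MP_cb43af_nt.FzVal

open Finset Filter Polynomial Topology
namespace Pool.Agent.FMZ

theorem fvrate_sum (s : Finset ℕ) : s.card * (s.card - 1) ≤ 2 * ∑ x ∈ s, x := by
  induction s using Finset.induction_on_max with
  | empty => simp
  | insert a s h ih =>
    have hn : a ∉ s := fun e => lt_irrefl _ (h a e)
    have hc : s.card ≤ a := by
      simpa using card_le_card (show s ⊆ range a from fun x hx => mem_range.2 (h x hx))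
    rw [card_insert_of_notMem hn, sum_insert hn, Nat.add_sub_cancel]
    rcases Nat.eq_zero_or_pos s.card with e | e
    · rw [e]; simp
    · obtain ⟨k, hk⟩ : ∃ k, s.card = k + 1 := ⟨s.card - 1, by omega⟩
      rw [hk] at ih hc ⊢
      rw [Nat.add_sub_cancel] at ih
      nlinarith

theorem fvrate_prod (p : ℕ) [Fact p.Prime] {α : Type} (s : Finset α) (F t : α → ℚ)
    (h : ∀ i ∈ s, padicNorm p (F i) ≤ t i) : padicNorm p (∏ i ∈ s, F i) ≤ ∏ i ∈ s, t i := by
  classical
  induction s using Finset.induction_on with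
  | empty => simp
  | insert a s ha ih =>
    rw [prod_insert ha, padicNorm.mul, prod_insert ha]
    exact mul_le_mul (h a (mem_insert_self _ _)) (ih fun i hi => h i (mem_insert_of_mem hi))
      (padicNorm.nonneg _) ((padicNorm.nonneg _).trans (h a (mem_insert_self _ _)))

theorem fvrate_det (p : ℕ) [Fact p.Prime] {ι : Type} [Fintype ι] [DecidableEq ι]
    (M : Matrix ι ι ℚ) (t : ι → ℚ) (ht : ∀ i, 0 ≤ t i) (h : ∀ i j, padicNorm p (M i j) ≤ t i) :
    padicNorm p M.det ≤ ∏ i, t i := by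
  rw [← Matrix.det_transpose, Matrix.det_apply']
  refine padicNorm.sum_le' (fun σ _ => ?_) (prod_nonneg fun i _ => ht i)
  rw [padicNorm.mul]
  exact (mul_le_of_le_one_left (padicNorm.nonneg _) (padicNorm.of_int _)).trans
    (fvrate_prod p univ _ t fun i _ => h _ _)

theorem fvrate_norm (p : ℕ) [Fact p.Prime] {ι : Type} [Fintype ι] [DecidableEq ι] (G : Finset ι)
    (E ρ : ℕ) (al : ℕ → ι → ℤ) (a : ℕ → ι → ℚ) (M : Matrix ι ι ℚ)
    (ha : ∀ j < E, ∀ c, padicNorm p (a j c) ≤ 1 / (p : ℚ) ^ (ρ * j))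
    (hG : ∀ r ∈ G, ∀ c, M r c = ∑ j ∈ range E, (al j r : ℚ) * a j c)
    (hN : ∀ r ∉ G, ∀ c, padicNorm p (M r c) ≤ 1) :
    padicNorm p M.det ^ 2 ≤ 1 / (p : ℚ) ^ (ρ * (G.card * (G.card - 1))) := by
  have p1 : (1 : ℚ) ≤ p := by exact_mod_cast (Fact.out : p.Prime).one_lt.le
  have p0 : (0 : ℚ) < p := zero_lt_one.trans_le p1
  let A : ι → Finset ℕ := fun r => if r ∈ G then range E else {0}
  let co : ι → ℕ → ℤ := fun r j => if r ∈ G then al j r else 1
  let w : ι → ℕ → ι → ℚ := fun r j => if r ∈ G then a j else M r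
  have e : M = fun r => ∑ j ∈ A r, fun c => (co r j : ℚ) * w r j c := by
    funext r c
    rw [Finset.sum_apply]
    by_cases hr : r ∈ G
    · simp only [A, co, w, if_pos hr, hG r hr c]
    · simp [A, co, w, if_neg hr]
  have e2 : M.det = ∑ φ ∈ Fintype.piFinset A,
      Matrix.det (Matrix.of fun r c => (co r (φ r) : ℚ) * w r (φ r) c) := by
    have := (Matrix.detRowAlternating (n := ι) (R := ℚ)).toMultilinearMap.map_sum_finset
      (fun r j => fun c => (co r j : ℚ) * w r j c) A
    rw [← e] at this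
    exact this
  obtain ⟨K, hK⟩ : ∃ K, G.card * (G.card - 1) = 2 * K := by
    have := Finset.sum_range_id_mul_two G.card
    exact ⟨_, by rw [← this, mul_comm]⟩
  have key : padicNorm p M.det ≤ 1 / (p : ℚ) ^ (ρ * K) := by
    rw [e2]
    refine padicNorm.sum_le' (fun φ hφ => ?_) (by positivity)
    have e3 := Matrix.det_mul_column (fun r => (co r (φ r) : ℚ)) (Matrix.of fun r c => w r (φ r) c)
    simp only [Matrix.of_apply] at e3
    rw [e3, padicNorm.mul, ← Int.cast_prod]
    refine (mul_le_of_le_one_left (padicNorm.nonneg _) (padicNorm.of_int _)).trans ?_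
    by_cases hi : Set.InjOn φ G
    · refine (fvrate_det p _ (fun r => if r ∈ G then 1 / (p : ℚ) ^ (ρ * φ r) else 1)
        (fun r => by split_ifs <;> positivity) fun r c => ?_).trans ?_
      · have hr := Fintype.mem_piFinset.1 hφ r
        by_cases h : r ∈ G
        · simp only [A, if_pos h, mem_range] at hr
          simp only [Matrix.of_apply, w, if_pos h]
          exact ha _ hr c
        · simp only [Matrix.of_apply, w, if_neg h]
          exact hN r h c
      · rw [← prod_filter, filter_mem_eq_inter, univ_inter, prod_div_distrib, prod_const_one,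
          prod_pow_eq_pow_sum, ← mul_sum]
        have h1 := fvrate_sum (G.image φ)
        rw [card_image_of_injOn hi, sum_image hi, hK] at h1
        exact one_div_le_one_div_of_le (by positivity)
          (pow_le_pow_right₀ p1 (Nat.mul_le_mul_left _ (by omega)))
    · simp only [Set.InjOn, not_forall] at hi
      obtain ⟨r, hr, s, hs, h1, h2⟩ := hi
      rw [Matrix.det_zero_of_row_eq h2, padicNorm.zero]
      · positivity
      · funext c
        simp only [Matrix.of_apply, w, if_pos (mem_coe.1 hr), if_pos (mem_coe.1 hs), h1]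
  rw [hK, mul_left_comm, pow_mul' _ 2, ← one_div_pow]
  exact pow_le_pow_left₀ (padicNorm.nonneg _) key 2

theorem fvrate_sq {ι : Type} [LinearOrder ι] (u : ι → ℤ) (G : Finset ι) :
    |WW u G| = (∏ i ∈ G, ∏ l ∈ G.filter (· < i), (u i - u l)) ^ 2 := by
  have e1 : WW u G = (∏ i ∈ G, ∏ l ∈ G.filter (· < i), (u i - u l))
      * ∏ i ∈ G, ∏ l ∈ G.filter (i < ·), (u i - u l) := by
    rw [WW, ← prod_mul_distrib]
    refine prod_congr rfl fun i _ => ?_
    rw [← prod_union (disjoint_filter.2 fun l _ h1 h2 => lt_asymm h1 h2)]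
    refine prod_congr ?_ fun _ _ => rfl
    ext l
    simp only [mem_filter, mem_erase, mem_union, ne_eq]
    constructor
    · rintro ⟨h1, h2⟩
      rcases lt_or_gt_of_ne h1 with h3 | h3
      · exact Or.inl ⟨h2, h3⟩
      · exact Or.inr ⟨h2, h3⟩
    · rintro (⟨h2, h3⟩ | ⟨h2, h3⟩)
      · exact ⟨h3.ne, h2⟩
      · exact ⟨h3.ne', h2⟩
  have e2 : ∏ i ∈ G, ∏ l ∈ G.filter (i < ·), (u i - u l)
      = ∏ i ∈ G, ∏ l ∈ G.filter (· < i), (u l - u i) :=
    prod_comm' fun i l => by
      simp only [mem_filter]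
      tauto
  rw [e1, e2, ← sq_abs, sq, abs_mul]
  congr 1
  simp only [Finset.abs_prod]
  exact prod_congr rfl fun i _ => prod_congr rfl fun l _ => abs_sub_comm _ _

theorem fvrate_ord (p : ℕ) [Fact p.Prime] {ι : Type} [Fintype ι] [LinearOrder ι] (G : Finset ι)
    {u : ι → ℤ} (hu : Function.Injective u) (E ρ : ℕ) (P : ℕ → ℤ[X]) (a : ℕ → ι → ℚ)
    (M : Matrix ι ι ℚ) (ha : ∀ j < E, ∀ c, padicNorm p (a j c) ≤ 1 / (p : ℚ) ^ (ρ * j))
    (hG : ∀ r ∈ G, ∀ c, M r c = ∑ j ∈ range E, (((P j).eval (u r) : ℤ) : ℚ) * a j c)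
    (hN : ∀ r ∉ G, ∀ c, padicNorm p (M r c) ≤ 1) (hD : M.det ≠ 0) :
    (ρ : ℤ) * (G.card * (G.card - 1)) + padicValInt p (WW u G) ≤ 2 * padicValRat p M.det := by
  choose al hal using fun j => fznew_newton u G (P j)
  let N : Matrix ι ι ℚ := Matrix.of fun r s => if r ∈ G then (if s ∈ G then
    ((∏ l ∈ G.filter (· < s), (u r - u l) : ℤ) : ℚ) else 0) else if r = s then 1 else 0
  let M' : Matrix ι ι ℚ := Matrix.of fun r c =>
    if r ∈ G then ∑ j ∈ range E, (al j r : ℚ) * a j c else M r c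
  have e : M = N * M' := by
    ext r c
    rw [Matrix.mul_apply]
    by_cases hr : r ∈ G
    · simp only [N, M', Matrix.of_apply, if_pos hr, ite_mul, zero_mul]
      rw [← sum_filter, filter_mem_eq_inter, univ_inter, hG r hr c,
        sum_congr (s₁ := G) rfl fun s hs => by rw [if_pos hs, mul_sum], sum_comm (s := G)]
      refine sum_congr rfl fun j _ => ?_
      rw [hal j r hr, Int.cast_sum, sum_mul]
      exact sum_congr rfl fun s _ => by rw [Int.cast_mul, mul_assoc]
    · simp only [N, M', Matrix.of_apply, if_neg hr, ite_mul, zero_mul, one_mul, sum_ite_eq,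
        mem_univ, if_true]
  have tri : N.BlockTriangular OrderDual.toDual := fun i j hij => by
    have hij' : i < j := hij
    simp only [N, Matrix.of_apply]
    split_ifs with h1 h2 h3
    · rw [prod_eq_zero (i := i) (mem_filter.2 ⟨h1, hij'⟩) (sub_self _), Int.cast_zero]
    · rfl
    · exact absurd h3 hij'.ne
    · rfl
  set D : ℤ := ∏ i ∈ G, ∏ l ∈ G.filter (· < i), (u i - u l) with hDd
  have dN : N.det = (D : ℚ) := by
    rw [Matrix.det_of_isLowerTriangular N tri, hDd, Int.cast_prod, ← univ_inter G,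
      ← filter_mem_eq_inter, prod_filter]
    refine prod_congr rfl fun i _ => ?_
    simp only [N, Matrix.of_apply, if_true, filter_mem_eq_inter, univ_inter]
    split_ifs <;> rfl
  have hdet : M.det = D * M'.det := by rw [← dN, ← Matrix.det_mul, ← e]
  have D0 : (D : ℚ) ≠ 0 := fun h => hD (by rw [hdet, h, zero_mul])
  have M0 : M'.det ≠ 0 := fun h => hD (by rw [hdet, h, mul_zero])
  have h1 := fvrate_norm p G E ρ al a M' ha
    (fun r hr c => by simp only [M', Matrix.of_apply, if_pos hr])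
    (fun r hr c => by simpa only [M', Matrix.of_apply, if_neg hr] using hN r hr c)
  rw [sq, ← padicNorm.mul, one_div, ← zpow_natCast, ← zpow_neg,
    val_of_norm p (mul_ne_zero M0 M0), padicValRat.mul M0 M0] at h1
  have D0' : D ≠ 0 := by exact_mod_cast D0
  have h2 : padicValInt p (WW u G) = 2 * padicValInt p D := by
    have := fvrate_sq u G
    rw [← hDd] at this
    rw [two_mul, ← padicValInt.mul D0' D0', ← sq, ← this, padicValInt, padicValInt,
      Int.natAbs_abs]
  rw [hdet, padicValRat.mul D0 M0, padicValRat.of_int, h2]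
  have h3 : ((ρ * (G.card * (G.card - 1)) : ℕ) : ℤ) = (ρ : ℤ) * (G.card * (G.card - 1)) := by
    rcases Nat.eq_zero_or_pos G.card with h | h
    · rw [h]; simp
    · rw [Nat.cast_mul, Nat.cast_mul, Nat.cast_sub h, Nat.cast_one]
  rw [h3] at h1
  push_cast
  linarith

theorem rate_det (p : ℕ) [Fact p.Prime] {ι : Type} [Fintype ι] [DecidableEq ι] (G : Finset ι)
    {u : ι → ℤ} (hu : Function.Injective u) (E ρ : ℕ) (P : ℕ → ℤ[X]) (a : ℕ → ι → ℚ)
    (M : Matrix ι ι ℚ) (ha : ∀ j < E, ∀ c, padicNorm p (a j c) ≤ 1 / (p : ℚ) ^ (ρ * j))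
    (hG : ∀ r ∈ G, ∀ c, M r c = ∑ j ∈ range E, (((P j).eval (u r) : ℤ) : ℚ) * a j c)
    (hN : ∀ r ∉ G, ∀ c, padicNorm p (M r c) ≤ 1) (hD : M.det ≠ 0) :
    (ρ : ℤ) * (G.card * (G.card - 1)) + padicValInt p (WW u G) ≤ 2 * padicValRat p M.det := by
  let _ : LinearOrder ι := LinearOrder.lift' (Fintype.equivFin ι) (Fintype.equivFin ι).injective
  have e : (LinearOrder.toDecidableEq : DecidableEq ι) = ‹DecidableEq ι› := Subsingleton.elim _ _
  have h := fvrate_ord p G hu E ρ P a M ha hG hN (e ▸ hD)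
  exact e ▸ h

end Pool.Agent.FMZ
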