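import Pool.Agent.P.MP_cb43af_nt.FvAp
import Pool.Agent.P.MP_cb43af_nt.FvRate
import Pool.Agent.P.MP_cb43af_nt.FvCol

open Finset Filter Polynomial Topology
namespace Pool.Agent.FMZ

/-- a bound on the norm -/
def fvexN (p : ℕ) (q : ℚ) (N : ℤ) : Prop := padicNorm p q ≤ (p : ℚ) ^ N

section

variable {p : ℕ} [hp : Fact p.Prime] {q q' : ℚ} {N N' : ℤ}

theorem fvex_pos (p : ℕ) [hp : Fact p.Prime] : (0 : ℚ) < p := by exact_mod_cast hp.out.pos

theorem fvex_mono (h : fvexN p q N) (hN : N ≤ N') : fvexN p q N' :=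
  le_trans h (zpow_le_zpow_right₀ (by exact_mod_cast hp.out.one_le) hN)

theorem fvex_mul (h : fvexN p q N) (h' : fvexN p q' N') : fvexN p (q * q') (N + N') := by
  unfold fvexN
  rw [padicNorm.mul, zpow_add₀ (fvex_pos p).ne']
  exact mul_le_mul h h' (padicNorm.nonneg _) (zpow_pos (fvex_pos p) _).le

theorem fvex_sub (h : fvexN p q N) (h' : fvexN p q' N) : fvexN p (q - q') N :=
  padicNorm.sub.trans (max_le h h')

theorem fvex_add (h : fvexN p q N) (h' : fvexN p q' N) : fvexN p (q + q') N :=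
  padicNorm.nonarchimedean.trans (max_le h h')

theorem fvex_sum {α : Type} (s : Finset α) (F : α → ℚ) (h : ∀ i ∈ s, fvexN p (F i) N) :
    fvexN p (∑ i ∈ s, F i) N :=
  padicNorm.sum_le' h (zpow_pos (fvex_pos p) _).le

theorem fvex_zero : fvexN p 0 N := by
  unfold fvexN
  rw [padicNorm.zero]
  exact (zpow_pos (fvex_pos p) _).le

theorem fvex_val (N : ℤ) : padicValRat p ((p : ℚ) ^ N) = N := by
  rw [padicValRat.zpow, padicValRat.self hp.out.one_lt, mul_one]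

theorem fvex_pow (N : ℤ) : fvexN p ((p : ℚ) ^ N) (-N) := by
  unfold fvexN
  rw [padicNorm.eq_zpow_of_nonzero (zpow_pos (fvex_pos p) _).ne', fvex_val]

theorem fvex_nat {E : ℕ} (h : padicNorm p q ≤ (p : ℚ) ^ E) : fvexN p q E := by
  unfold fvexN
  rwa [zpow_natCast]

theorem fvex_one (h : fvexN p q N) (hN : N ≤ 0) : padicNorm p q ≤ 1 := by
  have := fvex_mono h hN
  unfold fvexN at this
  rwa [zpow_zero] at this

theorem fvex_div {E : ℕ} (h : fvexN p q N) (hN : N ≤ -(E : ℤ)) :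
    padicNorm p q ≤ 1 / (p : ℚ) ^ E := by
  have := fvex_mono h hN
  unfold fvexN at this
  rwa [zpow_neg, zpow_natCast, ← one_div] at this

end

theorem fvex_ne (x : Nd) (i : ℕ) : (yy x : ℚ) ^ 2 ≠ (12 * i + 6) ^ 2 := by
  intro h
  have h' : yy x ^ 2 = (12 * (i : ℤ) + 6) ^ 2 := by exact_mod_cast h
  rcases sq_eq_sq_iff_eq_or_eq_neg.1 h' with h1 | h1 <;> unfold yy at h1 <;> split_ifs at h1 <;>
    omega

theorem fvex_NN0 (x : Nd) (k : ℕ) : NN k ((yy x : ℚ) ^ 2) ≠ 0 :=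
  prod_ne_zero_iff.2 fun i _ => sub_ne_zero.2 (fvex_ne x i)

theorem fvex_inv (p : ℕ) [Fact p.Prime] {n K L : ℕ} (hL : 12 * n + 12 * K < p ^ (L + 1)) {x : Nd}
    (hx : x ∈ nodes n) {i : ℕ} (hi : i < K) :
    fvexN p (1 / ((yy x : ℚ) ^ 2 - (12 * i + 6) ^ 2)) (L + L) := by
  have h1 := abs_lt.1 (yy_lt hx)
  have h2 : (12 * n + 12 * K : ℤ) < (p : ℤ) ^ (L + 1) := by exact_mod_cast hL
  have a := inv_norm p (z := yy x - (12 * i + 6)) (L := L) (abs_lt.2 ⟨by omega, by omega⟩)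
  have b := inv_norm p (z := yy x + (12 * i + 6)) (L := L) (abs_lt.2 ⟨by omega, by omega⟩)
  have e : 1 / ((yy x : ℚ) ^ 2 - (12 * i + 6) ^ 2)
      = 1 / ((yy x - (12 * i + 6) : ℤ) : ℚ) * (1 / ((yy x + (12 * i + 6) : ℤ) : ℚ)) := by
    rw [one_div_mul_one_div]
    push_cast
    congr 1
    ring
  rw [e]
  exact fvex_mul (fvex_nat a) (fvex_nat b)

theorem fvex_t {p ρ σ : ℕ} {e : Bool} (hG : Gd p e ρ σ) {k L : ℕ} (hL : 2 * k < p ^ (L + 1))
    (i : ℕ) : fvexN p (NN k ((12 * i + 6) ^ 2)) ((L : ℤ) + 1 - ρ * k) := by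
  have := NN_bad hG (y := 12 * (i : ℤ) + 6) (Or.inr ⟨i, rfl⟩) hL
  push_cast at this
  exact this

theorem fvex_y {p ρ σ : ℕ} {e : Bool} (hG : Gd p e ρ σ) {k L : ℕ} (hL : 2 * k < p ^ (L + 1))
    {x : Nd} (hx : x.1 ≠ e) : fvexN p (NN k ((yy x : ℚ) ^ 2)) ((L : ℤ) + 1 - ρ * k) := by
  refine NN_bad hG (y := yy x) (Or.inl ⟨x.2, ?_⟩) hL
  have : x.1 = !e := by
    revert hx
    cases x.1 <;> cases e <;> simp
  rw [← this]

theorem fvex_off {p ρ σ : ℕ} [Fact p.Prime] {e : Bool} (hG : Gd p e ρ σ) {n K L E k : ℕ}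
    (hL : 12 * n + 12 * K < p ^ (L + 1)) (hk : 2 * k < p ^ (L + 1)) {x : Nd} (hx : x ∈ nodes n)
    (he : x.1 ≠ e) {w : ℕ → ℚ} {c₀ g : ℚ} (hw : ∀ i, padicNorm p (w i) ≤ (p : ℚ) ^ E)
    (hc : padicNorm p c₀ ≤ (p : ℚ) ^ E) (hg : padicNorm p g ≤ (p : ℚ) ^ E) :
    fvexN p (g * NN k ((yy x : ℚ) ^ 2) - (c₀ * NN k ((yy x : ℚ) ^ 2) + ∑ i ∈ range K,
      w i * (NN k ((yy x : ℚ) ^ 2) - NN k ((12 * i + 6) ^ 2))
        / ((yy x : ℚ) ^ 2 - (12 * i + 6) ^ 2))) (E + 3 * L + 1 - ρ * k) := by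
  have hy := fvex_y hG hk he
  refine fvex_sub (fvex_mono (fvex_mul (fvex_nat hg) hy) (by linarith [Int.natCast_nonneg L]))
    (fvex_add (fvex_mono (fvex_mul (fvex_nat hc) hy) (by linarith [Int.natCast_nonneg L]))
      (fvex_sum _ _ fun i hi => ?_))
  rw [div_eq_mul_one_div]
  exact fvex_mono (fvex_mul (fvex_mul (fvex_nat (hw i)) (fvex_sub hy (fvex_t hG hk i)))
    (fvex_inv p hL hx (mem_range.1 hi))) (by linarith)

theorem fvex_on (w : ℕ → ℚ) (c₀ : ℚ) (K k : ℕ) {Y : ℚ} (hY : ∀ i : ℕ, Y ≠ (12 * i + 6) ^ 2) :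
    NN K Y * ((c₀ + ∑ i ∈ range K, w i / (Y - (12 * i + 6) ^ 2)) * NN k Y - (c₀ * NN k Y
      + ∑ i ∈ range K, w i * (NN k Y - NN k ((12 * i + 6) ^ 2)) / (Y - (12 * i + 6) ^ 2)))
      = ∑ j ∈ range K, (∏ i ∈ Ico (j + 1) K, (Y - (12 * i + 6) ^ 2))
        * ∑ i ∈ range K, w i * NN k ((12 * i + 6) ^ 2) * NN j ((12 * i + 6) ^ 2) := by
  have h0 : ∀ j, NN j Y ≠ 0 := fun j => prod_ne_zero_iff.2 fun i _ => sub_ne_zero.2 (hY i)
  have e1 : (c₀ + ∑ i ∈ range K, w i / (Y - (12 * i + 6) ^ 2)) * NN k Y - (c₀ * NN k Y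
      + ∑ i ∈ range K, w i * (NN k Y - NN k ((12 * i + 6) ^ 2)) / (Y - (12 * i + 6) ^ 2))
      = ∑ i ∈ range K, w i * NN k ((12 * i + 6) ^ 2) * (1 / (Y - (12 * i + 6) ^ 2)) := by
    rw [add_mul, add_sub_add_left_eq_sub, sum_mul, ← sum_sub_distrib]
    exact sum_congr rfl fun i _ => by ring
  rw [e1, sum_congr rfl fun i hi => by rw [inv_expand (mem_range.1 hi) (h0 K), mul_sum],
    sum_comm, mul_sum]
  refine sum_congr rfl fun j hj => ?_
  have e2 : NN K Y = NN (j + 1) Y * ∏ i ∈ Ico (j + 1) K, (Y - (12 * i + 6) ^ 2) :=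
    (prod_range_mul_prod_Ico _ (mem_range.1 hj)).symm
  rw [e2, mul_sum, mul_sum]
  refine sum_congr rfl fun i _ => ?_
  have := h0 (j + 1)
  field_simp

/-- integer polynomials with roots at the poles -/
noncomputable def fvexA (s : Finset ℕ) : ℤ[X] := ∏ i ∈ s, (X - C ((12 * (i : ℤ) + 6) ^ 2 - 4))

theorem fvex_A (s : Finset ℕ) (x : Nd) :
    (((fvexA s).eval (zz x) : ℤ) : ℚ) = ∏ i ∈ s, ((yy x : ℚ) ^ 2 - (12 * i + 6) ^ 2) := by
  unfold fvexA zz
  rw [eval_prod]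
  push_cast
  refine prod_congr rfl fun i _ => ?_
  rw [eval_sub, eval_X, eval_C]
  push_cast
  ring

theorem fvex_col {m : ℕ} (x : Col m → Nd) (g : Col m → ℚ) (w : ℕ → ℚ) (c₀ : ℚ) (K : ℕ) :
    DG m (fun r => (zz (x r) : ℚ)) g = Matrix.det (Matrix.of fun r => Sum.elim
      (fun k : Fin m => NN k ((yy (x r) : ℚ) ^ 2))
      (fun k : Fin m => g r * NN k ((yy (x r) : ℚ) ^ 2) - (c₀ * NN k ((yy (x r) : ℚ) ^ 2)
        + ∑ i ∈ range K, w i * (NN k ((yy (x r) : ℚ) ^ 2) - NN k ((12 * i + 6) ^ 2))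
          / ((yy (x r) : ℚ) ^ 2 - (12 * i + 6) ^ 2)))) := by
  choose B hB hB' using fun k : Fin m => poly_part w c₀ K k
  have hz : ∀ r, (zz (x r) : ℚ) = (yy (x r) : ℚ) ^ 2 - 4 := fun r => by simp [zz]
  have hA : ∀ (k : ℕ) r, (∏ i ∈ range k, (X - C ((12 * (i : ℚ) + 6) ^ 2 - 4))).eval (zz (x r) : ℚ)
      = NN k ((yy (x r) : ℚ) ^ 2) := fun k r => by
    rw [eval_prod, NN]
    refine prod_congr rfl fun i _ => ?_
    rw [eval_sub, eval_X, eval_C, hz]
    ring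
  rw [col_ops _ g (fun k => ∏ i ∈ range k, (X - C ((12 * (i : ℚ) + 6) ^ 2 - 4))) B
    (fun k => monic_prod_X_sub_C _ _) (fun k => by rw [natDegree_finsetProd_X_sub_C_eq_card, card_range])
    (fun k => (hB k).trans_le (by exact_mod_cast k.2))]
  congr 1
  ext r c
  rcases c with k | k
  · exact hA k r
  · simp only [Matrix.of_apply, Sum.elim_inr]
    rw [hA, hz, hB' k _ (fvex_ne _)]

theorem rate_exact {n m : ℕ} {x : Col m → Nd} (h : Sel n m x) {p ρ σ : ℕ} {e : Bool}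
    (hG : Gd p e ρ σ) (w : ℕ → ℚ) (c₀ : ℚ) {K E L : ℕ} (hL : 12 * n + 12 * K < p ^ (L + 1))
    (hw : ∀ i, padicNorm p (w i) ≤ (p : ℚ) ^ E) (hc : padicNorm p c₀ ≤ (p : ℚ) ^ E)
    (g : Col m → ℚ) (hN : ∀ r ∉ chn x e, padicNorm p (g r) ≤ (p : ℚ) ^ E)
    (hg : ∀ r ∈ chn x e, g r = c₀ + TW w K (yy (x r)))
    (hD : DG m (fun r => (zz (x r) : ℚ)) g ≠ 0) {k : ℕ} (hk : (chn x e).card = k) :
    ρ * (2 * (m : ℤ) * (m - 1) - 2 * (m - 1) * k + k * (k - 1)) - 4 * m * (E + 3 * L + 8)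
      + padicValInt p (WW (fun r => zz (x r)) (chn x e))
      ≤ 2 * padicValRat p (DG m (fun r => (zz (x r) : ℚ)) g) := by
  have hp : p = 2 ∨ p = 3 := hG.imp (·.1) (·.1)
  haveI : Fact p.Prime := by
    rcases hp with rfl | rfl
    · exact Nat.fact_prime_two
    · exact Nat.fact_prime_three
  have hρ : (ρ : ℤ) ≤ 6 := by
    rcases hG with ⟨-, -, rfl, -⟩ | ⟨-, -, rfl, -⟩ <;> norm_num
  have hm := h.hm
  have hL0 : (0 : ℤ) ≤ L := Int.natCast_nonneg L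
  have hE0 : (0 : ℤ) ≤ E := Int.natCast_nonneg E
  have hmem : ∀ r, r ∈ chn x e ↔ (x r).1 = e := fun r => by simp [chn]
  have hkL : ∀ j : Fin m, 2 * (j : ℕ) < p ^ (L + 1) := fun j => by have := j.2; omega
  have pz : ∀ N : ℤ, (p : ℚ) ^ N ≠ 0 := fun N => (zpow_pos (fvex_pos p) N).ne'
  obtain ⟨Λ, hΛ⟩ : ∃ Λ : ℤ, Λ = E + 3 * L + 8 := ⟨_, rfl⟩
  obtain ⟨M0, hM0⟩ : ∃ M0 : Matrix (Col m) (Col m) ℚ, M0 = Matrix.of fun r => Sum.elim
      (fun k : Fin m => NN k ((yy (x r) : ℚ) ^ 2))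
      (fun k : Fin m => g r * NN k ((yy (x r) : ℚ) ^ 2) - (c₀ * NN k ((yy (x r) : ℚ) ^ 2)
        + ∑ i ∈ range K, w i * (NN k ((yy (x r) : ℚ) ^ 2) - NN k ((12 * i + 6) ^ 2))
          / ((yy (x r) : ℚ) ^ 2 - (12 * i + 6) ^ 2))) := ⟨_, rfl⟩
  have hdet : DG m (fun r => (zz (x r) : ℚ)) g = M0.det := by
    rw [hM0]
    exact fvex_col x g w c₀ K
  let s : Col m → ℚ := fun r => if r ∈ chn x e then
    (p : ℚ) ^ (ρ * ((m : ℤ) - 1) + Λ) * NN K ((yy (x r) : ℚ) ^ 2) else (p : ℚ) ^ Λ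
  let t : Col m → ℚ := Sum.elim (fun j => (p : ℚ) ^ (-(ρ * ((j : ℕ) : ℤ))))
    (fun j => (p : ℚ) ^ (-(ρ * ((j : ℕ) : ℤ))))
  let P : ℕ → ℤ[X] := fun j => if j < m then fvexA (range (m - 1 - j)) * fvexA (range K)
    else fvexA (Ico (j - m + 1) K)
  let a : ℕ → Col m → ℚ := fun j => Sum.elim
    (fun k => if j = m - 1 - k then
      (p : ℚ) ^ (ρ * ((m : ℤ) - 1) + Λ) * (p : ℚ) ^ (-(ρ * ((k : ℕ) : ℤ))) else 0)
    (fun k => if j < m then 0 else
      (p : ℚ) ^ (ρ * ((m : ℤ) - 1) + Λ) * (p : ℚ) ^ (-(ρ * ((k : ℕ) : ℤ)))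
        * ∑ i ∈ range K, w i * NN k ((12 * i + 6) ^ 2) * NN (j - m) ((12 * i + 6) ^ 2))
  have e1 : (Matrix.of fun r c => s r * (t c * M0 r c)).det
      = (∏ r, s r) * ((∏ c, t c) * DG m (fun r => (zz (x r) : ℚ)) g) := by
    rw [hdet, ← Matrix.det_mul_row, ← Matrix.det_mul_column]
    rfl
  have sv : ∀ r, s r ≠ 0 ∧ padicValRat p (s r)
      = Λ + if r ∈ chn x e then ρ * ((m : ℤ) - 1) else 0 := fun r => by
    by_cases hr : r ∈ chn x e
    · have n1 := fvex_NN0 (x r) K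
      have n2 : padicValRat p (NN K ((yy (x r) : ℚ) ^ 2)) = 0 := by
        have u := good_unit hG (x r).2 0
        rw [← (hmem r).1 hr, mul_zero, add_zero] at u
        have := NN_good hp u K
        rw [padicNorm.eq_zpow_of_nonzero n1, zpow_eq_one_iff_right₀ (fvex_pos p).le
          (by exact_mod_cast (Fact.out : p.Prime).ne_one)] at this
        omega
      simp only [s, hr, if_true]
      refine ⟨mul_ne_zero (pz _) n1, ?_⟩
      rw [padicValRat.mul (pz _) n1, fvex_val, n2]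
      ring
    · simp only [s, hr, if_false]
      exact ⟨pz _, by rw [fvex_val, add_zero]⟩
  have tv : ∀ c, t c ≠ 0 := fun c => by rcases c with j | j <;> exact pz _
  have v1 : padicValRat p (∏ r, s r) = 2 * m * Λ + ρ * ((m : ℤ) - 1) * k := by
    rw [val_prod p _ _ fun r _ => (sv r).1, sum_congr rfl fun r _ => (sv r).2, sum_add_distrib,
      sum_ite_mem, univ_inter, sum_const, sum_const, hk]
    simp only [card_univ, Fintype.card_sum, Fintype.card_fin, nsmul_eq_mul]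
    push_cast
    ring
  have v2 : padicValRat p (∏ c, t c) = -(ρ * (m : ℤ) * (m - 1)) := by
    have a2 : ∀ M : ℕ, 2 * ∑ j ∈ range M, -(ρ * (j : ℤ)) = -(ρ * (M : ℤ) * (M - 1)) := fun M => by
      induction M with
      | zero => simp
      | succ M ih => rw [sum_range_succ, mul_add, ih]; push_cast; ring
    rw [val_prod p _ _ fun c _ => tv c, Fintype.sum_sum_type]
    simp only [t, Sum.elim_inl, Sum.elim_inr, fvex_val]
    rw [Fin.sum_univ_eq_sum_range (fun j => -(ρ * (j : ℤ))) m, ← two_mul, a2]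
  have s0 : ∏ r, s r ≠ 0 := prod_ne_zero_iff.2 fun r _ => (sv r).1
  have t0 : ∏ c, t c ≠ 0 := prod_ne_zero_iff.2 fun c _ => tv c
  have ha : ∀ j < m + K, ∀ c, padicNorm p (a j c) ≤ 1 / (p : ℚ) ^ (ρ * j) := by
    intro j hj c
    rcases c with l | l
    · simp only [a, Sum.elim_inl]
      split_ifs with hjl
      · refine fvex_div (fvex_mul (fvex_pow _) (fvex_pow _)) ?_
        have e2 : (j : ℤ) = m - 1 - (l : ℕ) := by have := l.2; omega
        push_cast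
        rw [e2]
        linarith
      · exact fvex_div (N := -((ρ * j : ℕ) : ℤ)) fvex_zero le_rfl
    · simp only [a, Sum.elim_inr]
      split_ifs with hjm
      · exact fvex_div (N := -((ρ * j : ℕ) : ℤ)) fvex_zero le_rfl
      · refine fvex_div (fvex_mul (fvex_mul (fvex_pow _) (fvex_pow _)) (fvex_sum _ _ fun i _ =>
          fvex_mul (fvex_mul (fvex_nat (hw i)) (fvex_t hG (hkL l) i))
            (fvex_t hG (k := j - m) (L := L) (by omega) i))) ?_
        have e2 : ((j - m : ℕ) : ℤ) = j - m := by omega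
        rw [e2]
        push_cast
        linarith
  have hon : ∀ r ∈ chn x e, ∀ c, (Matrix.of fun r c => s r * (t c * M0 r c)) r c
      = ∑ j ∈ range (m + K), (((P j).eval (zz (x r)) : ℤ) : ℚ) * a j c := by
    intro r hr c
    rw [sum_range_add]
    rcases c with l | l
    · have hl := l.2
      rw [sum_eq_single (m - 1 - l) (fun j _ hj => by simp only [a, Sum.elim_inl, if_neg hj, mul_zero])
        (fun hj => absurd (mem_range.2 (by omega)) hj), sum_eq_zero fun j _ => by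
          simp only [a, Sum.elim_inl, if_neg (show m + j ≠ m - 1 - l by omega), mul_zero]]
      simp only [hM0, a, P, s, t, Matrix.of_apply, Sum.elim_inl, hr, if_true,
        if_pos (show m - 1 - l < m by omega), show m - 1 - (m - 1 - l) = l by omega, eval_mul,
        Int.cast_mul, fvex_A, NN]
      ring
    · rw [sum_eq_zero fun j hj => by
        simp only [a, Sum.elim_inr, if_pos (mem_range.1 hj), mul_zero], zero_add]
      have e3 := fvex_on w c₀ K l (fvex_ne (x r))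
      have e4 : ∀ j ∈ range K, (((P (m + j)).eval (zz (x r)) : ℤ) : ℚ) * a (m + j) (.inr l)
          = (p : ℚ) ^ (ρ * ((m : ℤ) - 1) + Λ) * (p : ℚ) ^ (-(ρ * ((l : ℕ) : ℤ)))
            * ((∏ i ∈ Ico (j + 1) K, ((yy (x r) : ℚ) ^ 2 - (12 * i + 6) ^ 2))
              * ∑ i ∈ range K, w i * NN l ((12 * i + 6) ^ 2) * NN j ((12 * i + 6) ^ 2)) := by
        intro j _
        simp only [a, P, Sum.elim_inr, if_neg (show ¬ m + j < m by omega), Nat.add_sub_cancel_left,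
          fvex_A]
        ring
      rw [sum_congr rfl e4, ← mul_sum, ← e3]
      simp only [hM0, s, t, Matrix.of_apply, Sum.elim_inr, hr, if_true, hg r hr, TW]
      ring
  have hoff : ∀ r ∉ chn x e, ∀ c,
      padicNorm p ((Matrix.of fun r c => s r * (t c * M0 r c)) r c) ≤ 1 := by
    intro r hr c
    have he : (x r).1 ≠ e := fun h' => hr ((hmem r).2 h')
    rcases c with l | l
    · simp only [hM0, s, t, Matrix.of_apply, Sum.elim_inl, hr, if_false]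
      exact fvex_one (fvex_mul (fvex_pow _) (fvex_mul (fvex_pow _) (fvex_y hG (hkL l) he)))
        (by linarith)
    · simp only [hM0, s, t, Matrix.of_apply, Sum.elim_inr, hr, if_false]
      exact fvex_one (fvex_mul (fvex_pow _) (fvex_mul (fvex_pow _)
        (fvex_off hG hL (hkL l) (h.mem r) he hw hc (hN r hr)))) (by linarith)
  have fin := rate_det p (chn x e) h.zinj (m + K) ρ P a _ ha hon hoff
    (by rw [e1]; exact mul_ne_zero s0 (mul_ne_zero t0 hD))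
  rw [e1, padicValRat.mul s0 (mul_ne_zero t0 hD), padicValRat.mul t0 hD, v1, v2, hk, hΛ] at fin
  linarith

end Pool.Agent.FMZ
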