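import Pool.Agent.P.MP_cb43af_nt.FzRed
import Pool.Agent.P.MP_cb43af_nt.FzNode

open Finset Filter Polynomial
namespace Pool.Agent.FMZ

variable {p : ℕ} [Fact p.Prime]

theorem fzphi_twelve (h5 : 5 ≤ p) : (12 : ZMod p) ≠ 0 := by
  intro h
  have hp : p.Prime := Fact.out
  have h1 : ((12 : ℕ) : ZMod p) = 0 := by exact_mod_cast h
  rw [ZMod.natCast_eq_zero_iff] at h1
  have h2 : p ∣ 2 * (2 * 3) := h1
  rcases (Nat.Prime.dvd_mul hp).1 h2 with h3 | h3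
  · have := Nat.le_of_dvd (by norm_num) h3; omega
  · rcases (Nat.Prime.dvd_mul hp).1 h3 with h4 | h4
    · have := Nat.le_of_dvd (by norm_num) h4; omega
    · have := Nat.le_of_dvd (by norm_num) h4; omega

theorem FF_step (h5 : 5 ≤ p) (y : ZMod p) : FF p (y + 12) = FF p y + ((y + 6)⁻¹) ^ 3 := by
  have h := fzphi_twelve h5
  unfold FF
  have e1 : (y + 12 - 6) * (12 : ZMod p)⁻¹ - 1 = (y - 6) * (12 : ZMod p)⁻¹ := by
    field_simp; ring
  have e2 : y + 12 - 6 = y + 6 := by ring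
  rw [phi_step h5 ((y + 12 - 6) * (12 : ZMod p)⁻¹), e1, e2, mul_inv, inv_inv, mul_add]
  congr 1
  have : (12 : ZMod p)⁻¹ * 12 = 1 := inv_mul_cancel₀ h
  calc ((12 : ZMod p)⁻¹) ^ 3 * ((y + 6)⁻¹ * 12) ^ 3
      = ((12 : ZMod p)⁻¹ * 12) ^ 3 * ((y + 6)⁻¹) ^ 3 := by ring
    _ = ((y + 6)⁻¹) ^ 3 := by rw [this]; ring

theorem FF_neg (h5 : 5 ≤ p) (y : ZMod p) : FF p (-y) = FF p y := by
  have h := fzphi_twelve h5
  unfold FF
  have e1 : (-y - 6) * (12 : ZMod p)⁻¹ = -1 - (y - 6) * (12 : ZMod p)⁻¹ := by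
    field_simp; ring
  rw [e1, phi_refl h5]

theorem lift0_congr (h5 : 5 ≤ p) (b : ℤ) {x x' : Nd} (h : zz x % p = zz x' % p) :
    lift0 b p x = lift0 b p x' := by
  have h1 : ((zz x : ℤ) : ZMod p) = ((zz x' : ℤ) : ZMod p) :=
    (ZMod.intCast_eq_intCast_iff' _ _ _).2 h
  have h2 : (((yy x : ℤ) : ZMod p) - (yy x' : ℤ)) * (((yy x : ℤ) : ZMod p) + (yy x' : ℤ)) = 0 := by
    have := congrArg (Int.cast : ℤ → ZMod p) (zz_sub x x')
    push_cast at this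
    rw [← this, h1, sub_self]
  have h3 : FF p (yy x) = FF p (yy x') := by
    rcases mul_eq_zero.1 h2 with h3 | h3
    · rw [sub_eq_zero.1 h3]
    · rw [eq_neg_of_add_eq_zero_left h3, FF_neg h5]
  unfold lift0
  rw [h3]

theorem fzphi_yy (e : Bool) (i : ℤ) : yy (e, i + 1) = yy (e, i) + 12 := by
  unfold yy; ring

theorem fzphi_link (h5 : 5 ≤ p) (b : ℤ) (e : Bool) (i : ℤ) (hl : ¬ (p : ℤ) ∣ yy (e, i) + 6) :
    padicNorm p ((b : ℚ) / ((yy (e, i) : ℚ) + 6) ^ 3) ≤ 1 ∧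
      (((b : ℚ) / ((yy (e, i) : ℚ) + 6) ^ 3 : ℚ) : ZMod p) =
        b * (FF p (yy (e, i + 1)) - FF p (yy (e, i))) := by
  have h := red_div (p := p) b (yy (e, i) + 6) 3 hl
  have e1 : (((yy (e, i) + 6 : ℤ)) : ℚ) = (yy (e, i) : ℚ) + 6 := by push_cast; ring
  rw [e1] at h
  refine ⟨h.1, ?_⟩
  rw [h.2, fzphi_yy]
  push_cast
  rw [FF_step h5]
  ring

theorem fzphi_main (h5 : 5 ≤ p) {a b : ℤ} {f : Nd → ℚ} (h : Ch a b f) (hH : Hp a b p) (e : Bool)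
    (i : ℤ) : ¬ Pole p (e, i) → padicNorm p (f (e, i)) ≤ 1 ∧
      ((f (e, i) : ℚ) : ZMod p) = b * (FF p (yy (e, i)) - FF p 2) := by
  induction i using Int.induction_on with
  | zero =>
    intro _
    cases e with
    | false =>
      rw [h.zA]
      refine ⟨by simp, ?_⟩
      have : yy (false, 0) = 2 := by simp [yy]
      rw [this]
      simp
    | true =>
      rw [h.zB]
      refine ⟨padicNorm.of_int a, ?_⟩
      have : yy (true, 0) = 3 := by simp [yy]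
      rw [this, Rat.cast_intCast, ← hH]
      simp
  | succ i ih =>
    intro hx
    have h1 : ¬ Pole p (e, (i : ℤ)) := by
      rintro ⟨j, hj, hd⟩
      exact hx ⟨j, by simp only at hj ⊢; omega, hd⟩
    have h2 : ¬ (p : ℤ) ∣ yy (e, (i : ℤ)) + 6 := fun hd =>
      hx ⟨i, by simp only; omega, hd⟩
    obtain ⟨n1, c1⟩ := ih h1
    obtain ⟨n2, c2⟩ := fzphi_link h5 b e i h2
    rw [h.step]
    refine ⟨padicNorm.nonarchimedean.trans (max_le n1 n2), ?_⟩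
    rw [red_add n1 n2, c1, c2]
    ring
  | pred i ih =>
    intro hx
    have h1 : ¬ Pole p (e, -(i : ℤ)) := by
      rintro ⟨j, hj, hd⟩
      exact hx ⟨j, by simp only at hj ⊢; omega, hd⟩
    have h2 : ¬ (p : ℤ) ∣ yy (e, -(i : ℤ) - 1) + 6 := fun hd =>
      hx ⟨-(i : ℤ) - 1, by simp only; omega, hd⟩
    obtain ⟨n1, c1⟩ := ih h1
    obtain ⟨n2, c2⟩ := fzphi_link h5 b e (-(i : ℤ) - 1) h2
    have hs := h.step e (-(i : ℤ) - 1)
    have e0 : -(i : ℤ) - 1 + 1 = -(i : ℤ) := by ring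
    rw [e0] at hs c2
    have hs' : f (e, -(i : ℤ) - 1) =
        f (e, -(i : ℤ)) - b / ((yy (e, -(i : ℤ) - 1) : ℚ) + 6) ^ 3 := by rw [hs]; ring
    rw [hs']
    refine ⟨padicNorm.sub.trans (max_le n1 n2), ?_⟩
    rw [red_sub n1 n2, c1, c2]
    ring

theorem ch_cong (h5 : 5 ≤ p) {a b : ℤ} {f : Nd → ℚ} (h : Ch a b f) (hH : Hp a b p) {x : Nd}
    (hx : ¬ Pole p x) : padicNorm p (f x - lift0 b p x) ≤ 1 / p := by
  obtain ⟨e, i⟩ := x
  obtain ⟨n1, c1⟩ := fzphi_main h5 h hH e i hx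
  have n2 : padicNorm p ((lift0 b p (e, i) : ℤ) : ℚ) ≤ 1 := padicNorm.of_int _
  rw [← red_zero (padicNorm.sub.trans (max_le n1 n2)), red_sub n1 n2, c1, Rat.cast_intCast]
  unfold lift0
  rw [Int.cast_natCast, ZMod.natCast_zmod_val, sub_self]

end Pool.Agent.FMZ
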