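import Pool.Agent.P.MP_cb43af_nt.Fv0
import Pool.Agent.P.MP_cb43af_nt.FzPhi

open Finset Filter Polynomial Topology
namespace Pool.Agent.FMZ

variable {p : ℕ} [Fact p.Prime]

theorem phi5_step (h7 : 7 ≤ p) (t : ZMod p) : Phi5 p t = Phi5 p (t - 1) + (t⁻¹) ^ 5 := by
  have hp : 1 < p := by omega
  by_cases ht : t = 0
  · subst ht
    have hv : (0 - 1 : ZMod p).val = p - 1 := by
      have : (0 - 1 : ZMod p) = ((p - 1 : ℕ) : ZMod p) := by
        rw [Nat.cast_sub hp.le, ZMod.natCast_self, Nat.cast_one]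
      rw [this, ZMod.val_cast_of_lt (by omega)]
    have h0 : ∑ x : ZMod p, x ^ 5 = 0 :=
      FiniteField.sum_pow_lt_card_sub_one (ZMod p) 5 (by rw [ZMod.card]; omega)
    have h1 : ∑ x : ZMod p, (x⁻¹) ^ 5 = 0 := by
      rw [← h0]
      exact Equiv.sum_comp (Equiv.inv (ZMod p)) fun x => x ^ 5
    have h2 : ∑ j ∈ range p, ((j : ZMod p)⁻¹) ^ 5 = ∑ x : ZMod p, (x⁻¹) ^ 5 := by
      refine sum_bij (fun j _ => (j : ZMod p)) (fun _ _ => mem_univ _) (fun a ha b hb h => ?_)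
        (fun x _ => ⟨x.val, mem_range.2 (ZMod.val_lt x), ZMod.natCast_zmod_val x⟩) fun _ _ => rfl
      have := congrArg ZMod.val h
      rwa [ZMod.val_cast_of_lt (mem_range.1 ha), ZMod.val_cast_of_lt (mem_range.1 hb)] at this
    have h3 : range p = insert 0 (Icc 1 (p - 1)) := by
      ext j
      simp only [mem_range, mem_insert, mem_Icc]
      omega
    rw [h3, sum_insert (by simp), h1] at h2
    unfold Phi5
    rw [hv, ZMod.val_zero]
    simp only [Nat.cast_zero, inv_zero] at h2 ⊢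
    rw [add_comm, h2]
    simp
  · obtain ⟨n, hn⟩ : ∃ n, t.val = n + 1 :=
      Nat.exists_eq_succ_of_ne_zero fun h => ht ((ZMod.val_eq_zero t).1 h)
    have ht' : t = ((n + 1 : ℕ) : ZMod p) := by rw [← hn, ZMod.natCast_zmod_val]
    have hlt := ZMod.val_lt t
    have hv : (t - 1).val = n := by
      rw [ht', Nat.cast_succ, add_sub_cancel_right, ZMod.val_cast_of_lt (by omega)]
    unfold Phi5
    rw [hv, hn, sum_Icc_succ_top (by omega), ← ht']

theorem phi5_refl (h7 : 7 ≤ p) (t : ZMod p) : Phi5 p (-1 - t) = Phi5 p t := by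
  have key : ∀ n : ℕ, Phi5 p (-1 - (n : ZMod p)) = Phi5 p n := by
    intro n
    induction n with
    | zero =>
      have h := phi5_step h7 (0 : ZMod p)
      simp only [Nat.cast_zero, sub_zero]
      rw [h]
      simp
    | succ n ih =>
      have h1 := phi5_step h7 (-1 - (n : ZMod p))
      have h2 := phi5_step h7 ((n : ZMod p) + 1)
      rw [add_sub_cancel_right] at h2
      rw [show (-1 - (n : ZMod p)) - 1 = -1 - ((n : ZMod p) + 1) by ring, ih,
        show (-1 - (n : ZMod p)) = -((n : ZMod p) + 1) by ring, inv_neg] at h1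
      rw [Nat.cast_succ, h2, h1]
      ring
  rw [← ZMod.natCast_zmod_val t]
  exact key _

theorem fvphi_step5 (h7 : 7 ≤ p) (y : ZMod p) :
    FF5 p (y + 12) = FF5 p y + ((y + 6)⁻¹) ^ 5 := by
  have h := fzphi_twelve (p := p) (by omega)
  unfold FF5
  have e1 : (y + 12 - 6) * (12 : ZMod p)⁻¹ - 1 = (y - 6) * (12 : ZMod p)⁻¹ := by
    field_simp; ring
  have e2 : y + 12 - 6 = y + 6 := by ring
  rw [phi5_step h7 ((y + 12 - 6) * (12 : ZMod p)⁻¹), e1, e2, mul_inv, inv_inv, mul_add]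
  congr 1
  have : (12 : ZMod p)⁻¹ * 12 = 1 := inv_mul_cancel₀ h
  calc ((12 : ZMod p)⁻¹) ^ 5 * ((y + 6)⁻¹ * 12) ^ 5
      = ((12 : ZMod p)⁻¹ * 12) ^ 5 * ((y + 6)⁻¹) ^ 5 := by ring
    _ = ((y + 6)⁻¹) ^ 5 := by rw [this]; ring

theorem fvphi_neg (h7 : 7 ≤ p) (b c : ℤ) (y : ZMod p) : GG b c p (-y) = GG b c p y := by
  have h := fzphi_twelve (p := p) (by omega)
  unfold GG
  rw [FF_neg (by omega)]
  unfold FF5
  have e1 : (-y - 6) * (12 : ZMod p)⁻¹ = -1 - (y - 6) * (12 : ZMod p)⁻¹ := by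
    field_simp; ring
  rw [e1, phi5_refl h7]

theorem lift5_congr (h7 : 7 ≤ p) (b c : ℤ) {x x' : Nd} (h : zz x % p = zz x' % p) :
    lift5 b c p x = lift5 b c p x' := by
  have h1 : ((zz x : ℤ) : ZMod p) = ((zz x' : ℤ) : ZMod p) :=
    (ZMod.intCast_eq_intCast_iff' _ _ _).2 h
  have h2 : (((yy x : ℤ) : ZMod p) - (yy x' : ℤ)) * (((yy x : ℤ) : ZMod p) + (yy x' : ℤ)) = 0 := by
    have := congrArg (Int.cast : ℤ → ZMod p) (zz_sub x x')
    push_cast at this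
    rw [← this, h1, sub_self]
  have h3 : GG b c p (yy x) = GG b c p (yy x') := by
    rcases mul_eq_zero.1 h2 with h3 | h3
    · rw [sub_eq_zero.1 h3]
    · rw [eq_neg_of_add_eq_zero_left h3, fvphi_neg h7]
  unfold lift5
  rw [h3]

theorem fvphi_link (h7 : 7 ≤ p) (b c : ℤ) (e : Bool) (i : ℤ) (hl : ¬ (p : ℤ) ∣ yy (e, i) + 6) :
    padicNorm p (inc b c ((yy (e, i) : ℚ) + 6)) ≤ 1 ∧
      ((inc b c ((yy (e, i) : ℚ) + 6) : ℚ) : ZMod p) =
        GG b c p (yy (e, i + 1)) - GG b c p (yy (e, i)) := by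
  have h := red_div (p := p) b (yy (e, i) + 6) 3 hl
  have h' := red_div (p := p) c (yy (e, i) + 6) 5 hl
  have e1 : (((yy (e, i) + 6 : ℤ)) : ℚ) = (yy (e, i) : ℚ) + 6 := by push_cast; ring
  rw [e1] at h h'
  unfold inc
  refine ⟨padicNorm.nonarchimedean.trans (max_le h.1 h'.1), ?_⟩
  rw [red_add h.1 h'.1, h.2, h'.2, fzphi_yy]
  push_cast
  unfold GG
  rw [FF_step (by omega), fvphi_step5 h7]
  ring

theorem fvphi_main (h7 : 7 ≤ p) {a b c : ℤ} {f : Nd → ℚ} (h : Ch5 a b c f) (hH : Hp5 a b c p)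
    (e : Bool) (i : ℤ) : ¬ Pole p (e, i) → padicNorm p (f (e, i)) ≤ 1 ∧
      ((f (e, i) : ℚ) : ZMod p) = GG b c p (yy (e, i)) - GG b c p 2 := by
  induction i using Int.induction_on with
  | zero =>
    intro _
    cases e with
    | false =>
      rw [h.zA]
      refine ⟨by simp, ?_⟩
      have : yy (false, 0) = 2 := by simp [yy]
      rw [this]
      simp
    | true =>
      rw [h.zB]
      refine ⟨padicNorm.of_int a, ?_⟩
      have : yy (true, 0) = 3 := by simp [yy]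
      rw [this, Rat.cast_intCast, ← hH]
      simp
  | succ i ih =>
    intro hx
    have h1 : ¬ Pole p (e, (i : ℤ)) := by
      rintro ⟨j, hj, hd⟩
      exact hx ⟨j, by simp only at hj ⊢; omega, hd⟩
    have h2 : ¬ (p : ℤ) ∣ yy (e, (i : ℤ)) + 6 := fun hd =>
      hx ⟨i, by simp only; omega, hd⟩
    obtain ⟨n1, c1⟩ := ih h1
    obtain ⟨n2, c2⟩ := fvphi_link h7 b c e i h2
    rw [h.step]
    refine ⟨padicNorm.nonarchimedean.trans (max_le n1 n2), ?_⟩
    rw [red_add n1 n2, c1, c2]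
    ring
  | pred i ih =>
    intro hx
    have h1 : ¬ Pole p (e, -(i : ℤ)) := by
      rintro ⟨j, hj, hd⟩
      exact hx ⟨j, by simp only at hj ⊢; omega, hd⟩
    have h2 : ¬ (p : ℤ) ∣ yy (e, -(i : ℤ) - 1) + 6 := fun hd =>
      hx ⟨-(i : ℤ) - 1, by simp only; omega, hd⟩
    obtain ⟨n1, c1⟩ := ih h1
    obtain ⟨n2, c2⟩ := fvphi_link h7 b c e (-(i : ℤ) - 1) h2
    have hs := h.step e (-(i : ℤ) - 1)
    have e0 : -(i : ℤ) - 1 + 1 = -(i : ℤ) := by ring
    rw [e0] at hs c2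
    have hs' : f (e, -(i : ℤ) - 1) =
        f (e, -(i : ℤ)) - inc b c ((yy (e, -(i : ℤ) - 1) : ℚ) + 6) := by rw [hs]; ring
    rw [hs']
    refine ⟨padicNorm.sub.trans (max_le n1 n2), ?_⟩
    rw [red_sub n1 n2, c1, c2]
    ring

theorem ch_cong5 (h7 : 7 ≤ p) {a b c : ℤ} {f : Nd → ℚ} (h : Ch5 a b c f) (hH : Hp5 a b c p)
    {x : Nd} (hx : ¬ Pole p x) : padicNorm p (f x - lift5 b c p x) ≤ 1 / p := by
  obtain ⟨e, i⟩ := x
  obtain ⟨n1, c1⟩ := fvphi_main h7 h hH e i hx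
  have n2 : padicNorm p ((lift5 b c p (e, i) : ℤ) : ℚ) ≤ 1 := padicNorm.of_int _
  rw [← red_zero (padicNorm.sub.trans (max_le n1 n2)), red_sub n1 n2, c1, Rat.cast_intCast]
  unfold lift5
  rw [Int.cast_natCast, ZMod.natCast_zmod_val, sub_self]

end Pool.Agent.FMZ
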