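import Pool.Agent.P.MP_cb43af_nt.FzNode

open Finset Filter Polynomial
namespace Pool.Agent.FMZ

theorem fzpole_cop {p : ℕ} (hp : p.Prime) (h5 : 5 ≤ p) {k : ℕ} (hk0 : 0 < k) (hk : k < 5) {t : ℤ}
    (hd : (p : ℤ) ∣ (k : ℤ) * t) : (p : ℤ) ∣ t := by
  have hp' : Prime (p : ℤ) := Nat.prime_iff_prime_int.mp hp
  rcases hp'.dvd_or_dvd hd with h | h
  · have h1 : p ∣ k := Int.natCast_dvd_natCast.mp h
    have h2 := Nat.le_of_dvd hk0 h1
    omega
  · exact h

theorem fzpole_false {n p : ℕ} (hp : p.Prime) (h5 : 5 ≤ p) (h3 : 3 * n < 2 * p) {i : ℤ}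
    (h1 : -(n : ℤ) ≤ i) (h2 : i < n) (hP : Pole p (false, i)) :
    ((p : ℤ) % 3 = 2 ∧ (p : ℤ) - 2 < 3 * i) ∨ ((p : ℤ) % 3 = 1 ∧ 3 * i ≤ -(p : ℤ) - 2) := by
  obtain ⟨j, hj, hd⟩ := hP
  have e : yy (false, j) + 6 = ((4 : ℕ) : ℤ) * (3 * j + 2) := by
    simp only [yy]; push_cast; ring
  simp only at hj hd
  rw [e] at hd
  obtain ⟨c, hc⟩ := fzpole_cop hp h5 (by norm_num) (by norm_num) hd
  have hp5 : (5 : ℤ) ≤ p := by exact_mod_cast h5
  have h3' : 3 * (n : ℤ) < 2 * p := by exact_mod_cast h3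
  rcases hj with hj | hj
  · have c1 : 0 < c := by nlinarith
    have c2 : c < 2 := by nlinarith
    have c3 : c = 1 := by omega
    subst c3
    left
    omega
  · have c1 : c < 0 := by nlinarith
    have c2 : -2 < c := by nlinarith
    have c3 : c = -1 := by omega
    subst c3
    right
    omega

theorem fzpole_true {n p : ℕ} (hp : p.Prime) (h5 : 5 ≤ p) (h3 : 3 * n < 2 * p) {i : ℤ}
    (h1 : -(n : ℤ) ≤ i) (h2 : i < n) (hP : Pole p (true, i)) :
    ((p : ℤ) % 4 = 3 ∧ (p : ℤ) - 3 < 4 * i) ∨ ((p : ℤ) % 4 = 1 ∧ 4 * i ≤ -(p : ℤ) - 3) := by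
  obtain ⟨j, hj, hd⟩ := hP
  have e : yy (true, j) + 6 = ((3 : ℕ) : ℤ) * (4 * j + 3) := by
    simp only [yy]; push_cast; ring
  simp only at hj hd
  rw [e] at hd
  obtain ⟨c, hc⟩ := fzpole_cop hp h5 (by norm_num) (by norm_num) hd
  have hp5 : (5 : ℤ) ≤ p := by exact_mod_cast h5
  have h3' : 3 * (n : ℤ) < 2 * p := by exact_mod_cast h3
  rcases hj with hj | hj
  · have c1 : 0 < c := by nlinarith
    have c2 : c < 3 := by nlinarith
    have c3 : c = 1 ∨ c = 2 := by omega
    rcases c3 with c3 | c3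
    · subst c3
      left
      omega
    · subst c3
      omega
  · have c1 : c < 0 := by nlinarith
    have c2 : -3 < c := by nlinarith
    have c3 : c = -1 ∨ c = -2 := by omega
    rcases c3 with c3 | c3
    · subst c3
      right
      omega
    · subst c3
      omega

open Classical in
theorem fzpole_cardF {n p : ℕ} (hp : p.Prime) (h5 : 5 ≤ p) (h3 : 3 * n < 2 * p) :
    3 * ((((Ico (-(n : ℤ)) n).filter fun i => Pole p (false, i)).card : ℕ) : ℤ)
      ≤ max (3 * n - p : ℤ) 0 + 3 := by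
  by_cases h : (p : ℤ) % 3 = 2
  · have hs : ((Ico (-(n : ℤ)) n).filter fun i => Pole p (false, i))
        ⊆ Ioo (((p : ℤ) - 2) / 3) n := by
      intro i hi
      rw [mem_filter, mem_Ico] at hi
      have := fzpole_false hp h5 h3 hi.1.1 hi.1.2 hi.2
      rw [mem_Ioo]
      omega
    have hc := card_le_card hs
    rw [Int.card_Ioo] at hc
    omega
  · have hs : ((Ico (-(n : ℤ)) n).filter fun i => Pole p (false, i))
        ⊆ Icc (-(n : ℤ)) ((-(p : ℤ) - 2) / 3) := by
      intro i hi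
      rw [mem_filter, mem_Ico] at hi
      have := fzpole_false hp h5 h3 hi.1.1 hi.1.2 hi.2
      rw [mem_Icc]
      omega
    have hc := card_le_card hs
    rw [Int.card_Icc] at hc
    omega

open Classical in
theorem fzpole_cardT {n p : ℕ} (hp : p.Prime) (h5 : 5 ≤ p) (h3 : 3 * n < 2 * p) :
    4 * ((((Ico (-(n : ℤ)) n).filter fun i => Pole p (true, i)).card : ℕ) : ℤ)
      ≤ max (4 * n - p : ℤ) 0 + 4 := by
  by_cases h : (p : ℤ) % 4 = 3
  · have hs : ((Ico (-(n : ℤ)) n).filter fun i => Pole p (true, i))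
        ⊆ Ioo (((p : ℤ) - 3) / 4) n := by
      intro i hi
      rw [mem_filter, mem_Ico] at hi
      have := fzpole_true hp h5 h3 hi.1.1 hi.1.2 hi.2
      rw [mem_Ioo]
      omega
    have hc := card_le_card hs
    rw [Int.card_Ioo] at hc
    omega
  · have hs : ((Ico (-(n : ℤ)) n).filter fun i => Pole p (true, i))
        ⊆ Icc (-(n : ℤ)) ((-(p : ℤ) - 3) / 4) := by
      intro i hi
      rw [mem_filter, mem_Ico] at hi
      have := fzpole_true hp h5 h3 hi.1.1 hi.1.2 hi.2
      rw [mem_Icc]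
      omega
    have hc := card_le_card hs
    rw [Int.card_Icc] at hc
    omega

open Classical in
theorem fzpole_chain {n m : ℕ} {x : Col m → Nd} (h : Sel n m x) (p : ℕ) (e : Bool) :
    ((univ.filter fun r => Pole p (x r)).filter fun r => (x r).1 = e).card
      ≤ ((Ico (-(n : ℤ)) n).filter fun i => Pole p (e, i)).card := by
  refine card_le_card_of_injOn (fun r => (x r).2) ?_ ?_
  · intro r hr
    have hr' := mem_coe.mp hr
    rw [mem_filter, mem_filter] at hr'
    have hm := mem_nodes.mp (h.mem r)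
    refine mem_coe.mpr ?_
    rw [mem_filter, mem_Ico]
    refine ⟨hm, ?_⟩
    have e1 : x r = (e, (x r).2) := Prod.ext hr'.2 rfl
    have hP := hr'.1.2
    rw [e1] at hP
    exact hP
  · intro r hr s hs hrs
    have hr' := mem_coe.mp hr
    have hs' := mem_coe.mp hs
    rw [mem_filter] at hr' hs'
    exact h.inj (Prod.ext (hr'.2.trans hs'.2.symm) hrs)

open Classical in
theorem card_pole {n m : ℕ} {x : Col m → Nd} (h : Sel n m x) {p : ℕ} (hp : p.Prime) (h5 : 5 ≤ p)
    (h3 : 3 * n < 2 * p) : (((univ.filter fun r => Pole p (x r)).card : ℕ) : ℝ)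
      ≤ max (3 * n - p : ℝ) 0 / 3 + max (4 * n - p : ℝ) 0 / 4 + 2 := by
  have hF := fzpole_cardF hp h5 h3
  have hT := fzpole_cardT hp h5 h3
  have cF := fzpole_chain h p false
  have cT := fzpole_chain h p true
  have hsplit : (univ.filter fun r => Pole p (x r)).card
      ≤ ((univ.filter fun r => Pole p (x r)).filter fun r => (x r).1 = false).card
        + ((univ.filter fun r => Pole p (x r)).filter fun r => (x r).1 = true).card := by
    refine le_trans (card_le_card ?_) (card_union_le _ _)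
    intro r hr
    rw [mem_union, mem_filter (s := univ.filter fun r => Pole p (x r)),
      mem_filter (s := univ.filter fun r => Pole p (x r))]
    cases hb : (x r).1
    · exact Or.inl ⟨hr, rfl⟩
    · exact Or.inr ⟨hr, rfl⟩
  have hsum := le_trans hsplit (Nat.add_le_add cF cT)
  generalize ((Ico (-(n : ℤ)) n).filter fun i => Pole p (false, i)).card = A at hF hsum
  generalize ((Ico (-(n : ℤ)) n).filter fun i => Pole p (true, i)).card = B at hT hsum
  have hF' : 3 * (A : ℝ) ≤ max (3 * n - p : ℝ) 0 + 3 := by exact_mod_cast hF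
  have hT' : 4 * (B : ℝ) ≤ max (4 * n - p : ℝ) 0 + 4 := by exact_mod_cast hT
  have hsum' : (((univ.filter fun r => Pole p (x r)).card : ℕ) : ℝ) ≤ (A : ℝ) + B := by
    exact_mod_cast hsum
  linarith

end Pool.Agent.FMZ
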