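import Pool.Agent.P.MP_cb43af_nt.Fv0
import Pool.Agent.P.MP_cb43af_nt.FzPole

open Finset Filter Polynomial Topology
namespace Pool.Agent.FMZ

theorem fvpole_false {p : ℕ} (hp : p.Prime) (h5 : 5 ≤ p) {i : ℤ} (hP : Pole p (false, i)) :
    ((p : ℤ) % 3 = 2 → (p : ℤ) - 2 < 3 * i ∨ 3 * i ≤ -2 * (p : ℤ) - 2) ∧
    (¬ (p : ℤ) % 3 = 2 → 2 * (p : ℤ) - 2 < 3 * i ∨ 3 * i ≤ -(p : ℤ) - 2) := by
  obtain ⟨j, hj, hd⟩ := hP
  have e : yy (false, j) + 6 = ((4 : ℕ) : ℤ) * (3 * j + 2) := by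
    simp only [yy]; push_cast; ring
  simp only at hj hd
  rw [e] at hd
  obtain ⟨c, hc⟩ := fzpole_cop hp h5 (by norm_num) (by norm_num) hd
  have hp5 : (5 : ℤ) ≤ p := by exact_mod_cast h5
  rcases hj with hj | hj
  · have c1 : 0 < c := by nlinarith
    refine ⟨fun _ => Or.inl (by nlinarith), fun h => Or.inl ?_⟩
    have c2 : c ≠ 1 := by
      rintro rfl
      omega
    have c3 : 2 ≤ c := by omega
    nlinarith
  · have c1 : c < 0 := by nlinarith
    refine ⟨fun h => Or.inr ?_, fun _ => Or.inr (by nlinarith)⟩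
    have c2 : c ≠ -1 := by
      rintro rfl
      omega
    have c3 : c ≤ -2 := by omega
    nlinarith

theorem fvpole_true {p : ℕ} (hp : p.Prime) (h5 : 5 ≤ p) {i : ℤ} (hP : Pole p (true, i)) :
    ((p : ℤ) % 4 = 3 → (p : ℤ) - 3 < 4 * i ∨ 4 * i ≤ -3 * (p : ℤ) - 3) ∧
    (¬ (p : ℤ) % 4 = 3 → 3 * (p : ℤ) - 3 < 4 * i ∨ 4 * i ≤ -(p : ℤ) - 3) := by
  obtain ⟨j, hj, hd⟩ := hP
  have e : yy (true, j) + 6 = ((3 : ℕ) : ℤ) * (4 * j + 3) := by
    simp only [yy]; push_cast; ring
  simp only at hj hd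
  rw [e] at hd
  obtain ⟨c, hc⟩ := fzpole_cop hp h5 (by norm_num) (by norm_num) hd
  have hp5 : (5 : ℤ) ≤ p := by exact_mod_cast h5
  rcases hj with hj | hj
  · have c1 : 0 < c := by nlinarith
    refine ⟨fun _ => Or.inl (by nlinarith), fun h => Or.inl ?_⟩
    have c2 : c ≠ 1 := by
      rintro rfl
      omega
    have c2' : c ≠ 2 := by
      rintro rfl
      omega
    have c3 : 3 ≤ c := by omega
    nlinarith
  · have c1 : c < 0 := by nlinarith
    refine ⟨fun h => Or.inr ?_, fun _ => Or.inr (by nlinarith)⟩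
    have c2 : c ≠ -1 := by
      rintro rfl
      omega
    have c2' : c ≠ -2 := by
      rintro rfl
      omega
    have c3 : c ≤ -3 := by omega
    nlinarith

open Classical in
theorem fvpole_cardF {n p : ℕ} (hp : p.Prime) (h5 : 5 ≤ p) :
    3 * ((((Ico (-(n : ℤ)) n).filter fun i => Pole p (false, i)).card : ℕ) : ℤ)
      ≤ max (3 * n - p : ℤ) 0 + max (3 * n - 2 * p : ℤ) 0 + 6 := by
  by_cases h : (p : ℤ) % 3 = 2
  · have hs : ((Ico (-(n : ℤ)) n).filter fun i => Pole p (false, i))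
        ⊆ Ioo (((p : ℤ) - 2) / 3) n ∪ Icc (-(n : ℤ)) ((-2 * (p : ℤ) - 2) / 3) := by
      intro i hi
      rw [mem_filter, mem_Ico] at hi
      have := (fvpole_false hp h5 hi.2).1 h
      rw [mem_union, mem_Ioo, mem_Icc]
      omega
    have hc := le_trans (card_le_card hs) (card_union_le _ _)
    rw [Int.card_Ioo, Int.card_Icc] at hc
    omega
  · have hs : ((Ico (-(n : ℤ)) n).filter fun i => Pole p (false, i))
        ⊆ Ioo ((2 * (p : ℤ) - 2) / 3) n ∪ Icc (-(n : ℤ)) ((-(p : ℤ) - 2) / 3) := by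
      intro i hi
      rw [mem_filter, mem_Ico] at hi
      have := (fvpole_false hp h5 hi.2).2 h
      rw [mem_union, mem_Ioo, mem_Icc]
      omega
    have hc := le_trans (card_le_card hs) (card_union_le _ _)
    rw [Int.card_Ioo, Int.card_Icc] at hc
    omega

open Classical in
theorem fvpole_cardT {n p : ℕ} (hp : p.Prime) (h5 : 5 ≤ p) :
    4 * ((((Ico (-(n : ℤ)) n).filter fun i => Pole p (true, i)).card : ℕ) : ℤ)
      ≤ max (4 * n - p : ℤ) 0 + max (4 * n - 3 * p : ℤ) 0 + 8 := by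
  by_cases h : (p : ℤ) % 4 = 3
  · have hs : ((Ico (-(n : ℤ)) n).filter fun i => Pole p (true, i))
        ⊆ Ioo (((p : ℤ) - 3) / 4) n ∪ Icc (-(n : ℤ)) ((-3 * (p : ℤ) - 3) / 4) := by
      intro i hi
      rw [mem_filter, mem_Ico] at hi
      have := (fvpole_true hp h5 hi.2).1 h
      rw [mem_union, mem_Ioo, mem_Icc]
      omega
    have hc := le_trans (card_le_card hs) (card_union_le _ _)
    rw [Int.card_Ioo, Int.card_Icc] at hc
    omega
  · have hs : ((Ico (-(n : ℤ)) n).filter fun i => Pole p (true, i))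
        ⊆ Ioo ((3 * (p : ℤ) - 3) / 4) n ∪ Icc (-(n : ℤ)) ((-(p : ℤ) - 3) / 4) := by
      intro i hi
      rw [mem_filter, mem_Ico] at hi
      have := (fvpole_true hp h5 hi.2).2 h
      rw [mem_union, mem_Ioo, mem_Icc]
      omega
    have hc := le_trans (card_le_card hs) (card_union_le _ _)
    rw [Int.card_Ioo, Int.card_Icc] at hc
    omega

open Classical in
theorem card_pole5 {n m : ℕ} {x : Col m → Nd} (h : Sel n m x) {p : ℕ} (hp : p.Prime)
    (h5 : 5 ≤ p) : (((univ.filter fun r => Pole p (x r)).card : ℕ) : ℝ)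
      ≤ max (3 * n - p : ℝ) 0 / 3 + max (3 * n - 2 * p : ℝ) 0 / 3 + max (4 * n - p : ℝ) 0 / 4
        + max (4 * n - 3 * p : ℝ) 0 / 4 + 4 := by
  have hF := fvpole_cardF (n := n) hp h5
  have hT := fvpole_cardT (n := n) hp h5
  have cF := fzpole_chain h p false
  have cT := fzpole_chain h p true
  have hsplit : (univ.filter fun r => Pole p (x r)).card
      ≤ ((univ.filter fun r => Pole p (x r)).filter fun r => (x r).1 = false).card
        + ((univ.filter fun r => Pole p (x r)).filter fun r => (x r).1 = true).card := by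
    refine le_trans (card_le_card ?_) (card_union_le _ _)
    intro r hr
    rw [mem_union, mem_filter (s := univ.filter fun r => Pole p (x r)),
      mem_filter (s := univ.filter fun r => Pole p (x r))]
    cases hb : (x r).1
    · exact Or.inl ⟨hr, rfl⟩
    · exact Or.inr ⟨hr, rfl⟩
  have hsum := le_trans hsplit (Nat.add_le_add cF cT)
  generalize ((Ico (-(n : ℤ)) n).filter fun i => Pole p (false, i)).card = A at hF hsum
  generalize ((Ico (-(n : ℤ)) n).filter fun i => Pole p (true, i)).card = B at hT hsum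
  have hF' : 3 * (A : ℝ) ≤ max (3 * n - p : ℝ) 0 + max (3 * n - 2 * p : ℝ) 0 + 6 := by
    exact_mod_cast hF
  have hT' : 4 * (B : ℝ) ≤ max (4 * n - p : ℝ) 0 + max (4 * n - 3 * p : ℝ) 0 + 8 := by
    exact_mod_cast hT
  have hsum' : (((univ.filter fun r => Pole p (x r)).card : ℕ) : ℝ) ≤ (A : ℝ) + B := by
    exact_mod_cast hsum
  linarith

end Pool.Agent.FMZ
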