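import Pool.Agent.P.MP_cb43af_nt.FzNode

open Finset Filter Polynomial
namespace Pool.Agent.FMZ

theorem fzmat_gen {n m : ℕ} {x : Col m → Nd} (h : Sel n m x) {p : ℤ} {s : ℤ → ℤ}
    (hs : Function.Injective s) (I : Finset ℤ)
    (hI : ∀ i ∈ I, (-(n : ℤ) ≤ i ∧ i < n) ∧ (-(n : ℤ) ≤ s i ∧ s i < n))
    (hd : ∀ i, p ∣ zz (true, s i) - zz (false, i)) :
    ∃ T σ, Mat (fun r => zz (x r) % p) T σ ∧ I.card ≤ T.card + 2 := by
  classical
  set R : Finset Nd := univ.image x with hR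
  have hsub : R ⊆ nodes n := fun z hz => by
    obtain ⟨r, -, rfl⟩ := mem_image.1 hz
    exact h.mem r
  have hD : (nodes n \ R).card = 2 := by
    rw [card_sdiff_of_subset hsub, card_nodes, card_image_of_injective _ h.inj, card_univ,
      Fintype.card_sum, Fintype.card_fin]
    have := h.hm
    omega
  set I' := I.filter fun i => (false, i) ∈ R ∧ (true, s i) ∈ R with hI'
  set T : Finset (Col m) := univ.filter fun r => (x r).1 = false ∧ (x r).2 ∈ I' with hT
  have h1 : (I.filter fun i => ¬((false, i) ∈ R ∧ (true, s i) ∈ R)).card ≤ 2 := by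
    rw [← hD]
    refine card_le_card_of_injOn
      (fun i => if (false, i) ∈ R then ((true, s i) : Nd) else (false, i)) (fun i hi => ?_) ?_
    · obtain ⟨h2, h3⟩ := mem_filter.1 (mem_coe.1 hi)
      refine mem_coe.2 (mem_sdiff.2 ?_)
      by_cases h4 : (false, i) ∈ R
      · simp only [if_pos h4]
        exact ⟨mem_nodes.2 (hI i h2).2, fun h5 => h3 ⟨h4, h5⟩⟩
      · simp only [if_neg h4]
        exact ⟨mem_nodes.2 (hI i h2).1, h4⟩
    · intro i _ j _ hij
      dsimp only at hij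
      split_ifs at hij
      · exact hs (congrArg Prod.snd hij)
      · exact absurd (congrArg Prod.fst hij) (by simp)
      · exact absurd (congrArg Prod.fst hij) (by simp)
      · exact congrArg Prod.snd hij
  have h2 : I'.card ≤ T.card := by
    refine card_le_card_of_surjOn (fun r => (x r).2) fun i hi => ?_
    obtain ⟨r, -, hr⟩ := mem_image.1 (mem_filter.1 (mem_coe.1 hi)).2.1
    refine ⟨r, mem_coe.2 (mem_filter.2 ⟨mem_univ _, ?_⟩), ?_⟩
    · rw [hr]
      exact ⟨rfl, hi⟩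
    · simp only [hr]
  have h3 : ∀ r, ∃ r', r ∈ T → x r' = (true, s (x r).2) := by
    intro r
    by_cases hr : r ∈ T
    · obtain ⟨r', -, h4⟩ := mem_image.1 (mem_filter.1 (mem_filter.1 hr).2.2).2.2
      exact ⟨r', fun _ => h4⟩
    · exact ⟨r, fun h4 => absurd h4 hr⟩
  choose σ hσ using h3
  have h4 : ∀ r ∈ T, x r = (false, (x r).2) := fun r hr =>
    Prod.ext (mem_filter.1 hr).2.1 rfl
  refine ⟨T, σ, ⟨fun r hr => ⟨?_, fun h5 => ?_⟩, fun r hr r' hr' e => ?_⟩, ?_⟩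
  · have h5 := hd (x r).2
    rw [← h4 r hr, ← hσ r hr] at h5
    exact (Int.modEq_iff_dvd.2 h5).symm
  · have h6 := (mem_filter.1 h5).2.1
    rw [hσ r hr] at h6
    exact absurd h6 (by simp)
  · have h5 := hσ r hr
    rw [e, hσ r' hr'] at h5
    apply h.inj
    rw [h4 r hr, h4 r' hr', hs (congrArg Prod.snd h5)]
  · have h5 := card_filter_add_card_filter_not (s := I)
      (fun i => (false, i) ∈ R ∧ (true, s i) ∈ R)
    rw [← hI'] at h5
    omega

theorem fzmat_fin {n m : ℕ} {x : Col m → Nd} (h : Sel n m x) {p : ℕ} {s : ℤ → ℤ}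
    (hs : Function.Injective s) (lo hi : ℤ)
    (hI : ∀ i, lo ≤ i → i < hi → (-(n : ℤ) ≤ i ∧ i < n) ∧ (-(n : ℤ) ≤ s i ∧ s i < n))
    (hd : ∀ i, (p : ℤ) ∣ zz (true, s i) - zz (false, i))
    (hc : 24 * (n : ℤ) - p - 24 ≤ 12 * (hi - lo)) :
    ∃ T σ, Mat (fun r => zz (x r) % (p : ℤ)) T σ ∧ (2 * n - p / 12 - 4 : ℝ) ≤ T.card := by
  obtain ⟨T, σ, h1, h2⟩ := fzmat_gen h hs (Ico lo hi)
    (fun i hi => hI i (mem_Ico.1 hi).1 (mem_Ico.1 hi).2) hd
  refine ⟨T, σ, h1, ?_⟩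
  rw [Int.card_Ico] at h2
  have h3 : 24 * (n : ℤ) - p - 48 ≤ 12 * (T.card : ℤ) := by omega
  have h4 : 24 * (n : ℝ) - p - 48 ≤ 12 * (T.card : ℝ) := by exact_mod_cast h3
  linarith

theorem exists_match {n m : ℕ} {x : Col m → Nd} (h : Sel n m x) {p : ℕ} (hp : p.Prime)
    (h5 : 5 ≤ p) : ∃ T σ, Mat (fun r => zz (x r) % (p : ℤ)) T σ ∧
      (2 * n - p / 12 - 4 : ℝ) ≤ T.card := by
  have h2 : ¬ 2 ∣ p := fun hd => by
    have := (Nat.prime_dvd_prime_iff_eq Nat.prime_two hp).1 hd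
    omega
  have h3 : ¬ 3 ∣ p := fun hd => by
    have := (Nat.prime_dvd_prime_iff_eq Nat.prime_three hp).1 hd
    omega
  have a1 : ∀ t i : ℤ, zz (true, i + t) - zz (false, i) = (12 * t + 1) * (24 * i + 12 * t + 5) := by
    intro t i
    simp only [zz, yy, if_true, Bool.false_eq_true, if_false]
    ring
  have a2 : ∀ t i : ℤ, zz (true, t - i) - zz (false, i) = (12 * t + 5) * (12 * t - 24 * i + 1) := by
    intro t i
    simp only [zz, yy, if_true, Bool.false_eq_true, if_false]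
    ring
  obtain ⟨t, ht⟩ : ∃ t : ℤ, 0 ≤ t ∧ ((p : ℤ) = 12 * t + 1 ∨ (p : ℤ) = 12 * t + 5 ∨
      (p : ℤ) = 12 * t + 7 ∨ (p : ℤ) = 12 * t + 11) := ⟨(p : ℤ) / 12, by omega⟩
  obtain ⟨t0, e | e | e | e⟩ := ht
  · refine fzmat_fin h (s := fun i => i + t) (add_left_injective t) (-n) (n - t)
      (fun i _ _ => by omega) (fun i => ?_) (by omega)
    rw [a1, e]
    exact dvd_mul_right _ _
  · refine fzmat_fin h (s := fun i => t - i) sub_right_injective (t - n + 1) n
      (fun i _ _ => by omega) (fun i => ?_) (by omega)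
    rw [a2, e]
    exact dvd_mul_right _ _
  · refine fzmat_fin h (s := fun i => (-t - 1) - i) sub_right_injective (-n) (n - t)
      (fun i _ _ => by omega) (fun i => ?_) (by omega)
    rw [a2, e]
    exact Dvd.dvd.mul_right ⟨-1, by ring⟩ _
  · refine fzmat_fin h (s := fun i => i + (-t - 1)) (add_left_injective _) (t + 1 - n) n
      (fun i _ _ => by omega) (fun i => ?_) (by omega)
    rw [a1, e]
    exact Dvd.dvd.mul_right ⟨-1, by ring⟩ _

end Pool.Agent.FMZ
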