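import Pool.Agent.P.MP_cb43af_nt.Fz0

open Finset Filter Polynomial
namespace Pool.Agent.FMZ

theorem fzcau_sq {m : ℕ} (v : Fin m → ℤ) :
    |∏ i, ∏ j ∈ univ.erase i, (v i - v j)| = |(Matrix.vandermonde v).det| ^ 2 := by
  have h := Finset.prod_prod_Ioi_mul_eq_prod_prod_off_diag (fun j i : Fin m => |v i - v j|)
  have e1 : |∏ i, ∏ j ∈ univ.erase i, (v i - v j)| = ∏ i, ∏ j ∈ ({i}ᶜ : Finset (Fin m)), |v i - v j| := by
    rw [Finset.abs_prod]
    refine prod_congr rfl fun i _ => ?_
    rw [Finset.abs_prod, compl_singleton]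
  rw [e1, ← h, Matrix.det_vandermonde, Finset.abs_prod, ← prod_pow]
  refine prod_congr rfl fun i _ => ?_
  rw [Finset.abs_prod, ← prod_pow]
  refine prod_congr rfl fun j _ => ?_
  rw [abs_sub_comm (v i), sq]

theorem fzcau_enum {ι : Type} [DecidableEq ι] {S : Finset ι} {m : ℕ} (h : S.card = m) :
    ∃ e : Fin m → ι, Function.Injective e ∧ univ.image e = S := by
  refine ⟨fun i => ((S.equivFinOfCardEq h).symm i).1,
    Subtype.val_injective.comp (Equiv.injective _), ?_⟩
  ext x
  simp only [mem_image, mem_univ, true_and]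
  exact ⟨fun ⟨i, hi⟩ => hi ▸ Subtype.prop _,
    fun hx => ⟨S.equivFinOfCardEq h ⟨x, hx⟩, by rw [Equiv.symm_apply_apply]⟩⟩

theorem fzcau_WW {ι : Type} [DecidableEq ι] (u : ι → ℤ) {m : ℕ} {e : Fin m → ι}
    (he : Function.Injective e) :
    |WW u (univ.image e)| = |(Matrix.vandermonde fun i => u (e i)).det| ^ 2 := by
  rw [← fzcau_sq, WW, prod_image fun _ _ _ _ h => he h]
  congr 1
  refine prod_congr rfl fun i _ => ?_
  rw [← image_erase he, prod_image fun _ _ _ _ h => he h]

theorem fzcau_det {m : ℕ} (v w : Fin m → ℤ) (hw : Function.Injective w) (hvw : ∀ i k, v i ≠ w k) :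
    |(Matrix.vandermonde v).det| * |(Matrix.vandermonde w).det| ≤
      (m.factorial : ℤ) * ∏ i, ∏ k, |v i - w k| := by
  set L : Fin m → ℤ[X] := fun j => ∏ k ∈ univ.erase j, (X - C (w k)) with hL
  have hd : ∀ j, (L j).degree < m := fun j => by
    have h1 : (L j).natDegree = m - 1 := by
      rw [hL]
      simp only
      rw [natDegree_prod_of_monic _ _ fun k _ => monic_X_sub_C _]
      simp only [natDegree_X_sub_C, sum_const, smul_eq_mul, mul_one]
      rw [card_erase_of_mem (mem_univ _), card_univ, Fintype.card_fin]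
    have h2 : m - 1 < m := Nat.sub_lt j.pos one_pos
    exact degree_le_natDegree.trans_lt (by rw [h1]; exact_mod_cast h2)
  have hev : ∀ x j, (L j).eval x = ∏ k ∈ univ.erase j, (x - w k) := fun x j => by
    rw [hL]
    simp only [eval_prod, eval_sub, eval_X, eval_C]
  have key : ∀ z : Fin m → ℤ, (Matrix.of fun i j => (L j).eval (z i)) =
      Matrix.vandermonde z * Matrix.of fun (i j : Fin m) => (L j).coeff i := fun z => by
    ext i j
    rw [Matrix.mul_apply, Matrix.of_apply, eval_eq_sum_range' (n := m)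
      ((natDegree_lt_iff_degree_lt (by
        rintro h0
        exact (monic_prod_of_monic _ _ fun k _ => monic_X_sub_C (w k)).ne_zero h0)).2 (hd j)),
      ← Fin.sum_univ_eq_sum_range (fun k => (L j).coeff k * z i ^ k)]
    exact sum_congr rfl fun k _ => by rw [Matrix.vandermonde_apply, Matrix.of_apply, mul_comm]
  have hdiag : (Matrix.of fun i j => (L j).eval (w i)) =
      Matrix.diagonal fun i => ∏ k ∈ univ.erase i, (w i - w k) := by
    ext i j
    rw [Matrix.of_apply, hev, Matrix.diagonal_apply]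
    split_ifs with h
    · rw [h]
    · exact prod_eq_zero (mem_erase.2 ⟨h, mem_univ _⟩) (sub_self _)
  have h1 := congrArg (fun M => |Matrix.det M|) (key w)
  have h2 := congrArg (fun M => |Matrix.det M|) (key v)
  simp only [hdiag, Matrix.det_diagonal, fzcau_sq, Matrix.det_mul, abs_mul] at h1 h2
  have h3 : |(Matrix.vandermonde w).det| ≠ 0 :=
    abs_ne_zero.2 (Matrix.det_vandermonde_ne_zero_iff.2 hw)
  rw [sq] at h1
  rw [mul_left_cancel₀ h3 h1, ← h2, Matrix.det_apply]
  refine (abs_sum_le_sum_abs _ _).trans ?_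
  refine (sum_le_card_nsmul _ _ (∏ i, ∏ k, |v i - w k|) fun σ _ => ?_).trans_eq ?_
  · rw [Units.smul_def, smul_eq_mul, abs_mul, Int.abs_eq_natAbs, Int.units_natAbs, Nat.cast_one,
      one_mul, Finset.abs_prod, ← Equiv.prod_comp σ fun i => ∏ k, |v i - w k|]
    refine prod_le_prod (fun _ _ => abs_nonneg _) fun j _ => ?_
    rw [Matrix.of_apply, hev, Finset.abs_prod, ← mul_prod_erase univ _ (mem_univ j)]
    exact le_mul_of_one_le_left (prod_nonneg fun _ _ => abs_nonneg _)
      (Int.one_le_abs (sub_ne_zero.2 (hvw _ _)))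
  · rw [card_univ, Fintype.card_perm, Fintype.card_fin, nsmul_eq_mul]

theorem fzcau_split {ι : Type} [Fintype ι] [DecidableEq ι] (u : ι → ℤ) (S : Finset ι) :
    |WW u univ| = |WW u S| * |WW u Sᶜ| * (∏ i ∈ S, ∏ k ∈ Sᶜ, |u i - u k|) ^ 2 := by
  have h : ∀ T : Finset ι, ∏ i ∈ T, ∏ j ∈ univ.erase i, |u i - u j| =
      |WW u T| * ∏ i ∈ T, ∏ k ∈ Tᶜ, |u i - u k| := fun T => by
    rw [WW, Finset.abs_prod, ← prod_mul_distrib]
    refine prod_congr rfl fun i hi => ?_
    rw [Finset.abs_prod, ← prod_union (disjoint_of_subset_left (erase_subset _ _) disjoint_compl_right)]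
    congr 1
    ext j
    simp only [mem_erase, mem_univ, and_true, mem_union, mem_compl]
    constructor
    · intro h
      by_cases hj : j ∈ T
      exacts [Or.inl ⟨h, hj⟩, Or.inr hj]
    · rintro (h | h)
      exacts [h.1, fun e => h (e ▸ hi)]
  have e : |WW u univ| = ∏ i, ∏ j ∈ univ.erase i, |u i - u j| := by
    rw [WW, Finset.abs_prod]
    exact prod_congr rfl fun i _ => Finset.abs_prod _ _
  have e2 : ∏ i ∈ Sᶜ, ∏ k ∈ S, |u i - u k| = ∏ i ∈ S, ∏ k ∈ Sᶜ, |u i - u k| := by
    rw [Finset.prod_comm]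
    exact prod_congr rfl fun i _ => prod_congr rfl fun k _ => abs_sub_comm _ _
  rw [e, ← prod_mul_prod_compl S, h, h, compl_compl, e2]
  ring

/-- the Cauchy determinant bound -/
theorem cauchy {ι : Type} [Fintype ι] [DecidableEq ι] {u : ι → ℤ} (hu : Function.Injective u)
    {S : Finset ι} {m : ℕ} (h1 : S.card = m) (h2 : Sᶜ.card = m) :
    |WW u S * WW u Sᶜ| ^ 2 ≤ (m.factorial : ℤ) ^ 2 * |WW u univ| := by
  obtain ⟨e, he, hS⟩ := fzcau_enum h1
  obtain ⟨e', he', hS'⟩ := fzcau_enum h2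
  have h3 := fzcau_det (fun i => u (e i)) (fun i => u (e' i)) (hu.comp he') fun i k h => by
    have a : e i ∈ S := hS ▸ mem_image_of_mem _ (mem_univ _)
    have b : e' k ∈ Sᶜ := hS' ▸ mem_image_of_mem _ (mem_univ _)
    exact mem_compl.1 b (hu h ▸ a)
  have h4 : ∏ i ∈ S, ∏ k ∈ Sᶜ, |u i - u k| = ∏ i, ∏ k, |u (e i) - u (e' k)| := by
    rw [← hS', ← hS, prod_image fun _ _ _ _ h => he h]
    exact prod_congr rfl fun i _ => prod_image fun _ _ _ _ h => he' h
  have h5 := fzcau_WW u he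
  have h6 := fzcau_WW u he'
  rw [hS] at h5
  rw [hS'] at h6
  rw [fzcau_split u S, h4, abs_mul, h5, h6]
  have h7 := pow_le_pow_left₀ (by positivity) h3 2
  generalize |(Matrix.vandermonde fun i => u (e i)).det| = A at *
  generalize |(Matrix.vandermonde fun i => u (e' i)).det| = B at *
  generalize ∏ i, ∏ k, |u (e i) - u (e' k)| = R at *
  have h8 := mul_le_mul_of_nonneg_left h7 (by positivity : 0 ≤ A ^ 2 * B ^ 2)
  nlinarith [h8]

end Pool.Agent.FMZ
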