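import Pool.Agent.P.MP_cb43af_nt.FzExp
import Pool.Agent.P.MP_cb43af_nt.FzCau
import Pool.Agent.P.MP_cb43af_nt.FzNode

open Finset Filter Polynomial
namespace Pool.Agent.FMZ

theorem fzreal_cast {m : ℕ} (z : Col m → ℤ) (S : Finset (Col m)) :
    DS m (fun r => (z r : ℚ)) (fun _ => 0) S = ((DS m z (fun _ => 0) S : ℤ) : ℚ) := by
  have := DS_map (Int.castRingHom ℚ) z (fun _ => 0) S
  simp only [eq_intCast, Int.cast_zero] at this
  exact this.symm

theorem fzreal_ds {m : ℕ} {z : Col m → ℤ} (hz : Function.Injective z) {S : Finset (Col m)}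
    (h : S.card = m) :
    |DS m (fun r => (z r : ℚ)) (fun _ => 0) S| ^ 4 ≤
      (m.factorial : ℚ) ^ 2 * |((WW z univ : ℤ) : ℚ)| := by
  have h2 : Sᶜ.card = m := by
    rw [Finset.card_compl, h]; simp
  have h3 := cauchy hz h h2
  rw [← DS_zero_sq z h] at h3
  have h4 : |DS m z (fun _ => 0) S| ^ 4 ≤ (m.factorial : ℤ) ^ 2 * |WW z univ| := by
    have : |DS m z (fun _ => 0) S| ^ 4 = (DS m z (fun _ => 0) S ^ 2) ^ 2 := by
      rw [← sq_abs (DS m z (fun _ => 0) S)]; ring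
    rw [this]; exact h3
  rw [fzreal_cast]
  exact_mod_cast h4

theorem fzreal_term {m : ℕ} {z : Col m → ℤ} (hz : Function.Injective z) {g : Col m → ℚ} {B : ℚ}
    (hB : 0 ≤ B) (hg : ∀ r, |g r| ≤ B) (S : Finset (Col m)) :
    |(∏ r ∈ S, (g r - 0)) * DS m (fun r => (z r : ℚ)) (fun _ => 0) S| ^ 4 ≤
      (B ^ m) ^ 4 * ((m.factorial : ℚ) ^ 2 * |((WW z univ : ℤ) : ℚ)|) := by
  by_cases h : S.card = m
  · rw [abs_mul, mul_pow]
    apply mul_le_mul _ (fzreal_ds hz h) (by positivity) (by positivity)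
    apply pow_le_pow_left₀ (abs_nonneg _)
    have hc : B ^ m = ∏ _r ∈ S, B := by rw [Finset.prod_const, h]
    rw [Finset.abs_prod, hc]
    apply Finset.prod_le_prod (fun _ _ => abs_nonneg _)
    intro r _
    rw [sub_zero]; exact hg r
  · rw [DS_zero_card _ h]
    simp only [mul_zero, abs_zero]
    rw [zero_pow (by norm_num)]
    positivity

theorem real_explicit {a b : ℤ} {f : Nd → ℚ} (h : Ch a b f) {n m : ℕ} {x : Col m → Nd}
    (hx : Sel n m x) :
    |qq m f x| ≤ (4 ^ m * (|(a : ℚ)| + |(b : ℚ)| * n) ^ m) ^ 4 * (m.factorial : ℚ) ^ 2 := by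
  have hB : (0 : ℚ) ≤ |(a : ℚ)| + |(b : ℚ)| * n := by positivity
  set B := |(a : ℚ)| + |(b : ℚ)| * n with hBdef
  set W : ℚ := ((WW (fun r => zz (x r)) univ : ℤ) : ℚ) with hW
  let t : Finset (Col m) → ℚ := fun S =>
    (∏ r ∈ S, (f (x r) - 0)) * DS m (fun r => (zz (x r) : ℚ)) (fun _ => 0) S
  have hD : DD m f x = ∑ S, t S := det_expand _ _ (fun _ => 0)
  obtain ⟨S0, -, hS0⟩ := Finset.exists_max_image (univ : Finset (Finset (Col m)))
    (fun S => |t S|) univ_nonempty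
  have h1 : |DD m f x| ≤ 4 ^ m * |t S0| := by
    rw [hD]
    refine (Finset.abs_sum_le_sum_abs _ _).trans ?_
    refine (Finset.sum_le_card_nsmul _ _ _ hS0).trans (le_of_eq ?_)
    rw [nsmul_eq_mul, Finset.card_univ, Fintype.card_finset]
    simp only [Fintype.card_sum, Fintype.card_fin]
    push_cast
    rw [pow_add, ← mul_pow]; norm_num
  have h2 : |t S0| ^ 4 ≤ (B ^ m) ^ 4 * ((m.factorial : ℚ) ^ 2 * |W|) :=
    fzreal_term hx.zinj hB (fun r => ch_abs h (hx.mem r)) S0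
  have h3 : |DD m f x| ^ 4 ≤ (4 ^ m * B ^ m) ^ 4 * (m.factorial : ℚ) ^ 2 * |W| := by
    calc |DD m f x| ^ 4 ≤ (4 ^ m * |t S0|) ^ 4 := pow_le_pow_left₀ (abs_nonneg _) h1 4
      _ = (4 ^ m) ^ 4 * |t S0| ^ 4 := mul_pow _ _ _
      _ ≤ (4 ^ m) ^ 4 * ((B ^ m) ^ 4 * ((m.factorial : ℚ) ^ 2 * |W|)) :=
        mul_le_mul_of_nonneg_left h2 (by positivity)
      _ = _ := by ring
  have hq : qq m f x = DD m f x ^ 4 / W := rfl
  rw [hq, abs_div, abs_pow]
  exact div_le_of_le_mul₀ (abs_nonneg _) (by positivity) h3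

theorem fzreal_pow {C : ℝ} (hC : 1 ≤ C) {n m : ℕ} (hn : 1 ≤ n) (hm : m ≤ 2 * n) {B : ℝ}
    (hB0 : 0 ≤ B) (hB : B ≤ C * n) :
    (4 ^ m * B ^ m) ^ 4 * (m.factorial : ℝ) ^ 2 ≤ (4 * C * n) ^ (12 * n) := by
  have hn' : (1 : ℝ) ≤ n := by exact_mod_cast hn
  have hm' : (m : ℝ) ≤ 2 * n := by exact_mod_cast hm
  have hCn : (n : ℝ) ≤ C * n := by nlinarith
  have h1 : (1 : ℝ) ≤ 4 * C * n := by nlinarith
  have h2 : (4 : ℝ) ^ m * B ^ m ≤ (4 * C * n) ^ m := by
    rw [← mul_pow]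
    exact pow_le_pow_left₀ (by positivity) (by nlinarith) m
  have h3 : (m.factorial : ℝ) ≤ (4 * C * n) ^ m := by
    have : (m.factorial : ℝ) ≤ (m : ℝ) ^ m := by exact_mod_cast Nat.factorial_le_pow m
    exact this.trans (pow_le_pow_left₀ (by positivity) (by nlinarith) m)
  calc (4 ^ m * B ^ m) ^ 4 * (m.factorial : ℝ) ^ 2
      ≤ ((4 * C * n) ^ m) ^ 4 * ((4 * C * n) ^ m) ^ 2 :=
        mul_le_mul (pow_le_pow_left₀ (by positivity) h2 4)
          (pow_le_pow_left₀ (by positivity) h3 2) (by positivity) (by positivity)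
    _ = (4 * C * n) ^ (6 * m) := by ring
    _ ≤ _ := pow_le_pow_right₀ h1 (by omega)

theorem real_bound {a b : ℤ} {f : Nd → ℚ} (h : Ch a b f) {ε : ℝ} (hε : 0 < ε) :
    ∀ᶠ n : ℕ in atTop, ∀ m x, Sel n m x → DD m f x ≠ 0 →
      Real.log |(qq m f x : ℝ)| ≤ ε * n ^ 2 := by
  set C : ℝ := |(a : ℝ)| + |(b : ℝ)| + 1 with hC
  have ha : 0 ≤ |(a : ℝ)| := abs_nonneg _
  have hb : 0 ≤ |(b : ℝ)| := abs_nonneg _
  have hC1 : 1 ≤ C := by linarith
  have hC0 : 0 < C := by linarith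
  have ht : Tendsto (fun n : ℕ => 4 * C * (n : ℝ)) atTop atTop :=
    tendsto_natCast_atTop_atTop.const_mul_atTop (by positivity)
  have hl := ht.eventually (Real.isLittleO_log_id_atTop.bound (c := ε / (48 * C)) (by positivity))
  filter_upwards [hl, eventually_ge_atTop 1] with n hn hn1 m x hx _
  have hn' : (1 : ℝ) ≤ n := by exact_mod_cast hn1
  have hpos : 0 < 4 * C * (n : ℝ) := by positivity
  simp only [id, Real.norm_eq_abs] at hn
  rw [abs_of_pos hpos] at hn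
  have hlog : Real.log (4 * C * n) ≤ ε / (48 * C) * (4 * C * n) := (le_abs_self _).trans hn
  have he : |(qq m f x : ℝ)| ≤
      (4 ^ m * (|(a : ℝ)| + |(b : ℝ)| * n) ^ m) ^ 4 * (m.factorial : ℝ) ^ 2 := by
    have := (Rat.cast_le (K := ℝ)).2 (real_explicit h hx)
    push_cast at this
    exact this
  have hm : m ≤ 2 * n := by have := hx.hm; omega
  have he2 := he.trans (fzreal_pow hC1 hn1 hm (by positivity) (by rw [hC]; nlinarith))
  rcases (abs_nonneg (qq m f x : ℝ)).eq_or_lt with h0 | h0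
  · rw [← h0, Real.log_zero]; positivity
  · calc Real.log |(qq m f x : ℝ)| ≤ Real.log ((4 * C * n) ^ (12 * n)) := Real.log_le_log h0 he2
      _ = 12 * n * Real.log (4 * C * n) := by rw [Real.log_pow]; push_cast; ring
      _ ≤ 12 * n * (ε / (48 * C) * (4 * C * n)) := mul_le_mul_of_nonneg_left hlog (by positivity)
      _ = ε * n ^ 2 := by field_simp; ring

end Pool.Agent.FMZ
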