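import Pool.Agent.P.MP_cb43af_nt.Fv0
import Pool.Agent.P.MP_cb43af_nt.FzReal

open Finset Filter Polynomial Topology
namespace Pool.Agent.FMZ

variable {a b c : ℤ} {f : Nd → ℚ}

theorem exists_ch5 (a b c : ℤ) : ∃ f, Ch5 a b c f := by
  let g : Bool → ℤ → ℚ := fun e i => inc b c ((yy (e, i) : ℚ) + 6)
  refine ⟨fun x => (if x.1 then (a : ℚ) else 0) + ∑ j ∈ range x.2.toNat, g x.1 j -
    ∑ j ∈ range (-x.2).toNat, g x.1 (-1 - j), by simp, by simp, fun e i => ?_⟩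
  show _ = _ + g e i
  rcases le_or_gt 0 i with hi | hi
  · obtain ⟨k, rfl⟩ := Int.eq_ofNat_of_zero_le hi
    have e1 : ((k : ℤ) + 1).toNat = k + 1 := by omega
    have e2 : (-((k : ℤ) + 1)).toNat = 0 := by omega
    have e3 : (-(k : ℤ)).toNat = 0 := by omega
    simp only [e1, e2, e3, Int.toNat_natCast, sum_range_succ, range_zero, sum_empty]
    ring
  · obtain ⟨k, rfl⟩ : ∃ k : ℕ, i = -1 - k := ⟨(-1 - i).toNat, by omega⟩
    have e1 : (-1 - (k : ℤ) + 1).toNat = 0 := by omega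
    have e2 : (-(-1 - (k : ℤ) + 1)).toNat = k := by omega
    have e3 : (-(-1 - (k : ℤ))).toNat = k + 1 := by omega
    have e4 : (-1 - (k : ℤ)).toNat = 0 := by omega
    simp only [e1, e2, e3, e4, sum_range_succ, range_zero, sum_empty]
    ring

theorem fvnode_abs (b c : ℤ) (x : Nd) :
    |inc b c ((yy x : ℚ) + 6)| ≤ |(b : ℚ)| + |(c : ℚ)| := by
  have h1 : (1 : ℚ) ≤ |(yy x : ℚ) + 6| := by
    rw [fznode_cast]
    exact_mod_cast Int.one_le_abs (yy_link_ne x)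
  refine (abs_add_le _ _).trans (add_le_add (fznode_abs b x) ?_)
  rw [abs_div, abs_pow]
  exact div_le_self (abs_nonneg _) (one_le_pow₀ h1)

theorem fvnode_down (h : Ch5 a b c f) (e : Bool) (i : ℤ) :
    f (e, i - 1) = f (e, i) - inc b c ((yy (e, i - 1) : ℚ) + 6) := by
  have := h.step e (i - 1)
  rw [sub_add_cancel] at this
  rw [this, add_sub_cancel_right]

theorem ch_abs5 (h : Ch5 a b c f) {n : ℕ} {x : Nd} (hx : x ∈ nodes n) :
    |f x| ≤ |(a : ℚ)| + (|(b : ℚ)| + |(c : ℚ)|) * n := by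
  obtain ⟨e, i⟩ := x
  have key : ∀ i : ℤ, |f (e, i)| ≤ |(a : ℚ)| + (|(b : ℚ)| + |(c : ℚ)|) * |(i : ℚ)| := by
    intro i
    induction i using Int.induction_on with
    | zero => cases e <;> simp [h.zA, h.zB]
    | succ k ih =>
      have h1 := fvnode_abs b c (e, k)
      have h2 := abs_add_le (f (e, k)) (inc b c ((yy (e, k) : ℚ) + 6))
      rw [h.step]
      push_cast at ih ⊢
      rw [abs_of_nonneg (by positivity : (0 : ℚ) ≤ k)] at ih
      rw [abs_of_nonneg (by positivity : (0 : ℚ) ≤ k + 1)]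
      linarith
    | pred k ih =>
      have h1 := fvnode_abs b c (e, -(k : ℤ) - 1)
      have h2 := abs_sub (f (e, -(k : ℤ))) (inc b c ((yy (e, -(k : ℤ) - 1) : ℚ) + 6))
      have h3 : (0 : ℚ) ≤ k := by positivity
      rw [fvnode_down h]
      push_cast at ih ⊢
      rw [abs_neg, abs_of_nonneg h3] at ih
      rw [abs_of_nonpos (by linarith : -(k : ℚ) - 1 ≤ 0)]
      linarith
  obtain ⟨h1, h2⟩ := mem_nodes.1 hx
  have h3 : |(i : ℚ)| ≤ n := by
    have : |i| ≤ (n : ℤ) := abs_le.2 ⟨h1, h2.le⟩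
    exact_mod_cast this
  exact (key i).trans (add_le_add le_rfl (mul_le_mul_of_nonneg_left h3 (by positivity)))

theorem fvnode_five (p : ℕ) [hp : Fact p.Prime] (c : ℤ) {l : ℤ} {L : ℕ} (h0 : l ≠ 0)
    (h1 : |l| < (p : ℤ) ^ (L + 1)) : padicNorm p ((c : ℚ) / (l : ℚ) ^ 5) ≤ (p : ℚ) ^ (5 * L) := by
  have hp1 : (1 : ℚ) ≤ p := by exact_mod_cast hp.out.one_le
  have h2 : padicValInt p l ≤ L := by
    by_contra h3
    have h4 : (p : ℤ) ^ (L + 1) ∣ l := (padicValInt_dvd_iff _ _).2 (Or.inr (by omega))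
    exact absurd (Int.le_of_dvd (abs_pos.2 h0) ((dvd_abs _ _).2 h4)) (not_le.2 h1)
  have h3 : padicNorm p ((l : ℚ) ^ 5) = ((p : ℚ) ^ (5 * padicValInt p l))⁻¹ := by
    have h4 : (l : ℚ) ≠ 0 := by exact_mod_cast h0
    rw [padicNorm.eq_zpow_of_nonzero (pow_ne_zero 5 h4), padicValRat.pow, padicValRat.of_int,
      zpow_neg, ← zpow_natCast]
    push_cast
    rfl
  rw [padicNorm.div, h3, div_inv_eq_mul]
  calc padicNorm p (c : ℚ) * (p : ℚ) ^ (5 * padicValInt p l)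
      ≤ 1 * (p : ℚ) ^ (5 * L) := by
        refine mul_le_mul (padicNorm.of_int c) (pow_le_pow_right₀ hp1 (by omega)) (by positivity)
          zero_le_one
    _ = _ := one_mul _

theorem fvnode_norm (p : ℕ) [hp : Fact p.Prime] (b c : ℤ) {l : ℤ} {L : ℕ} (h0 : l ≠ 0)
    (h1 : |l| < (p : ℤ) ^ (L + 1)) : padicNorm p (inc b c (l : ℚ)) ≤ (p : ℚ) ^ (5 * L) := by
  have hp1 : (1 : ℚ) ≤ p := by exact_mod_cast hp.out.one_le
  exact padicNorm.nonarchimedean.trans (max_le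
    ((fznode_norm p b h0 h1).trans (pow_le_pow_right₀ hp1 (by omega))) (fvnode_five p c h0 h1))

theorem ch_norm5 (h : Ch5 a b c f) (p : ℕ) [Fact p.Prime] {n L : ℕ}
    (hL : 12 * n ≤ p ^ (L + 1)) {x : Nd} (hx : x ∈ nodes n) :
    padicNorm p (f x) ≤ (p : ℚ) ^ (5 * L) := by
  obtain ⟨e, i⟩ := x
  have hp1 : (1 : ℚ) ≤ p := by exact_mod_cast (Fact.out : p.Prime).one_le
  have hL' : (12 * n : ℤ) ≤ (p : ℤ) ^ (L + 1) := by exact_mod_cast hL
  have hs : ∀ j : ℤ, -(n : ℤ) ≤ j → j + 1 < n ∨ j < 0 →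
      padicNorm p (inc b c ((yy (e, j) : ℚ) + 6)) ≤ (p : ℚ) ^ (5 * L) := by
    intro j h1 h2
    rw [fznode_cast]
    refine fvnode_norm p b c (yy_link_ne _) (lt_of_lt_of_le ?_ hL')
    rw [abs_lt, yy]
    split_ifs <;> omega
  have key : ∀ i : ℤ, -(n : ℤ) ≤ i → i < n → padicNorm p (f (e, i)) ≤ (p : ℚ) ^ (5 * L) := by
    intro i
    induction i using Int.induction_on with
    | zero =>
      intro _ _
      cases e
      · rw [h.zA, padicNorm.zero]; positivity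
      · rw [h.zB]; exact (padicNorm.of_int a).trans (one_le_pow₀ hp1)
    | succ k ih =>
      intro h1 h2
      rw [h.step]
      exact padicNorm.nonarchimedean.trans
        (max_le (ih (by omega) (by omega)) (hs k (by omega) (Or.inl h2)))
    | pred k ih =>
      intro h1 h2
      rw [fvnode_down h]
      exact padicNorm.sub.trans
        (max_le (ih (by omega) (by omega)) (hs _ h1 (Or.inr (by omega))))
  exact key i (mem_nodes.1 hx).1 (mem_nodes.1 hx).2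

theorem fvnode_explicit {f : Nd → ℚ} {B : ℚ} (hB : 0 ≤ B) {n m : ℕ} {x : Col m → Nd}
    (hx : Sel n m x) (hf : ∀ r, |f (x r)| ≤ B) :
    |qq m f x| ≤ (4 ^ m * B ^ m) ^ 4 * (m.factorial : ℚ) ^ 2 := by
  set W : ℚ := ((WW (fun r => zz (x r)) univ : ℤ) : ℚ) with hW
  let t : Finset (Col m) → ℚ := fun S =>
    (∏ r ∈ S, (f (x r) - 0)) * DS m (fun r => (zz (x r) : ℚ)) (fun _ => 0) S
  have hD : DD m f x = ∑ S, t S := det_expand _ _ (fun _ => 0)
  obtain ⟨S0, -, hS0⟩ := Finset.exists_max_image (univ : Finset (Finset (Col m)))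
    (fun S => |t S|) univ_nonempty
  have h1 : |DD m f x| ≤ 4 ^ m * |t S0| := by
    rw [hD]
    refine (Finset.abs_sum_le_sum_abs _ _).trans ?_
    refine (Finset.sum_le_card_nsmul _ _ _ hS0).trans (le_of_eq ?_)
    rw [nsmul_eq_mul, Finset.card_univ, Fintype.card_finset]
    simp only [Fintype.card_sum, Fintype.card_fin]
    push_cast
    rw [pow_add, ← mul_pow]; norm_num
  have h2 : |t S0| ^ 4 ≤ (B ^ m) ^ 4 * ((m.factorial : ℚ) ^ 2 * |W|) :=
    fzreal_term hx.zinj hB hf S0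
  have h3 : |DD m f x| ^ 4 ≤ (4 ^ m * B ^ m) ^ 4 * (m.factorial : ℚ) ^ 2 * |W| := by
    calc |DD m f x| ^ 4 ≤ (4 ^ m * |t S0|) ^ 4 := pow_le_pow_left₀ (abs_nonneg _) h1 4
      _ = (4 ^ m) ^ 4 * |t S0| ^ 4 := mul_pow _ _ _
      _ ≤ (4 ^ m) ^ 4 * ((B ^ m) ^ 4 * ((m.factorial : ℚ) ^ 2 * |W|)) :=
        mul_le_mul_of_nonneg_left h2 (by positivity)
      _ = _ := by ring
  have hq : qq m f x = DD m f x ^ 4 / W := rfl
  rw [hq, abs_div, abs_pow]
  exact div_le_of_le_mul₀ (abs_nonneg _) (by positivity) h3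

theorem real_bound5 (h : Ch5 a b c f) {ε : ℝ} (hε : 0 < ε) :
    ∀ᶠ n : ℕ in atTop, ∀ m x, Sel n m x → Real.log |(qq m f x : ℝ)| ≤ ε * n ^ 2 := by
  set C : ℝ := |(a : ℝ)| + (|(b : ℝ)| + |(c : ℝ)|) + 1 with hC
  have ha : 0 ≤ |(a : ℝ)| := abs_nonneg _
  have hb : 0 ≤ |(b : ℝ)| + |(c : ℝ)| := by positivity
  have hC1 : 1 ≤ C := by linarith
  have hC0 : 0 < C := by linarith
  have ht : Tendsto (fun n : ℕ => 4 * C * (n : ℝ)) atTop atTop :=
    tendsto_natCast_atTop_atTop.const_mul_atTop (by positivity)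
  have hl := ht.eventually (Real.isLittleO_log_id_atTop.bound (c := ε / (48 * C)) (by positivity))
  filter_upwards [hl, eventually_ge_atTop 1] with n hn hn1 m x hx
  have hn' : (1 : ℝ) ≤ n := by exact_mod_cast hn1
  have hpos : 0 < 4 * C * (n : ℝ) := by positivity
  simp only [id, Real.norm_eq_abs] at hn
  rw [abs_of_pos hpos] at hn
  have hlog : Real.log (4 * C * n) ≤ ε / (48 * C) * (4 * C * n) := (le_abs_self _).trans hn
  have he : |(qq m f x : ℝ)| ≤
      (4 ^ m * (|(a : ℝ)| + (|(b : ℝ)| + |(c : ℝ)|) * n) ^ m) ^ 4 * (m.factorial : ℝ) ^ 2 := by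
    have := (Rat.cast_le (K := ℝ)).2
      (fvnode_explicit (by positivity) hx fun r => ch_abs5 h (hx.mem r))
    push_cast at this
    exact this
  have hm : m ≤ 2 * n := by have := hx.hm; omega
  have he2 := he.trans (fzreal_pow hC1 hn1 hm (by positivity) (by rw [hC]; nlinarith))
  rcases (abs_nonneg (qq m f x : ℝ)).eq_or_lt with h0 | h0
  · rw [← h0, Real.log_zero]; positivity
  · calc Real.log |(qq m f x : ℝ)| ≤ Real.log ((4 * C * n) ^ (12 * n)) := Real.log_le_log h0 he2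
      _ = 12 * n * Real.log (4 * C * n) := by rw [Real.log_pow]; push_cast; ring
      _ ≤ 12 * n * (ε / (48 * C) * (4 * C * n)) := mul_le_mul_of_nonneg_left hlog (by positivity)
      _ = ε * n ^ 2 := by field_simp; ring

end Pool.Agent.FMZ
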