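import Pool.Agent.P.MP_cb43af_nt.FvAp
import Pool.Agent.P.MP_cb43af_nt.FzCau
import Pool.Agent.P.MP_cb43af_nt.FzTwoA

open Finset Filter Polynomial Topology
namespace Pool.Agent.FMZ

variable {n m : ℕ} {x : Col m → Nd}

theorem fvwb_sf (p : ℕ) [Fact p.Prime] {L : ℕ} (N : ℕ) (h : N < p ^ (L + 1)) :
    (N + 1) * N ≤ (p - 1) * (2 * padicValNat p N.superFactorial + 2 * N * (L + 1)) := by
  induction N with
  | zero => simp
  | succ N ih =>
    have h1 := ih (by omega)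
    have h2 := fact_val p h
    have h3 : N.superFactorial ≠ 0 := by
      rw [← Nat.prod_range_succ_factorial]
      exact prod_ne_zero_iff.2 fun i _ => Nat.factorial_ne_zero _
    rw [Nat.superFactorial_succ, padicValNat.mul (Nat.factorial_ne_zero _) h3]
    nlinarith [h1, h2]

theorem ww_low {ι : Type} [DecidableEq ι] (p : ℕ) [Fact p.Prime] {u : ι → ℤ} (S : Finset ι)
    (hu : Set.InjOn u S) {L : ℕ} (hL : S.card ≤ p ^ (L + 1)) :
    S.card * (S.card - 1) ≤ (p - 1) * (padicValInt p (WW u S) + 2 * S.card * (L + 1)) := by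
  rcases hk : S.card with _ | N
  · simp
  obtain ⟨e, he, hS⟩ := fzcau_enum hk
  have hm : ∀ i, e i ∈ S := fun i => hS ▸ mem_image_of_mem _ (mem_univ _)
  have h1 := fzcau_WW u he
  rw [hS] at h1
  have h2 : (Matrix.vandermonde fun i => u (e i)).det ≠ 0 :=
    Matrix.det_vandermonde_ne_zero_iff.2 fun i j h => he (hu (hm i) (hm j) h)
  have h3 : WW u S ≠ 0 := by
    rw [← abs_ne_zero, h1]
    exact pow_ne_zero _ (abs_ne_zero.2 h2)
  have h4 : (p : ℤ) ^ padicValNat p N.superFactorial ∣ (Matrix.vandermonde fun i => u (e i)).det :=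
    dvd_trans (by exact_mod_cast pow_padicValNat_dvd)
      (Matrix.superFactorial_dvd_vandermonde_det fun i => u (e i))
  have h5 : (p : ℤ) ^ (2 * padicValNat p N.superFactorial) ∣ WW u S := by
    rw [← dvd_abs, h1, sq_abs, mul_comm, pow_mul]
    exact pow_dvd_pow_of_dvd h4 2
  have h6 := ((padicValInt_dvd_iff _ _).1 h5).resolve_left h3
  refine (fvwb_sf p (L := L) N (by omega)).trans (Nat.mul_le_mul_left _ ?_)
  have : 2 * N * (L + 1) ≤ 2 * (N + 1) * (L + 1) := Nat.mul_le_mul_right _ (by omega)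
  omega

theorem fvwb_cmp {ι : Type} [DecidableEq ι] (p : ℕ) [Fact p.Prime] {u z : ι → ℤ} (S : Finset ι)
    (hz : Function.Injective z) (a : ℕ)
    (h : ∀ i ∈ S, ∀ j ∈ S, (p : ℤ) ^ a * (u i - u j) ∣ z i - z j) :
    a * (S.card * (S.card - 1)) + padicValInt p (WW u S) ≤ padicValInt p (WW z S) := by
  have h1 : ∏ i ∈ S, ∏ j ∈ S.erase i, ((p : ℤ) ^ a * (u i - u j)) ∣ WW z S :=
    prod_dvd_prod_of_dvd _ _ fun i hi => prod_dvd_prod_of_dvd _ _ fun j hj =>
      h i hi j (mem_of_mem_erase hj)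
  have h2 : ∏ i ∈ S, ∏ j ∈ S.erase i, ((p : ℤ) ^ a * (u i - u j)) =
      (p : ℤ) ^ (a * (S.card * (S.card - 1))) * WW u S := by
    rw [prod_congr rfl fun i hi => by rw [prod_mul_distrib, prod_const, card_erase_of_mem hi],
      prod_mul_distrib, prod_const, ← pow_mul, ← pow_mul, mul_comm (S.card - 1)]
    rfl
  rw [h2] at h1
  refine ((padicValInt_dvd_iff _ _).1 (dvd_trans ?_ h1)).resolve_left (WW_ne_zero hz S)
  rw [pow_add]
  exact mul_dvd_mul_left _ (padicValInt_dvd _)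

theorem w_good (h : Sel n m x) {p ρ σ : ℕ} {e : Bool} (hG : Gd p e ρ σ) {L k : ℕ}
    (hk : (chn x e).card = k) (hL : 2 * n ≤ p ^ (L + 1)) :
    σ * (k * (k - 1)) ≤ 2 * padicValInt p (WW (fun r => zz (x r)) (chn x e)) + 4 * k * (L + 1) := by
  have hc : (chn x e).card ≤ p ^ (L + 1) := (fztwoa_card h e).trans hL
  rcases hG with ⟨rfl, rfl, rfl, rfl⟩ | ⟨rfl, rfl, rfl, rfl⟩
  · have h1 := ww_low 2 (chn x true) (fztwoa_inj h true) hc
    have h2 := fvwb_cmp 2 (u := fun r => (x r).2) (chn x true) h.zinj 3 fun i hi j hj =>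
      ⟨9 * (2 * ((x i).2 + (x j).2) + 1), by
        simp only [zz, yy, (mem_filter.1 hi).2, (mem_filter.1 hj).2, if_true]; push_cast; ring⟩
    rw [hk] at h1 h2
    have e : 4 * k * (L + 1) = 2 * (2 * k * (L + 1)) := by ring
    omega
  · have h1 := ww_low 3 (chn x false) (fztwoa_inj h false) hc
    have h2 := fvwb_cmp 3 (u := fun r => (x r).2) (chn x false) h.zinj 1 fun i hi j hj =>
      ⟨16 * (3 * ((x i).2 + (x j).2) + 1), by
        simp only [zz, yy, (mem_filter.1 hi).2, (mem_filter.1 hj).2, Bool.false_eq_true, if_false]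
        push_cast; ring⟩
    rw [hk] at h1 h2
    have e : 4 * k * (L + 1) = 2 * (2 * k * (L + 1)) := by ring
    omega

theorem fvwb_le (p : ℕ) [Fact p.Prime] {z : ℤ} {L : ℕ} (hz : z ≠ 0) (h : |z| < (p : ℤ) ^ (L + 1)) :
    padicValInt p z ≤ L := by
  by_contra hc
  have h1 : (p : ℤ) ^ (L + 1) ∣ z := (padicValInt_dvd_iff _ _).2 (Or.inr (by omega))
  exact absurd (Int.le_of_dvd (abs_pos.2 hz) ((dvd_abs _ _).2 h1)) h.not_ge

theorem w_crude (h : Sel n m x) (p : ℕ) [Fact p.Prime] (e : Bool) {L : ℕ}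
    (hL : 24 * n ≤ p ^ (L + 1)) :
    padicValInt p (WW (fun r => zz (x r)) (chn x e)) ≤ 8 * L * n ^ 2 := by
  have hL' : 24 * (n : ℤ) ≤ (p : ℤ) ^ (L + 1) := by exact_mod_cast hL
  have hc : (chn x e).card ≤ 2 * n := fztwoa_card h e
  have h1 : ∀ i, ∀ j ∈ (chn x e).erase i, zz (x i) - zz (x j) ≠ 0 := fun i j hj =>
    sub_ne_zero.2 fun k => (mem_erase.1 hj).1 (h.zinj k).symm
  rw [WW, valInt_prod p _ _ fun i _ => prod_ne_zero_iff.2 (h1 i)]
  have key : ∀ i ∈ chn x e, padicValInt p (∏ j ∈ (chn x e).erase i, (zz (x i) - zz (x j))) ≤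
      2 * n * (2 * L) := by
    intro i _
    rw [valInt_prod p _ _ (h1 i)]
    refine (sum_le_card_nsmul _ _ (2 * L) fun j hj => ?_).trans
      (Nat.mul_le_mul_right _ (card_erase_le.trans hc))
    have h2 := h1 i j hj
    rw [zz_sub] at h2 ⊢
    have a1 := abs_lt.1 (yy_lt (h.mem i))
    have a2 := abs_lt.1 (yy_lt (h.mem j))
    have b1 := fvwb_le p (L := L) (left_ne_zero_of_mul h2) (abs_lt.2 ⟨by omega, by omega⟩)
    have b2 := fvwb_le p (L := L) (right_ne_zero_of_mul h2) (abs_lt.2 ⟨by omega, by omega⟩)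
    rw [padicValInt.mul (left_ne_zero_of_mul h2) (right_ne_zero_of_mul h2)]
    omega
  refine (sum_le_card_nsmul _ _ _ key).trans ((Nat.mul_le_mul_right _ hc).trans (le_of_eq ?_))
  ring

end Pool.Agent.FMZ
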