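import Pool.Agent.P.MP_cb43af_nt.FvApp
import Pool.Agent.P.MP_cb43af_nt.FvEx
import Pool.Agent.P.MP_cb43af_nt.FvWb
import Pool.Agent.P.MP_cb43af_nt.FvNode
import Pool.Agent.P.MP_cb43af_nt.FzTriv
import Pool.Agent.P.MP_cb43af_nt.FzTwoA

open Finset Filter Polynomial Topology
namespace Pool.Agent.FMZ

theorem fvlim_prod (p : ℕ) [Fact p.Prime] {α : Type} (s : Finset α) (F : α → ℚ) {t : ℚ}
    (ht : 0 ≤ t) (h : ∀ i ∈ s, padicNorm p (F i) ≤ t) :
    padicNorm p (∏ i ∈ s, F i) ≤ t ^ s.card := by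
  classical
  induction s using Finset.induction_on with
  | empty => simp
  | insert a s ha ih =>
    rw [prod_insert ha, padicNorm.mul, card_insert_of_notMem ha, pow_succ']
    exact mul_le_mul (h a (mem_insert_self _ _)) (ih fun i hi => h i (mem_insert_of_mem hi))
      (padicNorm.nonneg _) ht

theorem fvlim_det (p : ℕ) [Fact p.Prime] {ι : Type} [Fintype ι] [DecidableEq ι]
    (M : Matrix ι ι ℚ) {t : ℚ} (ht : 0 ≤ t)
    (h : ∀ i j, padicNorm p (M i j) ≤ t) : padicNorm p M.det ≤ t ^ Fintype.card ι := by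
  rw [Matrix.det_apply']
  refine padicNorm.sum_le' (fun σ _ => ?_) (pow_nonneg ht _)
  rw [padicNorm.mul]
  exact (mul_le_of_le_one_left (padicNorm.nonneg _) (padicNorm.of_int _)).trans
    (fvlim_prod p univ _ ht fun i _ => h _ _)

theorem fvlim_rowv (p : ℕ) [Fact p.Prime] {m : ℕ} (z : ℤ) {s u t : ℚ} (hs : padicNorm p s ≤ t)
    (hu : padicNorm p u ≤ t) (c : Col m) : padicNorm p (rowv m (z : ℚ) s u c) ≤ t := by
  have e : ∀ (v : ℚ) (k : ℕ), padicNorm p v ≤ t → padicNorm p (v * (z : ℚ) ^ k) ≤ t := by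
    intro v k hv
    rw [padicNorm.mul, ← Int.cast_pow]
    exact (mul_le_of_le_one_right (padicNorm.nonneg _) (padicNorm.of_int _)).trans hv
  rcases c with k | k
  · exact e s k hs
  · exact e u k hu

theorem fvlim_card {n m : ℕ} {x : Col m → Nd} (h : Sel n m x) (e : Bool) :
    (chn x e).card ≤ 2 * n := fztwoa_card h e

theorem fvlim_num {ρ n m k L K W : ℤ} (hρ0 : 0 ≤ ρ) (hρ : ρ ≤ 6) (hm : m + 1 = 2 * n)
    (hm1 : 1 ≤ m) (hk0 : 0 ≤ k) (hk : k ≤ 2 * n) (hL : 0 ≤ L)
    (hK : (18 + 4 * L) * n ^ 2 ≤ K) (hW : W ≤ 8 * L * n ^ 2) :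
    ρ * (2 * m * (m - 1) - 2 * (m - 1) * k + k * (k - 1)) - 4 * m * (9 * L + 16) + W
      ≤ 2 * (2 * K - (2 * m + 1) * (6 * L + 8)) := by
  have hn : 1 ≤ n := by omega
  have hQ : 2 * m * (m - 1) - 2 * (m - 1) * k + k * (k - 1) ≤ 12 * n ^ 2 := by
    have a1 : 0 ≤ (m - 1) * k := mul_nonneg (by omega) hk0
    have a2 : k * k ≤ (2 * n) * (2 * n) := mul_le_mul hk hk hk0 (by omega)
    have a3 : m * m ≤ (2 * n) * (2 * n) := mul_le_mul (by omega) (by omega) (by omega) (by omega)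
    nlinarith
  have h1 : ρ * (2 * m * (m - 1) - 2 * (m - 1) * k + k * (k - 1)) ≤ ρ * (12 * n ^ 2) :=
    mul_le_mul_of_nonneg_left hQ hρ0
  have h2 : ρ * (12 * n ^ 2) ≤ 6 * (12 * n ^ 2) :=
    mul_le_mul_of_nonneg_right hρ (by positivity)
  have h3 : 0 ≤ (m - 1) * L := mul_nonneg (by omega) hL
  have h4 : 0 ≤ L * n ^ 2 := by positivity
  nlinarith

theorem rate_lim {a b c : ℤ} {f : Nd → ℚ} (h : Ch5 a b c f) {n m : ℕ} {x : Col m → Nd}
    (hx : Sel n m x) (hD : DD m f x ≠ 0) {p ρ σ : ℕ} {e : Bool} (hG : Gd p e ρ σ) {K L : ℕ}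
    (hL : 24 * n + 12 * K < p ^ (L + 1)) (hK : (18 + 4 * L) * n ^ 2 ≤ K) {k : ℕ}
    (hk : (chn x e).card = k) :
    ρ * (2 * (m : ℤ) * (m - 1) - 2 * (m - 1) * k + k * (k - 1)) - 4 * m * (9 * L + 16)
      + padicValInt p (WW (fun r => zz (x r)) (chn x e)) ≤ 2 * padicValRat p (DD m f x) := by
  have hp : Fact p.Prime := by
    rcases hG with ⟨rfl, -, -, -⟩ | ⟨rfl, -, -, -⟩
    · exact Nat.fact_prime_two
    · exact Nat.fact_prime_three
  have hρ : ρ ≤ 6 := by
    rcases hG with ⟨-, -, rfl, -⟩ | ⟨-, -, rfl, -⟩ <;> omega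
  have p1 : (1 : ℚ) < p := by exact_mod_cast hp.out.one_lt
  have hm := hx.hm
  have hn : 1 ≤ n := by omega
  have hn2 : 1 ≤ n ^ 2 := Nat.one_le_pow _ _ hn
  have hK1 : 18 + 4 * L ≤ K := le_trans (Nat.le_mul_of_pos_right _ hn2) hK
  have hpos : 0 < padicNorm p (DD m f x) :=
    lt_of_le_of_ne (padicNorm.nonneg _) (padicNorm.nonzero hD).symm
  obtain ⟨w, c₀, hw, hc, hon, hap⟩ := ch_approx5 h hG (K := K) (L := L) (by omega)
  set t : ℚ := (p : ℚ) ^ (6 * L + 8) with ht
  set d : ℚ := (p : ℚ) ^ (6 * (L : ℤ) + 8 - 2 * K) with hdd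
  have t1 : (1 : ℚ) ≤ t := one_le_pow₀ p1.le
  have t5 : (p : ℚ) ^ (5 * L) ≤ t := pow_le_pow_right₀ p1.le (by omega)
  have d0 : 0 < d := zpow_pos (by linarith) _
  have d1 : d ≤ 1 := zpow_le_one_of_nonpos₀ p1.le (by omega)
  let g : Col m → ℚ := fun r =>
    if (x r).1 = e then c₀ + TW w K (yy (x r)) else f (x r)
  have hf : ∀ r, padicNorm p (f (x r)) ≤ t := fun r =>
    (ch_norm5 h p (L := L) (by omega) (hx.mem r)).trans t5
  have hg : ∀ r, padicNorm p (g r) ≤ t := fun r => by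
    simp only [g]
    split_ifs with he
    · have e' : x r = (e, (x r).2) := Prod.ext he rfl
      rw [e']
      exact hon _
    · exact hf r
  have hd : ∀ r, padicNorm p (f (x r) - g r) ≤ d := fun r => by
    simp only [g]
    split_ifs with he
    · have e' : x r = (e, (x r).2) := Prod.ext he rfl
      rw [e']
      exact hap _
    · simp [d0.le]
  have hE := det_expand (fun r => (zz (x r) : ℚ)) (fun r => f (x r)) g
  rw [← add_sum_erase _ _ (mem_univ ∅), prod_empty, one_mul, DS_empty] at hE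
  have hR : padicNorm p (∑ S ∈ univ.erase ∅, (∏ r ∈ S, (f (x r) - g r)) *
      DS m (fun r => (zz (x r) : ℚ)) g S) ≤ d * t ^ Fintype.card (Col m) := by
    refine padicNorm.sum_le' (fun S hS => ?_) (by positivity)
    rw [padicNorm.mul]
    refine mul_le_mul ((fvlim_prod p S _ d0.le fun r _ => hd r).trans
      (pow_le_of_le_one d0.le d1 (card_ne_zero.2
        (nonempty_iff_ne_empty.2 (ne_of_mem_erase hS))))) (fvlim_det p _ (by positivity)
        fun r c => ?_) (padicNorm.nonneg _) d0.le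
    simp only [Matrix.of_apply]
    split_ifs
    · exact fvlim_rowv p _ (by simpa using zero_le_one.trans t1) (by simpa using t1) c
    · exact fvlim_rowv p _ (by simpa using t1) (hg r) c
  have hU : d * t ^ Fintype.card (Col m)
      = (p : ℚ) ^ (-(2 * (K : ℤ) - (2 * m + 1) * (6 * L + 8))) := by
    have hc' : Fintype.card (Col m) = m + m := by simp
    rw [hc', ht, hdd, ← pow_mul, ← zpow_natCast, ← zpow_add₀ (by linarith)]
    congr 1
    push_cast
    ring
  have hmax := padicNorm.nonarchimedean (p := p) (q := DG m (fun r => (zz (x r) : ℚ)) g)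
    (r := ∑ S ∈ univ.erase ∅, (∏ r ∈ S, (f (x r) - g r)) * DS m (fun r => (zz (x r) : ℚ)) g S)
  rw [← hE] at hmax
  rcases le_max_iff.1 hmax with hle | hle
  · have hne : DG m (fun r => (zz (x r) : ℚ)) g ≠ 0 := fun e => by
      rw [e, padicNorm.zero] at hle
      exact absurd hpos (not_lt.2 hle)
    have hv := (val_of_norm p hne (padicValRat p (DG m (fun r => (zz (x r) : ℚ)) g))).2 le_rfl
    have hv2 := (val_of_norm p hD _).1 (hle.trans hv)
    have := rate_exact hx hG w c₀ (K := K) (E := 6 * L + 8) (L := L) (by omega) hw hc g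
      (fun r _ => hg r) (fun r hr => by
        have he : (x r).1 = e := (mem_filter.1 hr).2
        simp only [g, he, if_true]) hne hk
    push_cast at this
    linarith
  · have hv := (val_of_norm p hD _).1 (hle.trans (hR.trans hU.le))
    have hW := w_crude hx p e (L := L) (by omega)
    have hk2 : k ≤ 2 * n := hk ▸ fvlim_card hx e
    have := fvlim_num (ρ := ρ) (n := n) (m := m) (k := k) (L := L) (K := K)
      (W := padicValInt p (WW (fun r => zz (x r)) (chn x e))) (by positivity) (by omega)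
      (by omega) (by omega) (by positivity) (by omega) (by positivity)
      (by exact_mod_cast hK) (by exact_mod_cast hW)
    linarith

end Pool.Agent.FMZ
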