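import Pool.Agent.P.MP_cb43af_nt.Fz0

open Finset Filter Polynomial Topology
namespace Pool.Agent.FMZ

theorem fzsuma_mem {M p : ℕ} : p ∈ PR M ↔ p < M ∧ p.Prime := by
  rw [PR, mem_filter, mem_range]

theorem fzsuma_th {M M' : ℕ} (h : M ≤ M') :
    th M = ∑ p ∈ PR M', if p < M then Real.log p else 0 := by
  rw [← sum_filter, th]
  refine sum_congr ?_ fun _ _ => rfl
  ext p
  rw [mem_filter, fzsuma_mem, fzsuma_mem]
  exact ⟨fun h1 => ⟨⟨by omega, h1.2⟩, h1.1⟩, fun h1 => ⟨h1.2, h1.1.2⟩⟩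

theorem fzsuma_II {s ν : ℕ} (h : s ≤ 48) :
    II s ν = ∑ p ∈ PR (48 * ν),
      if 3 * ν ≤ p then max ((s : ℝ) * ν - p) 0 * Real.log p else 0 := by
  have hle : s * ν ≤ 48 * ν := Nat.mul_le_mul_right _ h
  rw [← sum_filter, II]
  refine Eq.trans (sum_congr rfl fun p hp => ?_) (sum_subset (fun p hp => ?_) fun p hp hn => ?_)
  · have h1 : p < s * ν := (fzsuma_mem.1 (mem_filter.1 hp).1).1
    have h2 : (p : ℝ) < (s : ℝ) * ν := by exact_mod_cast h1
    rw [max_eq_left (by linarith)]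
  · rw [mem_filter, fzsuma_mem] at hp ⊢
    exact ⟨⟨by omega, hp.1.2⟩, hp.2⟩
  · rw [mem_filter, fzsuma_mem] at hp hn
    have h1 : s * ν ≤ p := by
      by_contra h0
      exact hn ⟨⟨by omega, hp.1.2⟩, hp.2⟩
    have h2 : (s : ℝ) * ν ≤ p := by exact_mod_cast h1
    rw [max_eq_right (by linarith), zero_mul]

theorem fzsuma_card (M N : ℕ) {B : ℝ} (hB : 0 ≤ B) :
    ∑ p ∈ PR M, (if p ^ 2 < N then B else 0) ≤ (√(N : ℝ) + 1) * B := by
  rw [← sum_filter, sum_const, nsmul_eq_mul]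
  refine mul_le_mul_of_nonneg_right ?_ hB
  have h1 : ((PR M).filter fun p => p ^ 2 < N) ⊆ range (Nat.sqrt N + 1) := fun p hp =>
    mem_range.2 (Nat.lt_succ_of_le (Nat.le_sqrt'.2 (mem_filter.1 hp).2.le))
  have h2 := card_le_card h1
  rw [card_range] at h2
  have h3 : ((((PR M).filter fun p => p ^ 2 < N).card : ℕ) : ℝ) ≤ (Nat.sqrt N : ℝ) + 1 := by
    exact_mod_cast h2
  have h4 : (Nat.sqrt N : ℝ) ≤ √(N : ℝ) := Real.nat_sqrt_le_real_sqrt
  linarith

theorem fzsuma_div {n p : ℝ} (hn : 0 ≤ n) (hp : 0 < p) (h : 24 * n ≤ p ^ 2) : 4 * n / p ≤ √n := by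
  have h1 : √n * √n = n := Real.mul_self_sqrt hn
  have h2 : 0 ≤ √n := Real.sqrt_nonneg n
  have h3 : 4 * √n ≤ p := by
    refine (pow_le_pow_iff_left₀ (by positivity) hp.le two_ne_zero).1 ?_
    nlinarith
  rw [div_le_iff₀ hp]
  nlinarith

/-- summing the bounds over all primes, for one `ν` -/
theorem sum_point {ν n : ℕ} (hν : 30 ≤ ν) (hn : n = 2 * ν) (δ : ℕ → ℝ) (bad : ℕ → Prop)
    [DecidablePred bad] {A : ℝ} (h2 : A ≤ δ 2)
    (hb : ∀ p, p.Prime → -(32 * n * Real.log (24 * n)) ≤ δ p * Real.log p)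
    (hc : ∀ p, p.Prime → 5 ≤ p → 24 * n ≤ p ^ 2 → -(28 * n + 4 * n / p + 2 : ℝ) ≤ δ p)
    (hg : ∀ p, p.Prime → 5 ≤ p → 24 * n ≤ p ^ 2 → 3 * n < 2 * p → ¬ bad p →
      (24 * n - p : ℝ) / 6 - 16 / 3 * max (3 * n - p : ℝ) 0 - 4 * max (4 * n - p : ℝ) 0 - 45
        ≤ δ p) :
    A * Real.log 2 - (28 * n + √n + 2) * th (3 * ν) + II 48 ν / 6 - 16 / 3 * II 6 ν - 4 * II 8 ν
      - 45 * th (48 * ν) - (√(24 * n) + 1) * (32 * n * Real.log (24 * n))
      - 33 * n * ∑ p ∈ (PR (48 * ν)).filter bad, Real.log p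
      ≤ ∑ p ∈ PR (48 * ν), δ p * Real.log p := by
  have hnR : (n : ℝ) = 2 * ν := by rw [hn]; push_cast; ring
  have hνR : (30 : ℝ) ≤ ν := by exact_mod_cast hν
  have hB : 0 ≤ 32 * n * Real.log (24 * n) :=
    mul_nonneg (by positivity) (Real.log_nonneg (by linarith))
  have e1 : A * Real.log 2 = ∑ p ∈ PR (48 * ν), if p = 2 then A * Real.log p else 0 := by
    rw [sum_ite_eq', if_pos (fzsuma_mem.2 ⟨by omega, Nat.prime_two⟩)]
    norm_num
  have e7 := fzsuma_card (48 * ν) (24 * n) hB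
  rw [Nat.cast_mul, Nat.cast_ofNat] at e7
  have e6 : th (48 * ν) = ∑ p ∈ PR (48 * ν), Real.log p := rfl
  rw [e1, fzsuma_th (M := 3 * ν) (M' := 48 * ν) (by omega), fzsuma_II (s := 48) le_rfl,
    fzsuma_II (s := 6) (by norm_num), fzsuma_II (s := 8) (by norm_num), e6, sum_filter]
  refine le_trans (sub_le_sub_right (sub_le_sub_left e7 _) _) ?_
  simp only [mul_sum, sum_div, ← sum_sub_distrib, ← sum_add_distrib]
  refine sum_le_sum fun p hp => ?_
  obtain ⟨hlt, hpr⟩ := fzsuma_mem.1 hp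
  have hp1 : (1 : ℝ) ≤ p := by exact_mod_cast hpr.one_le
  have hL : 0 ≤ Real.log p := Real.log_nonneg hp1
  have hs : 0 ≤ √(n : ℝ) := Real.sqrt_nonneg _
  have hbad : 0 ≤ 33 * (n : ℝ) * if bad p then Real.log p else 0 := by
    split_ifs <;> positivity
  have hc1 : 0 ≤ (28 * n + √(n : ℝ) + 2) * Real.log p := by positivity
  by_cases hsq : p ^ 2 < 24 * n
  · have h3 : p < 3 * ν := by
      by_contra h0
      have : (3 * ν) ^ 2 ≤ p ^ 2 := Nat.pow_le_pow_left (by omega) 2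
      nlinarith
    rw [if_pos hsq, if_pos h3, if_neg (not_le.2 h3), if_neg (not_le.2 h3), if_neg (not_le.2 h3)]
    by_cases hp2 : p = 2
    · rw [if_pos hp2]
      have h4 : A * Real.log p ≤ δ p * Real.log p :=
        mul_le_mul_of_nonneg_right (by rw [hp2]; exact h2) hL
      linarith
    · rw [if_neg hp2]
      have h4 := hb p hpr
      linarith
  · have hsq' : 24 * n ≤ p ^ 2 := not_lt.1 hsq
    have h5 : 5 ≤ p := by
      by_contra h0
      have : p ^ 2 ≤ 4 ^ 2 := Nat.pow_le_pow_left (by omega) 2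
      omega
    have hsqR : 24 * (n : ℝ) ≤ (p : ℝ) ^ 2 := by exact_mod_cast hsq'
    have hcp := hc p hpr h5 hsq'
    rw [if_neg hsq, if_neg (by omega : ¬p = 2)]
    by_cases h3 : p < 3 * ν
    · rw [if_pos h3, if_neg (not_le.2 h3), if_neg (not_le.2 h3), if_neg (not_le.2 h3)]
      have h4 := fzsuma_div (Nat.cast_nonneg n) (by linarith) hsqR
      have h6 : -(28 * n + √(n : ℝ) + 2) * Real.log p ≤ δ p * Real.log p :=
        mul_le_mul_of_nonneg_right (by linarith) hL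
      linarith
    · have h3' : 3 * ν ≤ p := not_lt.1 h3
      have h3R : 3 * (ν : ℝ) ≤ p := by exact_mod_cast h3'
      have hltR : (p : ℝ) < 48 * ν := by exact_mod_cast hlt
      rw [if_neg h3, if_pos h3', if_pos h3', if_pos h3']
      push_cast
      rw [max_eq_left (by linarith : (0 : ℝ) ≤ 48 * ν - p)]
      by_cases hbp : bad p
      · rw [if_pos hbp]
        have h4 : 4 * (n : ℝ) / p ≤ 3 := by
          rw [div_le_iff₀ (by linarith)]
          linarith
        have m1 : 0 ≤ max (6 * (ν : ℝ) - p) 0 := le_max_right _ _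
        have m2 : 0 ≤ max (8 * (ν : ℝ) - p) 0 := le_max_right _ _
        have h6 : ((48 * ν - p) / 6 - 16 / 3 * max (6 * (ν : ℝ) - p) 0 -
            4 * max (8 * (ν : ℝ) - p) 0 - 45 - 33 * n) * Real.log p ≤ δ p * Real.log p :=
          mul_le_mul_of_nonneg_right (by linarith) hL
        linarith
      · rw [if_neg hbp]
        have hne : p ≠ 3 * ν := fun e => by
          rw [e] at hpr
          exact Nat.not_prime_mul (by norm_num) (by omega) hpr
        have h4 := hg p hpr h5 hsq' (by omega) hbp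
        have a1 : 3 * (n : ℝ) = 6 * ν := by linarith
        have a2 : 4 * (n : ℝ) = 8 * ν := by linarith
        have a3 : 24 * (n : ℝ) = 48 * ν := by linarith
        rw [a1, a2, a3] at h4
        have h6 := mul_le_mul_of_nonneg_right h4 hL
        linarith

end Pool.Agent.FMZ
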