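import Pool.Agent.P.MP_cb43af_nt.Fv0
import Pool.Agent.P.MP_cb43af_nt.FzSumA

open Finset Filter Polynomial Topology
namespace Pool.Agent.FMZ

theorem fvsuma_I6 {s ν : ℕ} (h : s ≤ 144) :
    I6 s ν = ∑ p ∈ PR (144 * ν),
      if 6 * ν ≤ p then max ((s : ℝ) * ν - p) 0 * Real.log p else 0 := by
  have hle : s * ν ≤ 144 * ν := Nat.mul_le_mul_right _ h
  rw [← sum_filter, I6]
  refine Eq.trans (sum_congr rfl fun p hp => ?_) (sum_subset (fun p hp => ?_) fun p hp hn => ?_)
  · have h1 : p < s * ν := (fzsuma_mem.1 (mem_filter.1 hp).1).1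
    have h2 : (p : ℝ) < (s : ℝ) * ν := by exact_mod_cast h1
    rw [max_eq_left (by linarith)]
  · rw [mem_filter, fzsuma_mem] at hp ⊢
    exact ⟨⟨by omega, hp.1.2⟩, hp.2⟩
  · rw [mem_filter, fzsuma_mem] at hp hn
    have h1 : s * ν ≤ p := by
      by_contra h0
      exact hn ⟨⟨by omega, hp.1.2⟩, hp.2⟩
    have h2 : (s : ℝ) * ν ≤ p := by exact_mod_cast h1
    rw [max_eq_right (by linarith), zero_mul]

theorem sum_point5 {ν n : ℕ} (hν : 5 ≤ ν) (hn : n = 6 * ν) (δ : ℕ → ℝ) (bad : ℕ → Prop)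
    [DecidablePred bad] {A B : ℝ} (h2 : A ≤ δ 2) (h3 : B ≤ δ 3)
    (hb : ∀ p, p.Prime → -(48 * n * Real.log (24 * n)) ≤ δ p * Real.log p)
    (hc : ∀ p, p.Prime → 7 ≤ p → 24 * n ≤ p ^ 2 → -(44 * n + 4 * n / p + 2 : ℝ) ≤ δ p)
    (hg : ∀ p, p.Prime → 7 ≤ p → 24 * n ≤ p ^ 2 → n ≤ p → ¬ bad p →
      (24 * n - p : ℝ) / 6 - 8 * max (3 * n - p : ℝ) 0 - 8 * max (3 * n - 2 * p : ℝ) 0
        - 6 * max (4 * n - p : ℝ) 0 - 6 * max (4 * n - 3 * p : ℝ) 0 - 110 ≤ δ p) :
    A * Real.log 2 + B * Real.log 3 - (44 * n + √n + 2) * th (6 * ν) + I6 144 ν / 6 - 8 * I6 18 ν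
      - 16 * I6 9 ν - 6 * I6 24 ν - 18 * I6 8 ν - 110 * th (144 * ν)
      - (√(24 * n) + 1) * (48 * n * Real.log (24 * n))
      - 48 * n * ∑ p ∈ (PR (144 * ν)).filter bad, Real.log p
      ≤ ∑ p ∈ PR (144 * ν), δ p * Real.log p := by
  have hnR : (n : ℝ) = 6 * ν := by rw [hn]; push_cast; ring
  have hνR : (5 : ℝ) ≤ ν := by exact_mod_cast hν
  have hB : 0 ≤ 48 * n * Real.log (24 * n) :=
    mul_nonneg (by positivity) (Real.log_nonneg (by linarith))
  have e1 : A * Real.log 2 = ∑ p ∈ PR (144 * ν), if p = 2 then A * Real.log p else 0 := by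
    rw [sum_ite_eq', if_pos (fzsuma_mem.2 ⟨by omega, Nat.prime_two⟩)]
    norm_num
  have e2 : B * Real.log 3 = ∑ p ∈ PR (144 * ν), if p = 3 then B * Real.log p else 0 := by
    rw [sum_ite_eq', if_pos (fzsuma_mem.2 ⟨by omega, Nat.prime_three⟩)]
    norm_num
  have e7 := fzsuma_card (144 * ν) (24 * n) hB
  rw [Nat.cast_mul, Nat.cast_ofNat] at e7
  have e6 : th (144 * ν) = ∑ p ∈ PR (144 * ν), Real.log p := rfl
  rw [e1, e2, fzsuma_th (M := 6 * ν) (M' := 144 * ν) (by omega), fvsuma_I6 (s := 144) le_rfl,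
    fvsuma_I6 (s := 18) (by norm_num), fvsuma_I6 (s := 9) (by norm_num),
    fvsuma_I6 (s := 24) (by norm_num), fvsuma_I6 (s := 8) (by norm_num), e6, sum_filter]
  refine le_trans (sub_le_sub_right (sub_le_sub_left e7 _) _) ?_
  simp only [mul_sum, sum_div, ← sum_sub_distrib, ← sum_add_distrib]
  refine sum_le_sum fun p hp => ?_
  obtain ⟨hlt, hpr⟩ := fzsuma_mem.1 hp
  have hp1 : (1 : ℝ) ≤ p := by exact_mod_cast hpr.one_le
  have hL : 0 ≤ Real.log p := Real.log_nonneg hp1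
  have hs : 0 ≤ √(n : ℝ) := Real.sqrt_nonneg _
  have hbad : 0 ≤ 48 * (n : ℝ) * if bad p then Real.log p else 0 := by
    split_ifs <;> positivity
  have hc1 : 0 ≤ (44 * n + √(n : ℝ) + 2) * Real.log p := by positivity
  by_cases hsq : p ^ 2 < 24 * n
  · have h6 : p < 6 * ν := by
      by_contra h0
      have : (6 * ν) ^ 2 ≤ p ^ 2 := Nat.pow_le_pow_left (by omega) 2
      nlinarith
    simp only [if_pos hsq, if_pos h6, if_neg (not_le.2 h6)]
    by_cases hp2 : p = 2
    · rw [if_pos hp2, if_neg (by omega : ¬p = 3)]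
      have h4 : A * Real.log p ≤ δ p * Real.log p :=
        mul_le_mul_of_nonneg_right (by rw [hp2]; exact h2) hL
      linarith
    · rw [if_neg hp2]
      by_cases hp3 : p = 3
      · rw [if_pos hp3]
        have h4 : B * Real.log p ≤ δ p * Real.log p :=
          mul_le_mul_of_nonneg_right (by rw [hp3]; exact h3) hL
        linarith
      · rw [if_neg hp3]
        have h4 := hb p hpr
        linarith
  · have hsq' : 24 * n ≤ p ^ 2 := not_lt.1 hsq
    have h5 : 7 ≤ p := by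
      by_contra h0
      have : p ^ 2 ≤ 6 ^ 2 := Nat.pow_le_pow_left (by omega) 2
      omega
    have hsqR : 24 * (n : ℝ) ≤ (p : ℝ) ^ 2 := by exact_mod_cast hsq'
    have hcp := hc p hpr h5 hsq'
    rw [if_neg hsq, if_neg (by omega : ¬p = 2), if_neg (by omega : ¬p = 3)]
    by_cases h6 : p < 6 * ν
    · simp only [if_pos h6, if_neg (not_le.2 h6)]
      have h4 := fzsuma_div (Nat.cast_nonneg n) (by linarith) hsqR
      have h7 : -(44 * n + √(n : ℝ) + 2) * Real.log p ≤ δ p * Real.log p :=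
        mul_le_mul_of_nonneg_right (by linarith) hL
      linarith
    · have h6' : 6 * ν ≤ p := not_lt.1 h6
      have h6R : 6 * (ν : ℝ) ≤ p := by exact_mod_cast h6'
      have hltR : (p : ℝ) < 144 * ν := by exact_mod_cast hlt
      simp only [if_neg h6, if_pos h6']
      push_cast
      rw [max_eq_left (by linarith : (0 : ℝ) ≤ 144 * ν - p)]
      by_cases hbp : bad p
      · rw [if_pos hbp]
        have h4 : 4 * (n : ℝ) / p ≤ 4 := by
          rw [div_le_iff₀ (by linarith)]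
          linarith
        have m1 : 0 ≤ max (18 * (ν : ℝ) - p) 0 := le_max_right _ _
        have m2 : 0 ≤ max (9 * (ν : ℝ) - p) 0 := le_max_right _ _
        have m3 : 0 ≤ max (24 * (ν : ℝ) - p) 0 := le_max_right _ _
        have m4 : 0 ≤ max (8 * (ν : ℝ) - p) 0 := le_max_right _ _
        have h7 : ((144 * ν - p) / 6 - 8 * max (18 * (ν : ℝ) - p) 0 -
            16 * max (9 * (ν : ℝ) - p) 0 - 6 * max (24 * (ν : ℝ) - p) 0 -
            18 * max (8 * (ν : ℝ) - p) 0 - 110 - 48 * n) * Real.log p ≤ δ p * Real.log p :=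
          mul_le_mul_of_nonneg_right (by linarith) hL
        linarith
      · rw [if_neg hbp]
        have h4 := hg p hpr h5 hsq' (by omega) hbp
        have a1 : 3 * (n : ℝ) = 18 * ν := by linarith
        have a2 : 4 * (n : ℝ) = 24 * ν := by linarith
        have a3 : 24 * (n : ℝ) = 144 * ν := by linarith
        have b1 : max (18 * (ν : ℝ) - 2 * p) 0 = 2 * max (9 * (ν : ℝ) - p) 0 := by
          rw [mul_max_of_nonneg _ _ (by norm_num : (0 : ℝ) ≤ 2), mul_zero]
          congr 1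
          ring
        have b2 : max (24 * (ν : ℝ) - 3 * p) 0 = 3 * max (8 * (ν : ℝ) - p) 0 := by
          rw [mul_max_of_nonneg _ _ (by norm_num : (0 : ℝ) ≤ 3), mul_zero]
          congr 1
          ring
        rw [a1, a2, a3, b1, b2] at h4
        have h7 := mul_le_mul_of_nonneg_right h4 hL
        linarith

end Pool.Agent.FMZ
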