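import Pool.Agent.P.MP_cb43af_nt.FzPNT

open Finset Filter Polynomial Topology
namespace Pool.Agent.FMZ

theorem fzsumb_mul (c : ℝ) (hc : 0 < c) : Tendsto (fun ν : ℕ => c * (ν : ℝ)) atTop atTop :=
  tendsto_natCast_atTop_atTop.const_mul_atTop hc

theorem fzsumb_sqrt : Tendsto (fun x : ℝ => √x / x) atTop (𝓝 0) := by
  simp only [Real.sqrt_div_self]
  exact Real.tendsto_sqrt_atTop.inv_tendsto_atTop

theorem fzsumb_log : Tendsto (fun x : ℝ => (√x + 1) * Real.log x / x) atTop (𝓝 0) := by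
  have h1 := (isLittleO_log_rpow_atTop (r := 1 / 2) (by norm_num)).tendsto_div_nhds_zero
  have h2 := Real.isLittleO_log_id_atTop.tendsto_div_nhds_zero
  have h3 := h1.add h2
  rw [add_zero] at h3
  refine h3.congr fun x => ?_
  rw [← Real.sqrt_eq_rpow, id, add_mul, add_div, one_mul, mul_comm, mul_div_assoc,
    Real.sqrt_div_self, div_eq_mul_inv]

theorem sum_asym : ∀ᶠ ν : ℕ in atTop, ∀ n : ℕ, n = 2 * ν →
    1 / 10 * (n : ℝ) ^ 2 + 33 * n * ((ν : ℝ) / 32) ≤
      (28 - 1 / 10) * (n : ℝ) ^ 2 * Real.log 2 - (28 * n + √n + 2) * th (3 * ν) + II 48 ν / 6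
        - 16 / 3 * II 6 ν - 4 * II 8 ν - 45 * th (48 * ν)
        - (√(24 * n) + 1) * (32 * n * Real.log (24 * n)) := by
  have a1 := (fzsumb_sqrt.comp (fzsumb_mul 2 two_pos)).const_mul 2
  have a2 := (fzsumb_log.comp (fzsumb_mul 48 (by norm_num))).const_mul (64 * 48)
  have a3 := tendsto_inv_atTop_nhds_zero_nat (𝕜 := ℝ)
  have h := ((((((tendsto_const_nhds (x := (28 - 1 / 10) * 4 * Real.log 2)).sub
    (((a1.const_add 56).add (a3.const_mul 2)).mul (th_lim 3))).add
    ((II_lim (s := 48) (by norm_num)).div_const 6)).sub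
    ((II_lim (s := 6) (by norm_num)).const_mul (16 / 3))).sub
    ((II_lim (s := 8) (by norm_num)).const_mul 4)).sub
    (((th_lim 48).mul a3).const_mul 45)).sub a2
  have hl := Real.log_two_gt_d9
  filter_upwards [h.eventually_const_lt (u := 197 / 80) (by push_cast; linarith),
    eventually_gt_atTop 0] with ν h1 h2 n hn
  have h3 : (0 : ℝ) < ν := by exact_mod_cast h2
  have h4 := mul_le_mul_of_nonneg_right h1.le (sq_nonneg (ν : ℝ))
  have e : (n : ℝ) = 2 * ν := by rw [hn]; push_cast; ring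
  have e2 : (24 : ℝ) * (2 * ν) = 48 * ν := by ring
  rw [e, e2]
  refine le_of_eq_of_le (by ring) (h4.trans_eq ?_)
  simp only [Function.comp]
  field_simp
  ring

end Pool.Agent.FMZ
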