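import Pool.Agent.P.MP_cb43af_nt.Fv0
import Pool.Agent.P.MP_cb43af_nt.FzSumB

open Finset Filter Polynomial Topology
namespace Pool.Agent.FMZ

theorem fvsumb_I6 {s : ℕ} (hs : 6 ≤ s) (ν : ℕ) :
    I6 s ν = JJ (s * ν) - JJ (6 * ν) - (s - 6) * ν * th (6 * ν) := by
  have h1 : (PR (s * ν)).filter (fun p => ¬ 6 * ν ≤ p) = PR (6 * ν) := by
    ext p
    have := Nat.mul_le_mul_right ν hs
    simp only [PR, mem_filter, mem_range]
    constructor
    · exact fun h => ⟨by omega, h.1.2⟩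
    · exact fun h => ⟨⟨by omega, h.2⟩, by omega⟩
  have h2 := sum_filter_add_sum_filter_not (PR (s * ν)) (fun p => 6 * ν ≤ p)
    fun p => ((s * ν : ℝ) - p) * Real.log p
  rw [h1] at h2
  have h3 : ∑ p ∈ PR (6 * ν), ((s * ν : ℝ) - p) * Real.log p =
      JJ (6 * ν) + (s - 6) * ν * th (6 * ν) := by
    rw [JJ, th, mul_sum, ← sum_add_distrib]
    refine sum_congr rfl fun p _ => ?_
    push_cast
    ring
  have h4 : JJ (s * ν) = ∑ p ∈ PR (s * ν), ((s * ν : ℝ) - p) * Real.log p := by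
    rw [JJ, Nat.cast_mul]
  rw [I6, h4, ← h2, h3]
  ring

theorem I6_lim {s : ℕ} (hs : 6 ≤ s) :
    Tendsto (fun ν : ℕ => I6 s ν / ν ^ 2) atTop (𝓝 ((s - 6) ^ 2 / 2)) := by
  have h1 := ((JJ_lim s).sub (JJ_lim 6)).sub ((th_lim 6).const_mul ((s : ℝ) - 6))
  have h2 : (s : ℝ) ^ 2 / 2 - ((6 : ℕ) : ℝ) ^ 2 / 2 - (s - 6) * ((6 : ℕ) : ℝ) = (s - 6) ^ 2 / 2 := by
    push_cast
    ring
  rw [h2] at h1
  refine h1.congr' ?_
  filter_upwards [eventually_gt_atTop 0] with ν hν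
  have h5 : (ν : ℝ) ≠ 0 := by positivity
  rw [fvsumb_I6 hs]
  field_simp

theorem sum_asym5 : ∀ᶠ ν : ℕ in atTop, ∀ n : ℕ, n = 6 * ν →
    1 / 100 * (n : ℝ) ^ 2 + 48 * n * ((ν : ℝ) / 6) ≤
      (40 - 1 / 100) * (n : ℝ) ^ 2 * Real.log 2 + (18 - 1 / 100) * (n : ℝ) ^ 2 * Real.log 3
        - (44 * n + √n + 2) * th (6 * ν) + I6 144 ν / 6 - 8 * I6 18 ν
        - 16 * I6 9 ν - 6 * I6 24 ν - 18 * I6 8 ν - 110 * th (144 * ν)
        - (√(24 * n) + 1) * (48 * n * Real.log (24 * n)) := by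
  have a1 := (fzsumb_sqrt.comp (fzsumb_mul 6 (by norm_num))).const_mul 6
  have a2 := (fzsumb_log.comp (fzsumb_mul 144 (by norm_num))).const_mul (288 * 144)
  have a3 := tendsto_inv_atTop_nhds_zero_nat (𝕜 := ℝ)
  have h := ((((((((tendsto_const_nhds
    (x := (40 - 1 / 100) * 36 * Real.log 2 + (18 - 1 / 100) * 36 * Real.log 3)).sub
    (((a1.const_add 264).add (a3.const_mul 2)).mul (th_lim 6))).add
    ((I6_lim (s := 144) (by norm_num)).div_const 6)).sub
    ((I6_lim (s := 18) (by norm_num)).const_mul 8)).sub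
    ((I6_lim (s := 9) (by norm_num)).const_mul 16)).sub
    ((I6_lim (s := 24) (by norm_num)).const_mul 6)).sub
    ((I6_lim (s := 8) (by norm_num)).const_mul 18)).sub
    (((th_lim 144).mul a3).const_mul 110)).sub a2
  have hl := Real.log_two_gt_d9
  have hl3 := Real.log_three_gt_d9
  filter_upwards [h.eventually_const_lt (u := 1209 / 25) (by push_cast; linarith),
    eventually_gt_atTop 0] with ν h1 h2 n hn
  have h3 : (0 : ℝ) < ν := by exact_mod_cast h2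
  have h4 := mul_le_mul_of_nonneg_right h1.le (sq_nonneg (ν : ℝ))
  have e : (n : ℝ) = 6 * ν := by rw [hn]; push_cast; ring
  have e2 : (24 : ℝ) * (6 * ν) = 144 * ν := by ring
  rw [e, e2]
  refine le_of_eq_of_le (by ring) (h4.trans_eq ?_)
  simp only [Function.comp]
  field_simp
  ring

theorem third (bad : ℕ → Prop) [DecidablePred bad]
    (h : ∀ᶠ ν : ℕ in atTop, (ν : ℝ) / 6 ≤ ∑ p ∈ (PR (144 * ν)).filter bad, Real.log p) :
    ∀ᶠ ν : ℕ in atTop, (ν : ℝ) / 32 ≤ ∑ p ∈ (PR (48 * ν)).filter bad, Real.log p := by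
  have ht : Tendsto (fun ν : ℕ => ν / 3) atTop atTop := Nat.tendsto_div_const_atTop (by norm_num)
  filter_upwards [ht.eventually h, eventually_ge_atTop 5] with ν h1 h2
  have h3 : ((3 * ν : ℕ) : ℝ) ≤ (16 * (ν / 3) : ℕ) := by exact_mod_cast (by omega)
  push_cast at h3
  refine le_trans (by linarith) (h1.trans (sum_le_sum_of_subset_of_nonneg
    (filter_subset_filter _ (filter_subset_filter _ (range_subset_range.2 (by omega))))
    fun p _ _ => Real.log_natCast_nonneg p))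

end Pool.Agent.FMZ
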