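import Pool.Agent.P.MP_cb43af_nt.FvZero
import Pool.Agent.P.MP_cb43af_nt.FvGood
import Pool.Agent.P.MP_cb43af_nt.FvBd
import Pool.Agent.P.MP_cb43af_nt.FvSumA
import Pool.Agent.P.MP_cb43af_nt.FvSumB

open Finset Filter Polynomial Topology
namespace Pool.Agent.FMZ

open Classical in
theorem dens_core5 (a : ℤ) {b c : ℤ} (hb : b ≠ 0 ∨ c ≠ 0) : ∀ᶠ ν : ℕ in atTop,
    (ν : ℝ) / 32 ≤ ∑ p ∈ (PR (48 * ν)).filter (fun p => ¬ Hp5 a b c p), Real.log p := by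
  refine third _ ?_
  obtain ⟨f, hf⟩ := exists_ch5 a b c
  have t2 : Tendsto (fun ν : ℕ => 6 * ν) atTop atTop :=
    tendsto_atTop_mono (fun ν => by simp only [id]; omega) tendsto_id
  have g2 : Gd 2 true 6 8 := Or.inl ⟨rfl, rfl, rfl, rfl⟩
  have g3 : Gd 3 false 3 3 := Or.inr ⟨rfl, rfl, rfl, rfl⟩
  filter_upwards [sum_asym5, t2.eventually (real_bound5 hf (ε := 1 / 100) (by norm_num)),
    t2.eventually (rate_bound hf g2 (ε := 1 / 100) (by norm_num)),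
    t2.eventually (rate_bound hf g3 (ε := 1 / 100) (by norm_num)), eventually_ge_atTop 5]
    with ν h1 h2 h3 h3' h4
  obtain ⟨x, hx, hD⟩ := exists_sel5 hb hf (n := 6 * ν) (m := 12 * ν - 1) (by omega) (by omega)
  have k1 := sum_point5 h4 rfl (fun p => (padicValRat p (qq _ f x) : ℝ)) (fun p => ¬ Hp5 a b c p)
    (h3 _ x hx hD) (h3' _ x hx hD) (fun p hp => triv5_b hf hx hD hp)
    (fun p hp h5 h6 => triv5_c hf hx hD hp (by omega) h6)
    (fun p hp h5 h6 h7 h8 => good5 hf hx hD hp h5 h6 h7 (not_not.1 h8))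
  have k2 := log_abs_ge (qq_ne_zero hx hD) (PR (144 * ν)) (fun p hp => (mem_filter.1 hp).2)
    (fun p hp hn => triv5_a hf hx hD hp (by
      by_contra hlt
      exact hn (mem_filter.2 ⟨mem_range.2 (by omega), hp⟩)))
  have k3 := h2 _ x hx
  have k4 := h1 _ rfl
  have hpos : (0 : ℝ) < 48 * ((6 * ν : ℕ) : ℝ) := by
    have : 0 < 6 * ν := by omega
    positivity
  refine le_of_mul_le_mul_left ?_ hpos
  rw [show (4 * ((6 : ℕ) : ℝ) + 2 * ((8 : ℕ) : ℝ) - 1 / 100) = 40 - 1 / 100 by norm_num,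
    show (4 * ((3 : ℕ) : ℝ) + 2 * ((3 : ℕ) : ℝ) - 1 / 100) = 18 - 1 / 100 by norm_num] at k1
  linarith

end Pool.Agent.FMZ
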