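import Pool.Agent.P.MP_cb43af_nt.FzLow

open Finset Filter Polynomial Topology
namespace Pool.Agent.FMZ

/-- words in the two operators exchanged by `TT` -/
def EW : List Bool → ℕ → ℚ
  | [], _ => 1
  | true :: w, n => EW w n / n
  | false :: w, n => SS (EW w) (n + 1)

theorem EW_realize : True := by have := @EW.eq_def; trivial

def exw : List Bool → List (ℕ × List ℕ+)
  | [] => [(0, [])]
  | true :: w => (exw w).map fun t => (t.1 + 1, t.2)
  | false :: w => ((exw w).map fun t => (0, t.1.succPNat :: t.2))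
      ++ (exw w).map fun t => (t.1 + 1, t.2)

theorem exw_realize : True := by have := @exw.eq_def; trivial

/-- the stuffle product -/
def stl : ℕ → List ℕ+ → List ℕ+ → List (List ℕ+)
  | 0, _, _ => []
  | _ + 1, [], l => [l]
  | _ + 1, a :: k, [] => [a :: k]
  | N + 1, a :: k, b :: l => (stl N k (b :: l)).map (a :: ·) ++ ((stl N (a :: k) l).map (b :: ·)
      ++ (stl N k l).map ((a + b) :: ·))

theorem stl_realize : True := by have := @stl.eq_def; trivial

/-- all indices of weight `N + 1` -/
def cps : ℕ → List (List ℕ+)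
  | 0 => [[1]]
  | N + 1 => (cps N).map (1 :: ·) ++ (cps N).map fun k => k.modifyHead (· + 1)

theorem cps_realize : True := by have := @cps.eq_def; trivial

def dl (w : List Bool) : List (List ℕ+) :=
  (exw (w.map not) ++ exw w).map fun t => t.1.succPNat :: t.2

def zs (L : List (List ℕ+)) (M : ℕ) : ℚ := (L.map fun k => zeta k M).sum

theorem zs_append (L L' : List (List ℕ+)) (M : ℕ) : zs (L ++ L') M = zs L M + zs L' M := by
  simp [zs]

theorem zs_cons (a : ℕ+) (L : List (List ℕ+)) (M : ℕ) :
    zs (L.map (a :: ·)) M = ∑ n ∈ Ioo 0 M, zs L n / (n : ℚ) ^ (a : ℕ) := by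
  induction L with
  | nil => simp [zs]
  | cons k L ih =>
    simp only [zs, List.map_cons, List.sum_cons, add_div, sum_add_distrib] at ih ⊢
    rw [ih, fzstuf_cons]

theorem stl_spec : ∀ (N : ℕ) (k l : List ℕ+), k.length + l.length < N → ∀ M,
    zeta k M * zeta l M = zs (stl N k l) M
  | 0, _, _, h, _ => absurd h (Nat.not_lt_zero _)
  | _ + 1, [], l, _, M => by simp [stl, zs, fzstuf_nil]
  | _ + 1, a :: k, [], _, M => by simp [stl, zs, fzstuf_nil]
  | N + 1, a :: k, b :: l, h, M => by
    simp only [List.length_cons] at h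
    rw [stl, zs_append, zs_append, zs_cons, zs_cons, zs_cons, st_rec, ← sum_add_distrib,
      ← sum_add_distrib]
    refine sum_congr rfl fun n _ => ?_
    rw [stl_spec N k (b :: l) (by simp only [List.length_cons]; omega),
      stl_spec N (a :: k) l (by simp only [List.length_cons]; omega), stl_spec N k l (by omega),
      PNat.add_coe, add_assoc]

theorem TT_EW : ∀ (w : List Bool) (M : ℕ), 0 < M → TT (EW w) M = EW (w.map not) M
  | [], _, h => TT_one h
  | true :: w, M, _ => (TT_div (EW w) M).trans (fzdu_ss (fun n hn => TT_EW w n hn) _)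
  | false :: w, M, h => (TT_sum (EW w) M).trans (by rw [TT_EW w M h]; rfl)

theorem fvrel_ss (L : List (ℕ × List ℕ+)) (M : ℕ) :
    SS (fun n => (L.map fun t => zeta t.2 n / (n : ℚ) ^ t.1).sum) M
      = zs (L.map fun t => t.1.succPNat :: t.2) M := by
  induction L with
  | nil => simp [SS, zs]
  | cons t L ih =>
    simp only [zs, List.map_cons, List.sum_cons] at ih ⊢
    rw [fzdu_add, ih, fzdu_pow t.1 t.1.succPNat rfl]

theorem EW_eq : ∀ w : List Bool,
    EW w = fun n => ((exw w).map fun t => zeta t.2 n / (n : ℚ) ^ t.1).sum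
  | [] => by funext n; simp [EW, exw, fzstuf_nil]
  | true :: w => by
    funext n
    rw [EW, EW_eq w, exw, List.map_map, div_eq_mul_inv, ← List.sum_map_mul_right]
    congr 2
    funext t
    simp only [Function.comp]
    rw [pow_succ, ← div_div, div_eq_mul_inv (_ / _)]
  | false :: w => by
    funext n
    rw [EW, EW_eq w, fvrel_ss, exw, List.map_append, List.sum_append, zs, List.map_map,
      List.map_map, List.map_map, ← List.sum_map_add]
    congr 2
    funext t
    simp only [Function.comp]
    rw [zeta_succ, pow_zero, div_one]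
    rfl

theorem EW_mem (w : List Bool) : EW w ∈ UU := by
  rw [EW_eq]
  induction exw w with
  | nil => exact UU.zero_mem
  | cons t L ih => exact UU.add_mem (Submodule.subset_span ⟨(t.2, t.1), rfl⟩) ih

theorem du_lf (w : List Bool) : Lf (zs (dl w)) :=
  fzlow_du (EW_mem w) fun M => by
    rw [TT_div, fzdu_ss (fun n hn => TT_EW w n hn), EW_eq, EW_eq, fvrel_ss, fvrel_ss, dl,
      List.map_append, zs_append]

theorem st_lf {k : List ℕ+} (h : Lf (zeta k)) (l : List ℕ+) (hl : k.length + l.length < 9) :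
    Lf (zs (stl 9 k l)) := fzlow_st l h (stl_spec 9 k l hl)

theorem cps_mem : ∀ (N : ℕ) (k : List ℕ+), wt k = N + 1 → k ∈ cps N
  | _, [], h => by simp [wt] at h
  | 0, a :: k, h => by
    rw [fzlow_wt] at h
    have := a.pos
    obtain rfl : a = 1 := PNat.eq (by change (a : ℕ) = 1; omega)
    rcases k with _ | ⟨b, k⟩
    · simp [cps]
    · rw [fzlow_wt] at h
      have := b.pos
      omega
  | N + 1, a :: k, h => by
    rw [fzlow_wt] at h
    rw [cps, List.mem_append, List.mem_map, List.mem_map]
    rcases eq_or_ne a 1 with rfl | ha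
    · exact Or.inl ⟨k, cps_mem N k (by rw [PNat.one_coe] at h; omega), rfl⟩
    · obtain ⟨b, rfl⟩ := PNat.exists_eq_succ_of_ne_one ha
      refine Or.inr ⟨b :: k, cps_mem N _ ?_, rfl⟩
      rw [PNat.add_coe, PNat.one_coe] at h
      rw [fzlow_wt]
      omega

/-- membership in `p` times the completed algebra is tested by linear forms -/
theorem lf_dual {x : ℕ → ℚ}
    (h : ∀ φ : (ℕ → ℚ) →ₗ[ℚ] ℚ, (∀ y, Lf y → φ y = 0) → φ x = 0) : Lf x := by
  let H : Submodule ℚ (ℕ → ℚ) :=
    { carrier := {y | Lf y}
      add_mem' := fun ha hb => Lf.add ha hb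
      zero_mem' := Lf.zero
      smul_mem' := fun q _ hy => Lf.smul hy q }
  exact (Subspace.forall_mem_dualAnnihilator_apply_eq_zero_iff H x).1 fun φ hφ =>
    h φ fun y hy => (Submodule.mem_dualAnnihilator φ).1 hφ y hy

theorem phi_zs (φ : (ℕ → ℚ) →ₗ[ℚ] ℚ) (L : List (List ℕ+)) :
    φ (zs L) = (L.map fun k => φ (zeta k)).sum := by
  induction L with
  | nil => exact φ.map_zero
  | cons k L ih =>
    rw [List.map_cons, List.sum_cons, ← ih, ← φ.map_add]
    rfl

/-- the relations satisfied by the values of a linear form that kills the ideal -/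
structure Rl (x : List ℕ+ → ℚ) : Prop where
  du : ∀ w, ((dl w).map x).sum = 0
  st : ∀ k, Lf (zeta k) → ∀ l, k.length + l.length < 9 → ((stl 9 k l).map x).sum = 0
  s3 : ∀ l : List ℕ+, l.length < 7 →
    ((stl 9 [1, 2] l).map x).sum + ((stl 9 [2, 1] l).map x).sum = 0

theorem rl_of {φ : (ℕ → ℚ) →ₗ[ℚ] ℚ} (h : ∀ y, Lf y → φ y = 0) : Rl fun k => φ (zeta k) where
  du w := by rw [← phi_zs]; exact h _ (du_lf w)
  st k hk l hl := by rw [← phi_zs]; exact h _ (st_lf hk l hl)
  s3 l hl := by
    rw [← phi_zs, ← phi_zs, ← φ.map_add]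
    refine h _ ((fzlow_w3.2.2.mul (zeta_mem l)).congr (Eventually.of_forall fun p _ => ?_))
    rw [Pi.add_apply, ← stl_spec 9 _ l (by simp only [List.length_cons, List.length_nil]; omega),
      ← stl_spec 9 _ l (by simp only [List.length_cons, List.length_nil]; omega), add_mul]

end Pool.Agent.FMZ
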