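import Pool.Agent.P.MP_cb43af_nt.FvNode
import Pool.Agent.P.MP_cb43af_nt.FzTriv

open Finset Filter Polynomial Topology
namespace Pool.Agent.FMZ

variable {a b c : ℤ} {f : Nd → ℚ} {n m : ℕ} {x : Col m → Nd}

theorem triv5_gen (h : Ch5 a b c f) (hx : Sel n m x) (hD : DD m f x ≠ 0) (p : ℕ) [Fact p.Prime]
    {L K : ℕ} (hL : 12 * n ≤ p ^ (L + 1))
    (hK : ∀ r s, r ≠ s → ¬ (p : ℤ) ^ (K + 1) ∣ zz (x r) - zz (x s)) :
    -(20 * m * L : ℤ) - (∑ k ∈ Icc 1 K, mult fun r => zz (x r) % (p : ℤ) ^ k : ℕ)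
      ≤ padicValRat p (qq m f x) := by
  have e : DD m f x = ∑ S : Finset (Col m), (∏ r ∈ S, (f (x r) - 0)) *
      DS m (fun r => (zz (x r) : ℚ)) (fun _ => 0) S := det_expand _ _ (fun _ => 0)
  obtain ⟨S, -, hne, hle⟩ := val_term p univ _ (e ▸ hD)
  rw [← e] at hle
  have hc : ((DS m (fun r => zz (x r)) (fun _ => 0) S : ℤ) : ℚ) =
      DS m (fun r => (zz (x r) : ℚ)) (fun _ => 0) S := by
    simpa using DS_map (Int.castRingHom ℚ) (fun r => zz (x r)) (fun _ => 0) S
  have h1 := left_ne_zero_of_mul hne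
  have h2 := right_ne_zero_of_mul hne
  have hS : S.card ≤ m := by
    by_contra hlt
    exact h2 (DS_eq_zero _ _ (not_le.1 hlt))
  have h3 : DS m (fun r => zz (x r)) (fun _ => 0) S ≠ 0 := by
    intro h0
    rw [← hc, h0] at h2
    exact h2 Int.cast_zero
  have h4 : ∀ r ∈ S, f (x r) - 0 ≠ 0 := prod_ne_zero_iff.1 h1
  rw [padicValRat.mul h1 h2, val_prod p S _ h4, ← hc, padicValRat.of_int] at hle
  have h5 : ∀ r ∈ S, -(5 * L : ℤ) ≤ padicValRat p (f (x r) - 0) := fun r hr => by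
    refine (val_of_norm p (h4 r hr) _).1 ?_
    have := ch_norm5 h p hL (hx.mem r)
    rw [neg_neg, sub_zero]
    exact_mod_cast this
  have h6 := card_nsmul_le_sum S _ _ h5
  rw [nsmul_eq_mul] at h6
  have h7 := ds_val p hx.zinj (φ := fun _ => 0) (fun _ _ _ => rfl) h3
  have h8 := lev_one p (u := fun r => zz (x r)) hK S
  have h9 : (S.card : ℤ) * L ≤ m * L := by gcongr
  rw [val_qq p hx hD]
  zify at h7 h8
  push_cast at h8 ⊢
  linarith

theorem triv5_a (h : Ch5 a b c f) (hx : Sel n m x) (hD : DD m f x ≠ 0) {p : ℕ} (hp : p.Prime)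
    (h1 : 24 * n ≤ p) : 0 ≤ padicValRat p (qq m f x) := by
  have := Fact.mk hp
  have := triv5_gen h hx hD p (L := 0) (K := 0) (by rw [zero_add, pow_one]; omega) fun r s hrs hd => by
    rw [zero_add, pow_one, zz_sub] at hd
    have a1 := abs_lt.1 (yy_lt (hx.mem r))
    have a2 := abs_lt.1 (yy_lt (hx.mem s))
    have hp' : (24 * n : ℤ) ≤ p := by exact_mod_cast h1
    rcases (Nat.prime_iff_prime_int.1 hp).dvd_or_dvd hd with hd | hd
    · have := Int.eq_zero_of_abs_lt_dvd hd (abs_lt.2 ⟨by omega, by omega⟩)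
      exact hrs (hx.inj (yy_inj (sub_eq_zero.1 this)))
    · exact yy_add_ne _ _ (Int.eq_zero_of_abs_lt_dvd hd (abs_lt.2 ⟨by omega, by omega⟩))
  simpa using this

theorem triv5_b (h : Ch5 a b c f) (hx : Sel n m x) (hD : DD m f x ≠ 0) {p : ℕ} (hp : p.Prime) :
    -(48 * n * Real.log (24 * n)) ≤ (padicValRat p (qq m f x) : ℝ) * Real.log p := by
  have := Fact.mk hp
  have hm := hx.hm
  have hn : 0 < n := by omega
  have hL := (Nat.lt_pow_succ_log_self hp.one_lt (12 * n)).le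
  have hK := Nat.lt_pow_succ_log_self hp.one_lt ((12 * n) ^ 2)
  have hL' := Nat.pow_log_le_self p (show 12 * n ≠ 0 by omega)
  have hK' := Nat.pow_log_le_self p (show (12 * n) ^ 2 ≠ 0 by positivity)
  generalize Nat.log p (12 * n) = L at hL hL'
  generalize Nat.log p ((12 * n) ^ 2) = K at hK hK'
  have key := triv5_gen h hx hD p (L := L) (K := K) hL fun r s hrs hd => by
    have a1 := sq_lt_sq.2 ((yy_lt (hx.mem r)).trans_le (le_abs_self _))
    have a2 := sq_lt_sq.2 ((yy_lt (hx.mem s)).trans_le (le_abs_self _))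
    have hK2 : ((12 * n : ℤ)) ^ 2 < (p : ℤ) ^ (K + 1) := by exact_mod_cast hK
    have b1 := sq_nonneg (yy (x r))
    have b2 := sq_nonneg (yy (x s))
    have aux : ∀ A B N P : ℤ, A < N → B < N → N < P → 0 ≤ A → 0 ≤ B →
        |A - 4 - (B - 4)| < P := fun A B N P _ _ _ _ _ => abs_lt.2 ⟨by omega, by omega⟩
    have := Int.eq_zero_of_abs_lt_dvd hd (aux _ _ _ _ a1 a2 hK2 b1 b2)
    exact hrs (hx.zinj (sub_eq_zero.1 this))
  have hs : (∑ k ∈ Icc 1 K, mult fun r => zz (x r) % (p : ℤ) ^ k) ≤ K * (2 * m) := by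
    refine (sum_le_card_nsmul _ _ (2 * m) fun k _ => (mult_le _).trans_eq ?_).trans_eq (by simp)
    simp [two_mul]
  generalize (∑ k ∈ Icc 1 K, mult fun r => zz (x r) % (p : ℤ) ^ k) = M at key hs
  have k1 : -(20 * m * L : ℝ) - M ≤ padicValRat p (qq m f x) := by exact_mod_cast key
  have k2 : (M : ℝ) ≤ K * (2 * m) := by exact_mod_cast hs
  have hp0 : (0 : ℝ) < p := by exact_mod_cast hp.pos
  have hn0 : (1 : ℝ) ≤ n := by exact_mod_cast hn
  have hlp : 0 ≤ Real.log p := Real.log_natCast_nonneg p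
  have l0 : Real.log (12 * n) ≤ Real.log (24 * n) := Real.log_le_log (by linarith) (by linarith)
  have l00 : 0 ≤ Real.log (12 * n) := Real.log_nonneg (by linarith)
  have l1 : L * Real.log p ≤ Real.log (12 * n) := by
    rw [← Real.log_pow]
    exact Real.log_le_log (by positivity) (by exact_mod_cast hL')
  have l2 : K * Real.log p ≤ 2 * Real.log (12 * n) := by
    have : Real.log ((p : ℝ) ^ K) ≤ Real.log ((12 * n) ^ 2) :=
      Real.log_le_log (by positivity) (by exact_mod_cast hK')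
    rw [Real.log_pow, Real.log_pow] at this
    exact_mod_cast this
  have m1 : (m : ℝ) ≤ 2 * n := by exact_mod_cast (show m ≤ 2 * n by omega)
  have m0 : (0 : ℝ) ≤ m := Nat.cast_nonneg m
  have k3 : -(20 * m * L : ℝ) - K * (2 * m) ≤ padicValRat p (qq m f x) := by linarith
  have k4 := mul_le_mul_of_nonneg_right k3 hlp
  have k5 := mul_le_mul_of_nonneg_left l1 m0
  have k6 := mul_le_mul_of_nonneg_left l2 m0
  have k7 := mul_le_mul m1 l0 l00 (by linarith)
  nlinarith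

theorem triv5_c (h : Ch5 a b c f) (hx : Sel n m x) (hD : DD m f x ≠ 0) {p : ℕ} (hp : p.Prime)
    (h5 : 5 ≤ p) (h2 : 24 * n ≤ p ^ 2) :
    -(44 * n + 4 * n / p + 2 : ℝ) ≤ padicValRat p (qq m f x) := by
  have := Fact.mk hp
  have hm := hx.hm
  have key := triv5_gen h hx hD p (L := 1) (K := 2) (by norm_num; omega) (not_cube hx hp h2)
  have e : Icc 1 2 = ({1, 2} : Finset ℕ) := by decide
  rw [e, sum_pair (by decide)] at key
  have a1 : (mult fun r => zz (x r) % (p : ℤ) ^ 1) ≤ 2 * m := (mult_le _).trans_eq (by simp [two_mul])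
  have a2 := mult_sq hx hp h5 h2
  generalize (mult fun r => zz (x r) % (p : ℤ) ^ 1) = M1 at key a1
  generalize (mult fun r => zz (x r) % (p : ℤ) ^ 2) = M2 at key a2
  have k1 : -(20 * m * (1 : ℕ) : ℝ) - (M1 + M2 : ℕ) ≤ padicValRat p (qq m f x) := by
    exact_mod_cast key
  have k2 : (M1 : ℝ) ≤ 2 * m := by exact_mod_cast a1
  have m1 : (m : ℝ) ≤ 2 * n := by exact_mod_cast (show m ≤ 2 * n by omega)
  push_cast at k1
  linarith

end Pool.Agent.FMZ
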