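import Pool.Agent.P.MP_cb43af_nt.Fz0

open Finset Filter Polynomial Topology
namespace Pool.Agent.FMZ

theorem fzint_nat {p n : ℕ} (hp : p.Prime) (h0 : n ≠ 0) (hn : n < p) : padicNorm p (n : ℚ) = 1 := by
  have := Fact.mk hp
  exact (padicNorm.nat_eq_one_iff n).2 fun h => absurd (Nat.le_of_dvd (by omega) h) (by omega)

theorem fzint_add {p : ℕ} (hp : p.Prime) {a b t : ℚ} (ha : padicNorm p a ≤ t)
    (hb : padicNorm p b ≤ t) : padicNorm p (a + b) ≤ t := by
  have := Fact.mk hp
  exact padicNorm.nonarchimedean.trans (max_le ha hb)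

theorem fzint_mul {p : ℕ} (hp : p.Prime) {a b s t : ℚ} (ha : padicNorm p a ≤ s)
    (hb : padicNorm p b ≤ t) : padicNorm p (a * b) ≤ s * t := by
  have := Fact.mk hp
  rw [padicNorm.mul]
  exact mul_le_mul ha hb (padicNorm.nonneg _) ((padicNorm.nonneg _).trans ha)

theorem fzint_pow {p : ℕ} (hp : p.Prime) (a : ℚ) (k : ℕ) :
    padicNorm p (a ^ k) = padicNorm p a ^ k := by
  have := Fact.mk hp
  induction k with
  | zero => simp
  | succ k ih => rw [pow_succ, padicNorm.mul, ih, pow_succ]

theorem fzint_div {p n : ℕ} (hp : p.Prime) (hn : n < p) {a : ℚ} (ha : padicNorm p a ≤ 1) (k : ℕ) :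
    padicNorm p (a / (n : ℚ) ^ k) ≤ 1 := by
  have := Fact.mk hp
  rw [padicNorm.div, fzint_pow hp]
  by_cases h0 : n = 0
  · subst h0
    cases k <;> simp [ha]
  · rw [fzint_nat hp h0 hn]
    simpa using ha

theorem fzint_p {p : ℕ} (hp : p.Prime) : padicNorm p (p : ℚ) = 1 / (p : ℚ) := by
  have := Fact.mk hp
  rw [padicNorm.padicNorm_p_of_prime, one_div]

theorem rat_unit {q : ℚ} (hq : q ≠ 0) : ∀ᶠ p in atTop, Nat.Prime p → padicNorm p q = 1 := by
  filter_upwards [eventually_gt_atTop q.den, eventually_gt_atTop q.num.natAbs] with p h1 h2 hp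
  have := Fact.mk hp
  have e : padicNorm p (q.num : ℚ) = 1 := (padicNorm.int_eq_one_iff _).2 fun h =>
    absurd (Nat.le_of_dvd (Int.natAbs_pos.2 (Rat.num_ne_zero.2 hq)) (Int.natCast_dvd.1 h))
      (by omega)
  rw [← Rat.num_div_den q, padicNorm.div, e, fzint_nat hp q.den_ne_zero h1, div_one]

theorem rat_int (q : ℚ) : ∀ᶠ p in atTop, Nat.Prime p → padicNorm p q ≤ 1 := by
  by_cases hq : q = 0
  · exact Eventually.of_forall fun p _ => by simp [hq]
  · filter_upwards [rat_unit hq] with p h hp using (h hp).le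

theorem zeta_norm {p : ℕ} (hp : p.Prime) (k : List ℕ+) {n : ℕ} (hn : n ≤ p) :
    padicNorm p (zeta k n) ≤ 1 := by
  have := Fact.mk hp
  induction k generalizing n with
  | nil => simp [zeta]
  | cons a k ih =>
    rw [zeta]
    refine padicNorm.sum_le' (fun i hi => ?_) zero_le_one
    have := (mem_Ioo.1 hi).2
    exact fzint_div hp (by omega) (ih (by omega)) _

theorem UU_int {φ : ℕ → ℚ} (h : φ ∈ UU) :
    ∀ᶠ p in atTop, Nat.Prime p → ∀ n < p, padicNorm p (φ n) ≤ 1 := by
  induction h using Submodule.span_induction with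
  | mem x hx =>
    obtain ⟨t, rfl⟩ := hx
    exact Eventually.of_forall fun p hp n hn => fzint_div hp hn (zeta_norm hp _ hn.le) _
  | zero => exact Eventually.of_forall fun p _ n _ => by simp
  | add x y _ _ hx hy =>
    filter_upwards [hx, hy] with p h1 h2 hp n hn using fzint_add hp (h1 hp n hn) (h2 hp n hn)
  | smul a x _ hx =>
    filter_upwards [hx, rat_int a] with p h1 h2 hp n hn
    simpa using fzint_mul hp (h2 hp) (h1 hp n hn)

theorem VV_int {x : ℕ → ℚ} (h : x ∈ VV) :
    ∀ᶠ p in atTop, Nat.Prime p → padicNorm p (x p) ≤ 1 := by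
  induction h using Submodule.span_induction with
  | mem x hx =>
    obtain ⟨t, rfl⟩ := hx
    exact Eventually.of_forall fun p hp => zeta_norm hp _ le_rfl
  | zero => exact Eventually.of_forall fun p _ => by simp
  | add x y _ _ hx hy =>
    filter_upwards [hx, hy] with p h1 h2 hp using fzint_add hp (h1 hp) (h2 hp)
  | smul a x _ hx =>
    filter_upwards [hx, rat_int a] with p h1 h2 hp
    simpa using fzint_mul hp (h2 hp) (h1 hp)

variable {N : ℕ} {x y z x' y' : ℕ → ℚ}

theorem Cong.of_eq (h : ∀ᶠ p in atTop, Nat.Prime p → x p = y p) : Cong N x y := by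
  filter_upwards [h] with p h hp
  rw [h hp, sub_self, padicNorm.zero]
  positivity
theorem Cong.symm (h : Cong N x y) : Cong N y x := by
  filter_upwards [h] with p h hp
  have := Fact.mk hp
  rw [← neg_sub, padicNorm.neg]
  exact h hp
theorem Cong.trans (h : Cong N x y) (h' : Cong N y z) : Cong N x z := by
  filter_upwards [h, h'] with p h h' hp
  simpa using fzint_add hp (h hp) (h' hp)
theorem Cong.add (h : Cong N x y) (h' : Cong N x' y') :
    Cong N (fun p => x p + x' p) fun p => y p + y' p := by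
  filter_upwards [h, h'] with p h h' hp
  rw [add_sub_add_comm]
  exact fzint_add hp (h hp) (h' hp)
theorem Cong.mul (h : Cong N x y) (hz : ∀ᶠ p in atTop, Nat.Prime p → padicNorm p (z p) ≤ 1) :
    Cong N (fun p => x p * z p) fun p => y p * z p := by
  filter_upwards [h, hz] with p h h' hp
  rw [← sub_mul]
  simpa using fzint_mul hp (h hp) (h' hp)
theorem Cong.smul (h : Cong N x y) (q : ℚ) :
    Cong N (fun p => q * x p) fun p => q * y p := by
  filter_upwards [h, rat_int q] with p h h' hp
  rw [← mul_sub]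
  simpa using fzint_mul hp (h' hp) (h hp)
theorem Cong.mulp (h : Cong N x y) :
    Cong (N + 1) (fun p => p * x p) fun p => p * y p := by
  filter_upwards [h] with p h hp
  rw [← mul_sub, pow_succ', ← one_div_mul_one_div]
  exact fzint_mul hp (fzint_p hp).le (h hp)
theorem Cong.sq (h : Cong 1 x 0) : Cong 2 (fun p => x p * x p) 0 := by
  filter_upwards [h] with p h hp
  have h1 := h hp
  simp only [Pi.zero_apply, sub_zero, pow_one] at h1 ⊢
  rw [pow_two, ← one_div_mul_one_div]
  exact fzint_mul hp h1 h1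
theorem Cong.pow_mul (hz : ∀ᶠ p in atTop, Nat.Prime p → padicNorm p (z p) ≤ 1) :
    Cong N (fun p => (p : ℚ) ^ N * z p) 0 := by
  filter_upwards [hz] with p h hp
  simp only [Pi.zero_apply, sub_zero]
  have h1 : padicNorm p ((p : ℚ) ^ N) ≤ 1 / (p : ℚ) ^ N := by
    rw [fzint_pow hp, fzint_p hp, one_div_pow]
  simpa using fzint_mul hp h1 (h hp)

end Pool.Agent.FMZ
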