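import Pool.Agent.P.MP_cb43af_nt.FzRed
import Pool.Agent.P.MP_cb43af_nt.FzInt

open Finset Filter Polynomial Topology
namespace Pool.Agent.FMZ

theorem fzvor_mem {n k j : ℕ} (h : Nat.Coprime n k) (hj : j ∈ Ioo 0 n) : k * j % n ∈ Ioo 0 n := by
  rw [mem_Ioo] at hj ⊢
  refine ⟨Nat.pos_of_ne_zero fun e => ?_, Nat.mod_lt _ (by omega)⟩
  have := Nat.le_of_dvd hj.1 (h.dvd_of_dvd_mul_left (Nat.dvd_of_mod_eq_zero e))
  omega

theorem fzvor_perm {A : Type} [AddCommMonoid A] {n k : ℕ} (h : Nat.Coprime n k) (g : ℕ → A) :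
    ∑ j ∈ Ioo 0 n, g (k * j % n) = ∑ j ∈ Ioo 0 n, g j := by
  have hi : Set.InjOn (fun j => k * j % n) (Ioo 0 n : Finset ℕ) := by
    intro a ha b hb e
    have ha' := mem_Ioo.1 (mem_coe.1 ha)
    have hb' := mem_Ioo.1 (mem_coe.1 hb)
    have e1 : a ≡ b [MOD n] := Nat.ModEq.cancel_left_of_coprime h e
    exact Nat.ModEq.eq_of_lt_of_lt e1 ha'.2 hb'.2
  have him : (Ioo 0 n).image (fun j => k * j % n) = Ioo 0 n := by
    apply eq_of_subset_of_card_le
    · intro x hx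
      obtain ⟨j, hj, rfl⟩ := mem_image.1 hx
      exact fzvor_mem h hj
    · rw [card_image_of_injOn hi]
  conv_rhs => rw [← him]
  rw [sum_image hi]

theorem fzvor_zeta (p : ℕ) : zeta [2] p = ∑ j ∈ Ioo 0 p, 1 / (j : ℚ) ^ 2 := by
  simp [zeta]

theorem fzvor_rat {p d : ℕ} (hp : 0 < p) (h : Nat.Coprime p d) :
    (((d : ℤ) ^ 3 - d : ℤ) : ℚ) * (zeta [2] p / p) = ∑ j ∈ Ioo 0 p,
      (((d * (d * j / p) * (d * j + d * j % p) : ℕ) : ℤ) : ℚ) /
        ((((d * j % p) * j : ℕ) : ℤ) : ℚ) ^ 2 := by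
  have h1 := fzvor_perm h (fun j => 1 / (j : ℚ) ^ 2)
  have hp' : (p : ℚ) ≠ 0 := by exact_mod_cast hp.ne'
  have e : (((d : ℤ) ^ 3 - d : ℤ) : ℚ) * (zeta [2] p / p) =
      (d : ℚ) ^ 3 / p * zeta [2] p - (d : ℚ) / p * zeta [2] p := by
    push_cast; ring
  rw [e, fzvor_zeta]
  nth_rewrite 1 [← h1]
  rw [mul_sum, mul_sum, ← sum_sub_distrib]
  apply sum_congr rfl
  intro j hj
  have hr := mem_Ioo.1 (fzvor_mem h hj)
  have hj' := mem_Ioo.1 hj
  have hd := Nat.div_add_mod (d * j) p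
  generalize d * j % p = r at hr hd
  generalize d * j / p = t at hd
  have r0 : (r : ℚ) ≠ 0 := by exact_mod_cast hr.1.ne'
  have j0 : (j : ℚ) ≠ 0 := by exact_mod_cast hj'.1.ne'
  have hq : (p : ℚ) * t + r = d * j := by exact_mod_cast hd
  have ht : (t : ℚ) = (d * j - r) / p := by
    rw [eq_div_iff hp']; linear_combination hq
  push_cast
  rw [ht]
  field_simp
  ring

theorem fzvor_count {p d j : ℕ} (hp : 0 < p) (hd : 0 < d) (hj : j < p) :
    d * j / p = ∑ a ∈ Ioo 0 d, if a * p ≤ d * j then 1 else 0 := by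
  rw [← card_filter]
  have hlt : d * j / p < d := by
    rw [Nat.div_lt_iff_lt_mul hp]
    exact Nat.mul_lt_mul_of_pos_left hj hd
  have : (Ioo 0 d).filter (fun a => a * p ≤ d * j) = Icc 1 (d * j / p) := by
    ext a
    rw [mem_filter, mem_Ioo, mem_Icc, ← Nat.le_div_iff_mul_le hp]
    omega
  rw [this, Nat.card_Icc, Nat.add_sub_cancel]

theorem fzvor_tail {p : ℕ} [Fact p.Prime] (h5 : 5 ≤ p) {m : ℕ} (hm : m < p) :
    ∑ j ∈ Ioo 0 p, (if m < j then ((j : ZMod p)⁻¹) ^ 3 else 0) = -Phi p m := by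
  have h0 : Phi p (-1) = 0 := by
    have := phi_refl h5 (0 : ZMod p)
    rw [sub_zero] at this
    rw [this]
    simp [Phi]
  have hv : (-1 : ZMod p).val = p - 1 := by
    obtain ⟨q, rfl⟩ : ∃ q, p = q + 1 := ⟨p - 1, by omega⟩
    exact ZMod.val_neg_one q
  have hI : Icc 1 (p - 1) = Ioo 0 p := by
    ext a
    rw [mem_Icc, mem_Ioo]
    omega
  rw [Phi, hv, hI, ← sum_filter_add_sum_filter_not _ (fun j => m < j)] at h0
  have hF : (Ioo 0 p).filter (fun j => ¬m < j) = Icc 1 m := by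
    ext a
    rw [mem_filter, mem_Icc, mem_Ioo]
    omega
  rw [hF] at h0
  rw [← sum_filter, Phi, ZMod.val_natCast, Nat.mod_eq_of_lt hm]
  exact eq_neg_of_add_eq_zero_left h0

/-- the congruence of Voronoi -/
theorem voronoi {p : ℕ} [Fact p.Prime] (h5 : 5 ≤ p) {d : ℕ} (hd : 0 < d) (hdp : d < p)
    (h : padicNorm p (zeta [2] p) ≤ 1 / p) :
    ((d : ZMod p) ^ 3 - d) * ((zeta [2] p / p : ℚ) : ZMod p)
      = -2 * ∑ c ∈ Ioo 0 d, Phi p (-(c : ZMod p) * (d : ZMod p)⁻¹) := by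
  have hpp : p.Prime := Fact.out
  have hp : 0 < p := hpp.pos
  have hc : Nat.Coprime p d := Nat.coprime_of_lt_prime hd.ne' hdp hpp
  have unit : ∀ j ∈ Ioo 0 p, (j : ZMod p) ≠ 0 := by
    intro j hj e
    have hj' := mem_Ioo.1 hj
    have := Nat.le_of_dvd hj'.1 ((ZMod.natCast_eq_zero_iff j p).1 e)
    omega
  have d0 : (d : ZMod p) ≠ 0 := unit d (mem_Ioo.2 ⟨hd, hdp⟩)
  have hW : padicNorm p (zeta [2] p / p) ≤ 1 := by
    have hp' : (0 : ℚ) < p := by exact_mod_cast hp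
    rw [padicNorm.div, padicNorm.padicNorm_p hpp.one_lt, div_le_one (inv_pos.2 hp'), ← one_div]
    exact h
  have nd : ∀ j ∈ Ioo 0 p, ¬(p : ℤ) ∣ (((d * j % p) * j : ℕ) : ℤ) := by
    intro j hj e
    rw [Int.natCast_dvd_natCast, ← ZMod.natCast_eq_zero_iff, Nat.cast_mul] at e
    exact mul_ne_zero (unit _ (fzvor_mem hc hj)) (unit j hj) e
  have h1 := congrArg (fun q : ℚ => (q : ZMod p)) (fzvor_rat hp hc)
  rw [red_mul (padicNorm.of_int _) hW, Rat.cast_intCast,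
    red_sum _ _ fun j hj => (red_div _ _ 2 (nd j hj)).1] at h1
  have h2 : ∀ j ∈ Ioo 0 p, ((((((d * (d * j / p) * (d * j + d * j % p) : ℕ) : ℤ) : ℚ) /
      ((((d * j % p) * j : ℕ) : ℤ) : ℚ) ^ 2 : ℚ)) : ZMod p) =
      2 * ∑ a ∈ Ioo 0 d, if a * p ≤ d * j then ((j : ZMod p)⁻¹) ^ 3 else 0 := by
    intro j hj
    have j0 := unit j hj
    have e1 : ∑ a ∈ Ioo 0 d, (if a * p ≤ d * j then ((j : ZMod p)⁻¹) ^ 3 else 0) =
        ((d * j / p : ℕ) : ZMod p) * ((j : ZMod p)⁻¹) ^ 3 := by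
      rw [fzvor_count hp hd (mem_Ioo.1 hj).2, Nat.cast_sum, sum_mul]
      apply sum_congr rfl
      intro a _
      split_ifs <;> simp
    rw [(red_div _ _ 2 (nd j hj)).2, e1, Int.cast_natCast, Int.cast_natCast]
    generalize d * j / p = t
    rw [Nat.cast_mul, Nat.cast_mul, Nat.cast_add, Nat.cast_mul (d * j % p), ZMod.natCast_mod,
      Nat.cast_mul]
    field_simp
    ring
  rw [sum_congr rfl h2, ← mul_sum, sum_comm] at h1
  have h3 : ∀ a ∈ Ioo 0 d, ∑ j ∈ Ioo 0 p, (if a * p ≤ d * j then ((j : ZMod p)⁻¹) ^ 3 else 0) =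
      -Phi p (-((p * a % d : ℕ) : ZMod p) * (d : ZMod p)⁻¹) := by
    intro a ha
    have hr := mem_Ioo.1 (fzvor_mem hc.symm ha)
    have ha' := mem_Ioo.1 ha
    have hdm := Nat.div_add_mod (p * a) d
    have hm : p * a / d < p := by
      rw [Nat.div_lt_iff_lt_mul hd]
      exact Nat.mul_lt_mul_of_pos_left ha'.2 hp
    have e1 : ((p * a / d : ℕ) : ZMod p) = -((p * a % d : ℕ) : ZMod p) * (d : ZMod p)⁻¹ := by
      have := congrArg (fun n : ℕ => (n : ZMod p)) hdm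
      simp only [Nat.cast_add, Nat.cast_mul, ZMod.natCast_self, zero_mul] at this
      rw [eq_mul_inv_iff_mul_eq₀ d0]
      linear_combination this
    rw [← e1, ← fzvor_tail h5 hm]
    apply sum_congr rfl
    intro j _
    apply if_congr _ rfl rfl
    rw [Nat.div_lt_iff_lt_mul hd, mul_comm a p, mul_comm j d]
    refine ⟨fun hle => lt_of_le_of_ne hle fun e => ?_, le_of_lt⟩
    rw [e, Nat.mul_mod_right] at hr
    exact lt_irrefl _ hr.1
  rw [sum_congr rfl h3, sum_neg_distrib,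
    fzvor_perm hc.symm fun c => Phi p (-(c : ZMod p) * (d : ZMod p)⁻¹)] at h1
  push_cast at h1
  linear_combination h1

end Pool.Agent.FMZ
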