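import Pool.Agent.P.MP_cb43af_nt.FvPhi
import Pool.Agent.P.MP_cb43af_nt.FzVor

open Finset Filter Polynomial Topology
namespace Pool.Agent.FMZ

theorem fvvor_zeta (p : ℕ) : zeta [4] p = ∑ j ∈ Ioo 0 p, 1 / (j : ℚ) ^ 4 := by
  simp [zeta]

theorem fvvor_rat {p d : ℕ} (hp : 0 < p) (h : Nat.Coprime p d) :
    (((d : ℤ) ^ 5 - d : ℤ) : ℚ) * (zeta [4] p / p) = ∑ j ∈ Ioo 0 p,
      (((d * (d * j / p) * ((d * j) ^ 3 + (d * j) ^ 2 * (d * j % p) + d * j * (d * j % p) ^ 2 +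
        (d * j % p) ^ 3) : ℕ) : ℤ) : ℚ) /
        ((((d * j % p) * j : ℕ) : ℤ) : ℚ) ^ 4 := by
  have h1 := fzvor_perm h (fun j => 1 / (j : ℚ) ^ 4)
  have hp' : (p : ℚ) ≠ 0 := by exact_mod_cast hp.ne'
  have e : (((d : ℤ) ^ 5 - d : ℤ) : ℚ) * (zeta [4] p / p) =
      (d : ℚ) ^ 5 / p * zeta [4] p - (d : ℚ) / p * zeta [4] p := by
    push_cast; ring
  rw [e, fvvor_zeta]
  nth_rewrite 1 [← h1]
  rw [mul_sum, mul_sum, ← sum_sub_distrib]
  apply sum_congr rfl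
  intro j hj
  have hr := mem_Ioo.1 (fzvor_mem h hj)
  have hj' := mem_Ioo.1 hj
  have hd := Nat.div_add_mod (d * j) p
  generalize d * j % p = r at hr hd
  generalize d * j / p = t at hd
  have r0 : (r : ℚ) ≠ 0 := by exact_mod_cast hr.1.ne'
  have j0 : (j : ℚ) ≠ 0 := by exact_mod_cast hj'.1.ne'
  have hq : (p : ℚ) * t + r = d * j := by exact_mod_cast hd
  have ht : (t : ℚ) = (d * j - r) / p := by
    rw [eq_div_iff hp']; linear_combination hq
  push_cast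
  rw [ht]
  field_simp
  ring

theorem fvvor_tail {p : ℕ} [Fact p.Prime] (h7 : 7 ≤ p) {m : ℕ} (hm : m < p) :
    ∑ j ∈ Ioo 0 p, (if m < j then ((j : ZMod p)⁻¹) ^ 5 else 0) = -Phi5 p m := by
  have h0 : Phi5 p (-1) = 0 := by
    have := phi5_refl h7 (0 : ZMod p)
    rw [sub_zero] at this
    rw [this]
    simp [Phi5]
  have hv : (-1 : ZMod p).val = p - 1 := by
    obtain ⟨q, rfl⟩ : ∃ q, p = q + 1 := ⟨p - 1, by omega⟩
    exact ZMod.val_neg_one q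
  have hI : Icc 1 (p - 1) = Ioo 0 p := by
    ext a
    rw [mem_Icc, mem_Ioo]
    omega
  rw [Phi5, hv, hI, ← sum_filter_add_sum_filter_not _ (fun j => m < j)] at h0
  have hF : (Ioo 0 p).filter (fun j => ¬m < j) = Icc 1 m := by
    ext a
    rw [mem_filter, mem_Icc, mem_Ioo]
    omega
  rw [hF] at h0
  rw [← sum_filter, Phi5, ZMod.val_natCast, Nat.mod_eq_of_lt hm]
  exact eq_neg_of_add_eq_zero_left h0

theorem voronoi4 {p : ℕ} [Fact p.Prime] (h7 : 7 ≤ p) {d : ℕ} (hd : 0 < d) (hdp : d < p)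
    (h : padicNorm p (zeta [4] p) ≤ 1 / p) :
    ((d : ZMod p) ^ 5 - d) * ((zeta [4] p / p : ℚ) : ZMod p)
      = -4 * ∑ c ∈ Ioo 0 d, Phi5 p (-(c : ZMod p) * (d : ZMod p)⁻¹) := by
  have hpp : p.Prime := Fact.out
  have hp : 0 < p := hpp.pos
  have hc : Nat.Coprime p d := Nat.coprime_of_lt_prime hd.ne' hdp hpp
  have unit : ∀ j ∈ Ioo 0 p, (j : ZMod p) ≠ 0 := by
    intro j hj e
    have hj' := mem_Ioo.1 hj
    have := Nat.le_of_dvd hj'.1 ((ZMod.natCast_eq_zero_iff j p).1 e)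
    omega
  have d0 : (d : ZMod p) ≠ 0 := unit d (mem_Ioo.2 ⟨hd, hdp⟩)
  have hW : padicNorm p (zeta [4] p / p) ≤ 1 := by
    have hp' : (0 : ℚ) < p := by exact_mod_cast hp
    rw [padicNorm.div, padicNorm.padicNorm_p hpp.one_lt, div_le_one (inv_pos.2 hp'), ← one_div]
    exact h
  have nd : ∀ j ∈ Ioo 0 p, ¬(p : ℤ) ∣ (((d * j % p) * j : ℕ) : ℤ) := by
    intro j hj e
    rw [Int.natCast_dvd_natCast, ← ZMod.natCast_eq_zero_iff, Nat.cast_mul] at e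
    exact mul_ne_zero (unit _ (fzvor_mem hc hj)) (unit j hj) e
  have h1 := congrArg (fun q : ℚ => (q : ZMod p)) (fvvor_rat hp hc)
  rw [red_mul (padicNorm.of_int _) hW, Rat.cast_intCast,
    red_sum _ _ fun j hj => (red_div _ _ 4 (nd j hj)).1] at h1
  have h2 : ∀ j ∈ Ioo 0 p, ((((((d * (d * j / p) * ((d * j) ^ 3 + (d * j) ^ 2 * (d * j % p) +
      d * j * (d * j % p) ^ 2 + (d * j % p) ^ 3) : ℕ) : ℤ) : ℚ) /
      ((((d * j % p) * j : ℕ) : ℤ) : ℚ) ^ 4 : ℚ)) : ZMod p) =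
      4 * ∑ a ∈ Ioo 0 d, if a * p ≤ d * j then ((j : ZMod p)⁻¹) ^ 5 else 0 := by
    intro j hj
    have j0 := unit j hj
    have e1 : ∑ a ∈ Ioo 0 d, (if a * p ≤ d * j then ((j : ZMod p)⁻¹) ^ 5 else 0) =
        ((d * j / p : ℕ) : ZMod p) * ((j : ZMod p)⁻¹) ^ 5 := by
      rw [fzvor_count hp hd (mem_Ioo.1 hj).2, Nat.cast_sum, sum_mul]
      apply sum_congr rfl
      intro a _
      split_ifs <;> simp
    rw [(red_div _ _ 4 (nd j hj)).2, e1, Int.cast_natCast, Int.cast_natCast]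
    generalize d * j / p = t
    simp only [Nat.cast_mul, Nat.cast_add, Nat.cast_pow, ZMod.natCast_mod]
    field_simp
    ring
  rw [sum_congr rfl h2, ← mul_sum, sum_comm] at h1
  have h3 : ∀ a ∈ Ioo 0 d, ∑ j ∈ Ioo 0 p, (if a * p ≤ d * j then ((j : ZMod p)⁻¹) ^ 5 else 0) =
      -Phi5 p (-((p * a % d : ℕ) : ZMod p) * (d : ZMod p)⁻¹) := by
    intro a ha
    have hr := mem_Ioo.1 (fzvor_mem hc.symm ha)
    have ha' := mem_Ioo.1 ha
    have hdm := Nat.div_add_mod (p * a) d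
    have hm : p * a / d < p := by
      rw [Nat.div_lt_iff_lt_mul hd]
      exact Nat.mul_lt_mul_of_pos_left ha'.2 hp
    have e1 : ((p * a / d : ℕ) : ZMod p) = -((p * a % d : ℕ) : ZMod p) * (d : ZMod p)⁻¹ := by
      have := congrArg (fun n : ℕ => (n : ZMod p)) hdm
      simp only [Nat.cast_add, Nat.cast_mul, ZMod.natCast_self, zero_mul] at this
      rw [eq_mul_inv_iff_mul_eq₀ d0]
      linear_combination this
    rw [← e1, ← fvvor_tail h7 hm]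
    apply sum_congr rfl
    intro j _
    apply if_congr _ rfl rfl
    rw [Nat.div_lt_iff_lt_mul hd, mul_comm a p, mul_comm j d]
    refine ⟨fun hle => lt_of_le_of_ne hle fun e => ?_, le_of_lt⟩
    rw [e, Nat.mul_mod_right] at hr
    exact lt_irrefl _ hr.1
  rw [sum_congr rfl h3, sum_neg_distrib,
    fzvor_perm hc.symm fun c => Phi5 p (-(c : ZMod p) * (d : ZMod p)⁻¹)] at h1
  push_cast at h1
  linear_combination h1

theorem ff5_val {p : ℕ} [Fact p.Prime] (h7 : 7 ≤ p) (h : padicNorm p (zeta [4] p) ≤ 1 / p) :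
    4 * 12 ^ 5 * (FF5 p 3 - FF5 p 2) = -375 * ((zeta [4] p / p : ℚ) : ZMod p) := by
  have ne : ∀ k : ℕ, 0 < k → k < 7 → ((k : ℕ) : ZMod p) ≠ 0 := fun k h0 h1 h =>
    absurd (Nat.le_of_dvd h0 ((ZMod.natCast_eq_zero_iff k p).1 h)) (by omega)
  have h2 : (2 : ZMod p) ≠ 0 := by exact_mod_cast ne 2 (by omega) (by omega)
  have h3 : (3 : ZMod p) ≠ 0 := by exact_mod_cast ne 3 (by omega) (by omega)
  have h4 : (4 : ZMod p) ≠ 0 := by exact_mod_cast ne 4 (by omega) (by omega)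
  have h12 : (12 : ZMod p) ≠ 0 := by
    rw [show (12 : ZMod p) = 3 * 4 by norm_num]; exact mul_ne_zero h3 h4
  have v2 := voronoi4 h7 (d := 2) (by omega) (by omega) h
  have v3 := voronoi4 h7 (d := 3) (by omega) (by omega) h
  have v4 := voronoi4 h7 (d := 4) (by omega) (by omega) h
  rw [show Ioo 0 2 = ({1} : Finset ℕ) by decide, sum_singleton] at v2
  rw [show Ioo 0 3 = ({1, 2} : Finset ℕ) by decide, sum_insert (by decide), sum_singleton] at v3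
  rw [show Ioo 0 4 = ({1, 2, 3} : Finset ℕ) by decide, sum_insert (by decide),
    sum_insert (by decide), sum_singleton] at v4
  push_cast at v2 v3 v4
  have e3 : -(2 : ZMod p) * (3 : ZMod p)⁻¹ = -1 - (-1 * (3 : ZMod p)⁻¹) := by
    field_simp; norm_num
  have e4 : -(3 : ZMod p) * (4 : ZMod p)⁻¹ = -1 - (-1 * (4 : ZMod p)⁻¹) := by
    field_simp; norm_num
  have e5 : -(2 : ZMod p) * (4 : ZMod p)⁻¹ = -1 * (2 : ZMod p)⁻¹ := by
    field_simp; norm_num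
  rw [e3, phi5_refl h7] at v3
  rw [e4, phi5_refl h7, e5] at v4
  have f3 : ((3 : ZMod p) - 6) * (12 : ZMod p)⁻¹ = -1 * (4 : ZMod p)⁻¹ := by
    field_simp; norm_num
  have f2 : ((2 : ZMod p) - 6) * (12 : ZMod p)⁻¹ = -1 * (3 : ZMod p)⁻¹ := by
    field_simp; norm_num
  have i12 : (12 : ZMod p) ^ 5 * ((12 : ZMod p)⁻¹) ^ 5 = 1 := by
    rw [← mul_pow, mul_inv_cancel₀ h12, one_pow]
  unfold FF5
  rw [f3, f2]
  generalize Phi5 p (-1 * (4 : ZMod p)⁻¹) = A at *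
  generalize Phi5 p (-1 * (3 : ZMod p)⁻¹) = B at *
  generalize Phi5 p (-1 * (2 : ZMod p)⁻¹) = C at *
  generalize ((zeta [4] p / p : ℚ) : ZMod p) = W at *
  generalize ((12 : ZMod p)⁻¹) ^ 5 = u at *
  apply mul_left_cancel₀ h2
  linear_combination (8 * (A - B)) * i12 + v4 - v2 - v3

end Pool.Agent.FMZ
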