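import Pool.Agent.P.MP_cb43af_nt.Fz0

open Finset Filter Polynomial
namespace Pool.Agent.FMZ

theorem exists_minor {α κ : Type} [Fintype κ] [DecidableEq κ] (A : Finset α) (v : α → κ → ℚ)
    (h : ∀ c : κ → ℚ, (∀ x ∈ A, ∑ k, v x k * c k = 0) → c = 0) :
    ∃ x : κ → α, Function.Injective x ∧ (∀ r, x r ∈ A) ∧
      Matrix.det (Matrix.of fun r => v (x r)) ≠ 0 := by
  have hs : Submodule.span ℚ (v '' A) = ⊤ := by
    by_contra hne
    obtain ⟨f, hf, hle⟩ := Submodule.exists_le_ker_of_lt_top _ (lt_top_iff_ne_top.2 hne)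
    have h0 := h (fun k => f fun j => if k = j then 1 else 0) fun x hx => by
      have h1 : f (v x) = 0 := hle (Submodule.subset_span ⟨x, hx, rfl⟩)
      rw [LinearMap.pi_apply_eq_sum_univ] at h1
      exact h1
    refine hf (LinearMap.ext fun y => ?_)
    rw [LinearMap.pi_apply_eq_sum_univ]
    exact sum_eq_zero fun k _ => by rw [show f _ = 0 from congrFun h0 k, smul_zero]
  obtain ⟨b, hb, hsp, hli⟩ := exists_linearIndependent ℚ (v '' A)
  let B : Module.Basis b ℚ (κ → ℚ) := Module.Basis.mk hli (by simp [hsp, hs])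
  let e : κ ≃ b := (Pi.basisFun ℚ κ).indexEquiv B
  choose x hx hx' using fun r => hb (e r).2
  have hl : LinearIndependent ℚ fun r => v (x r) := by
    simp only [hx']
    exact hli.comp e e.injective
  refine ⟨x, fun r r' hr => hl.injective (congrArg v hr), hx, ?_⟩
  exact ((Matrix.isUnit_iff_isUnit_det _).1
    (Matrix.linearIndependent_rows_iff_isUnit.1 hl)).ne_zero

end Pool.Agent.FMZ
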