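import Pool.Agent.P.MP_cb43af_nt.FzRat
import Pool.Agent.P.MP_cb43af_nt.FzRank
import Pool.Agent.P.MP_cb43af_nt.FzNode

open Finset Filter Polynomial
namespace Pool.Agent.FMZ

theorem fzzero_deg {P : ℚ[X]} {m : ℕ} (hm : 1 ≤ m) (hP : P.degree < m) :
    P.natDegree ≤ m - 1 := by
  by_cases h0 : P = 0
  · simp [h0]
  · have := (natDegree_lt_iff_degree_lt h0).2 hP
    omega

theorem fzzero_comp {P : ℚ[X]} {k : ℕ} (hP : P.natDegree ≤ k) (c : ℚ) :
    ((P.comp (X ^ 2 - C 4)).comp (X + C c)).natDegree ≤ 2 * k := by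
  rw [natDegree_comp, natDegree_comp, natDegree_X_add_C, natDegree_X_pow_sub_C]
  omega

theorem fzzero_comp' {P : ℚ[X]} {k : ℕ} (hP : P.natDegree ≤ k) (c : ℚ) :
    ((P.comp (X ^ 2 - C 4)).comp (X - C c)).natDegree ≤ 2 * k := by
  rw [natDegree_comp, natDegree_comp, natDegree_X_sub_C, natDegree_X_pow_sub_C]
  omega

/-- the links with both signs -/
def fzzero_lk (t : Bool × Nd) : ℤ := if t.1 then yy t.2 + 6 else -(yy t.2 + 6)

theorem fzzero_inj : Function.Injective fzzero_lk := by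
  rintro ⟨s, e, i⟩ ⟨s', e', i'⟩ h
  cases s <;> cases s' <;> cases e <;> cases e' <;>
    simp only [fzzero_lk, yy, if_true, if_false, Bool.false_eq_true] at h <;>
    first
      | (exfalso; omega)
      | (have : i = i' := by omega
         rw [this])

theorem fzzero_coeff {m : ℕ} (c : Fin m → ℚ)
    (h : (∑ k : Fin m, C (c k) * X ^ (k : ℕ) : ℚ[X]) = 0) (j : Fin m) : c j = 0 := by
  have e := congrArg (fun p : ℚ[X] => p.coeff (j : ℕ)) h
  simp only [finsetSum_coeff, coeff_C_mul_X_pow, coeff_zero, Fin.val_inj] at e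
  simpa using e

theorem zero_poly {a b : ℤ} (hb : b ≠ 0) {f : Nd → ℚ} (h : Ch a b f) {n m : ℕ}
    (hm : m + 1 = 2 * n) (P Q : ℚ[X]) (hP : P.degree < m) (hQ : Q.degree < m)
    (h0 : ∀ x ∈ nodes n, P.eval (zz x : ℚ) + f x * Q.eval (zz x : ℚ) = 0) : P = 0 ∧ Q = 0 := by
  classical
  have m1 : 1 ≤ m := by omega
  have dP := fzzero_deg m1 hP
  have dQ := fzzero_deg m1 hQ
  set P1 : ℚ[X] := P.comp (X ^ 2 - C 4) with hP1
  set Q1 : ℚ[X] := Q.comp (X ^ 2 - C 4) with hQ1
  have hN : X ^ 3 * (P1.comp (X - C 6) * Q1.comp (X + C 6) - P1.comp (X + C 6) * Q1.comp (X - C 6))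
      - C (b : ℚ) * (Q1.comp (X + C 6) * Q1.comp (X - C 6)) = 0 := by
    refine eq_zero_of_natDegree_lt_card_of_eval_eq_zero' _
      (((univ : Finset Bool) ×ˢ ((univ : Finset Bool) ×ˢ Ico (-(n : ℤ)) ((n : ℤ) - 1))).image
        fun t => ((fzzero_lk t : ℤ) : ℚ)) ?_ ?_
    · intro l hl
      obtain ⟨⟨s, e, i⟩, ht, rfl⟩ := mem_image.1 hl
      have hi : -(n : ℤ) ≤ i ∧ i < (n : ℤ) - 1 := by simpa using ht
      have e1 := h0 (e, i) (mem_nodes.2 ⟨hi.1, by simp only; omega⟩)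
      have e2 := h0 (e, i + 1) (mem_nodes.2 ⟨by simp only; omega, by simp only; omega⟩)
      have e3 := h.step e i
      have l0 : (yy (e, i) : ℚ) + 6 ≠ 0 := by exact_mod_cast yy_link_ne (e, i)
      have z1 : (zz (e, i) : ℚ) = (yy (e, i) : ℚ) ^ 2 - 4 := by simp [zz]
      have z2 : (zz (e, i + 1) : ℚ) = ((yy (e, i) : ℚ) + 12) ^ 2 - 4 := by
        have : yy (e, i + 1) = yy (e, i) + 12 := by
          simp only [yy]
          ring
        simp [zz, this]
      rw [z1] at e1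
      rw [z2, e3] at e2
      have e4 : ((yy (e, i) : ℚ) + 6) ^ 3 * ((b : ℚ) / ((yy (e, i) : ℚ) + 6) ^ 3) = b := by
        field_simp
      generalize (b : ℚ) / ((yy (e, i) : ℚ) + 6) ^ 3 = d at e2 e4
      cases s
      · have a1 : (-((yy (e, i) : ℚ) + 6) - 6) ^ 2 - 4 = ((yy (e, i) : ℚ) + 12) ^ 2 - 4 := by ring
        have a2 : (-((yy (e, i) : ℚ) + 6) + 6) ^ 2 - 4 = (yy (e, i) : ℚ) ^ 2 - 4 := by ring
        simp only [fzzero_lk, Bool.false_eq_true, if_false, hP1, hQ1, eval_sub, eval_mul, eval_pow,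
          eval_X, eval_C, eval_comp, eval_add, Int.cast_neg, Int.cast_add, Int.cast_ofNat, a1, a2]
        linear_combination
          (-((yy (e, i) : ℚ) + 6) ^ 3 * Q.eval ((yy (e, i) : ℚ) ^ 2 - 4)) * e2 +
          (((yy (e, i) : ℚ) + 6) ^ 3 * Q.eval (((yy (e, i) : ℚ) + 12) ^ 2 - 4)) * e1 +
          (Q.eval ((yy (e, i) : ℚ) ^ 2 - 4) * Q.eval (((yy (e, i) : ℚ) + 12) ^ 2 - 4)) * e4
      · have a1 : ((yy (e, i) : ℚ) + 6 - 6) ^ 2 - 4 = (yy (e, i) : ℚ) ^ 2 - 4 := by ring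
        have a2 : ((yy (e, i) : ℚ) + 6 + 6) ^ 2 - 4 = ((yy (e, i) : ℚ) + 12) ^ 2 - 4 := by ring
        simp only [fzzero_lk, if_true, hP1, hQ1, eval_sub, eval_mul, eval_pow,
          eval_X, eval_C, eval_comp, eval_add, Int.cast_add, Int.cast_ofNat, a1, a2]
        linear_combination
          (-((yy (e, i) : ℚ) + 6) ^ 3 * Q.eval ((yy (e, i) : ℚ) ^ 2 - 4)) * e2 +
          (((yy (e, i) : ℚ) + 6) ^ 3 * Q.eval (((yy (e, i) : ℚ) + 12) ^ 2 - 4)) * e1 +
          (Q.eval ((yy (e, i) : ℚ) ^ 2 - 4) * Q.eval (((yy (e, i) : ℚ) + 12) ^ 2 - 4)) * e4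
    · have inj1 : Function.Injective (fun t : Bool × Nd => ((fzzero_lk t : ℤ) : ℚ)) :=
        Int.cast_injective.comp fzzero_inj
      rw [card_image_of_injective _ inj1, card_product,
        card_product, Int.card_Ico, card_univ, Fintype.card_bool]
      have p1 := fzzero_comp dP 6
      have p2 := fzzero_comp' dP 6
      have q1 := fzzero_comp dQ 6
      have q2 := fzzero_comp' dQ 6
      rw [← hP1] at p1 p2
      rw [← hQ1] at q1 q2
      have b1 := natDegree_mul_le (p := P1.comp (X - C 6)) (q := Q1.comp (X + C 6))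
      have b2 := natDegree_mul_le (p := P1.comp (X + C 6)) (q := Q1.comp (X - C 6))
      have b3 := natDegree_mul_le (p := Q1.comp (X + C 6)) (q := Q1.comp (X - C 6))
      have b4 := natDegree_sub_le (P1.comp (X - C 6) * Q1.comp (X + C 6))
        (P1.comp (X + C 6) * Q1.comp (X - C 6))
      have b5 := natDegree_mul_le (p := (X ^ 3 : ℚ[X]))
        (q := P1.comp (X - C 6) * Q1.comp (X + C 6) - P1.comp (X + C 6) * Q1.comp (X - C 6))
      have b6 := natDegree_C_mul_le (b : ℚ) (Q1.comp (X + C 6) * Q1.comp (X - C 6))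
      rw [natDegree_X_pow] at b5
      refine lt_of_le_of_lt (natDegree_sub_le _ _) ?_
      omega
  have hC := congrArg (Polynomial.map (algebraMap ℚ ℂ)) (sub_eq_zero.1 hN)
  simp only [Polynomial.map_mul, Polynomial.map_sub, Polynomial.map_pow, map_X, map_comp,
    Polynomial.map_add, map_ofNat, map_intCast, Polynomial.map_ofNat,
    Polynomial.map_intCast] at hC
  have hQ1' : Q1.map (algebraMap ℚ ℂ) = 0 := by
    refine no_rat (b := (b : ℂ)) (by exact_mod_cast hb) (P1.map (algebraMap ℚ ℂ)) _ ?_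
    simpa only [map_ofNat, map_intCast] using hC
  have hQ0 : Q = 0 := by
    rcases comp_eq_zero_iff.1 ((Polynomial.map_eq_zero _).1 hQ1') with e | ⟨_, e⟩
    · exact e
    · have := congrArg natDegree e
      rw [natDegree_X_pow_sub_C, natDegree_C] at this
      omega
  refine ⟨?_, hQ0⟩
  refine eq_zero_of_natDegree_lt_card_of_eval_eq_zero' _
    ((nodes n).image fun x => ((zz x : ℤ) : ℚ)) ?_ ?_
  · intro l hl
    obtain ⟨x, hx, rfl⟩ := mem_image.1 hl
    simpa [hQ0] using h0 x hx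
  · have inj2 : Function.Injective (fun x : Nd => ((zz x : ℤ) : ℚ)) :=
      Int.cast_injective.comp zz_inj
    rw [card_image_of_injective _ inj2, card_nodes]
    omega

theorem exists_sel {a b : ℤ} (hb : b ≠ 0) {f : Nd → ℚ} (h : Ch a b f) {n m : ℕ}
    (hm : m + 1 = 2 * n) : ∃ x, Sel n m x ∧ DD m f x ≠ 0 := by
  obtain ⟨x, h1, h2, h3⟩ := exists_minor (nodes n) (fun x => rowv m (zz x : ℚ) 1 (f x)) fun c hc => by
    obtain ⟨e1, e2⟩ := zero_poly hb h hm (∑ k : Fin m, C (c (Sum.inl k)) * X ^ (k : ℕ))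
      (∑ k : Fin m, C (c (Sum.inr k)) * X ^ (k : ℕ)) (degree_sum_fin_lt _) (degree_sum_fin_lt _)
      fun x hx => by
        have e := hc x hx
        rw [Fintype.sum_sum_type] at e
        simp only [rowv, Sum.elim_inl, Sum.elim_inr] at e
        simp only [eval_finsetSum, eval_mul, eval_C, eval_pow, eval_X, mul_sum]
        rw [← e]
        congr 1
        · exact sum_congr rfl fun k _ => by ring
        · exact sum_congr rfl fun k _ => by ring
    funext k
    rcases k with k | k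
    · exact fzzero_coeff _ e1 k
    · exact fzzero_coeff _ e2 k
  exact ⟨x, ⟨h1, h2, hm⟩, h3⟩

end Pool.Agent.FMZ
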