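import Pool.Agent.P.MP_cb43af_nt.Fv0
import Pool.Agent.P.MP_cb43af_nt.FzZero

open Finset Filter Polynomial Topology
namespace Pool.Agent.FMZ

theorem fvzero_cop {G : ℂ[X]} (hG : G.eval 0 ≠ 0) (P Q : ℂ[X]) (hQ : Q ≠ 0)
    (h : ∀ y : ℂ, y ^ 5 * (P.eval (y - 6) * Q.eval (y + 6) - P.eval (y + 6) * Q.eval (y - 6))
      = G.eval y * (Q.eval (y + 6) * Q.eval (y - 6))) : ∃ r, P.eval r = 0 ∧ Q.eval r = 0 := by
  classical
  by_contra hn
  have hP : ∀ r, Q.eval r = 0 → P.eval r ≠ 0 := fun r h1 h2 => hn ⟨r, h2, h1⟩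
  have hm : ∀ r, r ∈ Q.roots.toFinset ↔ Q.eval r = 0 := fun r => by
    rw [Multiset.mem_toFinset, mem_roots hQ, IsRoot.def]
  have hne : Q.roots.toFinset.Nonempty := by
    have h0 := h 0
    rw [zero_pow (by norm_num), zero_mul] at h0
    rcases mul_eq_zero.1 ((mul_eq_zero.1 h0.symm).resolve_left hG) with h1 | h1
    exacts [⟨_, (hm _).2 h1⟩, ⟨_, (hm _).2 h1⟩]
  obtain ⟨y0, hy0, h0⟩ := exists_max_image _ Complex.re hne
  obtain ⟨y1, hy1, h1⟩ := exists_min_image _ Complex.re hne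
  have a0 := (hm _).1 hy0
  have a1 := (hm _).1 hy1
  have b0 : Q.eval (y0 + 6 + 6) ≠ 0 := fun e => by
    have := h0 _ ((hm _).2 e)
    simp only [Complex.add_re, Complex.re_ofNat] at this
    linarith
  have b1 : Q.eval (y1 - 6 - 6) ≠ 0 := fun e => by
    have := h1 _ ((hm _).2 e)
    simp only [Complex.sub_re, Complex.re_ofNat] at this
    linarith
  have c0 := h (y0 + 6)
  have c1 := h (y1 - 6)
  rw [add_sub_cancel_right, a0, mul_zero, mul_zero, mul_zero, sub_zero] at c0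
  rw [sub_add_cancel, a1, mul_zero, zero_mul, mul_zero, zero_sub] at c1
  have d0 : y0 + 6 = 0 :=
    pow_eq_zero_iff (by norm_num) |>.1
      ((mul_eq_zero.1 c0).resolve_right (mul_ne_zero (hP _ a0) b0))
  have d1 : y1 - 6 = 0 :=
    pow_eq_zero_iff (by norm_num) |>.1
      ((mul_eq_zero.1 c1).resolve_right (neg_ne_zero.2 (mul_ne_zero (hP _ a1) b1)))
  have e0 := congrArg Complex.re d0
  have e1 := congrArg Complex.re d1
  have e2 := h0 _ hy1
  simp only [Complex.add_re, Complex.sub_re, Complex.re_ofNat, Complex.zero_re] at e0 e1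
  linarith

theorem fvzero_ind {G : ℂ[X]} (hG : G.eval 0 ≠ 0) (n : ℕ) : ∀ P Q : ℂ[X], Q.natDegree < n →
    X ^ 5 * (P.comp (X - C 6) * Q.comp (X + C 6) - P.comp (X + C 6) * Q.comp (X - C 6))
      = G * (Q.comp (X + C 6) * Q.comp (X - C 6)) → Q = 0 := by
  induction n with
  | zero => exact fun _ _ h => absurd h (Nat.not_lt_zero _)
  | succ n ih =>
    intro P Q hd h
    by_contra hQ
    obtain ⟨r, hP, hr⟩ := fvzero_cop hG P Q hQ fun y => by
      simpa only [eval_mul, eval_sub, eval_add, eval_pow, eval_X, eval_C, eval_comp] using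
        congrArg (eval y) h
    obtain ⟨P1, rfl⟩ := dvd_iff_isRoot.2 hP
    obtain ⟨Q1, rfl⟩ := dvd_iff_isRoot.2 hr
    have hQ1 : Q1 ≠ 0 := right_ne_zero_of_mul hQ
    rw [natDegree_mul (X_sub_C_ne_zero r) hQ1, natDegree_X_sub_C] at hd
    refine hQ1 (ih P1 Q1 (by omega) ?_)
    have n1 : (X - C 6 - C r : ℂ[X]) ≠ 0 := by
      rw [sub_sub, ← C_add]
      exact X_sub_C_ne_zero _
    have n2 : (X + C 6 - C r : ℂ[X]) ≠ 0 := by
      rw [add_sub_assoc, ← C_sub]
      exact X_add_C_ne_zero _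
    refine mul_left_cancel₀ (mul_ne_zero n1 n2) ?_
    simp only [mul_comp, sub_comp, X_comp, C_comp] at h
    linear_combination h

theorem no_rat5 {b c : ℂ} (hb : b ≠ 0 ∨ c ≠ 0) (P Q : ℂ[X])
    (h : X ^ 5 * (P.comp (X - C 6) * Q.comp (X + C 6) - P.comp (X + C 6) * Q.comp (X - C 6))
      = (C b * X ^ 2 + C c) * (Q.comp (X + C 6) * Q.comp (X - C 6))) : Q = 0 := by
  by_cases hc : c = 0
  · have hb' : b ≠ 0 := hb.resolve_right (not_not.2 hc)
    refine no_rat hb' P Q (mul_left_cancel₀ (pow_ne_zero 2 (X_ne_zero (R := ℂ))) ?_)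
    rw [hc, C_0, add_zero] at h
    linear_combination h
  · exact fvzero_ind (G := C b * X ^ 2 + C c) (by simpa using hc) _ P Q (Nat.lt_succ_self _) h

theorem fvzero_aux {b c : ℤ} (hb : b ≠ 0 ∨ c ≠ 0) {f : Nd → ℚ}
    (h : ∀ e i, f (e, i + 1) = f (e, i) + inc b c ((yy (e, i) : ℚ) + 6)) {n m : ℕ}
    (hm : m + 1 = 2 * n) (P Q : ℚ[X]) {k l : ℕ} (dP : P.natDegree ≤ k) (dQ : Q.natDegree ≤ l)
    (hkl : k + l + 3 ≤ 2 * m) (hl : l + 1 ≤ m)
    (h0 : ∀ x ∈ nodes n, P.eval (zz x : ℚ) + f x * Q.eval (zz x : ℚ) = 0) : Q = 0 := by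
  classical
  set P1 : ℚ[X] := P.comp (X ^ 2 - C 4) with hP1
  set Q1 : ℚ[X] := Q.comp (X ^ 2 - C 4) with hQ1
  have hN : X ^ 5 * (P1.comp (X - C 6) * Q1.comp (X + C 6) - P1.comp (X + C 6) * Q1.comp (X - C 6))
      - (C (b : ℚ) * X ^ 2 + C (c : ℚ)) * (Q1.comp (X + C 6) * Q1.comp (X - C 6)) = 0 := by
    refine eq_zero_of_natDegree_lt_card_of_eval_eq_zero' _
      (((univ : Finset Bool) ×ˢ ((univ : Finset Bool) ×ˢ Ico (-(n : ℤ)) ((n : ℤ) - 1))).image
        fun t => ((fzzero_lk t : ℤ) : ℚ)) ?_ ?_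
    · intro l hl
      obtain ⟨⟨s, e, i⟩, ht, rfl⟩ := mem_image.1 hl
      have hi : -(n : ℤ) ≤ i ∧ i < (n : ℤ) - 1 := by simpa using ht
      have e1 := h0 (e, i) (mem_nodes.2 ⟨hi.1, by simp only; omega⟩)
      have e2 := h0 (e, i + 1) (mem_nodes.2 ⟨by simp only; omega, by simp only; omega⟩)
      have e3 := h e i
      have l0 : (yy (e, i) : ℚ) + 6 ≠ 0 := by exact_mod_cast yy_link_ne (e, i)
      have z1 : (zz (e, i) : ℚ) = (yy (e, i) : ℚ) ^ 2 - 4 := by simp [zz]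
      have z2 : (zz (e, i + 1) : ℚ) = ((yy (e, i) : ℚ) + 12) ^ 2 - 4 := by
        have : yy (e, i + 1) = yy (e, i) + 12 := by
          simp only [yy]
          ring
        simp [zz, this]
      rw [z1] at e1
      rw [z2, e3] at e2
      have e4 : ((yy (e, i) : ℚ) + 6) ^ 5 * inc b c ((yy (e, i) : ℚ) + 6)
          = b * ((yy (e, i) : ℚ) + 6) ^ 2 + c := by
        unfold inc
        field_simp
      generalize inc b c ((yy (e, i) : ℚ) + 6) = d at e2 e4
      cases s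
      · have a1 : (-((yy (e, i) : ℚ) + 6) - 6) ^ 2 - 4 = ((yy (e, i) : ℚ) + 12) ^ 2 - 4 := by ring
        have a2 : (-((yy (e, i) : ℚ) + 6) + 6) ^ 2 - 4 = (yy (e, i) : ℚ) ^ 2 - 4 := by ring
        simp only [fzzero_lk, Bool.false_eq_true, if_false, hP1, hQ1, eval_sub, eval_mul, eval_pow,
          eval_X, eval_C, eval_comp, eval_add, Int.cast_neg, Int.cast_add, Int.cast_ofNat, a1, a2]
        linear_combination
          (-((yy (e, i) : ℚ) + 6) ^ 5 * Q.eval ((yy (e, i) : ℚ) ^ 2 - 4)) * e2 +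
          (((yy (e, i) : ℚ) + 6) ^ 5 * Q.eval (((yy (e, i) : ℚ) + 12) ^ 2 - 4)) * e1 +
          (Q.eval ((yy (e, i) : ℚ) ^ 2 - 4) * Q.eval (((yy (e, i) : ℚ) + 12) ^ 2 - 4)) * e4
      · have a1 : ((yy (e, i) : ℚ) + 6 - 6) ^ 2 - 4 = (yy (e, i) : ℚ) ^ 2 - 4 := by ring
        have a2 : ((yy (e, i) : ℚ) + 6 + 6) ^ 2 - 4 = ((yy (e, i) : ℚ) + 12) ^ 2 - 4 := by ring
        simp only [fzzero_lk, if_true, hP1, hQ1, eval_sub, eval_mul, eval_pow,
          eval_X, eval_C, eval_comp, eval_add, Int.cast_add, Int.cast_ofNat, a1, a2]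
        linear_combination
          (-((yy (e, i) : ℚ) + 6) ^ 5 * Q.eval ((yy (e, i) : ℚ) ^ 2 - 4)) * e2 +
          (((yy (e, i) : ℚ) + 6) ^ 5 * Q.eval (((yy (e, i) : ℚ) + 12) ^ 2 - 4)) * e1 +
          (Q.eval ((yy (e, i) : ℚ) ^ 2 - 4) * Q.eval (((yy (e, i) : ℚ) + 12) ^ 2 - 4)) * e4
    · have inj1 : Function.Injective (fun t : Bool × Nd => ((fzzero_lk t : ℤ) : ℚ)) :=
        Int.cast_injective.comp fzzero_inj
      rw [card_image_of_injective _ inj1, card_product,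
        card_product, Int.card_Ico, card_univ, Fintype.card_bool]
      have p1 := fzzero_comp dP 6
      have p2 := fzzero_comp' dP 6
      have q1 := fzzero_comp dQ 6
      have q2 := fzzero_comp' dQ 6
      rw [← hP1] at p1 p2
      rw [← hQ1] at q1 q2
      have b1 := natDegree_mul_le (p := P1.comp (X - C 6)) (q := Q1.comp (X + C 6))
      have b2 := natDegree_mul_le (p := P1.comp (X + C 6)) (q := Q1.comp (X - C 6))
      have b3 := natDegree_mul_le (p := Q1.comp (X + C 6)) (q := Q1.comp (X - C 6))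
      have b4 := natDegree_sub_le (P1.comp (X - C 6) * Q1.comp (X + C 6))
        (P1.comp (X + C 6) * Q1.comp (X - C 6))
      have b5 := natDegree_mul_le (p := (X ^ 5 : ℚ[X]))
        (q := P1.comp (X - C 6) * Q1.comp (X + C 6) - P1.comp (X + C 6) * Q1.comp (X - C 6))
      have b6 := natDegree_mul_le (p := (C (b : ℚ) * X ^ 2 + C (c : ℚ) : ℚ[X]))
        (q := Q1.comp (X + C 6) * Q1.comp (X - C 6))
      have b7 : (C (b : ℚ) * X ^ 2 + C (c : ℚ) : ℚ[X]).natDegree ≤ 2 := by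
        rw [natDegree_add_C]
        exact natDegree_C_mul_X_pow_le _ _
      rw [natDegree_X_pow] at b5
      refine lt_of_le_of_lt (natDegree_sub_le _ _) ?_
      omega
  have hC := congrArg (Polynomial.map (algebraMap ℚ ℂ)) (sub_eq_zero.1 hN)
  simp only [Polynomial.map_mul, Polynomial.map_sub, Polynomial.map_pow, map_X, map_comp,
    Polynomial.map_add, map_ofNat, map_intCast, Polynomial.map_ofNat,
    Polynomial.map_intCast] at hC
  have hQ1' : Q1.map (algebraMap ℚ ℂ) = 0 := by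
    refine no_rat5 (b := (b : ℂ)) (c := (c : ℂ)) (by exact_mod_cast hb)
      (P1.map (algebraMap ℚ ℂ)) _ ?_
    simpa only [map_ofNat, map_intCast] using hC
  rcases comp_eq_zero_iff.1 ((Polynomial.map_eq_zero _).1 hQ1') with e | ⟨_, e⟩
  · exact e
  · have := congrArg natDegree e
    rw [natDegree_X_pow_sub_C, natDegree_C] at this
    omega

theorem fvzero_drop {P : ℚ[X]} {k : ℕ} (hP : P.natDegree ≤ k + 1) (h : P.coeff (k + 1) = 0) :
    P.natDegree ≤ k := by
  rw [natDegree_le_iff_coeff_eq_zero] at hP ⊢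
  intro N hN
  rcases (Nat.succ_le_of_lt hN).eq_or_lt with e | e
  · rw [← e]
    exact h
  · exact hP N e

theorem zero_poly5 {a b c : ℤ} (hb : b ≠ 0 ∨ c ≠ 0) {f : Nd → ℚ} (h : Ch5 a b c f) {n m : ℕ}
    (hn : 2 ≤ n) (hm : m + 1 = 2 * n) (P Q : ℚ[X]) (hP : P.degree < m) (hQ : Q.degree < m)
    (h0 : ∀ x ∈ nodes n, P.eval (zz x : ℚ) + f x * Q.eval (zz x : ℚ) = 0) : P = 0 ∧ Q = 0 := by
  classical
  have m1 : 1 ≤ m := by omega
  have dP := fzzero_deg m1 hP
  have dQ := fzzero_deg m1 hQ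
  obtain ⟨k, hk⟩ : ∃ k, m - 1 = k + 1 := ⟨m - 2, by omega⟩
  rw [hk] at dP dQ
  have hQ0 : Q = 0 := by
    by_cases hq : Q.coeff (k + 1) = 0
    · exact fvzero_aux hb h.step hm P Q dP (fvzero_drop dQ hq) (by omega) (by omega) h0
    · set t : ℚ := P.coeff (k + 1) / Q.coeff (k + 1) with ht
      have d1 : (P - C t * Q).natDegree ≤ k + 1 :=
        (natDegree_sub_le _ _).trans (max_le dP ((natDegree_C_mul_le _ _).trans dQ))
      have d2 : (P - C t * Q).coeff (k + 1) = 0 := by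
        rw [coeff_sub, coeff_C_mul, ht, div_mul_cancel₀ _ hq, sub_self]
      refine fvzero_aux hb (f := fun x => f x + t) (fun e i => ?_) hm (P - C t * Q) Q
        (fvzero_drop d1 d2) dQ (by omega) (by omega) fun x hx => ?_
      · rw [h.step e i]
        ring
      · have := h0 x hx
        rw [eval_sub, eval_mul, eval_C]
        linear_combination this
  refine ⟨?_, hQ0⟩
  refine eq_zero_of_natDegree_lt_card_of_eval_eq_zero' _
    ((nodes n).image fun x => ((zz x : ℤ) : ℚ)) ?_ ?_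
  · intro l hl
    obtain ⟨x, hx, rfl⟩ := mem_image.1 hl
    simpa [hQ0] using h0 x hx
  · have inj2 : Function.Injective (fun x : Nd => ((zz x : ℤ) : ℚ)) :=
      Int.cast_injective.comp zz_inj
    rw [card_image_of_injective _ inj2, card_nodes]
    omega

theorem exists_sel5 {a b c : ℤ} (hb : b ≠ 0 ∨ c ≠ 0) {f : Nd → ℚ} (h : Ch5 a b c f) {n m : ℕ}
    (hn : 2 ≤ n) (hm : m + 1 = 2 * n) : ∃ x, Sel n m x ∧ DD m f x ≠ 0 := by
  obtain ⟨x, h1, h2, h3⟩ := exists_minor (nodes n) (fun x => rowv m (zz x : ℚ) 1 (f x)) fun c hc => by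
    obtain ⟨e1, e2⟩ := zero_poly5 hb h hn hm (∑ k : Fin m, C (c (Sum.inl k)) * X ^ (k : ℕ))
      (∑ k : Fin m, C (c (Sum.inr k)) * X ^ (k : ℕ)) (degree_sum_fin_lt _) (degree_sum_fin_lt _)
      fun x hx => by
        have e := hc x hx
        rw [Fintype.sum_sum_type] at e
        simp only [rowv, Sum.elim_inl, Sum.elim_inr] at e
        simp only [eval_finsetSum, eval_mul, eval_C, eval_pow, eval_X, mul_sum]
        rw [← e]
        congr 1
        · exact sum_congr rfl fun k _ => by ring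
        · exact sum_congr rfl fun k _ => by ring
    funext k
    rcases k with k | k
    · exact fzzero_coeff _ e1 k
    · exact fzzero_coeff _ e2 k
  exact ⟨x, ⟨h1, h2, hm⟩, h3⟩

end Pool.Agent.FMZ
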