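import Pool.Agent.P.MP_cb43af_nt.Defs

open Finset Filter Polynomial
namespace Pool.Agent.FMZ

abbrev Nd := Bool × ℤ
def yy (x : Nd) : ℤ := 12 * x.2 + (if x.1 then 3 else 2)
def zz (x : Nd) : ℤ := yy x ^ 2 - 4
noncomputable def nodes (n : ℕ) : Finset Nd := univ ×ˢ Ico (-(n : ℤ)) n

/-- partial sums of inverse cubes along the two chains -/
structure Ch (a b : ℤ) (f : Nd → ℚ) : Prop where
  zA : f (false, 0) = 0
  zB : f (true, 0) = a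
  step : ∀ e i, f (e, i + 1) = f (e, i) + b / ((yy (e, i) : ℚ) + 6) ^ 3

abbrev Col (m : ℕ) := Fin m ⊕ Fin m

def rowv {R : Type} [CommRing R] (m : ℕ) (z s t : R) : Col m → R :=
  Sum.elim (fun k => s * z ^ (k : ℕ)) (fun k => t * z ^ (k : ℕ))

def DG {R : Type} [CommRing R] (m : ℕ) (z g : Col m → R) : R :=
  Matrix.det (Matrix.of fun r => rowv m (z r) 1 (g r))

def DS {R : Type} [CommRing R] (m : ℕ) (z φ : Col m → R) (S : Finset (Col m)) : R :=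
  Matrix.det (Matrix.of fun r => if r ∈ S then rowv m (z r) 0 1 else rowv m (z r) 1 (φ r))

def DD (m : ℕ) (f : Nd → ℚ) (x : Col m → Nd) : ℚ :=
  DG m (fun r => (zz (x r) : ℚ)) (fun r => f (x r))

def WW {ι R : Type} [DecidableEq ι] [CommRing R] (u : ι → R) (S : Finset ι) : R :=
  ∏ i ∈ S, ∏ j ∈ S.erase i, (u i - u j)

def WG {ι γ R : Type} [Fintype ι] [DecidableEq ι] [DecidableEq γ] [CommRing R] (u : ι → R)
    (g : ι → γ) : R :=
  ∏ i, ∏ j ∈ (univ.erase i).filter (fun j => g j = g i), (u i - u j)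

/-- ordered pairs of distinct points of `S` with equal label -/
def cg {ι γ : Type} [DecidableEq ι] [DecidableEq γ] (g : ι → γ) (S : Finset ι) : ℕ :=
  ∑ i ∈ S, ((S.erase i).filter fun j => g j = g i).card

/-- points that share their label with another point -/
def mult {ι γ : Type} [Fintype ι] [DecidableEq ι] [DecidableEq γ] (g : ι → γ) : ℕ :=
  (univ.filter fun i => ∃ j, j ≠ i ∧ g j = g i).card

/-- a matching of points with equal label -/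
def Mat {ι γ : Type} (g : ι → γ) (T : Finset ι) (σ : ι → ι) : Prop :=
  (∀ i ∈ T, g (σ i) = g i ∧ σ i ∉ T) ∧ Set.InjOn σ T

structure Sel (n m : ℕ) (x : Col m → Nd) : Prop where
  inj : Function.Injective x
  mem : ∀ r, x r ∈ nodes n
  hm : m + 1 = 2 * n

def qq (m : ℕ) (f : Nd → ℚ) (x : Col m → Nd) : ℚ :=
  DD m f x ^ 4 / (WW (fun r => zz (x r)) univ : ℤ)

def Phi (p : ℕ) (t : ZMod p) : ZMod p := ∑ j ∈ Icc 1 t.val, ((j : ZMod p)⁻¹) ^ 3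
def FF (p : ℕ) (y : ZMod p) : ZMod p := ((12 : ZMod p)⁻¹) ^ 3 * Phi p ((y - 6) * (12 : ZMod p)⁻¹)
def Hp (a b : ℤ) (p : ℕ) : Prop := (b : ZMod p) * (FF p 3 - FF p 2) = a
def lift0 (b : ℤ) (p : ℕ) (x : Nd) : ℤ := ((b : ZMod p) * (FF p (yy x) - FF p 2)).val
def Pole (p : ℕ) (x : Nd) : Prop :=
  ∃ j : ℤ, (0 ≤ j ∧ j < x.2 ∨ x.2 ≤ j ∧ j < 0) ∧ (p : ℤ) ∣ yy (x.1, j) + 6

def NN (k : ℕ) (u : ℚ) : ℚ := ∏ i ∈ range k, (u - (12 * i + 6) ^ 2)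
def gam (k : ℕ) : ℚ := (-1) ^ (k + 1) * 144 ^ k * (k.factorial : ℚ) ^ 2 / (24 * (k + 1))
def TK (K : ℕ) (y : ℚ) : ℚ := ∑ k ∈ range K, gam k / NN (k + 1) (y ^ 2)

def PR (M : ℕ) : Finset ℕ := (range M).filter Nat.Prime
noncomputable def th (M : ℕ) : ℝ := ∑ p ∈ PR M, Real.log p
noncomputable def JJ (M : ℕ) : ℝ := ∑ p ∈ PR M, ((M : ℝ) - p) * Real.log p
noncomputable def II (s ν : ℕ) : ℝ :=
  ∑ p ∈ (PR (s * ν)).filter (fun p => 3 * ν ≤ p), ((s * ν : ℝ) - p) * Real.log p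

def VV : Submodule ℚ (ℕ → ℚ) := Submodule.span ℚ (Set.range zeta)
def UU : Submodule ℚ (ℕ → ℚ) :=
  Submodule.span ℚ (Set.range fun t : List ℕ+ × ℕ => fun n : ℕ => zeta t.1 n / (n : ℚ) ^ t.2)
def SS (φ : ℕ → ℚ) (M : ℕ) : ℚ := ∑ n ∈ Ioo 0 M, φ n / n
def TT (φ : ℕ → ℚ) (M : ℕ) : ℚ := ∑ n ∈ Icc 1 M, (-1) ^ (n + 1) * (M.choose n : ℚ) * φ n
/-- lies in `p` times the completed algebra -/
def Lf (x : ℕ → ℚ) : Prop := ∃ d, ∀ N, Cong N x fun p => p * trunc d N p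

end Pool.Agent.FMZ
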