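import Pool.Agent.P.MP_cb43af_nt.Fz0

open Finset Filter Polynomial
namespace Pool.Agent.FMZ

variable {ι γ : Type} [Fintype ι] [DecidableEq ι] [DecidableEq γ]

theorem fzcls_card (g : ι → γ) (S : Finset ι) :
    (S.card : ℤ) = ∑ c ∈ univ.image g, ((S.filter fun j => g j = c).card : ℤ) := by
  exact_mod_cast card_eq_sum_card_fiberwise (f := g) (s := S) (t := univ.image g)
    fun i _ => mem_coe.2 (mem_image_of_mem g (mem_univ i))

theorem fzcls_cg (g : ι → γ) (S : Finset ι) :
    (cg g S : ℤ) = ∑ c ∈ univ.image g, ((S.filter fun j => g j = c).card : ℤ) *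
      (((S.filter fun j => g j = c).card : ℤ) - 1) := by
  rw [cg, Nat.cast_sum, ← sum_fiberwise_of_maps_to (g := g) (t := univ.image g)
    fun i _ => mem_image_of_mem g (mem_univ i)]
  refine sum_congr rfl fun c _ => ?_
  rw [← nsmul_eq_mul, ← sum_const]
  refine sum_congr rfl fun i hi => ?_
  rw [filter_erase, (mem_filter.1 hi).2, cast_card_erase_of_mem hi]

theorem fzcls_split (g : ι → γ) (S : Finset ι) (c : γ) :
    (univ.filter fun j => g j = c).card =
      (S.filter fun j => g j = c).card + (Sᶜ.filter fun j => g j = c).card := by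
  rw [← card_union_of_disjoint (disjoint_filter_filter disjoint_compl_right), ← filter_union,
    union_compl]

theorem cls_one (g : ι → γ) (S : Finset ι) :
    cg g univ ≤ 2 * cg g S + 2 * cg g Sᶜ + mult g := by
  zify
  rw [mult, fzcls_cg, fzcls_cg, fzcls_cg, fzcls_card g, mul_sum, mul_sum, ← sum_add_distrib,
    ← sum_add_distrib]
  refine sum_le_sum fun c _ => ?_
  have hm : 1 < (univ.filter fun j => g j = c).card → (univ.filter fun j => g j = c).card ≤
      ((univ.filter fun i => ∃ j, j ≠ i ∧ g j = g i).filter fun j => g j = c).card := by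
    intro h
    refine card_le_card fun i hi => mem_filter.2 ⟨mem_filter.2 ⟨mem_univ i, ?_⟩, (mem_filter.1 hi).2⟩
    obtain ⟨j, hj, hji⟩ := exists_mem_ne h i
    exact ⟨j, hji, (mem_filter.1 hj).2.trans (mem_filter.1 hi).2.symm⟩
  rw [fzcls_split g S c] at hm ⊢
  generalize (S.filter fun j => g j = c).card = s at hm ⊢
  generalize (Sᶜ.filter fun j => g j = c).card = t at hm ⊢
  generalize ((univ.filter fun i => ∃ j, j ≠ i ∧ g j = g i).filter fun j => g j = c).card = m at hm ⊢
  push_cast
  by_cases h : 1 < s + t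
  · have h1 : (s : ℤ) + t ≤ m := by exact_mod_cast hm h
    nlinarith [sq_nonneg ((s : ℤ) - t)]
  · have h0 : (0 : ℤ) ≤ m := Int.natCast_nonneg m
    have h1 : s ≤ 1 := by omega
    have h2 : t ≤ 1 := by omega
    interval_cases s <;> interval_cases t <;> simp at h ⊢
theorem cls_two (g : ι → γ) (S : Finset ι) {T : Finset ι} {σ : ι → ι} (h : Mat g T σ) :
    cg g univ + 2 * T.card ≤ 2 * cg g S + 2 * cg g Sᶜ + 4 * S.card := by
  zify
  rw [fzcls_cg, fzcls_cg, fzcls_cg, fzcls_card g T, fzcls_card g S, mul_sum, mul_sum, mul_sum,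
    mul_sum, ← sum_add_distrib, ← sum_add_distrib, ← sum_add_distrib]
  refine sum_le_sum fun c _ => ?_
  have hm : (T.filter fun j => g j = c).card + (T.filter fun j => g j = c).card ≤
      (univ.filter fun j => g j = c).card := by
    have h1 : ((T.filter fun j => g j = c).image σ).card = (T.filter fun j => g j = c).card :=
      card_image_of_injOn (h.2.mono (coe_subset.2 (filter_subset _ _)))
    have h2 : Disjoint (T.filter fun j => g j = c) ((T.filter fun j => g j = c).image σ) := by
      refine disjoint_left.2 fun i hi hi' => ?_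
      obtain ⟨j, hj, rfl⟩ := mem_image.1 hi'
      exact (h.1 j (mem_filter.1 hj).1).2 (mem_filter.1 hi).1
    conv_lhs => rhs; rw [← h1]
    rw [← card_union_of_disjoint h2]
    refine card_le_card (union_subset (filter_subset_filter _ (subset_univ T)) fun i hi => ?_)
    obtain ⟨j, hj, rfl⟩ := mem_image.1 hi
    exact mem_filter.2 ⟨mem_univ _, (h.1 j (mem_filter.1 hj).1).1.trans (mem_filter.1 hj).2⟩
  rw [fzcls_split g S c] at hm ⊢
  generalize (S.filter fun j => g j = c).card = s at hm ⊢
  generalize (Sᶜ.filter fun j => g j = c).card = t at hm ⊢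
  generalize (T.filter fun j => g j = c).card = m at hm ⊢
  push_cast
  by_cases h1 : (s : ℤ) - t + 1 = 0
  · have h2 : (m : ℤ) + m + 1 ≤ s + t := by omega
    nlinarith [sq_nonneg ((s : ℤ) - t + 1)]
  · have h2 : (m : ℤ) + m ≤ s + t := by omega
    have h3 : 0 < ((s : ℤ) - t + 1) ^ 2 := by positivity
    nlinarith
theorem mult_le (g : ι → γ) : mult g ≤ Fintype.card ι := by
  exact card_le_univ _

end Pool.Agent.FMZ
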