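import Pool.Agent.P.MP_cb43af_nt.FzStuf

open Finset Filter Polynomial Topology
namespace Pool.Agent.FMZ

theorem fzdual_range (φ : ℕ → ℚ) (M : ℕ) :
    TT φ M = ∑ n ∈ range M, (-1) ^ n * (M.choose (n + 1) : ℚ) * φ (n + 1) := by
  rw [TT, ← Finset.Ico_add_one_right_eq_Icc, sum_Ico_eq_sum_range, Nat.add_sub_cancel]
  refine sum_congr rfl fun n _ => ?_
  rw [add_comm 1 n, pow_succ, pow_succ]
  ring

theorem fzdual_pascal (φ : ℕ → ℚ) (M : ℕ) :
    TT φ (M + 1) = TT φ M + ∑ n ∈ range (M + 1), (-1) ^ n * (M.choose n : ℚ) * φ (n + 1) := by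
  have h : TT φ M = ∑ n ∈ range (M + 1), (-1) ^ n * (M.choose (n + 1) : ℚ) * φ (n + 1) := by
    rw [sum_range_succ, Nat.choose_succ_self, fzdual_range]
    simp
  rw [h, fzdual_range, ← sum_add_distrib]
  refine sum_congr rfl fun n _ => ?_
  rw [Nat.choose_succ_succ, Nat.cast_add]
  ring

theorem fzdual_zero (φ : ℕ → ℚ) (M : ℕ) :
    TT φ M = φ 0 - ∑ n ∈ range (M + 1), (-1) ^ n * (M.choose n : ℚ) * φ n := by
  rw [sum_range_succ', fzdual_range, eq_sub_iff_add_eq, ← add_assoc, ← sum_add_distrib,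
    sum_eq_zero fun n _ => by ring]
  simp

theorem fzdual_SS (φ : ℕ → ℚ) (n : ℕ) : SS φ (n + 1 + 1) = SS φ (n + 1) + φ (n + 1) / (n + 1 : ℕ) := by
  have h : ∀ m : ℕ, Ioo 0 m = Ico 1 m := fun m => rfl
  rw [SS, SS, h, h, sum_Ico_succ_top (Nat.succ_pos n)]

theorem fzdual_Ioo : Ioo 0 1 = (∅ : Finset ℕ) := rfl

theorem fzdual_SS1 (φ : ℕ → ℚ) : SS φ 1 = 0 := by
  rw [SS, fzdual_Ioo, sum_empty]

theorem fzdual_div (φ : ℕ → ℚ) (M : ℕ) :
    ∑ n ∈ range (M + 1), (-1) ^ n * (M.choose n : ℚ) * (φ (n + 1) / (n + 1 : ℕ)) =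
      TT φ (M + 1) / (M + 1 : ℕ) := by
  rw [fzdual_range, sum_div]
  refine sum_congr rfl fun n _ => ?_
  have h : ((M + 1 : ℕ) : ℚ) * M.choose n = (M + 1).choose (n + 1) * (n + 1 : ℕ) := by
    exact_mod_cast Nat.add_one_mul_choose_eq M n
  have h1 : ((M + 1 : ℕ) : ℚ) ≠ 0 := Nat.cast_ne_zero.2 M.succ_ne_zero
  have h2 : ((n + 1 : ℕ) : ℚ) ≠ 0 := Nat.cast_ne_zero.2 n.succ_ne_zero
  rw [mul_div_assoc', div_eq_div_iff h2 h1]
  linear_combination (-1) ^ n * φ (n + 1) * h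

theorem TT_one {M : ℕ} (hM : 0 < M) : TT (fun _ => 1) M = 1 := by
  have h : ∑ n ∈ range (M + 1), (-1) ^ n * (M.choose n : ℚ) = 0 := by
    exact_mod_cast Int.alternating_sum_range_choose_of_ne hM.ne'
  simp only [fzdual_zero, mul_one, h, sub_zero]
theorem TT_div (φ : ℕ → ℚ) (M : ℕ) : TT (fun n => φ n / n) M = SS (TT φ) (M + 1) := by
  induction M with
  | zero => simp [TT, fzdual_SS1]
  | succ M ih => rw [fzdual_pascal, ih, fzdual_SS, fzdual_div]
theorem TT_sum (φ : ℕ → ℚ) (M : ℕ) : TT (fun n => SS φ (n + 1)) M = TT φ M / M := by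
  cases M with
  | zero => simp [TT]
  | succ M =>
    rw [fzdual_pascal, fzdual_zero, ← fzdual_div]
    simp only [fzdual_SS, mul_add, sum_add_distrib, zero_add, fzdual_SS1]
    ring
theorem prod_expand (t : ℚ) (n : ℕ) {B : ℕ} (hB : n < B) :
    ∏ j ∈ Icc 1 n, (1 + t / j) = ∑ r ∈ range B, t ^ r * zeta (List.replicate r 1) (n + 1) := by
  induction n generalizing B with
  | zero =>
    obtain ⟨B, rfl⟩ := Nat.exists_eq_succ_of_ne_zero hB.ne'
    rw [sum_range_succ']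
    simp [List.replicate_succ, zeta, fzdual_Ioo]
  | succ n ih =>
    obtain ⟨B, rfl⟩ := Nat.exists_eq_succ_of_ne_zero (Nat.ne_zero_of_lt hB)
    have h1 := ih (Nat.lt_of_succ_lt hB)
    have h2 := ih (Nat.lt_of_succ_lt_succ hB)
    rw [sum_range_succ'] at h1
    rw [prod_Icc_succ_top (Nat.succ_pos n), mul_add, mul_one, sum_range_succ']
    nth_rewrite 1 [h1]
    rw [h2, sum_mul, add_right_comm, ← sum_add_distrib]
    refine congrArg₂ _ (sum_congr rfl fun r _ => ?_) rfl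
    rw [List.replicate_succ, zeta_succ 1 _ (n + 1), PNat.one_coe, pow_one]
    ring
theorem fzdual_choose (q n : ℕ) (h : n ≤ q) :
    (-1) ^ n * (q.choose n : ℚ) = ∏ j ∈ Icc 1 n, (1 + -((q + 1 : ℕ) : ℚ) / j) := by
  induction n with
  | zero => simp
  | succ n ih =>
    have h1 : (q.choose (n + 1) : ℚ) * (n + 1) = q.choose n * (q - n) := by
      rw [← Nat.cast_sub (Nat.le_of_succ_le h)]
      exact_mod_cast Nat.choose_succ_right_eq q n
    have h2 : (n + 1 : ℚ) ≠ 0 := by positivity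
    rw [prod_Icc_succ_top (Nat.succ_pos n), ← ih (Nat.le_of_succ_le h)]
    push_cast
    field_simp
    linear_combination (-1) ^ (n + 1) * h1
theorem TT_expand (φ : ℕ → ℚ) {p : ℕ} (hp : 0 < p) : TT φ (p - 1) =
    -∑ r ∈ range p, (-(p : ℚ)) ^ r *
      ∑ n ∈ Ioo 0 p, zeta (List.replicate r 1) (n + 1) * φ n := by
  obtain ⟨q, rfl⟩ := Nat.exists_eq_succ_of_ne_zero hp.ne'
  have h : Ioo 0 (q + 1) = Icc 1 q := by
    ext n
    simp only [mem_Ioo, mem_Icc]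
    omega
  simp only [mul_sum, Nat.succ_eq_add_one, Nat.add_sub_cancel, h]
  rw [sum_comm, TT, ← sum_neg_distrib]
  refine sum_congr rfl fun n hn => ?_
  have h1 := (mem_Icc.1 hn).2
  simp only [← mul_assoc]
  rw [← sum_mul, ← prod_expand _ n (Nat.lt_succ_of_le h1), ← fzdual_choose q n h1]
  ring

end Pool.Agent.FMZ
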