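import Pool.Agent.P.MP_cb43af_nt.Fz0

open Finset Filter Polynomial
namespace Pool.Agent.FMZ

variable {R : Type} [CommRing R] {m : ℕ}

lemma fzexp_zero {ι : Type} [Fintype ι] [DecidableEq ι] (M : Matrix ι ι R) (S C : Finset ι)
    (h : Fintype.card ι < S.card + C.card) (h0 : ∀ r ∈ S, ∀ c ∈ C, M r c = 0) : M.det = 0 := by
  rw [Matrix.det_apply]
  refine sum_eq_zero fun σ _ => ?_
  obtain ⟨r, hr⟩ := inter_nonempty_of_card_lt_card_add_card (s := univ) (subset_univ S)
    (subset_univ (C.map σ.toEmbedding)) (by simpa using h)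
  obtain ⟨r1, r2⟩ := mem_inter.1 hr
  obtain ⟨c, c1, rfl⟩ := mem_map.1 r2
  rw [prod_eq_zero (f := fun i => M (σ i) i) (mem_univ c) (h0 _ r1 c c1), smul_zero]

lemma fzexp_ww {ι : Type} [DecidableEq ι] (z : ι → ℤ) (e : Fin m ↪ ι) :
    |WW z (univ.map e)| = (Matrix.vandermonde fun i => z (e i)).det ^ 2 := by
  have h1 : WW z (univ.map e) = ∏ i, ∏ j ∈ ({i} : Finset (Fin m))ᶜ, (z (e i) - z (e j)) := by
    unfold WW
    rw [prod_map]
    refine prod_congr rfl fun i _ => ?_
    rw [← map_erase, prod_map, compl_singleton]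
  rw [h1, ← prod_prod_Ioi_mul_eq_prod_prod_off_diag (fun j i => z (e i) - z (e j)),
    Matrix.det_vandermonde, abs_prod, ← prod_pow]
  refine prod_congr rfl fun i _ => ?_
  rw [abs_prod, ← prod_pow]
  refine prod_congr rfl fun j _ => ?_
  rw [abs_mul, abs_sub_comm, ← sq, sq_abs]

theorem det_expand (z g φ : Col m → R) :
    DG m z g = ∑ S : Finset (Col m), (∏ r ∈ S, (g r - φ r)) * DS m z φ S := by
  have h1 : (Matrix.of fun r => rowv m (z r) 1 (g r)) =
      (fun r => (g r - φ r) • rowv m (z r) 0 1) + fun r => rowv m (z r) 1 (φ r) := by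
    ext r c
    rcases c with k | k
    · simp [rowv]
    · simp [rowv]; ring
  have h2 : DG m z g = Matrix.detRowAlternating
      ((fun r => (g r - φ r) • rowv m (z r) 0 1) + fun r => rowv m (z r) 1 (φ r)) := by
    rw [DG, h1]; rfl
  rw [h2, AlternatingMap.map_add_univ]
  refine sum_congr rfl fun S _ => ?_
  have h3 : ∏ r ∈ S, (g r - φ r) = ∏ r, if r ∈ S then g r - φ r else 1 := by
    rw [prod_ite_mem, univ_inter]
  rw [h3, DS, ← Matrix.det_mul_column]
  change Matrix.det _ = _
  congr 1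
  ext r c
  by_cases hr : r ∈ S <;> simp [Finset.piecewise, hr]

theorem DS_empty (z φ : Col m → R) : DS m z φ ∅ = DG m z φ := by simp [DS, DG]

theorem DS_map {R' : Type} [CommRing R'] (h : R →+* R') (z φ : Col m → R) (S : Finset (Col m)) :
    h (DS m z φ S) = DS m (fun r => h (z r)) (fun r => h (φ r)) S := by
  rw [DS, DS, RingHom.map_det]
  congr 1
  ext r c
  by_cases hr : r ∈ S <;> rcases c with k | k <;> simp [rowv, hr]

theorem DS_eq_zero (z φ : Col m → R) {S : Finset (Col m)} (h : m < S.card) : DS m z φ S = 0 := by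
  refine fzexp_zero _ S (univ.map Function.Embedding.inl) (by simp; omega) fun r hr c hc => ?_
  obtain ⟨k, -, rfl⟩ := mem_map.1 hc
  simp [rowv, hr]

theorem DS_zero_card (z : Col m → R) {S : Finset (Col m)} (h : S.card ≠ m) :
    DS m z (fun _ => 0) S = 0 := by
  rcases lt_or_gt_of_ne h with h | h
  · refine fzexp_zero _ Sᶜ (univ.map Function.Embedding.inr) (by simp [card_compl]; omega)
      fun r hr c hc => ?_
    obtain ⟨k, -, rfl⟩ := mem_map.1 hc
    simp [rowv, mem_compl.1 hr]
  · exact DS_eq_zero _ _ h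

theorem DS_zero_sq (z : Col m → ℤ) {S : Finset (Col m)} (h : S.card = m) :
    DS m z (fun _ => 0) S ^ 2 = |WW z S * WW z Sᶜ| := by
  have emb : ∀ T : Finset (Col m), T.card = m → ∃ e : Fin m ↪ Col m, univ.map e = T := by
    intro T hT
    refine ⟨(equivFinOfCardEq hT).symm.toEmbedding.trans (Function.Embedding.subtype _), ?_⟩
    ext r
    simp only [Finset.mem_map, mem_univ, true_and, Function.Embedding.trans_apply,
      Equiv.coe_toEmbedding, Function.Embedding.subtype_apply]
    exact ⟨fun ⟨i, hi⟩ => hi ▸ Subtype.prop _, fun hr => ⟨equivFinOfCardEq hT ⟨r, hr⟩, by simp⟩⟩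
  obtain ⟨v, hv⟩ := emb S h
  obtain ⟨w, hw⟩ := emb Sᶜ (by simp [card_compl, h])
  have v1 : ∀ i, v i ∈ S := fun i => hv ▸ mem_map_of_mem v (mem_univ i)
  have w1 : ∀ i, w i ∉ S := fun i => mem_compl.1 (hw ▸ mem_map_of_mem w (mem_univ i))
  have inj : Function.Injective (Sum.elim w v : Col m → Col m) := by
    refine w.injective.sumElim v.injective fun a b e => w1 a (e ▸ v1 b)
  let e : Equiv.Perm (Col m) := Equiv.ofBijective _ (Finite.injective_iff_bijective.1 inj)
  have h1 : (Matrix.of fun r => if r ∈ S then rowv m (z r) 0 1 else rowv m (z r) 1 0).submatrix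
      e id = Matrix.fromBlocks (Matrix.vandermonde fun i => z (w i)) 0 0
        (Matrix.vandermonde fun i => z (v i)) := by
    ext r c
    rcases r with i | i <;> rcases c with k | k <;> simp [e, rowv, v1, w1]
  have h2 := congrArg (fun M => Matrix.det M ^ 2) h1
  simp only [Matrix.det_permute, Matrix.det_fromBlocks_zero₂₁, mul_pow] at h2
  have h3 : ((Equiv.Perm.sign e : ℤˣ) : ℤ) ^ 2 = 1 := by
    rw [← Units.val_pow_eq_pow_val, Int.units_sq, Units.val_one]
  rw [abs_mul, ← hw, fzexp_ww z w]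
  conv_rhs => rw [← hv, fzexp_ww z v]
  rw [mul_comm, ← h2, DS]
  simp [h3]

end Pool.Agent.FMZ
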