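import Pool.Agent.P.MP_cb43af_nt.FzTriv
import Pool.Agent.P.MP_cb43af_nt.FzPhi
import Pool.Agent.P.MP_cb43af_nt.FzMat
import Pool.Agent.P.MP_cb43af_nt.FzPole

open Finset Filter Polynomial
namespace Pool.Agent.FMZ

open Classical in
theorem fzgood_row {a b : ℤ} {f : Nd → ℚ} {n : ℕ} (h : Ch a b f) {p : ℕ} [Fact p.Prime]
    (h5 : 5 ≤ p) (h2 : 24 * n ≤ p ^ 2) (hH : Hp a b p) {y : Nd} (hy : y ∈ nodes n)
    (hne : f y - lift0 b p y ≠ 0) :
    (1 : ℤ) - 4 * (if Pole p y then 1 else 0) ≤ padicValRat p (f y - lift0 b p y) := by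
  have hp1 : (1 : ℚ) ≤ p := by exact_mod_cast (show 1 ≤ p by omega)
  by_cases hP : Pole p y
  · rw [if_pos hP]
    refine (val_of_norm p hne _).1 ?_
    have h1 : padicNorm p (f y) ≤ (p : ℚ) ^ (3 * 1) :=
      ch_norm h p (L := 1) (by show 12 * n ≤ p ^ 2; omega) hy
    have h3 : padicNorm p ((lift0 b p y : ℤ) : ℚ) ≤ (p : ℚ) ^ (3 * 1) :=
      (padicNorm.of_int _).trans (one_le_pow₀ hp1)
    have h4 : (p : ℚ) ^ (-((1 : ℤ) - 4 * 1)) = (p : ℚ) ^ (3 * 1) := by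
      rw [show (-((1 : ℤ) - 4 * 1)) = ((3 * 1 : ℕ) : ℤ) by norm_num, zpow_natCast]
    rw [h4]
    exact padicNorm.sub.trans (max_le h1 h3)
  · rw [if_neg hP]
    refine (val_of_norm p hne _).1 ?_
    have h1 := ch_cong h5 h hH hP
    have h4 : (p : ℚ) ^ (-((1 : ℤ) - 4 * 0)) = 1 / p := by
      rw [show (-((1 : ℤ) - 4 * 0)) = -1 by norm_num, zpow_neg_one, one_div]
    rw [h4]; exact h1

theorem good_bound {a b : ℤ} {f : Nd → ℚ} {n m : ℕ} {x : Col m → Nd} (h : Ch a b f)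
    (hx : Sel n m x) (hD : DD m f x ≠ 0) {p : ℕ} (hp : p.Prime) (h5 : 5 ≤ p)
    (h2 : 24 * n ≤ p ^ 2) (h3 : 3 * n < 2 * p) (hH : Hp a b p) :
    (24 * n - p : ℝ) / 6 - 16 / 3 * max (3 * n - p : ℝ) 0 - 4 * max (4 * n - p : ℝ) 0 - 45
      ≤ padicValRat p (qq m f x) := by
  classical
  haveI : Fact p.Prime := ⟨hp⟩
  have hexp : DD m f x = ∑ S : Finset (Col m), (∏ r ∈ S, (f (x r) - (lift0 b p (x r) : ℚ))) *
      DS m (fun r => (zz (x r) : ℚ)) (fun r => (lift0 b p (x r) : ℚ)) S :=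
    det_expand _ _ _
  obtain ⟨S, -, hne, hle⟩ := val_term p univ _ (hexp ▸ hD)
  rw [← hexp] at hle
  have hmap : DS m (fun r => (zz (x r) : ℚ)) (fun r => (lift0 b p (x r) : ℚ)) S =
      ((DS m (fun r => zz (x r)) (fun r => lift0 b p (x r)) S : ℤ) : ℚ) :=
    (DS_map (Int.castRingHom ℚ) (fun r => zz (x r)) (fun r => lift0 b p (x r)) S).symm
  rw [hmap] at hne hle
  obtain ⟨hn1, hn2⟩ := mul_ne_zero_iff.1 hne
  have hn3 : ∀ r ∈ S, f (x r) - (lift0 b p (x r) : ℚ) ≠ 0 := prod_ne_zero_iff.1 hn1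
  have hn4 : DS m (fun r => zz (x r)) (fun r => lift0 b p (x r)) S ≠ 0 := by exact_mod_cast hn2
  rw [padicValRat.mul hn1 hn2, val_prod p S _ hn3, padicValRat.of_int] at hle
  have hsum : (S.card : ℤ) - 4 * ((univ.filter fun r => Pole p (x r)).card : ℕ) ≤
      ∑ r ∈ S, padicValRat p (f (x r) - (lift0 b p (x r) : ℚ)) := by
    refine le_trans ?_ (sum_le_sum fun r hr => fzgood_row h h5 h2 hH (hx.mem r) (hn3 r hr))
    rw [sum_sub_distrib, ← mul_sum, sum_boole, sum_const, nsmul_eq_mul, mul_one]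
    have : (S.filter fun r => Pole p (x r)).card ≤ (univ.filter fun r => Pole p (x r)).card :=
      card_le_card (filter_subset_filter _ (subset_univ S))
    have : ((S.filter fun r => Pole p (x r)).card : ℤ) ≤
      ((univ.filter fun r => Pole p (x r)).card : ℕ) := by exact_mod_cast this
    linarith
  have hds := ds_val p hx.zinj (fun r s hrs => lift0_congr h5 b hrs) hn4
  obtain ⟨T, σ, hM, hT⟩ := exists_match hx hp h5
  have hlev := lev_two p (u := fun r => zz (x r)) (not_cube hx hp h2) S hM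
  have hmult := mult_sq hx hp h5 h2
  have hpole := card_pole hx hp h5 h3
  have hq := val_qq p hx hD
  have hp0 : (0 : ℝ) < p := by exact_mod_cast hp.pos
  have h83 : (4 * n / p : ℝ) ≤ 8 / 3 := by
    rw [div_le_iff₀ hp0]
    have : (3 * n : ℝ) < 2 * p := by exact_mod_cast h3
    linarith
  have key : (2 * T.card : ℤ) - 16 * ((univ.filter fun r => Pole p (x r)).card : ℕ)
      - (mult fun r => zz (x r) % (p : ℤ) ^ 2 : ℕ) ≤ padicValRat p (qq m f x) := by
    rw [hq]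
    zify at hds hlev
    linarith
  have key' : (2 * T.card : ℝ) - 16 * ((univ.filter fun r => Pole p (x r)).card : ℕ)
      - (mult fun r => zz (x r) % (p : ℤ) ^ 2 : ℕ) ≤ padicValRat p (qq m f x) := by
    exact_mod_cast key
  linarith

end Pool.Agent.FMZ
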