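import Pool.Agent.P.MP_cb43af_nt.FzNew
import Pool.Agent.P.MP_cb43af_nt.FzCls
import Pool.Agent.P.MP_cb43af_nt.FzVal
import Pool.Agent.P.MP_cb43af_nt.FzExp

open Finset Filter Polynomial
namespace Pool.Agent.FMZ

theorem ds_val (p : ℕ) [Fact p.Prime] {m : ℕ} {z φ : Col m → ℤ} (hz : Function.Injective z)
    (hφ : ∀ r s, z r % p = z s % p → φ r = φ s) {S : Finset (Col m)} (h : DS m z φ S ≠ 0) :
    padicValInt p (WW z S) + padicValInt p (WW z Sᶜ) ≤ 2 * padicValInt p (DS m z φ S) := by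
  classical
  let ψ : ℤ → ℤ := fun c => if h : ∃ r, z r % p = c then φ h.choose else 0
  have hψ : ∀ r, ψ (z r % p) = φ r := by
    intro r
    have e : ∃ s, z s % p = z r % p := ⟨r, rfl⟩
    simp only [ψ, dif_pos e]
    exact hφ _ _ e.choose_spec
  let g : Col m → Option ℤ := fun r => if r ∈ S then none else some (z r % p)
  let P : Option ℤ → Col m → ℤ[X] := fun o =>
    o.elim (rowv m X 0 1) (fun c => rowv m X 1 (C (ψ c)))
  have hd := newton_dvd g P z
  have e : (Matrix.of fun i c => (P (g i) c).eval (z i)) =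
      Matrix.of fun r => if r ∈ S then rowv m (z r) 0 1 else rowv m (z r) 1 (φ r) := by
    ext i c
    by_cases hi : i ∈ S
    · rcases c with c | c <;> simp [P, g, hi, rowv]
    · rcases c with c | c <;> simp [P, g, hi, rowv, hψ]
  rw [e] at hd
  change WG z g ∣ DS m z φ S ^ 2 at hd
  obtain ⟨k, hk⟩ := hd
  have h2 : WG z g * k ≠ 0 := hk ▸ pow_ne_zero 2 h
  have h3 : 2 * padicValInt p (DS m z φ S) = padicValInt p (WG z g) + padicValInt p k := by
    rw [← padicValInt.mul (left_ne_zero_of_mul h2) (right_ne_zero_of_mul h2), ← hk, sq,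
      padicValInt.mul h h, two_mul]
  have ne : ∀ i j : Col m, j ≠ i → z i - z j ≠ 0 := fun i j hij =>
    sub_ne_zero.2 fun e => hij (hz e).symm
  have vW : ∀ A : Finset (Col m), padicValInt p (WW z A) =
      ∑ i ∈ A, ∑ j ∈ A.erase i, padicValInt p (z i - z j) := by
    intro A
    unfold WW
    rw [valInt_prod p _ _ fun i _ => prod_ne_zero_iff.2 fun j hj => ne i j (ne_of_mem_erase hj)]
    exact sum_congr rfl fun i _ => valInt_prod p _ _ fun j hj => ne i j (ne_of_mem_erase hj)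
  have vG : padicValInt p (WG z g) =
      ∑ i, ∑ j ∈ (univ.erase i).filter (fun j => g j = g i), padicValInt p (z i - z j) := by
    unfold WG
    rw [valInt_prod p _ _ fun i _ => prod_ne_zero_iff.2 fun j hj =>
      ne i j (ne_of_mem_erase (mem_filter.1 hj).1)]
    exact sum_congr rfl fun i _ => valInt_prod p _ _ fun j hj =>
      ne i j (ne_of_mem_erase (mem_filter.1 hj).1)
  rw [h3, vW, vW, vG, ← sum_add_sum_compl S]
  refine le_trans (add_le_add (sum_le_sum fun i hi => ?_) (sum_le_sum fun i hi => ?_))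
    (Nat.le_add_right _ _)
  · apply sum_le_sum_of_subset
    intro j hj
    rw [mem_erase] at hj
    exact mem_filter.2 ⟨mem_erase.2 ⟨hj.1, mem_univ _⟩, by simp [g, hi, hj.2]⟩
  · apply sum_le_sum_of_ne_zero
    intro j hj h0
    rw [mem_erase, mem_compl] at hj
    rw [mem_compl] at hi
    have hdv : (p : ℤ) ∣ z i - z j := by
      by_contra hn
      exact h0 (padicValInt.eq_zero_of_not_dvd hn)
    have hm : z j % p = z i % p := Int.modEq_iff_dvd.2 hdv
    exact mem_filter.2 ⟨mem_erase.2 ⟨hj.1, mem_univ _⟩, by simp [g, hi, hj.2, hm]⟩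

variable {ι : Type} [Fintype ι] [DecidableEq ι]

theorem lev_one (p : ℕ) [Fact p.Prime] {u : ι → ℤ} {K : ℕ}
    (hK : ∀ i j, i ≠ j → ¬ (p : ℤ) ^ (K + 1) ∣ u i - u j) (S : Finset ι) :
    padicValInt p (WW u univ) ≤ 2 * padicValInt p (WW u S) + 2 * padicValInt p (WW u Sᶜ)
      + ∑ k ∈ Icc 1 K, mult fun i => u i % (p : ℤ) ^ k := by
  rw [val_WW p hK, val_WW p hK, val_WW p hK, mul_sum, mul_sum, ← sum_add_distrib,
    ← sum_add_distrib]
  exact sum_le_sum fun k _ => cls_one _ S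
theorem lev_two (p : ℕ) [Fact p.Prime] {u : ι → ℤ}
    (hK : ∀ i j, i ≠ j → ¬ (p : ℤ) ^ 3 ∣ u i - u j) (S : Finset ι) {T : Finset ι} {σ : ι → ι}
    (h : Mat (fun i => u i % (p : ℤ)) T σ) :
    padicValInt p (WW u univ) + 2 * T.card ≤ 2 * padicValInt p (WW u S)
      + 2 * padicValInt p (WW u Sᶜ) + 4 * S.card + mult fun i => u i % (p : ℤ) ^ 2 := by
  have e : Icc 1 2 = ({1, 2} : Finset ℕ) := by decide
  rw [val_WW p (K := 2) hK, val_WW p (K := 2) hK, val_WW p (K := 2) hK, e]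
  simp only [sum_pair (show (1 : ℕ) ≠ 2 by decide), pow_one]
  have h1 := cls_two _ S h
  have h2 := cls_one (fun i => u i % (p : ℤ) ^ 2) S
  omega

end Pool.Agent.FMZ
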