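import Pool.Agent.P.MP_cb43af_nt.FzStuf
import Pool.Agent.P.MP_cb43af_nt.FzInt

open Finset Filter Polynomial Topology
namespace Pool.Agent.FMZ

variable {x y : ℕ → ℚ}

theorem fzlift_repr (v : ℕ → ℕ → ℚ) (hv : ∀ r, v r ∈ VV) :
    ∃ d : ℕ → List ℕ+ →₀ ℚ, ∀ N p, trunc d N p = ∑ j ∈ range N, (p : ℚ) ^ j * v j p := by
  choose d hd using fun r => VV_repr (hv r)
  exact ⟨d, fun N p => sum_congr rfl fun j _ => by rw [hd j p]⟩

theorem fzlift_iff : Lf x ↔ ∃ v : ℕ → ℕ → ℚ, (∀ r, v r ∈ VV) ∧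
    ∀ N, Cong N x fun p => p * ∑ j ∈ range N, (p : ℚ) ^ j * v j p := by
  constructor
  · rintro ⟨d, hd⟩
    exact ⟨fun r M => (d r).sum fun k a => a * zeta k M, fun r => sum_mem_VV (d r), hd⟩
  · rintro ⟨v, hv, h⟩
    obtain ⟨d, hd⟩ := fzlift_repr v hv
    refine ⟨d, fun N => ?_⟩
    simp only [hd]
    exact h N

theorem fzlift_eq {N : ℕ} (h : ∀ p, x p = y p) : Cong N x y :=
  Cong.of_eq (Eventually.of_forall fun p _ => h p)

theorem Lf.zero : Lf fun _ => 0 := by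
  refine fzlift_iff.2 ⟨fun _ => 0, fun _ => VV.zero_mem, fun N => fzlift_eq fun p => ?_⟩
  simp

theorem Lf.congr (h : Lf x) (e : ∀ᶠ p in atTop, Nat.Prime p → x p = y p) : Lf y := by
  obtain ⟨d, hd⟩ := h
  exact ⟨d, fun N => (Cong.of_eq e).symm.trans (hd N)⟩

theorem Lf.add (h : Lf x) (h' : Lf y) : Lf fun p => x p + y p := by
  obtain ⟨v, hv, h⟩ := fzlift_iff.1 h
  obtain ⟨w, hw, h'⟩ := fzlift_iff.1 h'
  refine fzlift_iff.2 ⟨fun r => v r + w r, fun r => VV.add_mem (hv r) (hw r), fun N =>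
    ((h N).add (h' N)).trans (fzlift_eq fun p => ?_)⟩
  simp only [Pi.add_apply, mul_add, sum_add_distrib]

theorem Lf.smul (h : Lf x) (q : ℚ) : Lf fun p => q * x p := by
  obtain ⟨v, hv, h⟩ := fzlift_iff.1 h
  refine fzlift_iff.2 ⟨fun r => q • v r, fun r => VV.smul_mem q (hv r), fun N =>
    ((h N).smul q).trans (fzlift_eq fun p => ?_)⟩
  simp only [Pi.smul_apply, smul_eq_mul, mul_sum]
  exact sum_congr rfl fun j _ => by ring

theorem Lf.sum {α : Type} (s : Finset α) {t : α → ℕ → ℚ} (h : ∀ i ∈ s, Lf (t i)) :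
    Lf fun p => ∑ i ∈ s, t i p := by
  classical
  induction s using Finset.induction_on with
  | empty => simpa using Lf.zero
  | insert a s ha ih =>
    simp only [sum_insert ha]
    exact (h a (mem_insert_self _ _)).add (ih fun i hi => h i (mem_insert_of_mem hi))

theorem Lf.mul (h : Lf x) (hy : y ∈ VV) : Lf fun p => x p * y p := by
  obtain ⟨v, hv, h⟩ := fzlift_iff.1 h
  refine fzlift_iff.2 ⟨fun r n => v r n * y n, fun r => VV_mul (hv r) hy, fun N =>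
    ((h N).mul (VV_int hy)).trans (fzlift_eq fun p => ?_)⟩
  simp only [mul_sum, sum_mul]
  exact sum_congr rfl fun j _ => by ring

theorem Lf.cong (h : Lf x) : Cong 1 x 0 := by
  obtain ⟨v, hv, h⟩ := fzlift_iff.1 h
  refine ((h 1).trans (fzlift_eq fun p => ?_)).trans (Cong.pow_mul (VV_int (hv 0)))
  simp

theorem lf_series (v : ℕ → ℕ → ℚ) (hv : ∀ r, v r ∈ VV)
    (hi : ∀ᶠ p in atTop, Nat.Prime p → ∀ r, padicNorm p (v r p) ≤ 1) :
    Lf fun p => ∑ r ∈ range (p - 1), (p : ℚ) ^ (r + 1) * v r p := by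
  refine fzlift_iff.2 ⟨v, hv, fun N => ?_⟩
  filter_upwards [hi, eventually_ge_atTop (N + 1)] with p hp hN hpp
  haveI : Fact p.Prime := ⟨hpp⟩
  have h1 : (1 : ℚ) ≤ p := by exact_mod_cast hpp.one_le
  have e : ∑ r ∈ range (p - 1), (p : ℚ) ^ (r + 1) * v r p -
      p * ∑ j ∈ range N, (p : ℚ) ^ j * v j p = ∑ r ∈ Ico N (p - 1), (p : ℚ) ^ (r + 1) * v r p := by
    rw [sum_Ico_eq_sub _ (by omega), mul_sum]
    congr 1
    exact sum_congr rfl fun j _ => by ring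
  rw [e]
  refine padicNorm.sum_le' (fun r hr => ?_) (by positivity)
  have hr' : N ≤ r + 1 := by
    have := (mem_Ico.1 hr).1
    omega
  have h2 : padicNorm p ((p : ℚ) ^ (r + 1)) = 1 / (p : ℚ) ^ (r + 1) := by
    rw [IsAbsoluteValue.abv_pow (padicNorm p), padicNorm.padicNorm_p_of_prime, inv_pow, one_div]
  rw [padicNorm.mul, h2]
  calc 1 / (p : ℚ) ^ (r + 1) * padicNorm p (v r p) ≤ 1 / (p : ℚ) ^ (r + 1) * 1 :=
        mul_le_mul_of_nonneg_left (hp hpp r) (by positivity)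
    _ ≤ 1 / (p : ℚ) ^ N := by
        rw [mul_one]
        exact one_div_le_one_div_of_le (by positivity) (pow_le_pow_right₀ h1 hr')

theorem lf_final (c : ℕ → List ℕ+ →₀ ℚ) (h : Lf fun p => (c 0).sum fun k a => a * zeta k p) :
    ∃ d, ∀ N, Cong N (trunc c N) fun p => p * trunc d N p := by
  obtain ⟨v, hv, h⟩ := fzlift_iff.1 h
  obtain ⟨w, hw, hc⟩ : ∃ w : ℕ → ℕ → ℚ, (∀ r, w r ∈ VV) ∧
      ∀ r p, ((c r).sum fun k a => a * zeta k p) = w r p :=
    ⟨fun r M => (c r).sum fun k a => a * zeta k M, fun r => sum_mem_VV (c r), fun _ _ => rfl⟩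
  obtain ⟨d, hd⟩ := fzlift_repr (fun r => v r + w (r + 1)) fun r => VV.add_mem (hv r) (hw _)
  refine ⟨d, fun N => ?_⟩
  have ht : ∀ p, trunc c N p = ∑ j ∈ range N, (p : ℚ) ^ j * w j p := fun p =>
    sum_congr rfl fun j _ => by rw [hc]
  simp only [hc] at h
  have h1 : Cong N (fun p => (p : ℚ) ^ N * w N p) 0 := Cong.pow_mul (VV_int (hw N))
  have h2 : Cong N (trunc c N) (trunc c N) := fzlift_eq fun _ => rfl
  have h3 : Cong N (fun p => (p : ℚ) * ∑ j ∈ range N, (p : ℚ) ^ j * w (j + 1) p)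
      (fun p => (p : ℚ) * ∑ j ∈ range N, (p : ℚ) ^ j * w (j + 1) p) := fzlift_eq fun _ => rfl
  refine ((fzlift_eq fun p => ?_).trans (h2.add h1.symm)).trans
    (((fzlift_eq fun p => ?_).trans ((h N).add h3)).trans (fzlift_eq fun p => ?_))
  · simp
  · rw [ht, ← sum_range_succ (fun j => (p : ℚ) ^ j * w j p), sum_range_succ', mul_sum, pow_zero,
      one_mul, add_comm]
    congr 1
    exact sum_congr rfl fun j _ => by ring
  · rw [hd]
    simp only [Pi.add_apply, mul_add, sum_add_distrib]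

end Pool.Agent.FMZ
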