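import Pool.Agent.P.MP_cb43af_nt.FzNode

open Finset Filter Polynomial
namespace Pool.Agent.FMZ

theorem fzmark_pow (q : ℚ) (k : ℕ) : padicNorm 2 (q ^ k) = padicNorm 2 q ^ k :=
  IsAbsoluteValue.abv_pow (padicNorm 2) q k

theorem fzmark_odd {y : ℤ} (hy : Odd y) : padicNorm 2 (y : ℚ) = 1 := by
  rw [padicNorm.int_eq_one_iff]
  obtain ⟨t, rfl⟩ := hy
  push_cast
  omega

theorem fzmark_two (k : ℕ) {y : ℤ} (hy : Odd y) : padicNorm 2 (2 ^ k * (y : ℚ)) = 1 / 2 ^ k := by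
  have h : padicNorm 2 (2 : ℚ) = 2⁻¹ := by simpa using padicNorm.padicNorm_p (p := 2) (by norm_num)
  rw [padicNorm.mul, fzmark_pow, fzmark_odd hy, h, mul_one, inv_pow, one_div]

theorem fzmark_144 : padicNorm 2 144 = 1 / 16 := by
  have := fzmark_two 4 (y := 9) (by decide)
  norm_num at this ⊢
  exact this

theorem fzmark_fact (k : ℕ) : 8 ^ (k / 4) ∣ k.factorial := by
  have h : ∀ t : ℕ, 8 ^ t ∣ (4 * t).factorial := by
    intro t
    induction t with
    | zero => simp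
    | succ t ih =>
      rw [show 4 * (t + 1) = 4 * t + 1 + 1 + 1 + 1 by ring, pow_succ]
      simp only [Nat.factorial_succ]
      obtain ⟨c, hc⟩ := ih
      rw [hc]
      exact ⟨(t + 1) * (4 * t + 3) * (2 * t + 1) * (4 * t + 1) * c, by ring⟩
  exact (h _).trans (Nat.factorial_dvd_factorial (Nat.mul_div_le k 4))

theorem gam_norm (k : ℕ) : padicNorm 2 (gam k / 32 ^ (k + 1)) ≤ 2 ^ 13 := by
  obtain ⟨v, y, hy, e⟩ := Nat.exists_eq_two_pow_mul_odd (n := k + 1) (by omega)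
  obtain ⟨c, hc⟩ := fzmark_fact k
  have hv : 2 * v ≤ k + 1 := by
    have h1 : 2 * v ≤ 2 ^ v := Nat.mul_le_pow (by norm_num) v
    have h2 : 2 ^ v ≤ 2 ^ v * y := Nat.le_mul_of_pos_right _ hy.pos
    omega
  obtain ⟨d, hd⟩ : ∃ d, 6 * (k / 4) + 5 = d + (k + v) := ⟨6 * (k / 4) + 5 - (k + v), by omega⟩
  have hy0 : (y : ℚ) ≠ 0 := by exact_mod_cast hy.pos.ne'
  have e' : (k : ℚ) + 1 = 2 ^ v * y := by exact_mod_cast e
  have hc' : (k.factorial : ℚ) ^ 2 * 32 = 2 ^ d * 2 ^ k * 2 ^ v * c ^ 2 := by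
    rw [hc, mul_assoc (2 ^ d : ℚ), ← pow_add, ← pow_add, ← hd]
    push_cast
    generalize k / 4 = t
    rw [pow_add, pow_mul, mul_pow, ← pow_mul, mul_comm t, pow_mul]
    norm_num
    ring
  have key : gam k / 32 ^ (k + 1) =
      (((-1) ^ (k + 1) * 9 ^ k * 2 ^ d * c ^ 2 : ℤ) : ℚ) / (2 ^ 13 * ((3 * y : ℤ) : ℚ)) := by
    rw [gam, e', eq_div_of_mul_eq (by norm_num) hc', show (144 : ℚ) = 9 * 16 by norm_num,
      show (32 : ℚ) ^ (k + 1) = 32 * (2 ^ k * 16 ^ k) by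
        rw [← mul_pow, pow_succ']; norm_num, mul_pow]
    push_cast
    field_simp
    ring
  rw [key, padicNorm.div, fzmark_two 13 (Odd.mul (by decide) ((Int.odd_coe_nat y).2 hy)),
    div_le_iff₀ (by positivity)]
  exact (padicNorm.of_int _).trans (by norm_num)

theorem NN_norm (k : ℕ) {y : ℤ} (hy : Odd y) : padicNorm 2 (NN k ((y : ℚ) ^ 2)) = 1 := by
  induction k with
  | zero => simp [NN]
  | succ k ih =>
    have h : Odd (y ^ 2 - (12 * (k : ℤ) + 6) ^ 2) :=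
      hy.pow.sub_even ⟨2 * (6 * (k : ℤ) + 3) ^ 2, by ring⟩
    have := fzmark_odd h
    push_cast at this
    rw [NN, prod_range_succ, padicNorm.mul, this, mul_one]
    exact ih

theorem TK_norm (K : ℕ) {y : ℤ} (hy : Odd y) : padicNorm 2 (TK K y) ≤ 2 ^ 13 := by
  refine padicNorm.sum_le' (fun k _ => ?_) (by positivity)
  have e : gam k = gam k / 32 ^ (k + 1) * ((32 ^ (k + 1) : ℤ) : ℚ) := by
    push_cast
    field_simp
  rw [padicNorm.div, NN_norm _ hy, div_one, e, padicNorm.mul]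
  exact (mul_le_of_le_one_right (padicNorm.nonneg _) (padicNorm.of_int _)).trans (gam_norm k)

theorem fzmark_A (k : ℕ) {l : ℤ} (hl : Odd l) :
    padicNorm 2 (∏ i ∈ range k, ((l : ℚ) ^ 2 - 144 * (i + 1) ^ 2)) = 1 := by
  induction k with
  | zero => simp
  | succ k ih =>
    have h : Odd (l ^ 2 - 144 * ((k : ℤ) + 1) ^ 2) :=
      hl.pow.sub_even ⟨72 * ((k : ℤ) + 1) ^ 2, by ring⟩
    have := fzmark_odd h
    push_cast at this
    rw [prod_range_succ, padicNorm.mul, this, ih, mul_one]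

theorem fzmark_NN (k : ℕ) (L : ℚ) :
    NN k ((L + 6) ^ 2) * (L - 12 * k) = L * ∏ i ∈ range k, (L ^ 2 - 144 * (i + 1) ^ 2) ∧
    NN k ((L - 6) ^ 2) * (L + 12 * k) = L * ∏ i ∈ range k, (L ^ 2 - 144 * (i + 1) ^ 2) := by
  induction k with
  | zero => simp [NN]
  | succ k ih =>
    simp only [NN, prod_range_succ] at ih ⊢
    push_cast
    constructor
    · linear_combination (L ^ 2 - 144 * (k + 1) ^ 2) * ih.1
    · linear_combination (L ^ 2 - 144 * (k + 1) ^ 2) * ih.2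

theorem fzmark_id (K : ℕ) {l : ℤ} (hl : Odd l) :
    TK K (l + 6) - TK K (l - 6) - 1 / (l : ℚ) ^ 3 = -((-144) ^ K * (K.factorial : ℚ) ^ 2 /
      ((l : ℚ) ^ 3 * ∏ i ∈ range K, ((l : ℚ) ^ 2 - 144 * (i + 1) ^ 2))) := by
  have ne : ∀ q : ℚ, padicNorm 2 q = 1 → q ≠ 0 := by
    rintro q hq rfl
    simp at hq
  have hl0 : (l : ℚ) ≠ 0 := ne _ (fzmark_odd hl)
  induction K with
  | zero => simp [TK]
  | succ K ih =>
    obtain ⟨h1, h2⟩ := fzmark_NN (K + 1) l
    have hA := ne _ (fzmark_A (K + 1) hl)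
    have n1 := ne _ (NN_norm (K + 1) (hl.add_even (show Even (6 : ℤ) by decide)))
    have n2 := ne _ (NN_norm (K + 1) (hl.sub_even (show Even (6 : ℤ) by decide)))
    push_cast at n1 n2 h1 h2
    have e1 : gam K / NN (K + 1) (((l : ℚ) + 6) ^ 2) = gam K * (l - 12 * (K + 1)) /
        (l * ∏ i ∈ range (K + 1), ((l : ℚ) ^ 2 - 144 * (i + 1) ^ 2)) := by
      rw [div_eq_div_iff n1 (mul_ne_zero hl0 hA), ← h1]
      ring
    have e2 : gam K / NN (K + 1) (((l : ℚ) - 6) ^ 2) = gam K * (l + 12 * (K + 1)) /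
        (l * ∏ i ∈ range (K + 1), ((l : ℚ) ^ 2 - 144 * (i + 1) ^ 2)) := by
      rw [div_eq_div_iff n2 (mul_ne_zero hl0 hA), ← h2]
      ring
    simp only [TK, sum_range_succ] at ih ⊢
    rw [e1, e2]
    rw [prod_range_succ] at hA ⊢
    have hA1 := left_ne_zero_of_mul hA
    have hA2 := right_ne_zero_of_mul hA
    have hK : (K : ℚ) + 1 ≠ 0 := by positivity
    have e3 : gam K * (24 * (K + 1)) = -((-144) ^ K * (K.factorial : ℚ) ^ 2) := by
      rw [gam, div_mul_cancel₀ _ (by positivity), neg_eq_neg_one_mul (144 : ℚ), mul_pow]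
      ring
    rw [Nat.factorial_succ, pow_succ (-144 : ℚ)]
    push_cast
    generalize ∏ i ∈ range K, ((l : ℚ) ^ 2 - 144 * (i + 1) ^ 2) = A at *
    generalize (-144 : ℚ) ^ K = B at *
    have e4 : gam K * (l - 12 * (K + 1)) / (l * (A * ((l : ℚ) ^ 2 - 144 * (K + 1) ^ 2))) -
        gam K * (l + 12 * (K + 1)) / (l * (A * ((l : ℚ) ^ 2 - 144 * (K + 1) ^ 2))) =
        B * (K.factorial : ℚ) ^ 2 / (l * (A * ((l : ℚ) ^ 2 - 144 * (K + 1) ^ 2))) := by
      rw [← sub_div]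
      congr 1
      linear_combination -e3
    have e5 : B * (K.factorial : ℚ) ^ 2 / (l * (A * ((l : ℚ) ^ 2 - 144 * (K + 1) ^ 2))) -
        B * (K.factorial : ℚ) ^ 2 / ((l : ℚ) ^ 3 * A) =
        -(B * -144 * (((K : ℚ) + 1) * K.factorial) ^ 2 /
          ((l : ℚ) ^ 3 * (A * ((l : ℚ) ^ 2 - 144 * (K + 1) ^ 2)))) := by
      field_simp
      ring
    linear_combination ih + e4 + e5

theorem TK_step (K : ℕ) {l : ℤ} (hl : Odd l) :
    padicNorm 2 (TK K (l + 6) - TK K (l - 6) - 1 / (l : ℚ) ^ 3) ≤ 1 / 16 ^ K := by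
  rw [fzmark_id K hl, padicNorm.neg, padicNorm.div, padicNorm.mul, padicNorm.mul, fzmark_pow,
    fzmark_pow, fzmark_pow, fzmark_A K hl, fzmark_odd hl, padicNorm.neg, fzmark_144, one_pow,
    mul_one, div_one, one_div_pow]
  exact mul_le_of_le_one_right (by positivity)
    (pow_le_one₀ (padicNorm.nonneg _) (padicNorm.of_nat _))

theorem ch_approx {a b : ℤ} {f : Nd → ℚ} (h : Ch a b f) (K : ℕ) (i : ℤ) :
    padicNorm 2 (f (true, i) - (a - b * TK K 3 + b * TK K (yy (true, i)))) ≤ 1 / 16 ^ K := by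
  have step : ∀ i : ℤ, padicNorm 2
      ((f (true, i + 1) - (a - b * TK K 3 + b * TK K (yy (true, i + 1)))) -
        (f (true, i) - (a - b * TK K 3 + b * TK K (yy (true, i))))) ≤ 1 / 16 ^ K := by
    intro i
    have h1 := TK_step K (l := 12 * i + 9) ⟨6 * i + 4, by ring⟩
    have e1 : ((yy (true, i + 1) : ℤ) : ℚ) = ((12 * i + 9 : ℤ) : ℚ) + 6 := by
      simp only [yy, if_true]
      push_cast
      ring
    have e2 : ((yy (true, i) : ℤ) : ℚ) = ((12 * i + 9 : ℤ) : ℚ) - 6 := by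
      simp only [yy, if_true]
      push_cast
      ring
    rw [h.step, e1, e2, sub_add_cancel]
    generalize ((12 * i + 9 : ℤ) : ℚ) = L at *
    rw [show f (true, i) + b / L ^ 3 - (a - b * TK K 3 + b * TK K (L + 6)) -
      (f (true, i) - (a - b * TK K 3 + b * TK K (L - 6))) =
      -(b * (TK K (L + 6) - TK K (L - 6) - 1 / L ^ 3)) by ring, padicNorm.neg, padicNorm.mul]
    exact (mul_le_of_le_one_left (padicNorm.nonneg _) (padicNorm.of_int _)).trans h1
  induction i using Int.induction_on with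
  | zero =>
    have e : ((yy (true, 0) : ℤ) : ℚ) = 3 := by simp [yy]
    rw [h.zB, e, sub_add_cancel, sub_self, padicNorm.zero]
    positivity
  | succ i ih =>
    have := (padicNorm.nonarchimedean (p := 2)).trans (max_le (step i) ih)
    rwa [sub_add_cancel] at this
  | pred i ih =>
    have h1 := step (-(i : ℤ) - 1)
    rw [sub_add_cancel] at h1
    have := (padicNorm.sub (p := 2)).trans (max_le ih h1)
    rwa [sub_sub_cancel] at this

end Pool.Agent.FMZ
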