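import Pool.Agent.P.MP_cb43af_nt.FzNew
import Pool.Agent.P.MP_cb43af_nt.FzMark

open Finset Filter Polynomial
namespace Pool.Agent.FMZ

def fztwobO : Subring ℚ where
  carrier := {q | padicNorm 2 q ≤ 1}
  mul_mem' := fun {a b} ha hb => by
    have ha' : padicNorm 2 a ≤ 1 := ha
    have hb' : padicNorm 2 b ≤ 1 := hb
    change padicNorm 2 (a * b) ≤ 1
    rw [padicNorm.mul]
    exact mul_le_one₀ ha' (padicNorm.nonneg _) hb'
  one_mem' := by change padicNorm 2 1 ≤ 1; simp
  add_mem' := fun {a b} ha hb => padicNorm.nonarchimedean.trans (max_le ha hb)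
  zero_mem' := by change padicNorm 2 0 ≤ 1; simp
  neg_mem' := fun {a} ha => by change padicNorm 2 (-a) ≤ 1; rw [padicNorm.neg]; exact ha

theorem fztwob_two (E : ℕ) : padicNorm 2 ((2 : ℚ) ^ E) = 1 / 2 ^ E := by
  have h : padicNorm 2 (2 : ℚ) = 1 / 2 := by
    simpa using padicNorm.padicNorm_p_of_prime (p := 2)
  induction E with
  | zero => simp
  | succ E ih => rw [pow_succ, padicNorm.mul, ih, h]; field_simp

theorem fztwob_scale {q : ℚ} {E : ℕ} (h : padicNorm 2 q ≤ 2 ^ E) : 2 ^ E * q ∈ fztwobO := by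
  change padicNorm 2 (2 ^ E * q) ≤ 1
  rw [padicNorm.mul, fztwob_two, one_div, inv_mul_le_iff₀ (by positivity), mul_one]
  exact h

theorem fztwob_val_odd {z : ℤ} (hz : Odd z) : padicValRat 2 (z : ℚ) = 0 := by
  rw [padicValRat.of_int, padicValInt.eq_zero_of_not_dvd]; · rfl
  rcases hz with ⟨t, rfl⟩
  omega

theorem fztwob_val32 : padicValRat 2 (32 : ℚ) = 5 := by
  have h : padicValRat 2 ((2 : ℕ) : ℚ) = 1 := padicValRat.self (by norm_num)
  have e : (32 : ℚ) = ((2 : ℕ) : ℚ) ^ 5 := by norm_num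
  rw [e, padicValRat.pow, h]; rfl

theorem fztwob_val2 (E : ℕ) : padicValRat 2 ((2 : ℚ) ^ E) = E := by
  have h : padicValRat 2 (2 : ℚ) = 1 := by simpa using padicValRat.self (p := 2) (by norm_num)
  rw [padicValRat.pow, h, mul_one]

theorem fztwob_tau : ∃ T : ℕ → ℤ, ∀ i : ℕ, ((12 * i + 6) ^ 2 : ℚ) = 4 + 32 * T i := by
  have : ∀ i : ℕ, ∃ t : ℤ, ((12 * i + 6) ^ 2 : ℚ) = 4 + 32 * t := fun i => by
    obtain ⟨s, hs⟩ := Int.even_mul_succ_self (i : ℤ)
    refine ⟨9 * s + 1, ?_⟩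
    have h : (i : ℚ) * (i + 1) = s + s := by exact_mod_cast hs
    push_cast
    linear_combination 144 * h
  choose T hT using this
  exact ⟨T, hT⟩

theorem fztwob_A {x : Nd} (h : x.1 = false) : ∃ w : ℤ, zz x = 32 * w := by
  obtain ⟨s, hs⟩ := Int.even_mul_succ_self x.2
  refine ⟨3 * (s + x.2 * x.2), ?_⟩
  simp only [zz, yy, h, Bool.false_eq_true, if_false]
  linear_combination 48 * hs

theorem fztwob_B {x : Nd} (h : x.1 = true) : Odd (yy x) ∧ Odd (zz x) := by
  have h1 : Odd (yy x) := ⟨6 * x.2 + 1, by simp only [yy, h, if_true]; ring⟩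
  refine ⟨h1, ?_⟩
  obtain ⟨t, ht⟩ := h1
  exact ⟨2 * t * t + 2 * t - 2, by rw [zz, ht]; ring⟩

theorem fztwob_NN {T : ℕ → ℤ} (hT : ∀ i : ℕ, ((12 * i + 6) ^ 2 : ℚ) = 4 + 32 * T i) {y z : ℚ}
    (hz : z = y ^ 2 - 4) (h0 : z ≠ 0) (k : ℕ) :
    NN k (y ^ 2) = z ^ k * ∏ i ∈ range k, (1 - T i * (32 / z)) := by
  rw [NN, ← card_range k, ← prod_const, card_range, ← prod_mul_distrib]
  refine prod_congr rfl fun i _ => ?_
  rw [hT, show y ^ 2 = z + 4 by rw [hz]; ring]
  field_simp
  ring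

theorem fztwob_TK {T : ℕ → ℤ} (hT : ∀ i : ℕ, ((12 * i + 6) ^ 2 : ℚ) = 4 + 32 * T i) {y z : ℚ}
    (hz : z = y ^ 2 - 4) (h0 : z ≠ 0) (hN : ∀ k, NN k (y ^ 2) ≠ 0) (K : ℕ) :
    TK K y * ∏ i ∈ range K, (1 - T i * (32 / z)) = ∑ j ∈ range K, gam j / 32 ^ (j + 1)
      * (32 / z) ^ (j + 1) * ∏ i ∈ Ico (j + 1) K, (1 - T i * (32 / z)) := by
  rw [TK, sum_mul]
  refine sum_congr rfl fun j hj => ?_
  have h1 := hN (j + 1)
  rw [fztwob_NN hT hz h0] at h1 ⊢
  rw [← prod_range_mul_prod_Ico _ (show j + 1 ≤ K from mem_range.1 hj)]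
  have h2 := right_ne_zero_of_mul h1
  generalize ∏ i ∈ range (j + 1), (1 - (T i : ℚ) * (32 / z)) = A at h2 ⊢
  generalize ∏ i ∈ Ico (j + 1) K, (1 - (T i : ℚ) * (32 / z)) = B
  rw [div_pow]
  field_simp

theorem fztwob_pow {z : ℚ} (h0 : z ≠ 0) {m k : ℕ} (hk : k < m) :
    (32 / z) ^ (m - 1) * (z ^ k * (1 / 32) ^ k) = (32 / z) ^ (m - 1 - k) := by
  obtain ⟨d, rfl⟩ : ∃ d, m = k + d + 1 := ⟨m - 1 - k, by omega⟩
  rw [show k + d + 1 - 1 - k = d by omega, show k + d + 1 - 1 = d + k by omega, pow_add,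
    mul_assoc, ← mul_pow, ← mul_pow, show 32 / z * (z * (1 / 32)) = 1 by field_simp, one_pow,
    mul_one]

theorem fztwob_WW {ι : Type} [DecidableEq ι] {z : ι → ℤ} (hz : Function.Injective z)
    (B : Finset ι) (hB : ∀ r ∈ B, Odd (z r)) :
    WW (fun r => (32 / z r : ℚ)) B ≠ 0 ∧ padicValRat 2 (WW (fun r => (32 / z r : ℚ)) B)
      = 5 * (B.card : ℤ) * (B.card - 1) + padicValInt 2 (WW z B) := by
  have n0 : ∀ r ∈ B, (z r : ℚ) ≠ 0 := fun r hr => by
    obtain ⟨t, ht⟩ := hB r hr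
    exact_mod_cast (show z r ≠ 0 by omega)
  have d0 : ∀ i, ∀ j ∈ B.erase i, z i - z j ≠ 0 := fun i j hj h =>
    ne_of_mem_erase hj (hz (sub_eq_zero.1 h)).symm
  have key : ∀ i ∈ B, ∀ j ∈ B.erase i, (32 / z i - 32 / z j : ℚ) ≠ 0 ∧
      padicValRat 2 (32 / z i - 32 / z j : ℚ) = 5 + padicValInt 2 (z i - z j) := fun i hi j hj => by
    have hi0 := n0 i hi
    have hj0 := n0 j (mem_of_mem_erase hj)
    have hd : ((z i - z j : ℤ) : ℚ) ≠ 0 := by exact_mod_cast d0 i j hj
    have e : (32 / z i - 32 / z j : ℚ) = -(32 * ((z i - z j : ℤ) : ℚ) / (z i * z j)) := by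
      push_cast; field_simp; ring
    rw [e, neg_ne_zero, padicValRat.neg]
    refine ⟨div_ne_zero (mul_ne_zero (by norm_num) hd) (mul_ne_zero hi0 hj0), ?_⟩
    rw [padicValRat.div (mul_ne_zero (by norm_num) hd) (mul_ne_zero hi0 hj0),
      padicValRat.mul (by norm_num) hd, padicValRat.mul hi0 hj0, fztwob_val32,
      fztwob_val_odd (hB i hi), fztwob_val_odd (hB j (mem_of_mem_erase hj)), padicValRat.of_int]
    ring
  have p0 : ∀ i ∈ B, ∏ j ∈ B.erase i, (32 / z i - 32 / z j : ℚ) ≠ 0 := fun i hi =>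
    prod_ne_zero_iff.2 fun j hj => (key i hi j hj).1
  refine ⟨prod_ne_zero_iff.2 p0, ?_⟩
  rw [WW, WW, val_prod 2 _ _ p0, valInt_prod 2 _ _ fun i _ => prod_ne_zero_iff.2 (d0 i),
    sum_congr rfl fun i hi => val_prod 2 _ _ fun j hj => (key i hi j hj).1,
    sum_congr rfl fun i hi => sum_congr rfl fun j hj => (key i hi j hj).2,
    sum_congr rfl fun i _ => valInt_prod 2 _ _ (d0 i)]
  simp only [sum_add_distrib, sum_const]
  rw [sum_congr rfl fun i hi => show (B.erase i).card • (5 : ℤ) = 5 * ((B.card : ℤ) - 1) by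
    rw [card_erase_of_mem hi, nsmul_eq_mul, Nat.cast_pred (card_pos.2 ⟨i, hi⟩)]; ring, sum_const]
  push_cast
  simp only [nsmul_eq_mul]
  ring

/-- the two-adic bound when the values on the odd chain are given by the rational function -/
theorem two_exact {n m : ℕ} {x : Col m → Nd} (h : Sel n m x) (b : ℤ) (c : ℚ) (K E : ℕ)
    (hE : 13 ≤ E) (hc : padicNorm 2 c ≤ 2 ^ E) (g : Col m → ℚ)
    (hA : ∀ r, (x r).1 = false → padicNorm 2 (g r) ≤ 2 ^ E)
    (hB : ∀ r, (x r).1 = true → g r = c + b * TK K (yy (x r)))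
    (hD : DG m (fun r => (zz (x r) : ℚ)) g ≠ 0) {k : ℕ}
    (hk : (univ.filter fun r => (x r).1 = true).card = k) :
    10 * (m : ℤ) * (m - 1) - 10 * (m - 1) * k + 5 * k * (k - 1) - 4 * m * E
      + padicValInt 2 (WW (fun r => zz (x r)) (univ.filter fun r => (x r).1 = true))
      ≤ 2 * padicValRat 2 (DG m (fun r => (zz (x r) : ℚ)) g) := by
  classical
  obtain ⟨T, hT⟩ := fztwob_tau
  have hm : 1 ≤ m := by have := h.hm; omega
  set B := univ.filter fun r => (x r).1 = true with hBdef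
  set z : Col m → ℚ := fun r => (zz (x r) : ℚ) with hzdef
  have z0 : ∀ r, (x r).1 = true → z r ≠ 0 := fun r hr => by
    obtain ⟨t, ht⟩ := (fztwob_B hr).2
    simp only [hzdef]
    exact_mod_cast (show zz (x r) ≠ 0 by omega)
  have zy : ∀ r, z r = (yy (x r) : ℚ) ^ 2 - 4 := fun r => by simp [hzdef, zz]
  have N0 : ∀ r, (x r).1 = true → ∀ j, NN j ((yy (x r) : ℚ) ^ 2) ≠ 0 := fun r hr j h0 => by
    have := NN_norm j (fztwob_B hr).1
    rw [h0] at this; simp at this
  have he : ∀ r, (if (x r).1 = true then 32 / z r else 0) ∈ fztwobO := fun r => by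
    split_ifs with hr
    · change padicNorm 2 (32 / z r) ≤ 1
      have h1 : padicNorm 2 (z r) = 1 := by
        rw [padicNorm.eq_zpow_of_nonzero (z0 r hr), fztwob_val_odd (fztwob_B hr).2]; simp
      rw [padicNorm.div, h1, div_one]
      exact_mod_cast padicNorm.of_int (p := 2) 32
    · exact zero_mem _
  have ha : ∀ j, 2 ^ E * (b * (gam j / 32 ^ (j + 1))) ∈ fztwobO := fun j => by
    refine fztwob_scale ?_
    rw [padicNorm.mul]
    exact (mul_le_of_le_one_left (padicNorm.nonneg _) (padicNorm.of_int b)).trans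
      ((gam_norm j).trans (pow_le_pow_right₀ (by norm_num) hE))
  let t : Col m → ℚ := Sum.elim (fun j => (1 / 32) ^ (j : ℕ)) (fun j => (1 / 32) ^ (j : ℕ))
  have hw : ∀ r c', (if (x r).1 = true then 0 else 2 ^ E * (rowv m (z r) 1 (g r) c' * t c'))
      ∈ fztwobO := fun r c' => by
    split_ifs with hr
    · exact zero_mem _
    have hr' : (x r).1 = false := by simpa using hr
    obtain ⟨w, hw⟩ := fztwob_A hr'
    have e : ∀ j : ℕ, z r ^ j * (1 / 32) ^ j = ((w ^ j : ℤ) : ℚ) := fun j => by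
      rw [← mul_pow]; simp only [hzdef, hw]; push_cast; congr 1; ring
    rcases c' with j | j
    · have : (2 : ℚ) ^ E * (rowv m (z r) 1 (g r) (.inl j) * t (.inl j)) = ((2 ^ E * w ^ (j : ℕ) : ℤ) : ℚ) := by
        simp only [rowv, t, Sum.elim_inl, one_mul, e]; push_cast; ring
      rw [this]; exact intCast_mem _ _
    · have : (2 : ℚ) ^ E * (rowv m (z r) 1 (g r) (.inr j) * t (.inr j))
          = (2 ^ E * g r) * ((w ^ (j : ℕ) : ℤ) : ℚ) := by
        simp only [rowv, t, Sum.elim_inr, mul_assoc, e]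
      rw [this]; exact mul_mem (fztwob_scale (hA r hr')) (intCast_mem _ _)
  let η : Col m → fztwobO := fun r => ⟨_, he r⟩
  let lab : Col m → Option (Col m) := fun r => if (x r).1 = true then none else some r
  let PB : Col m → fztwobO[X] := Sum.elim
    (fun j => C (2 ^ E) * X ^ (m - 1 - j) * ∏ i ∈ range K, (1 - C (T i : fztwobO) * X))
    (fun j => X ^ (m - 1 - j) * (C ⟨_, fztwob_scale hc⟩ * ∏ i ∈ range K, (1 - C (T i : fztwobO) * X)
      + ∑ l ∈ range K, C ⟨_, ha l⟩ * X ^ (l + 1) * ∏ i ∈ Ico (l + 1) K, (1 - C (T i : fztwobO) * X)))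
  let P : Option (Col m) → Col m → fztwobO[X] := fun o c' => o.elim (PB c') fun r => C ⟨_, hw r c'⟩
  let s : Col m → ℚ := fun r => if (x r).1 = true then
    2 ^ E * (32 / z r) ^ (m - 1) * ∏ i ∈ range K, (1 - T i * (32 / z r)) else 2 ^ E
  have ent : ∀ r c', fztwobO.subtype ((P (lab r) c').eval (η r))
      = s r * (t c' * rowv m (z r) 1 (g r) c') := fun r c' => by
    by_cases hr : (x r).1 = true
    · have e0 : fztwobO.subtype (η r) = 32 / z r := by simp [η, hr]
      have e2 : fztwobO.subtype 2 = 2 := map_ofNat _ 2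
      rcases c' with j | j
      · simp only [P, lab, s, hr, if_true, Option.elim, PB, Sum.elim_inl, eval_mul, eval_C, eval_pow,
          eval_X, eval_prod, eval_sub, eval_one, map_mul, map_pow, map_prod, map_sub, map_one, e0,
          e2, map_intCast, eval_intCast, rowv, t, eval_ofNat, map_ofNat]
        rw [← fztwob_pow (z0 r hr) j.2]; ring
      · simp only [P, lab, s, hr, if_true, Option.elim, PB, Sum.elim_inr, eval_mul, eval_C, eval_pow,
          eval_X, eval_prod, eval_sub, eval_one, eval_add, eval_finsetSum, map_mul, map_pow,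
          map_prod, map_sub, map_one, map_add, map_sum, e0, map_intCast, eval_intCast, rowv, t,
          Subring.coe_subtype]
        have e3 := fztwob_TK hT (zy r) (z0 r hr) (N0 r hr) K
        have e4 : ∑ l ∈ range K, 2 ^ E * (b * (gam l / 32 ^ (l + 1))) * (32 / z r) ^ (l + 1)
            * ∏ i ∈ Ico (l + 1) K, (1 - (T i : ℚ) * (32 / z r))
            = 2 ^ E * b * (TK K (yy (x r)) * ∏ i ∈ range K, (1 - (T i : ℚ) * (32 / z r))) := by
          rw [e3, mul_sum]; exact sum_congr rfl fun l _ => by ring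
        rw [e4, hB r hr, ← fztwob_pow (z0 r hr) j.2]; ring
    · simp only [P, lab, s, hr, if_false, Option.elim, eval_C, Subring.coe_subtype, Bool.false_eq_true]
      ring
  obtain ⟨u, hu⟩ := newton_dvd lab P η
  have hu' := congrArg fztwobO.subtype hu
  have e1 : fztwobO.subtype (Matrix.det (Matrix.of fun i c' => (P (lab i) c').eval (η i)))
      = (∏ r, s r) * ((∏ c', t c') * DG m z g) := by
    rw [RingHom.map_det, DG, ← Matrix.det_mul_row, ← Matrix.det_mul_column]
    congr 1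
    ext r c'
    exact ent r c'
  have e2 : fztwobO.subtype (WG η lab) = WW (fun r => (32 / (zz (x r) : ℚ))) B := by
    rw [WG, WW, map_prod, hBdef, prod_filter]
    refine prod_congr rfl fun i _ => ?_
    by_cases hi : (x i).1 = true
    · rw [if_pos hi, map_prod]
      refine prod_congr ?_ fun j hj => ?_
      · ext j
        by_cases hj : (x j).1 = true <;> simp [lab, hi, hj]
      · have hj' := (mem_filter.1 (mem_of_mem_erase hj)).2
        simp [η, hi, hj', hzdef]
    · rw [if_neg hi, filter_eq_empty_iff.2, prod_empty, map_one]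
      intro j hj
      have := ne_of_mem_erase hj
      by_cases hj' : (x j).1 = true <;> simp [lab, hi, hj', this]
  obtain ⟨w0, wv⟩ := fztwob_WW h.zinj B fun r hr => (fztwob_B (mem_filter.1 hr).2).2
  have sv : ∀ r, s r ≠ 0 ∧ padicValRat 2 (s r)
      = E + if (x r).1 = true then 5 * ((m : ℤ) - 1) else 0 := fun r => by
    by_cases hr : (x r).1 = true
    · have q0 : (32 / z r : ℚ) ≠ 0 := div_ne_zero (by norm_num) (z0 r hr)
      have zv : padicValRat 2 (z r) = 0 := fztwob_val_odd (fztwob_B hr).2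
      have n1 := N0 r hr K
      have n2 : padicValRat 2 (NN K ((yy (x r) : ℚ) ^ 2)) = 0 := by
        have := NN_norm K (fztwob_B hr).1
        rw [padicNorm.eq_zpow_of_nonzero n1, zpow_eq_one_iff_right₀ (by norm_num) (by norm_num)]
          at this
        omega
      rw [fztwob_NN hT (zy r) (z0 r hr)] at n1 n2
      have n3 := right_ne_zero_of_mul n1
      rw [padicValRat.mul (pow_ne_zero _ (z0 r hr)) n3, padicValRat.pow, zv] at n2
      have n4 : (2 : ℚ) ^ E * (32 / z r) ^ (m - 1) ≠ 0 :=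
        mul_ne_zero (by positivity) (pow_ne_zero _ q0)
      simp only [s, hr, if_true]
      refine ⟨mul_ne_zero n4 n3, ?_⟩
      rw [padicValRat.mul n4 n3, padicValRat.mul (by positivity) (pow_ne_zero _ q0), fztwob_val2,
        padicValRat.pow, padicValRat.div (by norm_num) (z0 r hr), fztwob_val32, zv,
        Nat.cast_pred hm]
      linarith
    · simp only [s, hr, if_false, Bool.false_eq_true]
      exact ⟨by positivity, by rw [fztwob_val2, add_zero]⟩
  have tv : ∀ c', t c' ≠ 0 := fun c' => by rcases c' with j | j <;> simp [t]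
  have v1 : padicValRat 2 (∏ r, s r) = 2 * m * E + 5 * ((m : ℤ) - 1) * k := by
    rw [val_prod 2 _ _ fun r _ => (sv r).1, sum_congr rfl fun r _ => (sv r).2, sum_add_distrib,
      ← sum_filter, sum_const, sum_const, hk]
    simp only [card_univ, Fintype.card_sum, Fintype.card_fin, nsmul_eq_mul]
    push_cast; ring
  have v2 : padicValRat 2 (∏ c', t c') = -(5 * (m : ℤ) * (m - 1)) := by
    have a1 : ∀ j : ℕ, padicValRat 2 ((1 / 32 : ℚ) ^ j) = -(5 * (j : ℤ)) := fun j => by
      rw [padicValRat.pow, one_div, padicValRat.inv, fztwob_val32]; ring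
    have a2 : ∀ M : ℕ, 2 * ∑ j ∈ range M, -(5 * (j : ℤ)) = -(5 * (M : ℤ) * (M - 1)) := fun M => by
      induction M with
      | zero => simp
      | succ M ih => rw [sum_range_succ, mul_add, ih]; push_cast; ring
    rw [val_prod 2 _ _ fun c' _ => tv c', Fintype.sum_sum_type]
    simp only [t, Sum.elim_inl, Sum.elim_inr, a1]
    rw [Fin.sum_univ_eq_sum_range (fun j => -(5 * (j : ℤ))) m, ← two_mul, a2]
  have s0 : ∏ r, s r ≠ 0 := prod_ne_zero_iff.2 fun r _ => (sv r).1
  have t0 : ∏ c', t c' ≠ 0 := prod_ne_zero_iff.2 fun c' _ => tv c'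
  have d0 := mul_ne_zero s0 (mul_ne_zero t0 hD)
  rw [map_pow, map_mul, e1, e2] at hu'
  have u0 : fztwobO.subtype u ≠ 0 := fun h0 => by
    rw [h0, mul_zero] at hu'
    exact pow_ne_zero _ d0 hu'
  have uv : 0 ≤ padicValRat 2 (fztwobO.subtype u) :=
    (val_of_norm 2 u0 0).1 (by simpa using (show padicNorm 2 (u : ℚ) ≤ 1 from u.2))
  have fin := congrArg (padicValRat 2) hu'
  rw [padicValRat.pow, padicValRat.mul s0 (mul_ne_zero t0 hD), padicValRat.mul t0 hD, v1, v2,
    padicValRat.mul w0 u0, wv, hk] at fin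
  push_cast at fin
  linarith

end Pool.Agent.FMZ
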