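import Pool.Agent.P.MP_cb43af_nt.FzTwoA
import Pool.Agent.P.MP_cb43af_nt.FzTwoB
import Pool.Agent.P.MP_cb43af_nt.FzTriv

open Finset Filter Polynomial
namespace Pool.Agent.FMZ

theorem fztwoc_prod {α : Type} (s : Finset α) (F : α → ℚ) {t : ℚ} (ht : 0 ≤ t)
    (h : ∀ i ∈ s, padicNorm 2 (F i) ≤ t) : padicNorm 2 (∏ i ∈ s, F i) ≤ t ^ s.card := by
  classical
  induction s using Finset.induction_on with
  | empty => simp
  | insert a s ha ih =>
    rw [prod_insert ha, padicNorm.mul, card_insert_of_notMem ha, pow_succ']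
    exact mul_le_mul (h a (mem_insert_self _ _)) (ih fun i hi => h i (mem_insert_of_mem hi))
      (padicNorm.nonneg _) ht

theorem fztwoc_det {ι : Type} [Fintype ι] [DecidableEq ι] (M : Matrix ι ι ℚ) {t : ℚ} (ht : 0 ≤ t)
    (h : ∀ i j, padicNorm 2 (M i j) ≤ t) : padicNorm 2 M.det ≤ t ^ Fintype.card ι := by
  rw [Matrix.det_apply']
  refine padicNorm.sum_le' (fun σ _ => ?_) (pow_nonneg ht _)
  rw [padicNorm.mul]
  exact (mul_le_of_le_one_left (padicNorm.nonneg _) (padicNorm.of_int _)).trans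
    (fztwoc_prod univ _ ht fun i _ => h _ _)

theorem fztwoc_rowv {m : ℕ} (z : ℤ) {s u t : ℚ} (hs : padicNorm 2 s ≤ t) (hu : padicNorm 2 u ≤ t)
    (c : Col m) : padicNorm 2 (rowv m (z : ℚ) s u c) ≤ t := by
  have e : ∀ (v : ℚ) (k : ℕ), padicNorm 2 v ≤ t → padicNorm 2 (v * (z : ℚ) ^ k) ≤ t := by
    intro v k hv
    rw [padicNorm.mul, ← Int.cast_pow]
    exact (mul_le_of_le_one_right (padicNorm.nonneg _) (padicNorm.of_int _)).trans hv
  rcases c with k | k
  · exact e s k hs
  · exact e u k hu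

theorem fztwoc_sq (L : ℕ) : L ^ 2 ≤ 2 * 2 ^ L := by
  induction L with
  | zero => simp
  | succ L ih =>
    have := Nat.lt_two_pow_self (n := L)
    rw [pow_succ 2 L]
    nlinarith

theorem two_lim {a b : ℤ} {f : Nd → ℚ} (h : Ch a b f) {n m : ℕ} {x : Col m → Nd} (hx : Sel n m x)
    (hD : DD m f x ≠ 0) {L : ℕ} (hL : 12 * n ≤ 2 ^ (L + 1)) {k : ℕ}
    (hk : (univ.filter fun r => (x r).1 = true).card = k) :
    10 * (m : ℤ) * (m - 1) - 10 * (m - 1) * k + 5 * k * (k - 1) - 4 * m * (13 + 3 * L)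
      + padicValInt 2 (WW (fun r => zz (x r)) (univ.filter fun r => (x r).1 = true))
      ≤ 2 * padicValRat 2 (DD m f x) := by
  have hpos : 0 < padicNorm 2 (DD m f x) :=
    lt_of_le_of_ne (padicNorm.nonneg _) (padicNorm.nonzero hD).symm
  set t : ℚ := 2 ^ (13 + 3 * L) with ht
  have t1 : (1 : ℚ) ≤ t := one_le_pow₀ (by norm_num)
  have t13 : (2 : ℚ) ^ 13 ≤ t := pow_le_pow_right₀ (by norm_num) (by omega)
  have t3 : (2 : ℚ) ^ (3 * L) ≤ t := pow_le_pow_right₀ (by norm_num) (by omega)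
  obtain ⟨K, hK⟩ := pow_unbounded_of_one_lt (t ^ Fintype.card (Col m) / padicNorm 2 (DD m f x))
    (show (1 : ℚ) < 16 by norm_num)
  have hb : ∀ {y : ℤ}, Odd y → padicNorm 2 ((b : ℚ) * TK K y) ≤ t := fun hy => by
    rw [padicNorm.mul]
    exact (mul_le_of_le_one_left (padicNorm.nonneg _) (padicNorm.of_int _)).trans
      ((TK_norm K hy).trans t13)
  have hc : padicNorm 2 ((a : ℚ) - b * TK K 3) ≤ t :=
    padicNorm.sub.trans (max_le ((padicNorm.of_int _).trans t1)
      (by simpa using hb (y := 3) (by decide)))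
  let g : Col m → ℚ := fun r =>
    if (x r).1 = true then (a - b * TK K 3) + b * TK K (yy (x r)) else f (x r)
  have hf : ∀ r, padicNorm 2 (f (x r)) ≤ t := fun r =>
    (ch_norm h 2 hL (hx.mem r)).trans (by simpa using t3)
  have hg : ∀ r, padicNorm 2 (g r) ≤ t := fun r => by
    simp only [g]
    split_ifs with e
    · exact padicNorm.nonarchimedean.trans (max_le hc (hb ⟨6 * (x r).2 + 1, by
        simp only [yy, e, if_true]; ring⟩))
    · exact hf r
  have hd : ∀ r, padicNorm 2 (f (x r) - g r) ≤ 1 / 16 ^ K := fun r => by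
    simp only [g]
    split_ifs with e
    · have e' : x r = (true, (x r).2) := Prod.ext e rfl
      rw [e']
      exact ch_approx h K _
    · simp
  have hE := det_expand (fun r => (zz (x r) : ℚ)) (fun r => f (x r)) g
  rw [← add_sum_erase _ _ (mem_univ ∅), prod_empty, one_mul, DS_empty] at hE
  have h16 : (0 : ℚ) < 16 ^ K := by positivity
  have hR : padicNorm 2 (∑ S ∈ univ.erase ∅, (∏ r ∈ S, (f (x r) - g r)) *
      DS m (fun r => (zz (x r) : ℚ)) g S) < padicNorm 2 (DD m f x) := by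
    refine lt_of_le_of_lt (padicNorm.sum_le' (t := 1 / 16 ^ K * t ^ Fintype.card (Col m))
      (fun S hS => ?_) (by positivity)) ?_
    · rw [padicNorm.mul]
      refine mul_le_mul ((fztwoc_prod S _ (by positivity) fun r _ => hd r).trans
        (pow_le_of_le_one (by positivity) ?_ (card_ne_zero.2
          (nonempty_iff_ne_empty.2 (ne_of_mem_erase hS))))) (fztwoc_det _ (by positivity)
          fun r c => ?_) (padicNorm.nonneg _) (by positivity)
      · rw [div_le_one h16]; exact one_le_pow₀ (by norm_num)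
      · simp only [Matrix.of_apply]
        split_ifs
        · exact fztwoc_rowv _ (by simpa using zero_le_one.trans t1) (by simpa using t1) c
        · exact fztwoc_rowv _ (by simpa using t1) (hg r) c
    · rw [div_lt_iff₀ hpos] at hK
      rw [div_mul_eq_mul_div, one_mul, div_lt_iff₀ h16]
      linarith
  have hle : padicNorm 2 (DD m f x) ≤ padicNorm 2 (DG m (fun r => (zz (x r) : ℚ)) g) := by
    have := padicNorm.nonarchimedean (p := 2) (q := DG m (fun r => (zz (x r) : ℚ)) g)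
      (r := ∑ S ∈ univ.erase ∅, (∏ r ∈ S, (f (x r) - g r)) * DS m (fun r => (zz (x r) : ℚ)) g S)
    rw [← hE] at this
    exact (le_max_iff.1 this).resolve_right (not_le.2 hR)
  have hne : DG m (fun r => (zz (x r) : ℚ)) g ≠ 0 := fun e => by
    rw [e, padicNorm.zero] at hle
    exact absurd hpos (not_lt.2 hle)
  have hv := (val_of_norm 2 hne (padicValRat 2 (DG m (fun r => (zz (x r) : ℚ)) g))).2 le_rfl
  have hv2 := (val_of_norm 2 hD _).1 (hle.trans hv)
  have := two_exact hx b (a - b * TK K 3) K (13 + 3 * L) (by omega) hc g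
    (fun r _ => hg r) (fun r e => by simp only [g, e, if_true]) hne hk
  push_cast at this
  linarith
theorem two_bound {a b : ℤ} {f : Nd → ℚ} (h : Ch a b f) {ε : ℝ} (hε : 0 < ε) :
    ∀ᶠ n : ℕ in atTop, ∀ m x, Sel n m x → DD m f x ≠ 0 →
      (28 - ε) * n ^ 2 ≤ (padicValRat 2 (qq m f x) : ℝ) := by
  have h1 : ∀ c : ℝ, ∀ᶠ n : ℕ in atTop, c ≤ n := fun c =>
    tendsto_natCast_atTop_atTop.eventually_ge_atTop c
  filter_upwards [h1 (800 / ε), h1 (24 * 14400 / ε ^ 2), eventually_ge_atTop 2]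
    with n n1 n2 n3 m x hx hD
  set L := Nat.log 2 (12 * n) with hL
  have l1 : 12 * n < 2 ^ (L + 1) := Nat.lt_pow_succ_log_self (by norm_num) _
  have l2 : 2 ^ L ≤ 12 * n := Nat.pow_log_le_self _ (by omega)
  have l3 : L ^ 2 ≤ 24 * n := by have := fztwoc_sq L; omega
  have a1 := two_lim h hx hD l1.le rfl
  have a2 := val_qq 2 hx hD
  have a3 := two_split hx
  have a4 := two_A hx (L := L) (by omega)
  have a5 := two_B hx rfl
  have a6 := two_card hx
  have a7 := hx.hm
  generalize (univ.filter fun r => (x r).1 = true).card = k at a1 a5 a6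
  rw [a3] at a2
  generalize padicValInt 2 (WW (fun r => zz (x r)) (univ.filter fun r => (x r).1 = true)) = B
    at a1 a2 a5
  generalize padicValInt 2 (WW (fun r => zz (x r)) (univ.filter fun r => (x r).1 = false)) = A
    at a2 a4
  have key : 28 * (n : ℤ) ^ 2 - 400 * n - 60 * n * L ≤ padicValRat 2 (qq m f x) := by
    obtain ⟨j, rfl⟩ : ∃ j, k = j + 1 := ⟨k - 1, by omega⟩
    rw [Nat.add_sub_cancel] at a5
    have hm : (m : ℤ) = 2 * n - 1 := by omega
    have hL0 : (0 : ℤ) ≤ L := Nat.cast_nonneg L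
    have hn0 : (0 : ℤ) ≤ n := Nat.cast_nonneg n
    have hnL := mul_nonneg hn0 hL0
    zify at a4 a5
    push_cast at a1 a2
    rw [hm] at a1
    rcases (by omega : (j : ℤ) = 2 * n - 1 ∨ (j : ℤ) = 2 * n - 2 ∨ (j : ℤ) = 2 * n - 3) with
      e | e | e <;> rw [e] at a1 a5 <;> nlinarith
  have key' : 28 * (n : ℝ) ^ 2 - 400 * n - 60 * n * L ≤ (padicValRat 2 (qq m f x) : ℝ) := by
    exact_mod_cast key
  have n0 : (0 : ℝ) < n := by exact_mod_cast (show 0 < n by omega)
  have l3' : (L : ℝ) ^ 2 ≤ 24 * n := by exact_mod_cast l3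
  rw [div_le_iff₀ hε] at n1
  rw [div_le_iff₀ (by positivity)] at n2
  have l4 : (L : ℝ) ≤ ε * n / 120 := by
    refine le_of_pow_le_pow_left₀ two_ne_zero (by positivity) (l3'.trans ?_)
    nlinarith
  nlinarith

end Pool.Agent.FMZ
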