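import Pool.Agent.P.MP_cb43af_nt.FzReal
import Pool.Agent.P.MP_cb43af_nt.FzZero
import Pool.Agent.P.MP_cb43af_nt.FzGood
import Pool.Agent.P.MP_cb43af_nt.FzTwoC
import Pool.Agent.P.MP_cb43af_nt.FzSumA
import Pool.Agent.P.MP_cb43af_nt.FzSumB

open Finset Filter Polynomial Topology
namespace Pool.Agent.FMZ

open Classical in
theorem dens_core (a : ℤ) {b : ℤ} (hb : b ≠ 0) : ∀ᶠ ν : ℕ in atTop,
    (ν : ℝ) / 32 ≤ ∑ p ∈ (PR (48 * ν)).filter (fun p => ¬ Hp a b p), Real.log p := by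
  obtain ⟨f, hf⟩ := exists_ch a b
  have t2 : Tendsto (fun ν : ℕ => 2 * ν) atTop atTop :=
    tendsto_atTop_mono (fun ν => by simp only [id]; omega) tendsto_id
  filter_upwards [sum_asym, t2.eventually (real_bound hf (ε := 1 / 10) (by norm_num)),
    t2.eventually (two_bound hf (ε := 1 / 10) (by norm_num)), eventually_ge_atTop 30]
    with ν h1 h2 h3 h4
  obtain ⟨x, hx, hD⟩ := exists_sel hb hf (n := 2 * ν) (m := 4 * ν - 1) (by omega)
  have k1 := sum_point h4 rfl (fun p => (padicValRat p (qq _ f x) : ℝ)) (fun p => ¬ Hp a b p)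
    (h3 _ x hx hD) (fun p hp => triv_b hf hx hD hp) (fun p hp h5 h6 => triv_c hf hx hD hp h5 h6)
    (fun p hp h5 h6 h7 h8 => good_bound hf hx hD hp h5 h6 h7 (not_not.1 h8))
  have k2 := log_abs_ge (qq_ne_zero hx hD) (PR (48 * ν)) (fun p hp => (mem_filter.1 hp).2)
    (fun p hp hn => triv_a hf hx hD hp (by
      by_contra hlt
      exact hn (mem_filter.2 ⟨mem_range.2 (by omega), hp⟩)))
  have k3 := h2 _ x hx hD
  have k4 := h1 _ rfl
  have hpos : (0 : ℝ) < 33 * ((2 * ν : ℕ) : ℝ) := by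
    have : 0 < 2 * ν := by omega
    positivity
  refine le_of_mul_le_mul_left ?_ hpos
  linarith

end Pool.Agent.FMZ
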