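import Pool.Agent.P.MP_cb43af_nt.Fz0
import Pool.Agent.P.MP_78d079_nt.PNT

open Finset Filter Polynomial Topology
namespace Pool.Agent.FMZ

theorem fzpnt_theta : Tendsto (fun x : ℝ => Chebyshev.theta x / x) atTop (𝓝 1) := by
  obtain ⟨C, hC⟩ := Chebyshev.psi_sub_theta_le_mul_sqrt
  have h1 : Tendsto (fun x : ℝ => C * (√x)⁻¹) atTop (𝓝 0) := by
    simpa using (tendsto_inv_atTop_zero.comp Real.tendsto_sqrt_atTop).const_mul C
  have h2 : Tendsto (fun x : ℝ => (Chebyshev.psi x - Chebyshev.theta x) / x) atTop (𝓝 0) := by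
    refine squeeze_zero' ?_ ?_ h1
    · filter_upwards [eventually_gt_atTop 0] with x hx
      exact div_nonneg (sub_nonneg.2 (Chebyshev.theta_le_psi x)) hx.le
    · filter_upwards [eventually_gt_atTop 0] with x hx
      have h3 := Real.sqrt_pos.2 hx
      rw [div_le_iff₀ hx]
      refine (hC x).trans (le_of_eq ?_)
      nth_rewrite 3 [← Real.mul_self_sqrt hx.le]
      field_simp
  have h3 := Pool.Agent.P.MP_78d079_nt.pnt.sub h2
  rw [sub_zero] at h3
  refine h3.congr fun x => ?_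
  ring

theorem fzpnt_th (k : ℕ) : th (k + 1) = Chebyshev.theta k := by
  rw [Chebyshev.theta_eq_sum_Icc, Nat.floor_natCast, th, PR, Nat.range_succ_eq_Icc_zero]

theorem fzpnt_one : Tendsto (fun k : ℕ => th k / k) atTop (𝓝 1) := by
  rw [← tendsto_add_atTop_iff_nat 1]
  have h1 := (fzpnt_theta.comp tendsto_natCast_atTop_atTop).mul
    (tendsto_natCast_div_add_atTop (1 : ℝ))
  rw [mul_one] at h1
  refine h1.congr' ?_
  filter_upwards [eventually_gt_atTop 0] with k hk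
  have h2 : (k : ℝ) ≠ 0 := by positivity
  rw [fzpnt_th, Function.comp_apply, Nat.cast_succ]
  field_simp

theorem fzpnt_scale {f : ℕ → ℝ} {a : ℝ} {e : ℕ} (he : e ≠ 0) (h0 : f 0 = 0)
    (h : Tendsto (fun k : ℕ => f k / k ^ e) atTop (𝓝 a)) (s : ℕ) :
    Tendsto (fun ν : ℕ => f (s * ν) / ν ^ e) atTop (𝓝 (s ^ e * a)) := by
  rcases Nat.eq_zero_or_pos s with rfl | hs
  · simp [h0, he]
  · refine ((h.comp (tendsto_id.const_mul_atTop' hs)).const_mul ((s : ℝ) ^ e)).congr fun ν => ?_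
    have h2 : (s : ℝ) ≠ 0 := by positivity
    simp only [Function.comp_apply, id, Nat.cast_mul, mul_pow]
    rw [← mul_div_assoc, mul_div_mul_left _ _ (pow_ne_zero e h2)]

theorem fzpnt_JJ (M : ℕ) : JJ M = ∑ k ∈ range M, th (k + 1) := by
  induction M with
  | zero => simp [JJ, PR]
  | succ M ih =>
    rw [sum_range_succ, ← ih]
    have h1 : JJ M = ∑ p ∈ PR (M + 1), ((M : ℝ) - p) * Real.log p := by
      simp only [JJ, PR, sum_filter, sum_range_succ, sub_self, zero_mul, ite_self, add_zero]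
    rw [h1, JJ, th, ← sum_add_distrib]
    refine sum_congr rfl fun p _ => ?_
    push_cast
    ring

theorem fzpnt_sum (M : ℕ) : ∑ k ∈ range M, ((k : ℝ) + 1) = M * (M + 1) / 2 := by
  induction M with
  | zero => simp
  | succ M ih =>
    rw [sum_range_succ, ih]
    push_cast
    ring

theorem fzpnt_two : Tendsto (fun M : ℕ => JJ M / M ^ 2) atTop (𝓝 (1 / 2)) := by
  have h1 : (fun k : ℕ => th (k + 1) - ((k : ℝ) + 1)) =o[atTop] fun k : ℕ => (k : ℝ) + 1 := by
    refine (Asymptotics.isLittleO_iff_tendsto fun k hk => absurd hk (by positivity)).2 ?_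
    have h2 := ((tendsto_add_atTop_iff_nat 1).2 fzpnt_one).sub_const 1
    rw [sub_self] at h2
    refine h2.congr fun k => ?_
    have h3 : (k : ℝ) + 1 ≠ 0 := by positivity
    push_cast
    field_simp
  have h2 := (h1.sum_range (fun k => by positivity) (by
    refine tendsto_atTop_mono (fun M => ?_) tendsto_natCast_atTop_atTop
    calc (M : ℝ) = ∑ k ∈ range M, (1 : ℝ) := by simp
      _ ≤ _ := sum_le_sum fun k _ => by linarith [Nat.cast_nonneg (α := ℝ) k])).tendsto_div_nhds_zero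
  have h3 : Tendsto (fun M : ℕ => (1 + (M : ℝ)⁻¹) / 2) atTop (𝓝 (1 / 2)) := by
    simpa using ((tendsto_inv_atTop_nhds_zero_nat (𝕜 := ℝ)).const_add 1).div_const 2
  have h4 := (h2.add_const 1).mul h3
  rw [zero_add, one_mul] at h4
  refine h4.congr' ?_
  filter_upwards [eventually_gt_atTop 0] with M hM
  have h5 : (M : ℝ) ≠ 0 := by positivity
  have h6 : (M : ℝ) + 1 ≠ 0 := by positivity
  rw [sum_sub_distrib, ← fzpnt_JJ, fzpnt_sum]
  field_simp
  ring

theorem th_lim (s : ℕ) : Tendsto (fun ν : ℕ => th (s * ν) / ν) atTop (𝓝 s) := by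
  have h := fzpnt_scale (f := th) (e := 1) one_ne_zero (by simp [th, PR])
    (by simpa only [pow_one] using fzpnt_one) s
  simpa only [pow_one, mul_one] using h
theorem JJ_lim (s : ℕ) : Tendsto (fun ν : ℕ => JJ (s * ν) / ν ^ 2) atTop (𝓝 (s ^ 2 / 2)) := by
  have h := fzpnt_scale (f := JJ) two_ne_zero (by simp [JJ, PR]) fzpnt_two s
  rwa [mul_one_div] at h

theorem fzpnt_II {s : ℕ} (hs : 3 ≤ s) (ν : ℕ) :
    II s ν = JJ (s * ν) - JJ (3 * ν) - (s - 3) * ν * th (3 * ν) := by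
  have h1 : (PR (s * ν)).filter (fun p => ¬ 3 * ν ≤ p) = PR (3 * ν) := by
    ext p
    have := Nat.mul_le_mul_right ν hs
    simp only [PR, mem_filter, mem_range]
    constructor
    · exact fun h => ⟨by omega, h.1.2⟩
    · exact fun h => ⟨⟨by omega, h.2⟩, by omega⟩
  have h2 := sum_filter_add_sum_filter_not (PR (s * ν)) (fun p => 3 * ν ≤ p)
    fun p => ((s * ν : ℝ) - p) * Real.log p
  rw [h1] at h2
  have h3 : ∑ p ∈ PR (3 * ν), ((s * ν : ℝ) - p) * Real.log p =
      JJ (3 * ν) + (s - 3) * ν * th (3 * ν) := by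
    rw [JJ, th, mul_sum, ← sum_add_distrib]
    refine sum_congr rfl fun p _ => ?_
    push_cast
    ring
  have h4 : JJ (s * ν) = ∑ p ∈ PR (s * ν), ((s * ν : ℝ) - p) * Real.log p := by
    rw [JJ, Nat.cast_mul]
  rw [II, h4, ← h2, h3]
  ring

theorem II_lim {s : ℕ} (hs : 3 ≤ s) :
    Tendsto (fun ν : ℕ => II s ν / ν ^ 2) atTop (𝓝 ((s - 3) ^ 2 / 2)) := by
  have h1 := ((JJ_lim s).sub (JJ_lim 3)).sub ((th_lim 3).const_mul ((s : ℝ) - 3))
  have h2 : (s : ℝ) ^ 2 / 2 - ((3 : ℕ) : ℝ) ^ 2 / 2 - (s - 3) * ((3 : ℕ) : ℝ) = (s - 3) ^ 2 / 2 := by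
    push_cast
    ring
  rw [h2] at h1
  refine h1.congr' ?_
  filter_upwards [eventually_gt_atTop 0] with ν hν
  have h5 : (ν : ℝ) ≠ 0 := by positivity
  rw [fzpnt_II hs]
  field_simp

end Pool.Agent.FMZ
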