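import Pool.Agent.P.MP_cb43af_nt.Fz0

open Finset Filter Polynomial
namespace Pool.Agent.FMZ

theorem fzrat_cop {b : ℂ} (hb : b ≠ 0) (P Q : ℂ[X]) (hQ : Q ≠ 0)
    (h : ∀ y : ℂ, y ^ 3 * (P.eval (y - 6) * Q.eval (y + 6) - P.eval (y + 6) * Q.eval (y - 6))
      = b * (Q.eval (y + 6) * Q.eval (y - 6))) : ∃ r, P.eval r = 0 ∧ Q.eval r = 0 := by
  classical
  by_contra hn
  have hP : ∀ r, Q.eval r = 0 → P.eval r ≠ 0 := fun r h1 h2 => hn ⟨r, h2, h1⟩
  have hm : ∀ r, r ∈ Q.roots.toFinset ↔ Q.eval r = 0 := fun r => by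
    rw [Multiset.mem_toFinset, mem_roots hQ, IsRoot.def]
  have hne : Q.roots.toFinset.Nonempty := by
    have h0 := h 0
    rw [zero_pow (by norm_num), zero_mul] at h0
    rcases mul_eq_zero.1 ((mul_eq_zero.1 h0.symm).resolve_left hb) with h1 | h1
    exacts [⟨_, (hm _).2 h1⟩, ⟨_, (hm _).2 h1⟩]
  obtain ⟨y0, hy0, h0⟩ := exists_max_image _ Complex.re hne
  obtain ⟨y1, hy1, h1⟩ := exists_min_image _ Complex.re hne
  have a0 := (hm _).1 hy0
  have a1 := (hm _).1 hy1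
  have b0 : Q.eval (y0 + 6 + 6) ≠ 0 := fun e => by
    have := h0 _ ((hm _).2 e)
    simp only [Complex.add_re, Complex.re_ofNat] at this
    linarith
  have b1 : Q.eval (y1 - 6 - 6) ≠ 0 := fun e => by
    have := h1 _ ((hm _).2 e)
    simp only [Complex.sub_re, Complex.re_ofNat] at this
    linarith
  have c0 := h (y0 + 6)
  have c1 := h (y1 - 6)
  rw [add_sub_cancel_right, a0, mul_zero, mul_zero, mul_zero, sub_zero] at c0
  rw [sub_add_cancel, a1, mul_zero, zero_mul, mul_zero, zero_sub] at c1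
  have d0 : y0 + 6 = 0 :=
    pow_eq_zero_iff (by norm_num) |>.1
      ((mul_eq_zero.1 c0).resolve_right (mul_ne_zero (hP _ a0) b0))
  have d1 : y1 - 6 = 0 :=
    pow_eq_zero_iff (by norm_num) |>.1
      ((mul_eq_zero.1 c1).resolve_right (neg_ne_zero.2 (mul_ne_zero (hP _ a1) b1)))
  have e0 := congrArg Complex.re d0
  have e1 := congrArg Complex.re d1
  have e2 := h0 _ hy1
  simp only [Complex.add_re, Complex.sub_re, Complex.re_ofNat, Complex.zero_re] at e0 e1
  linarith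

theorem fzrat_ind {b : ℂ} (hb : b ≠ 0) (n : ℕ) : ∀ P Q : ℂ[X], Q.natDegree < n →
    X ^ 3 * (P.comp (X - C 6) * Q.comp (X + C 6) - P.comp (X + C 6) * Q.comp (X - C 6))
      = C b * (Q.comp (X + C 6) * Q.comp (X - C 6)) → Q = 0 := by
  induction n with
  | zero => exact fun _ _ h => absurd h (Nat.not_lt_zero _)
  | succ n ih =>
    intro P Q hd h
    by_contra hQ
    obtain ⟨r, hP, hr⟩ := fzrat_cop hb P Q hQ fun y => by
      simpa only [eval_mul, eval_sub, eval_add, eval_pow, eval_X, eval_C, eval_comp] using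
        congrArg (eval y) h
    obtain ⟨P1, rfl⟩ := dvd_iff_isRoot.2 hP
    obtain ⟨Q1, rfl⟩ := dvd_iff_isRoot.2 hr
    have hQ1 : Q1 ≠ 0 := right_ne_zero_of_mul hQ
    rw [natDegree_mul (X_sub_C_ne_zero r) hQ1, natDegree_X_sub_C] at hd
    refine hQ1 (ih P1 Q1 (by omega) ?_)
    have n1 : (X - C 6 - C r : ℂ[X]) ≠ 0 := by
      rw [sub_sub, ← C_add]
      exact X_sub_C_ne_zero _
    have n2 : (X + C 6 - C r : ℂ[X]) ≠ 0 := by
      rw [add_sub_assoc, ← C_sub]
      exact X_add_C_ne_zero _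
    refine mul_left_cancel₀ (mul_ne_zero n1 n2) ?_
    simp only [mul_comp, sub_comp, X_comp, C_comp] at h
    linear_combination h

/-- no rational function solves the difference equation -/
theorem no_rat {b : ℂ} (hb : b ≠ 0) (P Q : ℂ[X])
    (h : X ^ 3 * (P.comp (X - C 6) * Q.comp (X + C 6) - P.comp (X + C 6) * Q.comp (X - C 6))
      = C b * (Q.comp (X + C 6) * Q.comp (X - C 6))) : Q = 0 :=
  fzrat_ind hb _ P Q (Nat.lt_succ_self _) h

end Pool.Agent.FMZ
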