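import Pool.Agent.P.MP_cb43af_nt.Fz0

open Finset Filter Polynomial
namespace Pool.Agent.FMZ

variable {p : ℕ} [Fact p.Prime]

theorem red_den {q : ℚ} : padicNorm p q ≤ 1 ↔ ((q.den : ℕ) : ZMod p) ≠ 0 := by
  have hq : padicNorm p q = padicNorm p (q.num : ℚ) / padicNorm p ((q.den : ℕ) : ℚ) := by
    rw [← padicNorm.div, Rat.num_div_den]
  rw [Ne, ZMod.natCast_eq_zero_iff]
  constructor
  · intro h hd
    have h1 : padicNorm p ((q.den : ℕ) : ℚ) < 1 := (padicNorm.nat_lt_one_iff _).2 hd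
    have h2 : padicNorm p (q.num : ℚ) = 1 := (padicNorm.int_eq_one_iff _).2 fun hn => by
      have h3 : p ∣ q.num.natAbs := Int.natCast_dvd.1 hn
      exact (Fact.out : p.Prime).one_lt.ne' (Nat.eq_one_of_dvd_coprimes q.reduced h3 hd)
    have h0 : 0 < padicNorm p ((q.den : ℕ) : ℚ) :=
      lt_of_le_of_ne (padicNorm.nonneg _) (padicNorm.nonzero (by exact_mod_cast q.den_nz)).symm
    rw [hq, h2, div_le_one h0] at h
    linarith
  · intro hd
    rw [hq, (padicNorm.nat_eq_one_iff _).2 hd, div_one]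
    exact padicNorm.of_int _
theorem red_add {q r : ℚ} (hq : padicNorm p q ≤ 1) (hr : padicNorm p r ≤ 1) :
    ((q + r : ℚ) : ZMod p) = q + r :=
  Rat.cast_add_of_ne_zero (red_den.1 hq) (red_den.1 hr)
theorem red_sub {q r : ℚ} (hq : padicNorm p q ≤ 1) (hr : padicNorm p r ≤ 1) :
    ((q - r : ℚ) : ZMod p) = q - r :=
  Rat.cast_sub_of_ne_zero (red_den.1 hq) (red_den.1 hr)
theorem red_mul {q r : ℚ} (hq : padicNorm p q ≤ 1) (hr : padicNorm p r ≤ 1) :
    ((q * r : ℚ) : ZMod p) = q * r :=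
  Rat.cast_mul_of_ne_zero (red_den.1 hq) (red_den.1 hr)
theorem red_sum {α : Type} (s : Finset α) (t : α → ℚ) (h : ∀ i ∈ s, padicNorm p (t i) ≤ 1) :
    ((∑ i ∈ s, t i : ℚ) : ZMod p) = ∑ i ∈ s, (t i : ZMod p) := by
  classical
  induction s using Finset.induction_on with
  | empty => simp
  | insert a s ha ih =>
    have h' : ∀ i ∈ s, padicNorm p (t i) ≤ 1 := fun i hi => h i (mem_insert_of_mem hi)
    rw [sum_insert ha, sum_insert ha,
      red_add (h a (mem_insert_self a s)) (padicNorm.sum_le' h' zero_le_one), ih h']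
theorem red_zero {q : ℚ} (hq : padicNorm p q ≤ 1) :
    (q : ZMod p) = 0 ↔ padicNorm p q ≤ 1 / p := by
  have hd := red_den.1 hq
  have hd' : ¬ p ∣ q.den := by rwa [Ne, ZMod.natCast_eq_zero_iff] at hd
  have e : padicNorm p q = padicNorm p (q.num : ℚ) := by
    conv_lhs => rw [← Rat.num_div_den q]
    rw [padicNorm.div, (padicNorm.nat_eq_one_iff _).2 hd', div_one]
  have h1 := padicNorm.dvd_iff_norm_le (p := p) (n := 1) (z := q.num)
  rw [pow_one, Nat.cast_one, zpow_neg, zpow_one] at h1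
  rw [Rat.cast_def, div_eq_zero_iff, or_iff_left hd, ZMod.intCast_zmod_eq_zero_iff_dvd, e, one_div,
    h1]
theorem red_div (s l : ℤ) (k : ℕ) (hl : ¬ (p : ℤ) ∣ l) :
    padicNorm p ((s : ℚ) / (l : ℚ) ^ k) ≤ 1 ∧
      (((s : ℚ) / (l : ℚ) ^ k : ℚ) : ZMod p) = s * ((l : ZMod p)⁻¹) ^ k := by
  have hp : Prime (p : ℤ) := Nat.prime_iff_prime_int.1 Fact.out
  have hk : ¬ (p : ℤ) ∣ l ^ k := fun h => hl (hp.dvd_of_dvd_pow h)
  have e : (s : ℚ) / (l : ℚ) ^ k = (s : ℚ) / ((l ^ k : ℤ) : ℚ) := by push_cast; rfl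
  have hz : ((l ^ k : ℤ) : ZMod p) ≠ 0 := by rwa [Ne, ZMod.intCast_zmod_eq_zero_iff_dvd]
  rw [e]
  constructor
  · rw [padicNorm.div, (padicNorm.int_eq_one_iff _).2 hk, div_one]
    exact padicNorm.of_int _
  · rw [← Rat.divInt_eq_div, Rat.cast_divInt_of_ne_zero _ hz, div_eq_mul_inv, Int.cast_pow, inv_pow]
theorem phi_step (h5 : 5 ≤ p) (t : ZMod p) : Phi p t = Phi p (t - 1) + (t⁻¹) ^ 3 := by
  have hp : 1 < p := by omega
  by_cases ht : t = 0
  · subst ht
    have hv : (0 - 1 : ZMod p).val = p - 1 := by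
      have : (0 - 1 : ZMod p) = ((p - 1 : ℕ) : ZMod p) := by
        rw [Nat.cast_sub hp.le, ZMod.natCast_self, Nat.cast_one]
      rw [this, ZMod.val_cast_of_lt (by omega)]
    have h0 : ∑ x : ZMod p, x ^ 3 = 0 :=
      FiniteField.sum_pow_lt_card_sub_one (ZMod p) 3 (by rw [ZMod.card]; omega)
    have h1 : ∑ x : ZMod p, (x⁻¹) ^ 3 = 0 := by
      rw [← h0]
      exact Equiv.sum_comp (Equiv.inv (ZMod p)) fun x => x ^ 3
    have h2 : ∑ j ∈ range p, ((j : ZMod p)⁻¹) ^ 3 = ∑ x : ZMod p, (x⁻¹) ^ 3 := by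
      refine sum_bij (fun j _ => (j : ZMod p)) (fun _ _ => mem_univ _) (fun a ha b hb h => ?_)
        (fun x _ => ⟨x.val, mem_range.2 (ZMod.val_lt x), ZMod.natCast_zmod_val x⟩) fun _ _ => rfl
      have := congrArg ZMod.val h
      rwa [ZMod.val_cast_of_lt (mem_range.1 ha), ZMod.val_cast_of_lt (mem_range.1 hb)] at this
    have h3 : range p = insert 0 (Icc 1 (p - 1)) := by
      ext j
      simp only [mem_range, mem_insert, mem_Icc]
      omega
    rw [h3, sum_insert (by simp), h1] at h2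
    unfold Phi
    rw [hv, ZMod.val_zero]
    simp only [Nat.cast_zero, inv_zero] at h2 ⊢
    rw [add_comm, h2]
    simp
  · obtain ⟨n, hn⟩ : ∃ n, t.val = n + 1 :=
      Nat.exists_eq_succ_of_ne_zero fun h => ht ((ZMod.val_eq_zero t).1 h)
    have ht' : t = ((n + 1 : ℕ) : ZMod p) := by rw [← hn, ZMod.natCast_zmod_val]
    have hlt := ZMod.val_lt t
    have hv : (t - 1).val = n := by
      rw [ht', Nat.cast_succ, add_sub_cancel_right, ZMod.val_cast_of_lt (by omega)]
    unfold Phi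
    rw [hv, hn, sum_Icc_succ_top (by omega), ← ht']
theorem phi_refl (h5 : 5 ≤ p) (t : ZMod p) : Phi p (-1 - t) = Phi p t := by
  have key : ∀ n : ℕ, Phi p (-1 - (n : ZMod p)) = Phi p n := by
    intro n
    induction n with
    | zero =>
      have h := phi_step h5 (0 : ZMod p)
      simp only [Nat.cast_zero, sub_zero]
      rw [h]
      simp
    | succ n ih =>
      have h1 := phi_step h5 (-1 - (n : ZMod p))
      have h2 := phi_step h5 ((n : ZMod p) + 1)
      rw [add_sub_cancel_right] at h2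
      rw [show (-1 - (n : ZMod p)) - 1 = -1 - ((n : ZMod p) + 1) by ring, ih,
        show (-1 - (n : ZMod p)) = -((n : ZMod p) + 1) by ring, inv_neg] at h1
      rw [Nat.cast_succ, h2, h1]
      ring
  rw [← ZMod.natCast_zmod_val t]
  exact key _

end Pool.Agent.FMZ
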