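import Pool.Agent.P.MP_cb43af_nt.Fz0

open Finset Filter Polynomial Topology
namespace Pool.Agent.FMZ

theorem fzstuf_Ioo (f : ℕ → ℚ) (h0 : f 0 = 0) (n : ℕ) :
    ∑ i ∈ Ioo 0 (n + 1), f i = ∑ i ∈ Ioo 0 n, f i + f n := by
  rcases Nat.eq_zero_or_pos n with rfl | hn
  · have h : Ioo 0 (0 + 1) = (∅ : Finset ℕ) := by
      ext i
      simp only [mem_Ioo, notMem_empty, iff_false]
      omega
    rw [h]
    simp [h0]
  · have h : Ioo 0 (n + 1) = insert n (Ioo 0 n) := by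
      ext i
      simp only [mem_Ioo, mem_insert]
      omega
    rw [h, sum_insert (by simp), add_comm]

theorem fzstuf_cons (a : ℕ+) (k : List ℕ+) (M : ℕ) :
    zeta (a :: k) M = ∑ n ∈ Ioo 0 M, zeta k n / (n : ℚ) ^ (a : ℕ) := by
  rw [zeta]

theorem fzstuf_nil (M : ℕ) : zeta [] M = 1 := by
  rw [zeta]

theorem fzstuf_ind (W : Submodule ℚ (ℕ → ℚ)) (s : Set (ℕ → ℚ)) (L : (ℕ → ℚ) → ℕ → ℚ)
    (hadd : ∀ x y, L (x + y) = L x + L y) (hsm : ∀ (c : ℚ) x, L (c • x) = c • L x)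
    (hs : ∀ x ∈ s, L x ∈ W) {x : ℕ → ℚ} (hx : x ∈ Submodule.span ℚ s) : L x ∈ W := by
  induction hx using Submodule.span_induction with
  | mem x h => exact hs x h
  | zero =>
    have h := hsm 0 0
    rw [zero_smul, zero_smul] at h
    rw [h]
    exact W.zero_mem
  | add x y _ _ hx hy =>
    rw [hadd]
    exact W.add_mem hx hy
  | smul c x _ hx =>
    rw [hsm]
    exact W.smul_mem c hx

theorem zeta_mem (k : List ℕ+) : zeta k ∈ VV := Submodule.subset_span ⟨k, rfl⟩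
theorem zeta_succ (a : ℕ+) (k : List ℕ+) (n : ℕ) :
    zeta (a :: k) (n + 1) = zeta (a :: k) n + zeta k n / (n : ℚ) ^ (a : ℕ) := by
  rw [fzstuf_cons, fzstuf_cons]
  exact fzstuf_Ioo (fun n : ℕ => zeta k n / (n : ℚ) ^ (a : ℕ)) (by simp) n
theorem st_rec (a b : ℕ+) (k l : List ℕ+) (M : ℕ) :
    zeta (a :: k) M * zeta (b :: l) M = ∑ n ∈ Ioo 0 M,
      (zeta k n * zeta (b :: l) n / (n : ℚ) ^ (a : ℕ) + zeta (a :: k) n * zeta l n / (n : ℚ) ^ (b : ℕ)
        + zeta k n * zeta l n / (n : ℚ) ^ ((a : ℕ) + b)) := by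
  induction M with
  | zero => simp [fzstuf_cons]
  | succ M ih =>
    rw [fzstuf_Ioo (fun n : ℕ => zeta k n * zeta (b :: l) n / (n : ℚ) ^ (a : ℕ) +
      zeta (a :: k) n * zeta l n / (n : ℚ) ^ (b : ℕ) +
      zeta k n * zeta l n / (n : ℚ) ^ ((a : ℕ) + b)) (by simp), ← ih, zeta_succ, zeta_succ, pow_add]
    simp only [div_eq_mul_inv, mul_inv]
    ring
theorem SS_mem {φ : ℕ → ℚ} (h : φ ∈ UU) : SS φ ∈ VV := by
  refine fzstuf_ind VV _ SS ?_ ?_ ?_ h
  · intro x y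
    funext M
    simp only [SS, Pi.add_apply, add_div, sum_add_distrib]
  · intro c x
    funext M
    simp only [SS, Pi.smul_apply, smul_eq_mul, mul_sum, mul_div_assoc]
  · rintro x ⟨⟨k, a⟩, rfl⟩
    have e : SS (fun n : ℕ => zeta k n / (n : ℚ) ^ a) = zeta (⟨a + 1, Nat.succ_pos a⟩ :: k) := by
      funext M
      rw [fzstuf_cons]
      simp only [SS, PNat.mk_coe, pow_succ, div_div]
    exact e ▸ zeta_mem _
theorem VV_le_UU : VV ≤ UU := by
  refine Submodule.span_le.2 ?_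
  rintro x ⟨k, rfl⟩
  exact Submodule.subset_span ⟨(k, 0), by funext n; simp⟩
theorem UU_div {φ : ℕ → ℚ} (h : φ ∈ UU) (a : ℕ) : (fun n : ℕ => φ n / (n : ℚ) ^ a) ∈ UU := by
  refine fzstuf_ind UU _ (fun (φ : ℕ → ℚ) (n : ℕ) => φ n / (n : ℚ) ^ a) ?_ ?_ ?_ h
  · intro x y
    funext n
    simp only [Pi.add_apply, add_div]
  · intro c x
    funext n
    simp only [Pi.smul_apply, smul_eq_mul, mul_div_assoc]
  · rintro x ⟨⟨k, b⟩, rfl⟩
    exact Submodule.subset_span ⟨(k, b + a), by funext n; simp only [pow_add, div_div]⟩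

theorem fzstuf_S {φ : ℕ → ℚ} (h : φ ∈ VV) {a : ℕ} (ha : 0 < a) :
    (fun M : ℕ => ∑ n ∈ Ioo 0 M, φ n / (n : ℚ) ^ a) ∈ VV := by
  obtain ⟨b, rfl⟩ : ∃ b, a = b + 1 := ⟨a - 1, by omega⟩
  have h1 := SS_mem (UU_div (VV_le_UU h) b)
  have e : SS (fun n : ℕ => φ n / (n : ℚ) ^ b) =
      fun M : ℕ => ∑ n ∈ Ioo 0 M, φ n / (n : ℚ) ^ (b + 1) := by
    funext M
    simp only [SS, pow_succ, div_div]
  exact e ▸ h1

theorem fzstuf_zz (N : ℕ) : ∀ k l : List ℕ+, k.length + l.length ≤ N →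
    (fun n => zeta k n * zeta l n) ∈ VV := by
  induction N with
  | zero =>
    intro k l h
    obtain rfl : k = [] := List.length_eq_zero_iff.1 (by omega)
    simpa only [fzstuf_nil, one_mul] using zeta_mem l
  | succ N ih =>
    intro k l h
    rcases k with _ | ⟨a, k⟩
    · simpa only [fzstuf_nil, one_mul] using zeta_mem l
    rcases l with _ | ⟨b, l⟩
    · simpa only [fzstuf_nil, mul_one] using zeta_mem (a :: k)
    simp only [List.length_cons] at h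
    have h1 := fzstuf_S (ih k (b :: l) (by simp only [List.length_cons]; omega)) a.pos
    have h2 := fzstuf_S (ih (a :: k) l (by simp only [List.length_cons]; omega)) b.pos
    have h3 := fzstuf_S (ih k l (by omega)) (Nat.add_pos_left a.pos (b : ℕ))
    have h4 := VV.add_mem (VV.add_mem h1 h2) h3
    refine (congrArg (· ∈ VV) ?_).mp h4
    funext M
    simp only [Pi.add_apply, st_rec, sum_add_distrib]

theorem fzstuf_bil (W : Submodule ℚ (ℕ → ℚ)) (s : Set (ℕ → ℚ))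
    (hs : ∀ x ∈ s, ∀ y ∈ s, (fun n => x n * y n) ∈ W) {x y : ℕ → ℚ}
    (hx : x ∈ Submodule.span ℚ s) (hy : y ∈ Submodule.span ℚ s) : (fun n => x n * y n) ∈ W := by
  refine fzstuf_ind W s (fun (x : ℕ → ℚ) n => x n * y n) ?_ ?_ ?_ hx
  · intro u v
    funext n
    simp only [Pi.add_apply, add_mul]
  · intro c u
    funext n
    simp only [Pi.smul_apply, smul_eq_mul, mul_assoc]
  · intro u hu
    refine fzstuf_ind W s (fun (y : ℕ → ℚ) n => u n * y n) ?_ ?_ (hs u hu) hy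
    · intro v w
      funext n
      simp only [Pi.add_apply, mul_add]
    · intro c v
      funext n
      simp only [Pi.smul_apply, smul_eq_mul, mul_left_comm]

theorem VV_mul {x y : ℕ → ℚ} (hx : x ∈ VV) (hy : y ∈ VV) : (fun n => x n * y n) ∈ VV := by
  refine fzstuf_bil VV _ ?_ hx hy
  rintro _ ⟨k, rfl⟩ _ ⟨l, rfl⟩
  exact fzstuf_zz _ k l le_rfl
theorem UU_mul {x y : ℕ → ℚ} (hx : x ∈ UU) (hy : y ∈ UU) : (fun n => x n * y n) ∈ UU := by
  refine fzstuf_bil UU _ ?_ hx hy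
  rintro _ ⟨⟨k, a⟩, rfl⟩ _ ⟨⟨l, b⟩, rfl⟩
  have h := UU_div (VV_le_UU (VV_mul (zeta_mem k) (zeta_mem l))) (a + b)
  refine (congrArg (· ∈ UU) ?_).mp h
  funext n
  simp only [pow_add, div_mul_div_comm]
theorem UU_succ (k : List ℕ+) : (fun n => zeta k (n + 1)) ∈ UU := by
  rcases k with _ | ⟨a, k⟩
  · have h := VV_le_UU (zeta_mem [])
    refine (congrArg (· ∈ UU) ?_).mp h
    funext n
    simp only [fzstuf_nil]
  · have h := UU.add_mem (VV_le_UU (zeta_mem (a :: k))) (UU_div (VV_le_UU (zeta_mem k)) a)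
    refine (congrArg (· ∈ UU) ?_).mp h
    funext n
    simp only [Pi.add_apply, zeta_succ]

theorem fzstuf_app (c : List ℕ+ →₀ ℚ) (M : ℕ) :
    (c.sum fun k a => a • zeta k) M = c.sum fun k a => a * zeta k M := by
  simp only [Finsupp.sum, Finset.sum_apply, Pi.smul_apply, smul_eq_mul]

theorem VV_repr {x : ℕ → ℚ} (h : x ∈ VV) :
    ∃ c : List ℕ+ →₀ ℚ, ∀ M, x M = c.sum fun k a => a * zeta k M := by
  obtain ⟨c, rfl⟩ := Finsupp.mem_span_range_iff_exists_finsupp.1 h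
  exact ⟨c, fzstuf_app c⟩
theorem sum_mem_VV (c : List ℕ+ →₀ ℚ) : (fun M => c.sum fun k a => a * zeta k M) ∈ VV :=
  Finsupp.mem_span_range_iff_exists_finsupp.2 ⟨c, funext (fzstuf_app c)⟩

end Pool.Agent.FMZ
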