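import Pool.Agent.P.MP_cb43af_nt.FzLift
import Pool.Agent.P.MP_cb43af_nt.FzDual

open Finset Filter Polynomial Topology
namespace Pool.Agent.FMZ

noncomputable def fztl_v (φ : ℕ → ℚ) (r p : ℕ) : ℚ :=
  (-1) ^ r * SS (fun n => zeta (List.replicate (r + 1) 1) (n + 1) * φ n) p

theorem fztl_eq (φ : ℕ → ℚ) {p : ℕ} (hp : 0 < p) :
    TT (fun n => φ n / n) (p - 1) + SS φ p =
      ∑ r ∈ range (p - 1), (p : ℚ) ^ (r + 1) * fztl_v φ r p := by
  rw [TT_expand _ hp]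
  obtain ⟨q, rfl⟩ : ∃ q, p = q + 1 := ⟨p - 1, by omega⟩
  rw [sum_range_succ', Nat.add_sub_cancel]
  have e0 : (-((q + 1 : ℕ) : ℚ)) ^ 0 *
      ∑ n ∈ Ioo 0 (q + 1), zeta (List.replicate 0 1) (n + 1) * (φ n / n) = SS φ (q + 1) := by
    simp [SS, zeta]
  rw [e0, neg_add, neg_add_cancel_right, ← sum_neg_distrib]
  refine sum_congr rfl fun r _ => ?_
  have e1 : ∑ n ∈ Ioo 0 (q + 1), zeta (List.replicate (r + 1) 1) (n + 1) * (φ n / n) =
      SS (fun n => zeta (List.replicate (r + 1) 1) (n + 1) * φ n) (q + 1) :=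
    sum_congr rfl fun n _ => (mul_div_assoc _ _ _).symm
  rw [e1, fztl_v, neg_pow ((q + 1 : ℕ) : ℚ), pow_succ (-1 : ℚ)]
  ring

theorem fztl_mem {φ : ℕ → ℚ} (h : φ ∈ UU) (r : ℕ) : fztl_v φ r ∈ VV :=
  VV.smul_mem ((-1 : ℚ) ^ r) (SS_mem (UU_mul (UU_succ (List.replicate (r + 1) 1)) h))

theorem fztl_int {φ : ℕ → ℚ} (h : φ ∈ UU) :
    ∀ᶠ p in atTop, Nat.Prime p → ∀ r, padicNorm p (fztl_v φ r p) ≤ 1 := by
  filter_upwards [UU_int h] with p hp pp r
  haveI : Fact p.Prime := ⟨pp⟩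
  have h1 : padicNorm p ((-1 : ℚ) ^ r) = 1 := by
    rcases neg_one_pow_eq_or ℚ r with e | e <;> rw [e]
    · exact padicNorm.one
    · rw [padicNorm.neg]; exact padicNorm.one
  rw [fztl_v, padicNorm.mul, h1, one_mul, SS]
  refine padicNorm.sum_le' (fun n hn => ?_) zero_le_one
  obtain ⟨hn0, hn1⟩ := mem_Ioo.1 hn
  have h2 : padicNorm p (n : ℚ) = 1 :=
    (padicNorm.nat_eq_one_iff n).2 (Nat.not_dvd_of_pos_of_lt hn0 hn1)
  rw [padicNorm.div, h2, div_one, padicNorm.mul]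
  exact mul_le_one₀ (zeta_norm pp _ hn1) (padicNorm.nonneg _) (hp pp n hn1)

theorem TT_lift {φ : ℕ → ℚ} (h : φ ∈ UU) :
    Lf fun p => TT (fun n => φ n / n) (p - 1) + SS φ p := by
  refine (lf_series (fztl_v φ) (fztl_mem h) (fztl_int h)).congr ?_
  exact Eventually.of_forall fun p pp => (fztl_eq φ pp.pos).symm
theorem TT_two {φ : ℕ → ℚ} (h : φ ∈ UU) :
    Cong 2 (fun p => TT (fun n => φ n / n) (p - 1) + SS φ p)
      fun p => p * SS (fun n => zeta [1] (n + 1) * φ n) p := by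
  filter_upwards [fztl_int h] with p hp pp
  haveI : Fact p.Prime := ⟨pp⟩
  obtain ⟨q, hq⟩ : ∃ q, p - 1 = q + 1 := ⟨p - 2, by have := pp.two_le; omega⟩
  have e0 : fztl_v φ 0 p = SS (fun n => zeta [1] (n + 1) * φ n) p := by
    rw [fztl_v, pow_zero, one_mul]; rfl
  have e1 : ∑ r ∈ range q, (p : ℚ) ^ (r + 1 + 1) * fztl_v φ (r + 1) p =
      (p : ℚ) ^ 2 * ∑ r ∈ range q, (p : ℚ) ^ r * fztl_v φ (r + 1) p := by
    rw [mul_sum]
    exact sum_congr rfl fun r _ => by ring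
  have hpn : padicNorm p (p : ℚ) = (p : ℚ)⁻¹ := padicNorm.padicNorm_p pp.one_lt
  have hpow : ∀ r : ℕ, padicNorm p ((p : ℚ) ^ r) = (p : ℚ)⁻¹ ^ r := by
    intro r
    induction r with
    | zero => simp
    | succ r ih => rw [pow_succ, padicNorm.mul, ih, hpn, pow_succ]
  have hp1 : (1 : ℚ) ≤ p := by exact_mod_cast pp.one_le
  rw [fztl_eq φ pp.pos, hq, sum_range_succ', e0, zero_add, pow_one, add_sub_cancel_right, e1,
    padicNorm.mul, hpow, inv_pow, one_div]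
  refine mul_le_of_le_one_right (by positivity) (padicNorm.sum_le' (fun r _ => ?_) zero_le_one)
  rw [padicNorm.mul, hpow]
  exact mul_le_one₀ (pow_le_one₀ (by positivity) (inv_le_one_of_one_le₀ hp1)) (padicNorm.nonneg _)
    (hp pp _)

end Pool.Agent.FMZ
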